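import Pool.Agent.Lib.MP_154526_nt.Lin.Plan
import Pool.Agent.Lib.MP_154526_nt.Top.FrontB
import Pool.Agent.Lib.MP_154526_nt.Top.Span
import Pool.Agent.Lib.MP_154526_nt.Top.Pass2Main

/-!
# Linear span: shared lemmas
-/

set_option autoImplicit false

namespace MP154526.Lin

open Finset MP154526.Top MP154526.Top.Front MP154526.Top.Pass2

section General

variable {M : Type} [AddCommMonoid M]

/-! ### shuffles -/

theorem shs_congr_endY {F G : List Bool → M} (u v : List Bool) (hu : EndY u) (hv : EndY v)
    (h : ∀ l, EndY l → l.length = u.length + v.length → F l = G l) : shs F u v = shs G u v := by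
  induction u, v using shs_induct generalizing F G with
  | h0 W => simpa using h W hv (by simp)
  | h1 a σ => simpa using h (a :: σ) hu (by simp)
  | h2 a σ c W ha hb =>
    rw [shs_cons_cons, shs_cons_cons]
    congr 1
    · refine ha (Pass2.endY_tail _ _ hu) hv fun l hl hl' => h _ ?_ ?_
      · refine Pass2.endY_cons _ _ hl ?_
        rintro rfl
        simp at hl'
      · simp only [List.length_cons] at hl' ⊢; omega
    · refine hb hu (Pass2.endY_tail _ _ hv) fun l hl hl' => h _ ?_ ?_
      · refine Pass2.endY_cons _ _ hl ?_
        rintro rfl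
        simp only [List.length_nil, List.length_cons] at hl'
        omega
      · simp only [List.length_cons] at hl' ⊢; omega

theorem stf_congr {f g : List ℕ → M} (u v : List ℕ)
    (h : ∀ l, wt l = wt u + wt v → f l = g l) : stf f u v = stf g u v := by
  induction u, v using stf_induct generalizing f g with
  | h0 W => simpa using h W (by simp)
  | h1 a σ => simpa using h (a :: σ) (by simp)
  | h2 a σ c W ha hb hc =>
    rw [stf_cons_cons, stf_cons_cons]
    congr 1
    congr 1
    · exact ha fun l hl => h _ (by simp only [wt_cons] at hl ⊢; omega)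
    · exact hb fun l hl => h _ (by simp only [wt_cons] at hl ⊢; omega)
    · exact hc fun l hl => h _ (by simp only [wt_cons] at hl ⊢; omega)

theorem dot_dot (c c' : List Bool) (ψ : List Bool → M) (w : List Bool) :
    dot c (dot c' ψ) w = shs (fun s => shs ψ s w) c' c := by
  unfold dot
  rw [Pass1.shs_assoc]

theorem dot_comm (c c' : List Bool) (ψ : List Bool → M) (w : List Bool) :
    dot c (dot c' ψ) w = dot c' (dot c ψ) w := by
  rw [dot_dot, dot_dot, shs_comm]

/-- the sum over a multiset, as additive homomorphism -/
def msum {β : Type} (F : β → M) : Multiset β →+ M where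
  toFun A := (A.map F).sum
  map_zero' := by simp
  map_add' := by intro A B; simp

theorem msum_apply {β : Type} (F : β → M) (A : Multiset β) : msum F A = (A.map F).sum := rfl

theorem msum_shs {α β : Type} (F : β → M) (G : List α → Multiset β) (u v : List α) :
    ((shs G u v).map F).sum = shs (fun s => ((G s).map F).sum) u v :=
  shs_map (msum F) G u v

theorem msum_stf {β : Type} (F : β → M) (G : List ℕ → Multiset β) (u v : List ℕ) :
    ((stf G u v).map F).sum = stf (fun s => ((G s).map F).sum) u v :=
  stf_map (msum F) G u v

theorem shs_msum {α β : Type} (A : Multiset β) (F : β → List α → M) (u v : List α) :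
    shs (fun t => (A.map fun b => F b t).sum) u v = (A.map fun b => shs (F b) u v).sum := by
  induction A using Multiset.induction with
  | empty => simp only [Multiset.map_zero, Multiset.sum_zero]; exact shs_zero _ _
  | cons a A ih =>
    simp only [Multiset.map_cons, Multiset.sum_cons]
    rw [shs_add, ih]

theorem stf_msum {β : Type} (A : Multiset β) (F : β → List ℕ → M) (u v : List ℕ) :
    stf (fun t => (A.map fun b => F b t).sum) u v = (A.map fun b => stf (F b) u v).sum := by
  induction A using Multiset.induction with
  | empty =>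
    simp only [Multiset.map_zero, Multiset.sum_zero]
    exact stf_zero _ _ _ fun _ _ => rfl
  | cons a A ih =>
    simp only [Multiset.map_cons, Multiset.sum_cons]
    rw [stf_add, ih]

/-- the multisets all of whose elements satisfy `P` -/
def allM {β : Type} (P : β → Prop) : AddSubmonoid (Multiset β) where
  carrier := {A | ∀ a ∈ A, P a}
  zero_mem' := by intro a ha; simp at ha
  add_mem' := by
    intro A B hA hB a ha
    rcases Multiset.mem_add.1 ha with h | h
    · exact hA a h
    · exact hB a h

theorem mem_allM {β : Type} (P : β → Prop) (A : Multiset β) : A ∈ allM P ↔ ∀ a ∈ A, P a := Iff.rfl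

theorem act_zero (ψ : List Bool → M) (w : List Bool) : act 0 ψ w = 0 := by simp [act]

theorem act_add (A B : Multiset (List Bool)) (ψ : List Bool → M) (w : List Bool) :
    act (A + B) ψ w = act A ψ w + act B ψ w := by simp [act]

theorem act_singleton (u : List Bool) (ψ : List Bool → M) (w : List Bool) :
    act {u} ψ w = shs ψ u w := by simp [act]

theorem act_shs (g : List Bool → Multiset (List Bool)) (u v : List Bool) (ψ : List Bool → M)
    (w : List Bool) : act (shs g u v) ψ w = shs (fun s => act (g s) ψ w) u v :=
  msum_shs _ _ _ _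

theorem act_stf (g : List ℕ → Multiset (List Bool)) (u v : List ℕ) (ψ : List Bool → M)
    (w : List Bool) : act (stf g u v) ψ w = stf (fun s => act (g s) ψ w) u v :=
  msum_stf _ _ _ _

theorem dot_act (c : List Bool) (A : Multiset (List Bool)) (ψ : List Bool → M) (w : List Bool) :
    dot c (act A ψ) w = (A.map fun u => shs (fun s => shs ψ s w) u c).sum := by
  unfold dot act
  rw [shs_msum]
  congr 1
  refine Multiset.map_congr rfl fun u _ => ?_
  exact dot_dot c u ψ w

theorem dot_act' (c : List Bool) (A : Multiset (List Bool)) (ψ : List Bool → M) (w : List Bool) :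
    dot c (act A ψ) w = act A (dot c ψ) w := by
  rw [dot_act]
  unfold act
  congr 1
  refine Multiset.map_congr rfl fun u _ => ?_
  exact (dot_dot u c ψ w).trans (shs_comm _ _ _) |>.symm

/-! ### words -/

theorem bw_rep (i : ℕ) : bw (List.replicate i 0) = List.replicate i true := by
  induction i with
  | zero => rfl
  | succ i ih => simp [List.replicate_succ, bw, ih]

theorem bw_append (u v : List ℕ) : bw (u ++ v) = bw u ++ bw v := by
  induction u with
  | nil => rfl
  | cons a u ih => simp [bw, ih]

theorem exists_bw {w : List Bool} (h : EndY w) : ∃ l, bw l = w := endY_bw' w h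

@[simp] theorem wt_rep (i : ℕ) : wt (List.replicate i 0) = i := by simp [wt]

theorem ad_cons (a : ℕ) (b : List ℕ) : Ad ((a + 1) :: b) := by
  intro c hc
  simp at hc
  omega

theorem ad_nil : Ad [] := by intro c hc; simp at hc

theorem ad_cases {b : List ℕ} (h : Ad b) : b = [] ∨ ∃ a b', b = (a + 1) :: b' := by
  cases b with
  | nil => exact Or.inl rfl
  | cons a b =>
    have := h a (by simp)
    exact Or.inr ⟨a - 1, b, by rw [Nat.sub_add_cancel this]⟩

/-- the stuffle of two words of `ℌ⁰` is in `ℌ⁰` -/
theorem stf_congr_ad {f g : List ℕ → M} (u v : List ℕ) (hu : Ad u) (hv : Ad v)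
    (h : ∀ l, Ad l → wt l = wt u + wt v → f l = g l) : stf f u v = stf g u v := by
  rcases ad_cases hu with rfl | ⟨a, u, rfl⟩
  · simpa using h v hv (by simp)
  rcases ad_cases hv with rfl | ⟨b, v, rfl⟩
  · simpa using h _ (ad_cons a u) (by simp)
  rw [stf_cons_cons, stf_cons_cons]
  congr 1
  congr 1
  · exact stf_congr _ _ fun l hl => h _ (ad_cons _ _) (by simp only [wt_cons] at hl ⊢; omega)
  · exact stf_congr _ _ fun l hl => h _ (ad_cons _ _) (by simp only [wt_cons] at hl ⊢; omega)
  · exact stf_congr _ _ fun l hl => h _ (ad_cons _ _) (by simp only [wt_cons] at hl ⊢; omega)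

/-- the shuffle of two words of `ℌ⁰` is in `ℌ⁰` -/
theorem shs_congr_ad {F G : List Bool → M} (u v : List ℕ) (hu : Ad u) (hv : Ad v)
    (h : ∀ l, Ad l → wt l = wt u + wt v → F (bw l) = G (bw l)) :
    shs F (bw u) (bw v) = shs G (bw u) (bw v) := by
  have key : ∀ w : List Bool, EndY (false :: w) → ∃ l, Ad l ∧ bw l = false :: w := by
    intro w hw
    obtain ⟨l, hl⟩ := exists_bw hw
    refine ⟨l, ?_, hl⟩
    cases l with
    | nil => exact ad_nil
    | cons a l =>
      cases a with
      | zero => simp [bw] at hl
      | succ a => exact ad_cons a l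
  have hbw : ∀ (a : ℕ) (l : List ℕ), bw ((a + 1) :: l) = false :: bw (a :: l) := by
    intro a l
    simp [bw, List.replicate_succ]
  rcases ad_cases hu with rfl | ⟨a, u, rfl⟩
  · simp only [bw, shs_nil_left]
    exact h v hv (by simp)
  rcases ad_cases hv with rfl | ⟨b, v, rfl⟩
  · simp only [show bw [] = [] from rfl, shs_nil_right]
    exact h _ (ad_cons a u) (by simp)
  have key2 : ∀ w : List Bool, EndY w → w ≠ [] →
      w.length + 1 = wt ((a + 1) :: u) + wt ((b + 1) :: v) → F (false :: w) = G (false :: w) := by
    intro w hw hne hlen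
    obtain ⟨l, hl, hl'⟩ := key w (Pass2.endY_cons _ _ hw hne)
    rw [← hl']
    refine h l hl ?_
    rw [← Pass2.bw_length, hl', List.length_cons]
    exact hlen
  have hY : ∀ l : List ℕ, EndY (bw l) := Pass2.endY_bw
  have e1 := Pass2.bw_length (a :: u)
  have e2 := Pass2.bw_length (b :: v)
  rw [hbw, hbw, shs_cons_cons, shs_cons_cons, ← hbw, ← hbw]
  congr 1
  · refine shs_congr_endY _ _ (hY _) (hY _) fun l hl hlen => key2 l hl ?_ ?_
    · rintro rfl
      simp only [List.length_nil, Pass2.bw_length, wt_cons] at hlen
      omega
    · simp only [Pass2.bw_length, wt_cons] at hlen ⊢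
      omega
  · refine shs_congr_endY _ _ (hY _) (hY _) fun l hl hlen => key2 l hl ?_ ?_
    · rintro rfl
      simp only [List.length_nil, Pass2.bw_length, wt_cons] at hlen
      omega
    · simp only [Pass2.bw_length, wt_cons] at hlen ⊢
      omega

/-! ### functionals killing the relations -/

/-- (B2) -/
theorem RR.kill {n : ℕ} {ψ : List Bool → M} (h : RR n ψ) (i : ℕ) (b : List ℕ) (hi : 1 ≤ i)
    (hb : Ad b) (hw : i + wt b = n) : stf (fun l => ψ (bw l)) (List.replicate i 0) b = 0 := by
  rw [← h.rds (List.replicate i 0) b hb (by simpa using hw), bw_rep]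
  exact h.reg i (bw b) hi (Pass2.endY_bw b) (by rw [Pass2.bw_length]; exact hw)

/-- `ψ((u * v) ⧢ c) = ψ(u * v * c)`, `c ∈ ℌ⁰` -/
theorem RR.stf_dot {n : ℕ} {ψ : List Bool → M} (h : RR n ψ) (u v c : List ℕ) (hc : Ad c)
    (hw : wt u + wt v + wt c = n) :
    stf (fun l => shs ψ (bw l) (bw c)) u v =
      stf (fun l => stf (fun l => ψ (bw l)) l c) u v := by
  refine stf_congr _ _ fun l hl => ?_
  exact h.rds l c hc (by omega)

/-- (B3) -/
theorem RR.kill' {n : ℕ} {ψ : List Bool → M} (h : RR n ψ) (i : ℕ) (b c : List ℕ) (hi : 1 ≤ i)
    (hb : Ad b) (hc : Ad c) (hw : i + wt b + wt c = n) :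
    stf (fun l => shs ψ (bw l) (bw c)) (List.replicate i 0) b = 0 := by
  rw [h.stf_dot _ _ _ hc (by simpa using hw), stf_assoc']
  have : stf (fun l => (0 : M)) b c = 0 := stf_zero _ _ _ fun _ _ => rfl
  rw [← this]
  refine stf_congr_ad _ _ hb hc fun l hl hl' => ?_
  exact h.kill i l hi hl (by omega)

/-- (B3), with the other order -/
theorem RR.kill'' {n : ℕ} {ψ : List Bool → M} (h : RR n ψ) (i : ℕ) (b c : List ℕ) (hi : 1 ≤ i)
    (hb : Ad b) (hc : Ad c) (hw : i + wt b + wt c = n) :
    stf (fun l => shs ψ (bw c) (bw l)) (List.replicate i 0) b = 0 := by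
  rw [← h.kill' i b c hi hb hc hw]
  congr 1
  funext l
  exact shs_comm _ _ _

/-- powers of `y` are killed -/
theorem RR.pow {n : ℕ} {ψ : List Bool → M} (h : RR n ψ) (hn : 1 ≤ n) :
    ψ (List.replicate n true) = 0 := by
  have := h.reg n [] hn (Or.inl rfl) (by simp)
  simpa using this

/-- `y^j` may be put anywhere -/
theorem RR.reg' {n : ℕ} {ψ : List Bool → M} (h : RR n ψ) (j : ℕ) (u w : List Bool) (hj : 1 ≤ j)
    (hu : EndY u) (hw : EndY w) (hn : j + u.length + w.length = n) :
    shs (fun s => shs ψ s w) (List.replicate j true) u = 0 := by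
  rw [Pass1.shs_assoc]
  have : shs (fun _ : List Bool => (0 : M)) u w = 0 := shs_zero _ _
  rw [← this]
  refine shs_congr_endY _ _ hu hw fun l hl hl' => ?_
  exact h.reg j l hj hl (by omega)

end General

/-! ### change of coefficients -/

theorem RR.map {M M' : Type} [AddCommMonoid M] [AddCommMonoid M'] (L : M →+ M') {n : ℕ}
    {ψ : List Bool → M} (h : RR n ψ) : RR n (fun w => L (ψ w)) where
  reg j w hj hw hn := by rw [← shs_map, h.reg j w hj hw hn, map_zero]
  rds u v hv hn := by rw [← shs_map, ← stf_map, h.rds u v hv hn]

theorem RR.mod2 {n : ℕ} {ψ : List Bool → ℤ} (h : RR n ψ) : RR n (fun w => (ψ w : ZMod 2)) :=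
  h.map (Int.castAddHom (ZMod 2))

theorem RR.rat {n : ℕ} {ψ : List Bool → ℤ} (h : RR n ψ) : RR n (fun w => (ψ w : ℚ)) :=
  h.map (Int.castAddHom ℚ)

/-! ### the class `KK` -/

theorem KK.self (N : ℕ) (f : List Bool → ZMod 2) : KK N f N f :=
  ⟨le_rfl, {[]}, by intro u hu; simp at hu; subst hu; exact ⟨Or.inl rfl, by simp⟩,
    fun w _ _ => by rw [act_singleton]; simp⟩

theorem KK.zero {N m : ℕ} (f : List Bool → ZMod 2) (h : m ≤ N) : KK N f m (fun _ => 0) :=
  ⟨h, 0, by simp, fun w _ _ => by rw [act_zero]⟩

theorem KK.add {N m : ℕ} {f g g' : List Bool → ZMod 2} (h : KK N f m g) (h' : KK N f m g') :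
    KK N f m (fun w => g w + g' w) := by
  obtain ⟨h1, A, hA, hg⟩ := h
  obtain ⟨_, A', hA', hg'⟩ := h'
  refine ⟨h1, A + A', ?_, fun w hw hl => ?_⟩
  · intro u hu
    rcases Multiset.mem_add.1 hu with h | h
    · exact hA u h
    · exact hA' u h
  · show g w + g' w = _
    rw [act_add, hg w hw hl, hg' w hw hl]

theorem KK.congr {N m : ℕ} {f g g' : List Bool → ZMod 2} (h : KK N f m g)
    (hg : ∀ w, EndY w → w.length = m → g' w = g w) : KK N f m g' := by
  obtain ⟨h1, A, hA, h2⟩ := h
  exact ⟨h1, A, hA, fun w hw hl => by rw [hg w hw hl, h2 w hw hl]⟩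

theorem KK.of_act {N m : ℕ} {f : List Bool → ZMod 2} (hm : m ≤ N) (A : Multiset (List Bool))
    (hA : ∀ u ∈ A, EndY u ∧ u.length + m = N) : KK N f m (act A f) :=
  ⟨hm, A, hA, fun _ _ _ => rfl⟩

theorem KK.dot {N m : ℕ} {f g : List Bool → ZMod 2} (h : KK N f m g) (c : List Bool)
    (hc : EndY c) (hl : c.length ≤ m) : KK N f (m - c.length) (Lin.dot c g) := by
  obtain ⟨h1, A, hA, hg⟩ := h
  refine ⟨by omega, A.bind fun u => shs (fun s => ({s} : Multiset (List Bool))) u c, ?_, ?_⟩
  · intro u hu
    obtain ⟨v, hv, hu⟩ := Multiset.mem_bind.1 hu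
    have hv' := hA v hv
    have := shs_mem (allM fun s : List Bool => EndY s ∧ s.length + (m - c.length) = N)
      (fun s => ({s} : Multiset (List Bool))) v c hv'.1 hc (fun l hl1 hl2 => by
        intro a ha
        simp only [Multiset.mem_singleton] at ha
        subst ha
        exact ⟨hl1, by omega⟩)
    exact this u hu
  · intro w hw hlw
    have e1 : Lin.dot c g w = Lin.dot c (act A f) w :=
      shs_congr_endY _ _ hc hw fun l hl1 hl2 => hg l hl1 (by omega)
    rw [e1, dot_act]
    unfold act
    rw [Multiset.map_bind, Multiset.sum_bind]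
    congr 1
    refine Multiset.map_congr rfl fun u _ => ?_
    rw [msum_shs]
    simp

theorem KK.reg {N m : ℕ} {f g : List Bool → ZMod 2} (hf : RR N f) (h : KK N f m g) (j : ℕ)
    (w : List Bool) (hj : 1 ≤ j) (hw : EndY w) (hn : j + w.length = m) :
    shs g (List.replicate j true) w = 0 := by
  obtain ⟨h1, A, hA, hg⟩ := h
  have hY : EndY (List.replicate j true) := by
    have := Pass1.endY_rep (w := []) (Or.inl rfl) j
    simpa using this
  have e1 : shs g (List.replicate j true) w = Lin.dot (List.replicate j true) (act A f) w :=
    shs_congr_endY _ _ hY hw fun l hl1 hl2 => hg l hl1 (by simp at hl2; omega)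
  rw [e1, dot_act]
  have : (A.map fun u => shs (fun s => shs f s w) u (List.replicate j true)).sum =
      (A.map fun _ => (0 : ZMod 2)).sum := by
    congr 1
    refine Multiset.map_congr rfl fun u hu => ?_
    have hu' := hA u hu
    rw [shs_comm]
    exact hf.reg' j u w hj hu'.1 hw (by omega)
  rw [this]
  simp

/-! ### regularisation modulo 2 -/

theorem shs_rep_rep {α M : Type} [AddCommMonoid M] (c : α) (a b : ℕ) (G : List α → M) :
    shs G (List.replicate a c) (List.replicate b c) =
      ((a + b).choose a) • (G (List.replicate (a + b) c)) := by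
  induction a generalizing b G with
  | zero => simp
  | succ a iha =>
    induction b generalizing G with
    | zero => simp
    | succ b ihb =>
      rw [List.replicate_succ, List.replicate_succ, shs_cons_cons, ← List.replicate_succ,
        ← List.replicate_succ, iha, ihb]
      rw [show a + 1 + (b + 1) = (a + b + 1) + 1 by ring, Nat.choose_succ_succ, add_smul,
        show a + (b + 1) = a + b + 1 by ring, show a + 1 + b = a + b + 1 by ring,
        List.replicate_succ (n := a + b + 1)]

/-- the expansion of `y^m ⧢ x w` -/
theorem shs_rep_false {M : Type} [AddCommMonoid M] (m : ℕ) (w : List Bool) (G : List Bool → M) :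
    shs G (List.replicate m true) (false :: w) =
      ∑ k ∈ range (m + 1), shs (fun t => G (List.replicate k true ++ false :: t))
        (List.replicate (m - k) true) w := by
  induction m generalizing G with
  | zero => simp
  | succ m ih =>
    have e1 : shs G (List.replicate (m + 1) true) (false :: w) =
        shs (fun l => G (true :: l)) (List.replicate m true) (false :: w) +
          shs (fun l => G (false :: l)) (List.replicate (m + 1) true) w := by
      rw [List.replicate_succ, shs_cons_cons]
    have e2 : ∀ k ∈ range (m + 1),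
        shs (fun t => G (List.replicate (k + 1) true ++ false :: t))
          (List.replicate (m + 1 - (k + 1)) true) w =
        shs (fun t => G (true :: (List.replicate k true ++ false :: t)))
          (List.replicate (m - k) true) w := by
      intro k _
      rw [Nat.add_sub_add_right]
      rfl
    rw [e1, ih, Finset.sum_range_succ' _ (m + 1), Finset.sum_congr rfl e2]
    rfl

/-- `y^m x w = x (y^m ⧢ w)` modulo the shuffles with powers of `y` -/
theorem RR.move {N : ℕ} {f : List Bool → ZMod 2} (hf : RR N f) (m : ℕ) (w v : List Bool)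
    (hw : EndY (false :: w)) (hv : EndY v) (hn : m + (w.length + 1) + v.length = N) :
    shs f (List.replicate m true ++ false :: w) v =
      shs (fun t => shs f (false :: t) v) (List.replicate m true) w := by
  induction m using Nat.strong_induction_on generalizing w with
  | _ m ih =>
    rcases Nat.eq_zero_or_pos m with rfl | hm
    · simp
    have hwY : EndY w := Pass2.endY_tail _ _ hw
    have h0 := hf.reg' m (false :: w) v hm hw hv (by simpa using hn)
    rw [shs_rep_false, Finset.sum_range_succ, Nat.sub_self, List.replicate_zero, shs_nil_left] at h0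
    have h1 : ∀ k ∈ range m,
        shs (fun t => shs f (List.replicate k true ++ false :: t) v) (List.replicate (m - k) true) w =
          m.choose k • shs (fun t => shs f (false :: t) v) (List.replicate m true) w := by
      intro k hk
      have hk' := Finset.mem_range.1 hk
      have hY : EndY (List.replicate (m - k) true) := by
        have := Pass1.endY_rep (w := []) (Or.inl rfl) (m - k)
        simpa using this
      have e1 : shs (fun t => shs f (List.replicate k true ++ false :: t) v)
          (List.replicate (m - k) true) w =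
          shs (fun t => shs (fun t' => shs f (false :: t') v) (List.replicate k true) t)
            (List.replicate (m - k) true) w := by
        refine shs_congr_endY _ _ hY hwY fun l hl hl' => ?_
        simp only [List.length_replicate] at hl'
        refine ih k hk' l ?_ (by omega)
        refine Pass2.endY_cons _ _ hl ?_
        rintro rfl
        simp at hl'
        omega
      rw [e1, ← Pass1.shs_assoc, shs_rep_rep]
      rw [show k + (m - k) = m by omega]
    rw [Finset.sum_congr rfl h1, ← Finset.sum_smul] at h0
    have h2 : ∑ k ∈ range m, m.choose k = 2 ^ m - 1 := by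
      have := Nat.sum_range_choose m
      rw [Finset.sum_range_succ, Nat.choose_self] at this
      omega
    rw [h2, nsmul_eq_mul] at h0
    have h3 : ((2 ^ m - 1 : ℕ) : ZMod 2) = 1 := by
      have h4 : (2 ^ m - 1) % 2 = 1 := by
        obtain ⟨k, rfl⟩ : ∃ k, m = k + 1 := ⟨m - 1, by omega⟩
        have : 1 ≤ 2 ^ k := Nat.one_le_two_pow
        rw [pow_succ]
        omega
      have h5 := (ZMod.natCast_eq_natCast_iff (2 ^ m - 1) 1 2).2 h4
      simpa using h5
    rw [h3, one_mul] at h0
    generalize shs (fun t => shs f (false :: t) v) (List.replicate m true) w = x at *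
    generalize shs f (List.replicate m true ++ false :: w) v = y at *
    have h5 : x + x = 0 := CharTwo.add_self_eq_zero x
    calc y = x + y + x := by rw [add_right_comm, h5, zero_add]
      _ = x := by rw [h0, zero_add]

/-- regularisation: every word of `ℌ¹` acts like a combination of words of `ℌ⁰` -/
theorem RR.exists_adm {N : ℕ} {f : List Bool → ZMod 2} (hf : RR N f) (u : List Bool)
    (hu : EndY u) : ∃ A : Multiset (List ℕ), (∀ v ∈ A, Ad v ∧ wt v = u.length) ∧
      ∀ w, EndY w → u.length + w.length = N →
        shs f u w = (A.map fun v => shs f (bw v) w).sum := by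
  rcases Pass1.word_cases u with ⟨m, rfl⟩ | ⟨m, u', rfl⟩
  · rcases Nat.eq_zero_or_pos m with rfl | hm
    · refine ⟨{[]}, ?_, ?_⟩
      · intro v hv
        simp only [Multiset.mem_singleton] at hv
        subst hv
        exact ⟨ad_nil, by simp⟩
      · intro w _ _
        simp [bw]
    · refine ⟨0, by simp, ?_⟩
      intro w hw hn
      rw [hf.reg m w hm hw (by simpa using hn)]
      simp
  · have hY : EndY (false :: u') := Pass1.endY_of_rep m hu
    have hY' : EndY u' := Pass2.endY_tail _ _ hY
    have hne : u' ≠ [] := by
      rintro rfl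
      rcases hY with h | ⟨t, h⟩
      · simp at h
      · cases t with
        | nil => simp at h
        | cons a t => simp at h
    have key : ∀ t : List Bool, EndY t → t ≠ [] → ∃ l, Ad l ∧ bw l = false :: t := by
      intro t ht hne
      obtain ⟨l, hl⟩ := exists_bw (Pass2.endY_cons false t ht hne)
      refine ⟨l, ?_, hl⟩
      cases l with
      | nil => exact ad_nil
      | cons a l =>
        cases a with
        | zero => simp [bw] at hl
        | succ a => exact ad_cons a l
    classical
    let c : List Bool → List ℕ := fun t => if h : EndY t ∧ t ≠ [] then (key t h.1 h.2).choose else []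
    have hc : ∀ t, EndY t → t ≠ [] → Ad (c t) ∧ bw (c t) = false :: t := by
      intro t ht hne
      have : c t = (key t ht hne).choose := dif_pos ⟨ht, hne⟩
      rw [this]
      exact (key t ht hne).choose_spec
    have hYm : EndY (List.replicate m true) := by
      have := Pass1.endY_rep (w := []) (Or.inl rfl) m
      simpa using this
    refine ⟨shs (fun t => ({c t} : Multiset (List ℕ))) (List.replicate m true) u', ?_, ?_⟩
    · have := shs_mem (allM fun v : List ℕ => Ad v ∧
        wt v = (List.replicate m true ++ false :: u').length)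
        (fun s => ({c s} : Multiset (List ℕ))) (List.replicate m true) u' hYm hY'
        (fun l hl1 hl2 => by
          intro a ha
          simp only [Multiset.mem_singleton] at ha
          subst ha
          have hlne : l ≠ [] := by
            rintro rfl
            simp only [List.length_nil, List.length_replicate] at hl2
            exact hne (List.length_eq_zero_iff.1 (by omega))
          obtain ⟨h1, h2⟩ := hc l hl1 hlne
          refine ⟨h1, ?_⟩
          rw [← Pass2.bw_length, h2]
          simp only [List.length_cons, List.length_append, List.length_replicate] at hl2 ⊢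
          omega)
      exact this
    · intro w hw hn
      simp only [List.length_append, List.length_replicate, List.length_cons] at hn
      rw [hf.move m u' w hY hw (by omega), msum_shs]
      refine shs_congr_endY _ _ hYm hY' fun l hl1 hl2 => ?_
      have hlne : l ≠ [] := by
        rintro rfl
        simp only [List.length_nil, List.length_replicate] at hl2
        exact hne (List.length_eq_zero_iff.1 (by omega))
      simp [(hc l hl1 hlne).2]

end MP154526.Lin
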