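import Pool.Agent.Lib.MP_154526_nt.Lin.Basic

/-!
# Modules TRI, EQ0, EQ1 of the linear span
-/

set_option autoImplicit false

namespace MP154526.Lin

open Finset MP154526.Top MP154526.Top.Front MP154526.Top.Pass2

/-- TRI: `ℌ¹` is spanned by the `y^i * b`, `b ∈ ℌ⁰` -/
theorem specTri : SpecTri := by
  intro M _ N L h l hl
  by_cases hp : ∃ a ∈ l, a ≠ 0
  · obtain ⟨i, a, b, rfl⟩ := nonpure l hp
    have hw : wt (List.replicate i 0 ++ (a + 1) :: b) = i + wt ((a + 1) :: b) := by
      simp only [wt, List.sum_append, List.sum_replicate, List.length_append,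
        List.length_replicate, smul_eq_mul, mul_zero, zero_add]
      omega
    rw [hw] at hl
    clear hw hp
    induction i using Nat.strong_induction_on generalizing a b with
    | _ i ih =>
      rw [← stf_rep i N L a b hl.symm fun k hk a' b' hN => ih k hk a' b' hN.symm]
      exact h i ((a + 1) :: b) (ad_cons a b) hl
  · have hr : l = List.replicate l.length 0 := by
      refine List.eq_replicate_iff.2 ⟨rfl, fun b hb => ?_⟩
      by_contra h0
      exact hp ⟨b, hb, h0⟩
    have := h l.length [] ad_nil (by rw [← hl]; conv_rhs => rw [hr]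
                                     simp)
    rw [stf_nil_right, ← hr] at this
    exact this

namespace EQ0M

section
variable {M : Type} [AddCommMonoid M]

theorem strip_bw_zero (p : ℕ) (h : List Bool → M) (l : List ℕ) :
    strip (p + 1) h (bw (0 :: l)) = strip p h (bw l) := by
  have e : bw (0 :: l) = true :: bw l := rfl
  rw [e, strip]

theorem strip_bw_succ (p : ℕ) (h : List Bool → M) (a : ℕ) (l : List ℕ) :
    strip (p + 1) h (bw ((a + 1) :: l)) = 0 := by
  have e : bw ((a + 1) :: l) = false :: bw (a :: l) := rfl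
  rw [e, strip]

theorem strip_bw_nil (p : ℕ) (h : List Bool → M) : strip (p + 1) h (bw []) = 0 := by
  have e : bw [] = [] := rfl
  rw [e, strip]

theorem strip_zero' (h : List Bool → M) (w : List Bool) : strip 0 h w = h w := by
  rw [strip]

/-- `y^i * b` with its first `p` letters `y` removed is `y^(i-p) * b` -/
theorem stf_strip (p i : ℕ) (h : List Bool → M) (b : List ℕ) (hb : Ad b) :
    stf (fun l => strip p h (bw l)) (List.replicate i 0) b =
      if p ≤ i then stf (fun l => h (bw l)) (List.replicate (i - p) 0) b else 0 := by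
  induction p generalizing i with
  | zero =>
    rw [if_pos (Nat.zero_le i), Nat.sub_zero]
    simp only [strip_zero']
  | succ p ih =>
    have z : ∀ (u v : List ℕ), stf (fun _ => (0 : M)) u v = 0 := fun u v =>
      stf_zero _ _ _ fun _ _ => rfl
    cases i with
    | zero =>
      rw [if_neg (by omega), List.replicate_zero, stf_nil_left]
      rcases ad_cases hb with rfl | ⟨a, b, rfl⟩
      · exact strip_bw_nil p h
      · exact strip_bw_succ p h a b
    | succ i =>
      rw [Nat.add_sub_add_right]
      have e : (if p + 1 ≤ i + 1 then stf (fun l => h (bw l)) (List.replicate (i - p) 0) b else 0) =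
          if p ≤ i then stf (fun l => h (bw l)) (List.replicate (i - p) 0) b else 0 := by
        simp only [Nat.add_le_add_iff_right]
      rw [e, ← ih i]
      rcases ad_cases hb with rfl | ⟨a, b, rfl⟩
      · rw [stf_nil_right, stf_nil_right, List.replicate_succ, strip_bw_zero]
      · rw [List.replicate_succ, stf_cons_cons]
        simp only [strip_bw_zero, strip_bw_succ]
        rw [z, z, add_zero, add_zero]

end

variable {N : ℕ} {f : List Bool → ZMod 2}

/-- `f(u ⧢ (y^i * b)) = 0` for `u ∈ ℌ¹`, `i ≥ 1`, `b ∈ ℌ⁰` -/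
theorem killK (hf : RR N f) (u : List Bool) (hu : EndY u) (i : ℕ) (b : List ℕ) (hi : 1 ≤ i)
    (hb : Ad b) (hn : u.length + i + wt b = N) :
    stf (fun l => shs f u (bw l)) (List.replicate i 0) b = 0 := by
  obtain ⟨A, hA, h⟩ := hf.exists_adm u hu
  have e : stf (fun l => shs f u (bw l)) (List.replicate i 0) b =
      stf (fun l => (A.map fun v => shs f (bw v) (bw l)).sum) (List.replicate i 0) b := by
    refine stf_congr _ _ fun l hl => ?_
    rw [wt_rep] at hl
    exact h (bw l) (Pass2.endY_bw l) (by rw [Pass2.bw_length]; omega)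
  rw [e, stf_msum]
  refine Multiset.sum_eq_zero fun x hx => ?_
  obtain ⟨v, hv, rfl⟩ := Multiset.mem_map.1 hx
  obtain ⟨hv1, hv2⟩ := hA v hv
  exact hf.kill'' i b v hi hb hv1 (by omega)

/-- `h_p(w') = ∑_v f((v * y^j * y^p) ⧢ w')` -/
def hB (f : List Bool → ZMod 2) (B : Multiset (List ℕ)) (j p : ℕ) (w' : List Bool) : ZMod 2 :=
  (B.map fun v => stf (fun u => stf (fun l => shs f (bw l) w') v u) (List.replicate j 0)
    (List.replicate p 0)).sum

/-- `h_p` kills `y^i * b`, `i ≥ 1` -/
theorem hB_kill (hf : RR N f) {m : ℕ} (B : Multiset (List ℕ)) (hB' : ∀ v ∈ B, Ad v ∧ wt v + m = N)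
    (j p i : ℕ) (b : List ℕ) (hi : 1 ≤ i) (hb : Ad b) (hn : j + p + i + wt b = m) :
    stf (fun l => hB f B j p (bw l)) (List.replicate i 0) b = 0 := by
  unfold hB
  rw [stf_msum]
  refine Multiset.sum_eq_zero fun x hx => ?_
  obtain ⟨v, hv, rfl⟩ := Multiset.mem_map.1 hx
  obtain ⟨hv1, hv2⟩ := hB' v hv
  -- exchange the two evaluations
  have ex : ∀ (F : List ℕ → List ℕ → ZMod 2) (u v s t : List ℕ),
      stf (fun l => stf (fun l' => F l l') u v) s t =
        stf (fun l' => stf (fun l => F l l') s t) u v := by
    intro F u v s t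
    have h1 := stf_map (M := List ℕ → ZMod 2) (N := ZMod 2)
      ⟨⟨fun g => stf g s t, stf_zero _ _ _ fun _ _ => rfl⟩, fun g g' => stf_add g g' s t⟩
      (fun l' => fun l => F l l') u v
    have h2 : ∀ l, stf (fun l' => fun l => F l l') u v l = stf (fun l' => F l l') u v := fun l =>
      stf_map (Pi.evalAddMonoidHom (fun _ : List ℕ => ZMod 2) l) (fun l' => fun l => F l l') u v
    have h3 : stf (fun l' => fun l => F l l') u v = fun l => stf (fun l' => F l l') u v :=
      funext h2
    simp only [AddMonoidHom.coe_mk, ZeroHom.coe_mk] at h1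
    rw [← h1, h3]
  rw [ex (fun l u => stf (fun l_1 => shs f (bw l_1) (bw l)) v u)]
  refine stf_zero _ _ _ fun u hu => ?_
  rw [ex (fun l l_1 => shs f (bw l_1) (bw l))]
  refine stf_zero _ _ _ fun l hl => ?_
  rw [wt_rep, wt_rep] at hu
  exact killK hf (bw l) (Pass2.endY_bw l) i b hi hb (by rw [Pass2.bw_length]; omega)

theorem core (hf : RR N f) {m : ℕ} (g : List Bool → ZMod 2) (B : Multiset (List ℕ))
    (hB' : ∀ v ∈ B, Ad v ∧ wt v + m = N)
    (hg : ∀ w, EndY w → w.length = m → g w = (B.map fun v => shs f (bw v) w).sum) (j : ℕ) :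
    ∀ l, j + wt l = m → stf (fun l => g (bw l)) (List.replicate j 0) l =
      ∑ p ∈ range (m - j + 1), strip p (hB f B j p) (bw l) := by
  have hsum : ∀ (s : Finset ℕ) (F : ℕ → List ℕ → ZMod 2) (u v : List ℕ),
      stf (fun l => ∑ p ∈ s, F p l) u v = ∑ p ∈ s, stf (F p) u v := by
    intro s F u v
    classical
    induction s using Finset.induction_on with
    | empty => simp only [sum_empty]; exact stf_zero _ _ _ fun _ _ => rfl
    | insert a s ha ih =>
      simp only [sum_insert ha]
      rw [stf_add, ih]
  intro l hl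
  have key : ∀ x y : ZMod 2, x + y = 0 → x = y := by decide
  refine key _ _ ?_
  refine specTri (ZMod 2) (m - j) (fun l => stf (fun l => g (bw l)) (List.replicate j 0) l +
    ∑ p ∈ range (m - j + 1), strip p (hB f B j p) (bw l)) ?_ l (by omega)
  intro i b hb hib
  rw [stf_add, hsum]
  have e1 : ∑ p ∈ range (m - j + 1), stf (fun l => strip p (hB f B j p) (bw l))
      (List.replicate i 0) b = hB f B j i (bw b) := by
    rw [Finset.sum_eq_single i]
    · rw [stf_strip _ _ _ _ hb, if_pos le_rfl, Nat.sub_self, List.replicate_zero, stf_nil_left]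
    · intro p _ hpi
      rw [stf_strip _ _ _ _ hb]
      split_ifs with hp
      · exact hB_kill hf B hB' j p (i - p) b (by omega) hb (by omega)
      · rfl
    · intro h
      exfalso
      apply h
      rw [Finset.mem_range]
      omega
  have e2 : stf (fun l => stf (fun l => g (bw l)) (List.replicate j 0) l) (List.replicate i 0) b =
      hB f B j i (bw b) := by
    rw [← stf_assoc']
    have e3 : stf (fun l => stf (fun l => g (bw l)) l b) (List.replicate j 0)
        (List.replicate i 0) = stf (fun l => (B.map fun v =>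
          stf (fun l' => shs f (bw v) (bw l')) l b).sum) (List.replicate j 0)
        (List.replicate i 0) := by
      refine stf_congr _ _ fun l hl => ?_
      rw [wt_rep, wt_rep] at hl
      rw [← stf_msum]
      refine stf_congr _ _ fun l' hl' => ?_
      exact hg (bw l') (Pass2.endY_bw l') (by rw [Pass2.bw_length]; omega)
    rw [e3, stf_msum]
    unfold hB
    congr 1
    refine Multiset.map_congr rfl fun v hv => ?_
    obtain ⟨hv1, hv2⟩ := hB' v hv
    refine stf_congr _ _ fun u hu => ?_
    rw [wt_rep, wt_rep] at hu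
    -- `f(v ⧢ (u * b)) = f((v * u) ⧢ b)`
    have a1 : stf (fun l' => shs f (bw v) (bw l')) u b =
        stf (fun l' => stf (fun l => f (bw l)) l' v) u b := by
      refine stf_congr _ _ fun l' hl' => ?_
      rw [shs_comm]
      exact hf.rds l' v hv1 (by omega)
    have a2 : stf (fun l => shs f (bw l) (bw b)) v u =
        stf (fun l => stf (fun l => f (bw l)) l b) v u := by
      refine stf_congr _ _ fun l' hl' => ?_
      exact hf.rds l' b hb (by omega)
    rw [a1, a2, stf_comm _ v u, stf_assoc', stf_assoc', stf_comm _ b v]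
  rw [e1, e2]
  generalize hB f B j i (bw b) = x
  revert x
  decide

end EQ0M

open EQ0M

/-- EQ0 -/
theorem specEQ0 : SpecEQ0 := by
  classical
  intro N f hf m g hg j hj hjm
  obtain ⟨hm, A, hA, hgA⟩ := hg
  -- regularise `A`
  have hc : ∀ u : List Bool, ∃ B : Multiset (List ℕ), EndY u → (∀ v ∈ B, Ad v ∧ wt v = u.length) ∧
      ∀ w, EndY w → u.length + w.length = N → shs f u w = (B.map fun v => shs f (bw v) w).sum := by
    intro u
    by_cases hu : EndY u
    · obtain ⟨B, hB⟩ := hf.exists_adm u hu
      exact ⟨B, fun _ => hB⟩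
    · exact ⟨0, fun h => absurd h hu⟩
  choose B₀ hB₀ using hc
  obtain ⟨B, hBdef⟩ : ∃ B : Multiset (List ℕ), B = A.bind B₀ := ⟨_, rfl⟩
  have hB1 : ∀ v ∈ B, Ad v ∧ wt v + m = N := by
    intro v hv
    rw [hBdef] at hv
    obtain ⟨u, hu, hv⟩ := Multiset.mem_bind.1 hv
    obtain ⟨hu1, hu2⟩ := hA u hu
    obtain ⟨h1, h2⟩ := (hB₀ u hu1).1 v hv
    exact ⟨h1, by omega⟩
  have hB2 : ∀ w, EndY w → w.length = m → g w = (B.map fun v => shs f (bw v) w).sum := by
    intro w hw hl
    rw [hgA w hw hl, hBdef, Multiset.map_bind, Multiset.sum_bind]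
    unfold act
    congr 1
    refine Multiset.map_congr rfl fun u hu => ?_
    obtain ⟨hu1, hu2⟩ := hA u hu
    exact (hB₀ u hu1).2 w hw (by omega)
  refine ⟨hB f B j, ?_, ?_, core hf g B hB1 hB2 j⟩
  · intro p hp
    refine ⟨by omega, B.bind fun v => stf (fun u => stf (fun l => ({bw l} : Multiset (List Bool)))
      v u) (List.replicate j 0) (List.replicate p 0), ?_, ?_⟩
    · intro u hu
      obtain ⟨v, hv, hu⟩ := Multiset.mem_bind.1 hu
      have hv' := hB1 v hv
      have hmem := stf_mem (allM fun s : List Bool => EndY s ∧ s.length + (m - j - p) = N)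
        (fun u => stf (fun l => ({bw l} : Multiset (List Bool))) v u) (List.replicate j 0)
        (List.replicate p 0) (fun u hu => by
          rw [wt_rep, wt_rep] at hu
          refine stf_mem _ _ _ _ fun l hl => ?_
          intro a ha
          simp only [Multiset.mem_singleton] at ha
          subst ha
          exact ⟨Pass2.endY_bw l, by rw [Pass2.bw_length]; omega⟩)
      exact hmem u hu
    · intro w hw hlw
      show (B.map fun v => stf (fun u => stf (fun l => shs f (bw l) w) v u) (List.replicate j 0)
        (List.replicate p 0)).sum = ((B.bind fun v => stf (fun u => stf (fun l =>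
          ({bw l} : Multiset (List Bool))) v u) (List.replicate j 0)
          (List.replicate p 0)).map fun u => shs f u w).sum
      rw [Multiset.map_bind, Multiset.sum_bind]
      refine congrArg Multiset.sum (Multiset.map_congr rfl fun v _ => ?_)
      rw [msum_stf]
      congr 1
      funext u
      rw [msum_stf]
      simp
  · intro l hl
    refine specTri (ZMod 2) (m - j) (fun l => hB f B j 0 (bw l)) ?_ l (by omega)
    intro i b hb hib
    rcases Nat.eq_zero_or_pos i with rfl | hi
    · rw [List.replicate_zero, stf_nil_left]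
      unfold hB
      refine Multiset.sum_eq_zero fun x hx => ?_
      obtain ⟨v, hv, rfl⟩ := Multiset.mem_map.1 hx
      obtain ⟨hv1, hv2⟩ := hB1 v hv
      rw [List.replicate_zero, stf_nil_right, stf_comm]
      exact hf.kill' j v b hj hv1 hb (by omega)
    · exact hB_kill hf B hB1 j 0 i b hi hb (by omega)

/-- EQ1 -/
theorem specEQ1 : SpecEQ1 := by
  intro n f hf j l hj hl
  have hc := core hf (m := n) f {[]} ?_ ?_ j l hl
  · rw [hc]
    refine sum_congr rfl fun p _ => ?_
    congr 1
    funext w'
    unfold hB
    simp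
  · intro v hv
    rw [Multiset.mem_singleton] at hv
    subst hv
    exact ⟨ad_nil, by simp⟩
  · intro w _ _
    simp [bw]

end MP154526.Lin
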