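import Pool.Agent.Lib.MP_154526_nt.Lin.Plan
import Pool.Agent.Lib.MP_154526_nt.Top.Pass2
import Pool.Agent.Lib.MP_154526_nt.Top.Alg

section
/-!
# Module CLO: the class of functionals killing all relations is closed under `z_2^{⧢ m} / m!`
-/
set_option autoImplicit false

namespace MP154526.Lin

open Finset MP154526.Top MP154526.Top.Front MP154526.Top.Pass2

namespace CloM

/-! ### words of `ℌ¹` and `ℌ⁰` as index lists -/

theorem bw_zero_cons (l : List ℕ) : bw (0 :: l) = true :: bw l := rfl

theorem bw_succ_cons (a : ℕ) (l : List ℕ) : bw ((a + 1) :: l) = false :: bw (a :: l) := rfl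

theorem bw_rep (i : ℕ) (l : List ℕ) :
    bw (List.replicate i 0 ++ l) = List.replicate i true ++ bw l := by
  induction i with
  | zero => rfl
  | succ i ih =>
    rw [List.replicate_succ, List.cons_append, bw_zero_cons, ih, List.replicate_succ,
      List.cons_append]

theorem bw_rep' (i : ℕ) : bw (List.replicate i 0) = List.replicate i true := by
  have := bw_rep i []
  simpa [bw] using this

/-- every word of `ℌ¹` has an index list -/
theorem exists_bw (w : List Bool) (hw : EndY w) : ∃ l, w = bw l := by
  induction w with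
  | nil => exact ⟨[], rfl⟩
  | cons a w ih =>
    obtain ⟨l, rfl⟩ := ih (endY_tail _ _ hw)
    cases a with
    | true => exact ⟨0 :: l, rfl⟩
    | false =>
      rcases l with _ | ⟨b, l⟩
      · rcases hw with h | ⟨u, h⟩
        · cases h
        · rcases u with _ | ⟨c, u⟩
          · simp [bw] at h
          · simp [bw] at h
      · exact ⟨(b + 1) :: l, rfl⟩

theorem ad_nil : Ad [] := by
  intro a ha
  simp at ha

theorem ad_cons {a : ℕ} {l : List ℕ} : Ad (a :: l) ↔ 1 ≤ a := by
  constructor
  · intro h
    exact h a (by simp)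
  · intro h b hb
    simp only [List.head?_cons, Option.mem_def, Option.some.injEq] at hb
    omega

/-- words of `ℌ⁰_+` -/
theorem exists_bw_ad (w : List Bool) (hw : EndY (false :: w)) :
    ∃ l, Ad l ∧ false :: w = bw l := by
  obtain ⟨l, hl⟩ := exists_bw _ hw
  refine ⟨l, ?_, hl⟩
  rcases l with _ | ⟨a, l⟩
  · exact ad_nil
  · rw [ad_cons]
    rcases a with _ | a
    · rw [bw_zero_cons] at hl
      cases hl
    · omega

theorem stf_congr {M : Type} [AddCommMonoid M] (f g : List ℕ → M) (u v : List ℕ)
    (h : ∀ l, wt l = wt u + wt v → f l = g l) : stf f u v = stf g u v := by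
  induction u, v using stf_induct generalizing f g with
  | h0 W => simpa using h W (by simp)
  | h1 a σ => simpa using h (a :: σ) (by simp)
  | h2 a σ c W ha hb hc =>
    rw [stf_cons_cons, stf_cons_cons]
    congr 1
    · congr 1
      · exact ha _ _ fun l hl => h _ (by simp only [wt_cons] at hl ⊢; omega)
      · exact hb _ _ fun l hl => h _ (by simp only [wt_cons] at hl ⊢; omega)
    · exact hc _ _ fun l hl => h _ (by simp only [wt_cons] at hl ⊢; omega)

/-- the stuffle of words of `ℌ⁰` consists of words of `ℌ⁰` -/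
theorem stf_congr_ad {M : Type} [AddCommMonoid M] (f g : List ℕ → M) (u v : List ℕ)
    (hu : Ad u) (hv : Ad v) (h : ∀ l, Ad l → wt l = wt u + wt v → f l = g l) :
    stf f u v = stf g u v := by
  rcases u with _ | ⟨a, u⟩
  · rw [stf_nil_left, stf_nil_left]
    exact h v hv (by simp)
  rcases v with _ | ⟨b, v⟩
  · rw [stf_nil_right, stf_nil_right]
    exact h _ hu (by simp)
  rw [ad_cons] at hu hv
  rw [stf_cons_cons, stf_cons_cons]
  congr 1
  · congr 1
    · exact stf_congr _ _ _ _ fun l hl => h _ (ad_cons.2 hu) (by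
        simp only [wt_cons] at hl ⊢; omega)
    · exact stf_congr _ _ _ _ fun l hl => h _ (ad_cons.2 hv) (by
        simp only [wt_cons] at hl ⊢; omega)
  · exact stf_congr _ _ _ _ fun l hl => h _ (ad_cons.2 (by omega)) (by
      simp only [wt_cons] at hl ⊢; omega)

theorem shs_congrE {M : Type} [AddCommMonoid M] (F G : List Bool → M) (u v : List Bool)
    (hu : EndY u) (hv : EndY v)
    (h : ∀ l : List Bool, l.length = u.length + v.length → EndY l → F l = G l) :
    shs F u v = shs G u v := by
  induction u, v using shs_induct generalizing F G with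
  | h0 W => rw [shs_nil_left, shs_nil_left]; exact h W (by simp) hv
  | h1 a σ => rw [shs_nil_right, shs_nil_right]; exact h _ (by simp) hu
  | h2 a σ c W ha hb =>
    rw [shs_cons_cons, shs_cons_cons]
    congr 1
    · refine ha _ _ (endY_tail _ _ hu) hv ?_
      intro l hl hE
      refine h _ (by simp only [List.length_cons] at hl ⊢; omega) (endY_cons _ _ hE ?_)
      rintro rfl
      simp only [List.length_nil, List.length_cons] at hl
      omega
    · refine hb _ _ hu (endY_tail _ _ hv) ?_
      intro l hl hE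
      refine h _ (by simp only [List.length_cons] at hl ⊢; omega) (endY_cons _ _ hE ?_)
      rintro rfl
      simp only [List.length_nil, List.length_cons] at hl
      omega

/-- the shuffle of words of `ℌ⁰` consists of words of `ℌ⁰` -/
theorem shs_congr_ad {M : Type} [AddCommMonoid M] (f g : List Bool → M) (u v : List ℕ)
    (hu : Ad u) (hv : Ad v) (h : ∀ l, Ad l → wt l = wt u + wt v → f (bw l) = g (bw l)) :
    shs f (bw u) (bw v) = shs g (bw u) (bw v) := by
  rcases u with _ | ⟨a, u⟩
  · rw [bw, shs_nil_left, shs_nil_left]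
    exact h v hv (by simp)
  rcases v with _ | ⟨b, v⟩
  · rw [bw, shs_nil_right, shs_nil_right]
    exact h _ hu (by simp)
  rw [ad_cons] at hu hv
  obtain ⟨a, rfl⟩ : ∃ c, a = c + 1 := ⟨a - 1, by omega⟩
  obtain ⟨b, rfl⟩ : ∃ c, b = c + 1 := ⟨b - 1, by omega⟩
  have key : ∀ l : List Bool, EndY l → l.length + 1 = wt ((a + 1) :: u) + wt ((b + 1) :: v) →
      f (false :: l) = g (false :: l) := by
    intro l hl hn
    have hE : EndY (false :: l) := by
      refine endY_cons _ _ hl ?_
      rintro rfl
      simp only [wt_cons, List.length_nil] at hn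
      omega
    obtain ⟨l', h1, h2⟩ := exists_bw_ad l hE
    rw [h2]
    refine h l' h1 ?_
    rw [← bw_length, ← h2, List.length_cons, hn]
  rw [bw_succ_cons, bw_succ_cons, shs_cons_cons, shs_cons_cons]
  congr 1
  · rw [← bw_succ_cons]
    refine shs_congrE _ _ _ _ (endY_bw _) (endY_bw _) fun l hl hE => key l hE ?_
    rw [hl, bw_length, bw_length]
    simp only [wt_cons]
    omega
  · rw [← bw_succ_cons]
    refine shs_congrE _ _ _ _ (endY_bw _) (endY_bw _) fun l hl hE => key l hE ?_
    rw [hl, bw_length, bw_length]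
    simp only [wt_cons]
    omega

theorem wt_rep (i : ℕ) : wt (List.replicate i 0) = i := by
  simp [wt]

theorem endY_rep_true (i : ℕ) : EndY (List.replicate i true) := by
  have := Pass1.endY_rep (w := []) (Or.inl rfl) i
  simpa using this

theorem stf_const_zero {M : Type} [AddCommMonoid M] (u v : List ℕ) :
    stf (fun _ => (0 : M)) u v = 0 := stf_zero _ _ _ fun _ _ => rfl

/-- exchange of a stuffle sum and a shuffle sum -/
theorem stf_shs_comm {M : Type} [AddCommMonoid M] (F : List ℕ → List Bool → M) (u v : List ℕ)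
    (a b : List Bool) :
    stf (fun l => shs (F l) a b) u v = shs (fun c => stf (fun l => F l c) u v) a b := by
  induction u, v using stf_induct generalizing F with
  | h0 W => simp
  | h1 a σ => simp
  | h2 a σ c W ha hb hc =>
    rw [stf_cons_cons, ha, hb, hc, ← shs_add, ← shs_add]
    simp only [stf_cons_cons]

/-! ### consequences of the relations -/

section
variable {M : Type} [AddCommMonoid M]

/-- `ψ(y^i * b) = 0`, `b ∈ ℌ⁰`, `i ≥ 1` -/
theorem b2 {n : ℕ} {ψ : List Bool → M} (h : RR n ψ) (i : ℕ) (b : List ℕ) (hi : 1 ≤ i)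
    (hb : Ad b) (hn : i + wt b = n) : stf (fun l => ψ (bw l)) (List.replicate i 0) b = 0 := by
  rw [← h.rds _ _ hb (by rw [wt_rep, hn]), bw_rep']
  exact h.reg i _ hi (endY_bw _) (by rw [bw_length, hn])

/-- `∑_{l ∈ y^i * b} ψ(c ⧢ l) = 0`, `b, c ∈ ℌ⁰`, `i ≥ 1` -/
theorem b3 {n : ℕ} {ψ : List Bool → M} (h : RR n ψ) (i : ℕ) (b c : List ℕ) (hi : 1 ≤ i)
    (hb : Ad b) (hc : Ad c) (hn : i + wt b + wt c = n) :
    stf (fun l => shs ψ (bw l) (bw c)) (List.replicate i 0) b = 0 := by
  have e : stf (fun l => shs ψ (bw l) (bw c)) (List.replicate i 0) b =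
      stf (fun l => stf (fun l => ψ (bw l)) l c) (List.replicate i 0) b := by
    refine stf_congr _ _ _ _ fun l hl => h.rds _ _ hc ?_
    rw [hl, wt_rep, hn]
  rw [e, stf_assoc', stf_congr_ad _ (fun _ => 0) b c hb hc, stf_const_zero]
  intro l hl hl'
  exact b2 h i l hi hl (by omega)

theorem rr_map {N : Type} [AddCommMonoid N] (L : M →+ N) {n : ℕ} {ψ : List Bool → M}
    (h : RR n ψ) : RR n (fun w => L (ψ w)) := by
  refine ⟨fun j w hj hw hn => ?_, fun u v hv hn => ?_⟩
  · rw [← shs_map, h.reg j w hj hw hn, map_zero]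
  · rw [← shs_map, h.rds u v hv hn, ← stf_map]

theorem rr_of_map {N : Type} [AddCommMonoid N] (L : M →+ N) (hL : Function.Injective L) {n : ℕ}
    {ψ : List Bool → M} (h : RR n (fun w => L (ψ w))) : RR n ψ := by
  refine ⟨fun j w hj hw hn => hL ?_, fun u v hv hn => hL ?_⟩
  · rw [shs_map, h.reg j w hj hw hn, map_zero]
  · rw [shs_map, h.rds u v hv hn, ← stf_map]

theorem dot_comm (c : List Bool) (ψ : List Bool → M) (u v : List Bool) :
    shs (dot c ψ) u v = shs (fun l => shs ψ l v) c u := by
  show shs (fun w => shs ψ c w) u v = _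
  rw [Pass1.shs_assoc]

theorem dot_comm' (c : List Bool) (ψ : List Bool → M) (u v : List Bool) :
    shs (dot c ψ) u v = shs (fun l => shs ψ u l) c v := by
  rw [shs_comm, dot_comm]
  refine congrFun (congrFun (congrArg shs ?_) c) v
  funext l
  exact shs_comm _ _ _

end

/-- the functional `z_2 ⧢ ψ` kills all relations -/
theorem clo1 (hT2 : SpecT2) (hTri : SpecTri) {n : ℕ} {ψ : List Bool → ℚ} (h : RR n ψ)
    (hn : 2 ≤ n) : RR (n - 2) (dot [false, true] ψ) := by
  have hz : ([false, true] : List Bool) = bw [1] := rfl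
  have hz1 : Ad [1] := ad_cons.2 le_rfl
  refine ⟨fun j w hj hw hnj => ?_, fun u v hv hu => ?_⟩
  · have hE2 : EndY [false, true] := Or.inr ⟨[false], rfl⟩
    rw [dot_comm', shs_congrE _ (fun _ => 0) _ _ hE2 hw, shs_zero]
    intro l hl hE
    refine h.reg j l hj hE ?_
    rw [hl]
    simp only [List.length_cons, List.length_nil]
    omega
  · set χ : List Bool → ℚ := dot [false, true] ψ with hχ
    have main := hTri ℚ (wt u)
      (fun l => shs χ (bw l) (bw v) - stf (fun l => χ (bw l)) l v) ?_ u rfl
    · exact sub_eq_zero.1 main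
    · intro i b hb hib
      rcases Nat.eq_zero_or_pos i with rfl | hi
      · rw [List.replicate_zero, stf_nil_left, sub_eq_zero]
        refine hT2 n ψ h b v hb hv ?_
        omega
      · have e0 : stf (fun l => shs χ (bw l) (bw v) - stf (fun l => χ (bw l)) l v)
            (List.replicate i 0) b =
            stf (fun l => shs χ (bw l) (bw v)) (List.replicate i 0) b +
              stf (fun l => -stf (fun l => χ (bw l)) l v) (List.replicate i 0) b := by
          rw [← stf_add]
          simp only [sub_eq_add_neg]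
        have e1 : stf (fun l => shs χ (bw l) (bw v)) (List.replicate i 0) b = 0 := by
          have h1 : ∀ l, shs χ (bw l) (bw v) =
              shs (fun c => shs ψ (bw l) c) (bw [1]) (bw v) := by
            intro l
            rw [hχ, dot_comm', hz]
          have h2 : stf (fun l => shs χ (bw l) (bw v)) (List.replicate i 0) b =
              shs (fun c => stf (fun l => shs ψ (bw l) c) (List.replicate i 0) b)
                (bw [1]) (bw v) := by
            simp only [h1]
            exact stf_shs_comm _ _ _ _ _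
          rw [h2, shs_congr_ad _ (fun _ => 0) _ _ hz1 hv, shs_zero]
          intro l hl hl'
          refine b3 h i b l hi hb hl ?_
          simp only [wt_cons, wt_nil] at hl'
          omega
        have e2 : stf (fun l => -stf (fun l => χ (bw l)) l v) (List.replicate i 0) b = 0 := by
          have h1 := stf_map (-AddMonoidHom.id ℚ) (fun l => stf (fun l => χ (bw l)) l v)
            (List.replicate i 0) b
          simp only [AddMonoidHom.neg_apply, AddMonoidHom.id_apply] at h1
          rw [← h1, neg_eq_zero, stf_assoc']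
          rw [stf_congr_ad _ (fun _ => 0) _ _ hb hv, stf_const_zero]
          intro l hl hl'
          have h3 : stf (fun l => χ (bw l)) (List.replicate i 0) l =
              stf (fun l => shs ψ (bw l) (bw [1])) (List.replicate i 0) l := by
            refine congrFun (congrFun (congrArg stf ?_) _) _
            funext l
            rw [hχ, dot, shs_comm, hz]
          rw [h3]
          refine b3 h i l [1] hi hl hz1 ?_
          simp only [wt_cons, wt_nil]
          omega
        rw [e0, e1, e2, add_zero]

end CloM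

/-- CLO -/
theorem specClo (hT2 : SpecT2) (hTri : SpecTri) (hVK : SpecVK1) : SpecClo := by
  intro n m ψ h
  induction m with
  | zero =>
    intro _
    have e : act (zV 0) ψ = ψ := by
      funext w
      simp [act, zV]
    rw [e]
    exact h
  | succ m ih =>
    intro hm
    have h1 := ih (by omega)
    have h2 := CloM.rr_map (Int.castAddHom ℚ) h1
    have h3 := CloM.clo1 hT2 hTri h2 (by omega)
    have e : dot [false, true] (fun w => (Int.castAddHom ℚ) (act (zV m) ψ w)) =
        fun w => ((Int.castAddHom ℚ).comp (AddMonoidHom.mulLeft ((m : ℤ) + 1)))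
          (act (zV (m + 1)) ψ w) := by
      funext w
      have h4 := hVK ℤ m ψ w
      rw [dot, ← shs_map]
      rw [dot] at h4
      rw [← h4]
      simp
    rw [e] at h3
    have e2 : n - 2 * (m + 1) = n - 2 * m - 2 := by omega
    rw [e2]
    refine CloM.rr_of_map _ ?_ h3
    intro x y hxy
    simp only [AddMonoidHom.comp_apply, AddMonoidHom.coe_mulLeft, Int.coe_castAddHom] at hxy
    have h5 : ((m : ℤ) + 1) * x = ((m : ℤ) + 1) * y := by exact_mod_cast hxy
    exact mul_left_cancel₀ (by positivity) h5

end MP154526.Lin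
end

section
/-!
# Module EXT: integral functionals on `ℌ⁰_n` killing all regularised double shuffle elements
-/
set_option autoImplicit false

namespace MP154526.Lin

open Finset MP154526.Top MP154526.Top.Front MP154526.Top.Pass2

namespace ExtM

open MP154526.Bound

/-- the extension is killed by `y^j ⧢ w`, `j ≥ 1` -/
theorem ext_rep_sh (φ : List Bool → ℤ) (m : ℕ) (w : List Bool) :
    shs (ext φ) (List.replicate (m + 1) true) w = 0 := by
  have h1 : shs (fun s => shs (ext φ) s w) [true] (List.replicate m true) = 0 := by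
    rw [Pass1.shs_assoc]
    simp only [Pass1.ext_true_sh]
    exact shs_zero _ _
  rw [Pass1.shs_true_rep] at h1
  exact Pass1.nsmul_int_eq_zero h1

/-- the finite relations -/
theorem rel (φ : List Bool → ℤ) (n : ℕ) (hK : ∀ r ∈ RDS n, lin φ r = 0)
    (u : List ℕ) (a : ℕ) (b : List ℕ) (hn : wt u + wt ((a + 1) :: b) = n) :
    shs (ext φ) (bw u) (bw ((a + 1) :: b)) = stf (fun l => ext φ (bw l)) u ((a + 1) :: b) := by
  have hA : SpecAlg := specAlg
  have hR : SpecReg := fun φ w hw => RegN.regOK hA φ w hw
  set w₁ : List ℕ := u.map (· + 1) with hw₁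
  set w₀ : List ℕ := ((a + 1) :: b).map (· + 1) with hw₀
  have hsum : ∀ l : List ℕ, (l.map (· + 1)).sum = wt l := by
    intro l
    induction l with
    | nil => rfl
    | cons c l ih =>
      rw [List.map_cons, List.sum_cons, ih, wt_cons]
  have hidx : ∀ l : List ℕ, Idx1 (l.map (· + 1)) := by
    intro l k hk
    obtain ⟨c, _, rfl⟩ := List.mem_map.1 hk
    omega
  set h : H := shuffle (wd (word w₁)) (wd (word w₀)) - stuffle w₁ w₀ with hh
  have e1 : shuffle (wd (word w₁)) (wd (word w₀)) = sh (bw u) (bw ((a + 1) :: b)) := by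
    rw [Pass2.shuffle_wd, word_map, word_map]
  have e2 : stuffle w₁ w₀ = stf (fun l => wd (bw l)) u ((a + 1) :: b) := stuffle_eq _ _
  have hmem : h ∈ W1 n := by
    rw [hh, e1, e2]
    refine Submodule.sub_mem _ ?_ ?_
    · refine sh_mem _ _ _ (endY_bw _) (endY_bw _) fun l hl hl' => Submodule.subset_span ⟨l, hl, ?_, rfl⟩
      rw [hl', bw_length, bw_length, hn]
    · refine stf_mem (W1 n).toAddSubmonoid _ _ _ fun l hl => ?_
      exact Submodule.subset_span ⟨bw l, endY_bw l, by rw [bw_length, hl, hn], rfl⟩
  obtain ⟨r, h0, h1, h2⟩ := ok_of_mem hA hR φ n h hmem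
  have hr : r ∈ RDS n := by
    refine ⟨h0, w₁, w₀, hidx _, ⟨hidx _, ?_⟩, ?_, h1⟩
    · intro k hk
      simp only [hw₀, List.map_cons, List.head?_cons, Option.mem_def, Option.some.injEq] at hk
      omega
    · rw [hw₁, hw₀, hsum, hsum, hn]
  have h3 := hK r hr
  rw [Pass2.lin_eq, h2, hh, e1, e2, map_sub] at h3
  have h4 := map_sh (linL (ext φ)).toAddMonoidHom (bw u) (bw ((a + 1) :: b))
  have h5 := stf_map (linL (ext φ)).toAddMonoidHom (fun l => wd (bw l)) u ((a + 1) :: b)
  simp only [LinearMap.toAddMonoidHom_coe, linL_wd] at h4 h5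
  rw [h4, h5] at h3
  have h6 := shs_map (Int.castAddHom ℚ) (ext φ) (bw u) (bw ((a + 1) :: b))
  have h7 := stf_map (Int.castAddHom ℚ) (fun l => ext φ (bw l)) u ((a + 1) :: b)
  simp only [Int.coe_castAddHom] at h6 h7
  rw [← h6, ← h7, sub_eq_zero] at h3
  exact_mod_cast h3

end ExtM

/-- EXT -/
theorem specExt : SpecExt := by
  intro n φ hK
  refine ⟨?_, ?_⟩
  · intro j w hj _ _
    obtain ⟨m, rfl⟩ : ∃ m, j = m + 1 := ⟨j - 1, by omega⟩
    exact ExtM.ext_rep_sh φ m w
  · intro u v hv hn
    rcases v with _ | ⟨a, b⟩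
    · simp [bw]
    · have ha : 1 ≤ a := hv a (by simp)
      obtain ⟨a, rfl⟩ : ∃ c, a = c + 1 := ⟨a - 1, by omega⟩
      exact ExtM.rel φ n hK u a b hn

end MP154526.Lin
end
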