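import Pool.Agent.Lib.MP_154526_nt.Lin.Plan
import Pool.Agent.Lib.MP_154526_nt.Top.Span
import Pool.Agent.Lib.MP_154526_nt.Top.FrontA
import Pool.Agent.Lib.MP_154526_nt.Top.F2

/-!
# Module INJ: a functional of the class vanishing on all words without `xx` is zero
-/

set_option autoImplicit false

namespace MP154526.Lin.Inj

open Finset MP154526.Top MP154526.Top.Front MP154526.Top.Pass2 MP154526.Top.Pass1

/-! ### naturality of `E` -/

section Map

variable {R S : Type} [CommRing R] [CommRing S]

theorem dT_map (φ : R →+* S) (τ : R) (c : List Bool → R) (w : List Bool) :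
    φ (dT τ c w) = dT (φ τ) (fun v => φ (c v)) w := by
  induction w generalizing c with
  | nil => simp [dT]
  | cons g w ih =>
    cases g
    · rw [dT_false, dT_false, map_add, ih]
    · rw [dT_true, dT_true, map_add, map_mul, ih]

theorem E_map (φ : R →+* S) (τ : R) (n : ℕ) (ψ c : List Bool → R) :
    φ (E τ n ψ c) = E (φ τ) n (fun w => φ (ψ w)) (fun w => φ (c w)) := by
  induction n generalizing ψ c with
  | zero => rw [E_zero', E_zero', map_mul]
  | succ n ih =>
    rw [E_succ, E_succ, map_add, ih, ih]
    have h1 : (fun w => φ (dT τ c w)) = dT (φ τ) fun w => φ (c w) :=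
      funext fun w => dT_map φ τ c w
    rw [h1]
    rfl

theorem X_map (φ : R →+* S) (b : R) (ρ : List R) (w : List Bool) :
    φ (X b ρ w) = X (φ b) (ρ.map φ) w := by
  induction w generalizing b ρ with
  | nil => cases ρ <;> simp [X]
  | cons g w ih =>
    cases g
    · rw [X_false, X_false, map_mul, ih]
    · cases ρ with
      | nil => simp [X]
      | cons r ρ => simp [X, ih]

theorem castB_map [Algebra (ZMod 2) R] [Algebra (ZMod 2) S] (φ : R →+* S)
    (ψ : List Bool → ZMod 2) (w : List Bool) : φ (castB R ψ w) = castB S ψ w := by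
  have h : φ.comp (algebraMap (ZMod 2) R) = algebraMap (ZMod 2) S := Subsingleton.elim _ _
  exact congrArg (fun g : ZMod 2 →+* S => g (ψ w)) h

theorem E_nat [Algebra (ZMod 2) R] [Algebra (ZMod 2) S] (φ : R →+* S) (τ : R) (n : ℕ)
    (ψ : List Bool → ZMod 2) (b : R) (ρ : List R) :
    φ (E τ n (castB R ψ) (X b ρ)) = E (φ τ) n (castB S ψ) (X (φ b) (ρ.map φ)) := by
  rw [E_map]
  have h1 : (fun w => φ (castB R ψ w)) = castB S ψ := funext fun w => castB_map φ ψ w
  have h2 : (fun w => φ (X b ρ w)) = X (φ b) (ρ.map φ) := funext fun w => X_map φ b ρ w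
  rw [h1, h2]

end Map

/-! ### `F` only sees the words without `xx` -/

theorem nx_cons {a : ℕ} {l : List ℕ} (ha : a ≤ 1) (hl : NX l) : NX (a :: l) := by
  intro x hx
  rcases List.mem_cons.1 hx with rfl | hx
  · exact ha
  · exact hl x hx

theorem nx_nil : NX [] := fun a ha => absurd ha (by simp)

theorem F_zero {R : Type} [CommRing R] (τ : R) : ∀ (n : ℕ) (P : List ℕ → R) (c : List Bool → R),
    (∀ l, NX l → wt l = n → P l = 0) → F τ n P c = 0
  | 0, P, c, h => by
    rw [F, h [] nx_nil rfl, zero_mul]
  | 1, P, c, h => by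
    rw [F]
    exact F_zero τ 0 _ _ fun l hl hw => h _ (nx_cons (by omega) hl) (by rw [wt_cons]; omega)
  | n + 2, P, c, h => by
    rw [F, F_zero τ (n + 1) _ _ fun l hl hw => h _ (nx_cons (by omega) hl)
      (by rw [wt_cons]; omega), F_zero τ n _ _ fun l hl hw => h _ (nx_cons (by omega) hl)
      (by rw [wt_cons]; omega), add_zero]

/-! ### the functionals `A.f` -/

/-- only words ending in `y` matter -/
theorem shs_congrY {M : Type} [AddCommMonoid M] (F G : List Bool → M) (u v : List Bool)
    (hu : EndY u) (hv : EndY v)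
    (h : ∀ l : List Bool, l.length = u.length + v.length → EndY l → F l = G l) :
    shs F u v = shs G u v := by
  induction u, v using shs_induct generalizing F G with
  | h0 W => rw [shs_nil_left, shs_nil_left]; exact h W (by simp) hv
  | h1 a σ => rw [shs_nil_right, shs_nil_right]; exact h _ (by simp) hu
  | h2 a σ c W ha hb =>
    rw [shs_cons_cons, shs_cons_cons, ha _ _ ?_ hv ?_, hb _ _ hu ?_ ?_]
    · exact Pass1.endY_tail hv
    · intro l hl hE
      refine h _ (by simp only [List.length_cons] at hl ⊢; omega) (Pass1.endY_cons hE ?_)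
      rintro rfl
      simp only [List.length_nil, List.length_cons] at hl
      omega
    · exact Pass1.endY_tail hu
    · intro l hl hE
      refine h _ (by simp only [List.length_cons] at hl ⊢; omega) (Pass1.endY_cons hE ?_)
      rintro rfl
      simp only [List.length_nil, List.length_cons] at hl
      omega

/-- the words of a shuffle product -/
def shw (u v : List Bool) : Multiset (List Bool) := shs (fun s => ({s} : Multiset (List Bool))) u v

theorem shw_sum {M : Type} [AddCommMonoid M] (F : List Bool → M) (u v : List Bool) :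
    ((shw u v).map F).sum = shs F u v := by
  have h := shs_map ((Multiset.sumAddMonoidHom (M := M)).comp (Multiset.mapAddMonoidHom F))
    (fun s => ({s} : Multiset (List Bool))) u v
  simpa [shw] using h

theorem shw_mem (u v : List Bool) (hu : EndY u) (hv : EndY v) (s : List Bool)
    (hs : s ∈ shw u v) : EndY s ∧ s.length = u.length + v.length := by
  unfold shw at hs
  generalize hG : (fun s => ({s} : Multiset (List Bool))) = G at hs
  have hG' : ∀ l, EndY l → l.length = u.length + v.length → ∀ s ∈ G l,
      EndY s ∧ s.length = u.length + v.length := by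
    intro l h1 h2 s hs
    rw [← hG] at hs
    rw [Multiset.mem_singleton.1 hs]
    exact ⟨h1, h2⟩
  let T : AddSubmonoid (Multiset (List Bool)) :=
    { carrier := {A | ∀ s ∈ A, EndY s ∧ s.length = u.length + v.length}
      zero_mem' := by
        intro s hs
        exact absurd hs (Multiset.notMem_zero s)
      add_mem' := by
        intro A B hA hB s hs
        rcases Multiset.mem_add.1 hs with h | h
        · exact hA s h
        · exact hB s h }
  have key : ∀ (F : List Bool → Multiset (List Bool)) (u v : List Bool), EndY u → EndY v →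
      (∀ l, EndY l → l.length = u.length + v.length → F l ∈ T) → shs F u v ∈ T := by
    intro F u v hu hv h
    induction u, v using shs_induct generalizing F with
    | h0 W => simpa using h W hv (by simp)
    | h1 a σ => simpa using h (a :: σ) hu (by simp)
    | h2 a σ c W ha hb =>
      rw [shs_cons_cons]
      refine T.add_mem (ha _ (Pass1.endY_tail hu) hv fun l hl hl' => ?_)
        (hb _ hu (Pass1.endY_tail hv) fun l hl hl' => ?_)
      · refine h _ (Pass1.endY_cons hl ?_) (by simp only [List.length_cons] at hl' ⊢; omega)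
        rintro rfl
        simp at hl'
      · refine h _ (Pass1.endY_cons hl ?_) (by simp only [List.length_cons] at hl' ⊢; omega)
        rintro rfl
        simp only [List.length_nil, List.length_cons] at hl'
        omega
  exact key G u v hu hv (fun l h1 h2 => hG' l h1 h2) s hs

/-- `c.(A.f) = (c ⧢ A).f` -/
theorem dot_act {M : Type} [AddCommMonoid M] (c : List Bool) (A : Multiset (List Bool))
    (f : List Bool → M) (w : List Bool) :
    dot c (act A f) w = act (A.bind fun u => shw u c) f w := by
  unfold dot act
  rw [Multiset.map_bind, Multiset.sum_bind]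
  have h1 : (A.map fun u => ((shw u c).map fun s => shs f s w).sum) =
      A.map fun u => shs (fun t => shs f u t) c w := by
    refine Multiset.map_congr rfl fun u _ => ?_
    rw [shw_sum, shs_assoc]
  rw [h1]
  induction A using Multiset.induction_on with
  | empty => simp [shs_zero]
  | cons a A ih =>
    simp only [Multiset.map_cons, Multiset.sum_cons]
    rw [shs_add, ih]
    simp only [shw_sum, shs_assoc]

theorem kk_dot {N m : ℕ} {f g : List Bool → ZMod 2} (hg : KK N f m g) (c : List Bool)
    (hc : EndY c) (hcm : c.length ≤ m) : KK N f (m - c.length) (dot c g) := by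
  obtain ⟨hm, A, hA, hA'⟩ := hg
  refine ⟨by omega, A.bind fun u => shw u c, ?_, ?_⟩
  · intro s hs
    obtain ⟨u, hu, hs⟩ := Multiset.mem_bind.1 hs
    obtain ⟨h1, h2⟩ := shw_mem u c (hA u hu).1 hc s hs
    refine ⟨h1, ?_⟩
    have := (hA u hu).2
    omega
  · intro w hw hwl
    rw [← dot_act]
    refine shs_congrY _ _ _ _ hc hw fun l hl hE => hA' l hE ?_
    omega

/-- the functionals of the class are regularised -/
theorem kk_reg {N m : ℕ} {f g : List Bool → ZMod 2} (hf : RR N f) (hg : KK N f m g) (j : ℕ)
    (w : List Bool) (hj : 1 ≤ j) (hw : EndY w) (hl : j + w.length = m) :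
    shs g (List.replicate j true) w = 0 := by
  obtain ⟨hm, A, hA, hA'⟩ := hg
  have hY : EndY (List.replicate j true) := F2.endY_replicate j
  rw [shs_congrY g (act A f) _ _ hY hw fun l hl' hE => hA' l hE (by
    rw [List.length_replicate] at hl'
    omega)]
  have h1 : shs (act A f) (List.replicate j true) w = dot (List.replicate j true) (act A f) w :=
    rfl
  rw [h1, dot_act]
  unfold act
  rw [Multiset.map_bind, Multiset.sum_bind]
  have h2 : ∀ u ∈ A, ((shw u (List.replicate j true)).map fun s => shs f s w).sum = 0 := by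
    intro u hu
    rw [shw_sum, shs_comm, shs_assoc]
    refine Pass1.shs_zero_of_endY _ _ _ (hA u hu).1 hw fun l hl' hE => ?_
    refine hf.reg j l hj hE ?_
    have := (hA u hu).2
    omega
  rw [Multiset.map_congr rfl h2]
  simp

theorem exists_bw' (w : List Bool) (hw : EndY w) : ∃ l, w = bw l ∧ wt l = w.length := by
  obtain ⟨l, rfl⟩ := F2.exists_bw w hw
  refine ⟨l, rfl, ?_⟩
  rw [F2.length_bw]
  rfl

theorem endY_bw (l : List ℕ) : EndY (bw l) := by
  induction l with
  | nil => exact Or.inl rfl
  | cons a l ih =>
    rcases l with _ | ⟨b, l⟩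
    · exact Or.inr ⟨List.replicate a false, rfl⟩
    · rcases ih with h | ⟨u, h⟩
      · simp [bw] at h
      · exact Or.inr ⟨List.replicate a false ++ true :: u, by rw [bw, h]; simp⟩

theorem bw_length (l : List ℕ) : (bw l).length = wt l := F2.length_bw l

/-- `strip` of a functional vanishing on the right words -/
theorem strip_zero (n : ℕ) : ∀ (p : ℕ) (h : List Bool → ZMod 2),
    (∀ w, EndY w → w.length = n → h w = 0) → ∀ w, EndY w → w.length = n + p → strip p h w = 0
  | 0, h, hh, w, hw, hl => by
    rw [strip]
    exact hh w hw hl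
  | p + 1, h, hh, [], hw, hl => by
    rw [strip]
  | p + 1, h, hh, false :: w, hw, hl => by
    rw [strip]
  | p + 1, h, hh, true :: w, hw, hl => by
    rw [strip]
    refine strip_zero n p h hh w (Pass1.endY_tail hw) ?_
    simp only [List.length_cons] at hl
    omega

/-- the coefficients of a polynomial identity -/
theorem poly_coeff {R : Type} [CommRing R] (m : ℕ) (τ : R) (e0 : R) (e : ℕ → ℕ → R)
    (h : Polynomial.C e0 + ∑ j ∈ range m, ∑ p ∈ range (m - j), (Polynomial.C τ) ^ (j + 1) *
      Polynomial.X ^ p * Polynomial.C (e j p) = 0) (p : ℕ) (hp : 1 ≤ p) :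
    ∑ j ∈ range m, (if p < m - j then τ ^ (j + 1) * e j p else 0) = 0 := by
  have h1 := congrArg (fun q => Polynomial.coeff q p) h
  simp only [Polynomial.coeff_add, Polynomial.finsetSum_coeff, Polynomial.coeff_zero] at h1
  rw [Polynomial.coeff_C, if_neg (by omega), zero_add] at h1
  refine Eq.trans ?_ h1
  refine sum_congr rfl fun j _ => ?_
  have h2 : ∀ q ∈ range (m - j), Polynomial.coeff ((Polynomial.C τ) ^ (j + 1) *
      Polynomial.X ^ q * Polynomial.C (e j q)) p = if p = q then τ ^ (j + 1) * e j p else 0 := by
    intro q _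
    rw [Polynomial.coeff_mul_C, ← Polynomial.C_pow, Polynomial.coeff_C_mul,
      Polynomial.coeff_X_pow]
    split_ifs with hpq
    · rw [hpq, mul_one]
    · ring
  rw [sum_congr rfl h2, sum_ite_eq]
  simp only [mem_range]

/-- divide by `T^j` and put `T = 0` -/
theorem low_coeff {R : Type} [CommRing R] (m j₀ : ℕ) (e : ℕ → Polynomial R)
    (h : ∑ j ∈ range m, Polynomial.X ^ (j + 1) * e j = 0) (hj₀ : j₀ < m)
    (hlow : ∀ j < j₀, e j = 0) : (e j₀).eval 0 = 0 := by
  have h1 := congrArg (fun q => Polynomial.coeff q (j₀ + 1)) h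
  simp only [Polynomial.finsetSum_coeff, Polynomial.coeff_zero] at h1
  rw [sum_eq_single j₀] at h1
  · have h2 := Polynomial.coeff_X_pow_mul (e j₀) (j₀ + 1) 0
    rw [zero_add] at h2
    rw [h2] at h1
    rw [← Polynomial.coeff_zero_eq_eval_zero]
    exact h1
  · intro j _ hj
    rcases lt_or_gt_of_ne hj with hlt | hgt
    · rw [hlow j hlt, mul_zero, Polynomial.coeff_zero]
    · rw [Polynomial.coeff_X_pow_mul', if_neg (by omega)]
  · intro hj
    exact absurd (mem_range.2 hj₀) hj

end MP154526.Lin.Inj

namespace MP154526.Lin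

open Finset MP154526.Top MP154526.Top.Front MP154526.Top.Pass2 Inj

/-- **INJ** -/
theorem specInj (hZ : SpecZsh) (h0 : SpecEQ0) (hE : SpecEQE) (hTI : SpecTI) (hL : SpecLow2)
    (hRed : SpecRed) : SpecInj := by
  intro N f hf m
  induction m using Nat.strong_induction_on with
  | _ m ih =>
  intro g hg hB
  -- words without `xx`, any weight
  have hNX : ∀ l, NX l → wt l = m → g (bw l) = 0 := fun l hl hw => hB l hl (Nat.zero_le _) hw
  rcases Nat.eq_zero_or_pos m with rfl | hm
  · intro w hw hl
    rw [List.length_eq_zero_iff.1 hl]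
    exact hNX [] nx_nil rfl
  -- products with words without `xx`
  have s1 : ∀ c, NX c → 0 < wt c → wt c < m → ∀ w, EndY w → w.length + wt c = m →
      shs g (bw c) w = 0 := by
    intro c hc hc0 hcm w hw hwl
    have hk := kk_dot hg (bw c) (Inj.endY_bw c) (by rw [Inj.bw_length]; omega)
    rw [Inj.bw_length] at hk
    refine ih (m - wt c) (by omega) _ hk ?_ w hw (by omega)
    intro l hl _ hwl
    exact hZ g c l hc hl fun l' hl' hw' _ => hNX l' hl' (by omega)
  -- all products
  have s2 : IsSh m g := by
    intro u v hu hv hYu hYv hl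
    have hu' : 0 < u.length := List.length_pos_iff.2 hu
    have hv' : 0 < v.length := List.length_pos_iff.2 hv
    have hk := kk_dot hg u hYu (by omega)
    refine ih (m - u.length) (by omega) _ hk ?_ v hYv (by omega)
    intro l hl _ hwl
    show shs g u (bw l) = 0
    rw [shs_comm]
    exact s1 l hl (by omega) (by omega) u hYu (by omega)
  have hregm := fun j w hj hw hl => kk_reg hf hg j w hj hw hl
  -- the functionals of EQ0
  have hex : ∀ j : ℕ, ∃ h : ℕ → List Bool → ZMod 2, 1 ≤ j → j ≤ m →
      ((∀ p, j + p ≤ m → KK N f (m - j - p) (h p)) ∧ (∀ l, j + wt l = m → h 0 (bw l) = 0) ∧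
      ∀ l, j + wt l = m → stf (fun l => g (bw l)) (List.replicate j 0) l =
        ∑ p ∈ range (m - j + 1), strip p (h p) (bw l)) := by
    intro j
    by_cases hj : 1 ≤ j ∧ j ≤ m
    · obtain ⟨h, hh⟩ := h0 N f hf m g hg j hj.1 hj.2
      exact ⟨h, fun _ _ => hh⟩
    · exact ⟨fun _ _ => 0, fun h1 h2 => absurd ⟨h1, h2⟩ hj⟩
  choose h hh using hex
  -- the equation
  have eqn : ∀ (R : Type) [CommRing R] [Algebra (ZMod 2) R] (τ b : R) (ρ : List R),
      E τ m (castB R g) (X 0 ρ) + ∑ j ∈ range m, ∑ p ∈ range (m - j), τ ^ (j + 1) * b ^ p *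
        E τ (m - (j + 1) - p) (castB R (h (j + 1) p)) (X 0 ρ) = 0 := by
    intro R _ _ τ b ρ
    have e1 := hE m g h (by
      intro j l hj hl
      have hj2 : j ≤ m := by omega
      exact (hh j hj hj2).2.2 l hl) R τ b ρ
    rw [F_zero τ m (fun l => castB R g (bw l)) (X b ρ) (by
      intro l hl hw
      show algebraMap (ZMod 2) R (g (bw l)) = 0
      rw [hNX l hl hw, map_zero])] at e1
    rw [hTI m g hregm R τ b 0 ρ] at e1
    refine Eq.trans ?_ e1.symm
    congr 1
    refine sum_congr rfl fun j hj => sum_congr rfl fun p hp => ?_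
    have hj' := mem_range.1 hj
    have hp' := mem_range.1 hp
    congr 1
    refine hTI _ _ ?_ R τ 0 b ρ
    intro i w hi hw hiw
    have hk := (hh (j + 1) (by omega) (by omega)).1 p (by omega)
    exact kk_reg hf hk i w hi hw hiw
  -- all `h_{j,p}` vanish
  have hvan : ∀ p, ∀ j, j < m → p < m - j → ∀ w, EndY w → w.length = m - (j + 1) - p →
      h (j + 1) p w = 0 := by
    intro p
    rcases Nat.eq_zero_or_pos p with rfl | hp
    · intro j hj _ w hw hl
      obtain ⟨l, rfl, hl'⟩ := exists_bw' w hw
      exact (hh (j + 1) (by omega) (by omega)).2.1 l (by omega)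
    intro j
    induction j using Nat.strong_induction_on with
    | _ j ihj =>
    intro hj hpj
    have hk := (hh (j + 1) (by omega) (by omega)).1 p (by omega)
    refine ih (m - (j + 1) - p) (by omega) _ hk ?_
    refine hL N f hf _ _ hk ?_
    intro R _ _ ρ
    -- polynomials in `τ`
    let S := Polynomial R
    let τ : S := Polynomial.X
    let σ : List S := ρ.map Polynomial.C
    let e : ℕ → S := fun i => if p < m - i then
      E τ (m - (i + 1) - p) (castB S (h (i + 1) p)) (X 0 σ) else 0
    have hsum : ∑ i ∈ range m, Polynomial.X ^ (i + 1) * e i = 0 := by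
      have h1 := poly_coeff (R := S) m τ (E τ m (castB S g) (X 0 σ))
        (fun i q => E τ (m - (i + 1) - q) (castB S (h (i + 1) q)) (X 0 σ)) (by
          have h2 := eqn (Polynomial S) (Polynomial.C τ) Polynomial.X (σ.map Polynomial.C)
          have h3 : ∀ (n : ℕ) (ψ : List Bool → ZMod 2),
              E (Polynomial.C τ) n (castB (Polynomial S) ψ) (X 0 (σ.map Polynomial.C)) =
                Polynomial.C (E τ n (castB S ψ) (X 0 σ)) := by
            intro n ψ
            rw [E_nat (Polynomial.C : S →+* Polynomial S), map_zero]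
          simp only [h3] at h2
          exact h2) p hp
      rw [← h1]
      refine sum_congr rfl fun i _ => ?_
      simp only [e]
      split_ifs
      · rfl
      · rw [mul_zero]
    have hlow := low_coeff m j e hsum hj (by
      intro i hi
      simp only [e]
      split_ifs with hpi
      · refine E_eq_zero _ _ _ _ fun w hwl hw => ?_
        show algebraMap (ZMod 2) S (h (i + 1) p w) = 0
        rw [ihj i hi (by omega) hpi w hw hwl, map_zero]
      · rfl)
    simp only [e, if_pos hpj] at hlow
    have h4 := E_nat (Polynomial.evalRingHom (0 : R)) τ (m - (j + 1) - p)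
      (h (j + 1) p) 0 σ
    rw [Polynomial.coe_evalRingHom] at h4
    rw [hlow] at h4
    have h5 : σ.map (Polynomial.eval (0 : R)) = ρ := by
      simp only [σ, List.map_map]
      conv_rhs => rw [← List.map_id ρ]
      refine List.map_congr_left fun r _ => ?_
      simp
    rw [h5] at h4
    simp only [τ, Polynomial.eval_X, Polynomial.eval_zero] at h4
    exact h4.symm
  -- `y^j * w` is killed
  have s3 : IsT m g := by
    intro j w hj _ hw
    rw [stz_eq]
    have hjm : j ≤ m := by omega
    have hwt : j + wt w = m := by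
      unfold wt
      omega
    rw [(hh j hj hjm).2.2 w hwt]
    refine sum_eq_zero fun p hp => ?_
    have hp' := mem_range.1 hp
    obtain ⟨i, rfl⟩ : ∃ i, j = i + 1 := ⟨j - 1, by omega⟩
    rcases Nat.lt_or_ge p (m - i) with hpi | hpi
    · refine strip_zero (m - (i + 1) - p) p _ (hvan p i (by omega) hpi) _ (Inj.endY_bw w) ?_
      rw [Inj.bw_length]
      omega
    · omega
  rcases Nat.lt_or_ge m 2 with hm2 | hm2
  · intro w hw hl
    obtain ⟨l, rfl, hl'⟩ := exists_bw' w hw
    refine hNX l ?_ (by omega)
    intro a ha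
    have h1 : a ≤ l.sum := List.single_le_sum (by simp) a ha
    have h2 : wt l = l.sum + l.length := rfl
    have h3 : 0 < l.length := List.length_pos_of_mem ha
    omega
  · intro w hw hl
    obtain ⟨l, rfl, hl'⟩ := exists_bw' w hw
    refine hRed m g hm2 s2 s3 ?_ l ?_
    · intro l hl hw
      exact hNX l hl hw
    · have : wt l = l.sum + l.length := rfl
      omega

end MP154526.Lin
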