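import Pool.Agent.Lib.MP_154526_nt.Lin.Basic

/-!
# INSA: the class `FF` satisfies the axioms `Cls`
-/

set_option autoImplicit false

namespace MP154526.Lin

open Finset MP154526.Top MP154526.Top.Front MP154526.Top.Pass2

namespace InsA

/-! ### naturality of `E` -/

section Map

variable {R S : Type} [CommRing R] [CommRing S]

theorem dT_map (φ : R →+* S) (τ : R) (c : List Bool → R) (w : List Bool) :
    φ (dT τ c w) = dT (φ τ) (fun v => φ (c v)) w := by
  induction w generalizing c with
  | nil => simp [dT]
  | cons g w ih =>
    cases g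
    · rw [dT_false, dT_false, map_add, ih]
    · rw [dT_true, dT_true, map_add, map_mul, ih]

theorem E_map (φ : R →+* S) (τ : R) (n : ℕ) (ψ c : List Bool → R) :
    φ (E τ n ψ c) = E (φ τ) n (fun w => φ (ψ w)) (fun w => φ (c w)) := by
  induction n generalizing ψ c with
  | zero => rw [E_zero', E_zero', map_mul]
  | succ n ih =>
    rw [E_succ, E_succ, map_add, ih, ih]
    have h1 : (fun w => φ (dT τ c w)) = dT (φ τ) fun w => φ (c w) :=
      funext fun w => dT_map φ τ c w
    rw [h1]
    rfl

theorem X_map (φ : R →+* S) (b : R) (ρ : List R) (w : List Bool) :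
    φ (X b ρ w) = X (φ b) (ρ.map φ) w := by
  induction w generalizing b ρ with
  | nil => cases ρ <;> simp [X]
  | cons g w ih =>
    cases g
    · rw [X_false, X_false, map_mul, ih]
    · cases ρ with
      | nil => simp [X]
      | cons r ρ => simp [X, ih]

end Map

/-! ### homogeneity -/

section Hom

variable {R : Type} [CommRing R]

/-- number of letters `false` plus twice the number of letters `true` -/
def dg : List Bool → ℕ
  | [] => 0
  | false :: w => dg w + 1
  | true :: w => dg w + 2

theorem dT_hom (l : R) (t : ℕ) (w : List Bool) : ∀ (s : ℕ) (c c1 : List Bool → R),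
    (∀ w, l ^ t * c w = l ^ (s + dg w) * c1 w) →
    l ^ t * dT l c w = l ^ (s + 1 + dg w) * dT 1 c1 w := by
  induction w with
  | nil => intro s c c1 _; simp [dT]
  | cons g w ih =>
    intro s c c1 h
    cases g
    · rw [dT_false, dT_false, mul_add, mul_add, h]
      congr 1
      · simp only [dg]
        congr 2
        omega
      · rw [ih (s + 1) (fun v => c (false :: v)) (fun v => c1 (false :: v))
          (fun v => by rw [h]; simp only [dg]; congr 2; omega)]
        simp only [dg]
        congr 2
        omega
    · rw [dT_true, dT_true, mul_add, mul_add]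
      congr 1
      · rw [mul_left_comm, h, one_mul, ← mul_assoc, ← pow_succ']
        simp only [dg]
        congr 2
        omega
      · rw [ih (s + 2) (fun v => c (true :: v)) (fun v => c1 (true :: v))
          (fun v => by rw [h]; simp only [dg]; congr 2; omega)]
        simp only [dg]
        congr 2
        omega

theorem E_hom (l : R) (t n : ℕ) : ∀ (s : ℕ) (ψ c c1 : List Bool → R),
    (∀ w, l ^ t * c w = l ^ (s + dg w) * c1 w) →
    l ^ t * E l n ψ c = l ^ (s + n) * E 1 n ψ c1 := by
  induction n with
  | zero =>
    intro s ψ c c1 h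
    have := h []
    simp only [dg, add_zero] at this
    rw [E_zero', E_zero', mul_left_comm, this, add_zero]
    ring
  | succ n ih =>
    intro s ψ c c1 h
    rw [E_succ, E_succ, mul_add, mul_add]
    congr 1
    · rw [ih (s + 1) _ (dT l c) (dT 1 c1) (fun w => dT_hom l t w s c c1 h)]
      congr 2
      omega
    · rw [ih (s + 1) _ (yT c) (yT c1) (fun w => by
        show l ^ t * c (false :: w) = l ^ (s + 1 + dg w) * c1 (false :: w)
        rw [h]; simp only [dg]; congr 2; omega)]
      congr 2
      omega

theorem X_hom (l : R) (w : List Bool) : ∀ (b : R) (ρ : List R),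
    l ^ (2 * ρ.length) * X (l * b) (ρ.map (l * ·)) w = l ^ (0 + dg w) * X b ρ w := by
  induction w with
  | nil => intro b ρ; cases ρ <;> simp [X, dg]
  | cons g w ih =>
    intro b ρ
    cases g
    · rw [X_false, X_false]
      have := ih b ρ
      simp only [dg]
      rw [show l ^ (2 * ρ.length) * (l * b * X (l * b) (ρ.map (l * ·)) w) =
        l * b * (l ^ (2 * ρ.length) * X (l * b) (ρ.map (l * ·)) w) by ring, this]
      ring
    · cases ρ with
      | nil => simp [X]
      | cons r ρ =>
        have := ih (b + r) ρ
        simp only [X, List.map_cons, List.length_cons, dg]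
        rw [← mul_add, show l ^ (2 * (ρ.length + 1)) * X (l * (b + r)) (ρ.map (l * ·)) w =
          l ^ 2 * (l ^ (2 * ρ.length) * X (l * (b + r)) (ρ.map (l * ·)) w) by ring, this]
        ring

theorem E_rep (l : R) (i k : ℕ) (ψ : List Bool → R) :
    l ^ (2 * k) * E l i ψ (X 0 (List.replicate k l)) =
      l ^ i * E 1 i ψ (X 0 (List.replicate k 1)) := by
  have h : ∀ w, l ^ (2 * k) * X 0 (List.replicate k l) w =
      l ^ (0 + dg w) * X 0 (List.replicate k 1) w := by
    intro w
    have := X_hom l w 0 (List.replicate k 1)
    simpa using this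
  have := E_hom l (2 * k) i 0 ψ _ _ h
  rwa [zero_add] at this

end Hom

theorem E_univ (i k : ℕ) (g : List Bool → ZMod 2) (R : Type) [CommRing R] [Algebra (ZMod 2) R]
    (l : R) (B : ZMod 2) (hB : E (1 : ZMod 2) i g (X 0 (List.replicate k 1)) = B) :
    (B = 0 → E l i (castB R g) (X 0 (List.replicate k l)) = 0) ∧
    (2 * k ≤ i → E l i (castB R g) (X 0 (List.replicate k l)) =
      l ^ (i - 2 * k) * algebraMap (ZMod 2) R B) := by
  let P := Polynomial (ZMod 2)
  have h1 : (Polynomial.X : P) ^ (2 * k) * E (Polynomial.X : P) i (castB P g)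
      (X 0 (List.replicate k Polynomial.X)) = Polynomial.X ^ i * Polynomial.C B := by
    rw [E_rep, ← hB]
    congr 1
    rw [E_map (Polynomial.C : ZMod 2 →+* P)]
    have e1 : (fun w => (Polynomial.C : ZMod 2 →+* P) (X 0 (List.replicate k 1) w)) =
        X 0 (List.replicate k 1) := by
      funext w
      rw [X_map]
      simp
    rw [e1, map_one]
    rfl
  have h2 : ∀ A : P, E (Polynomial.X : P) i (castB P g)
      (X 0 (List.replicate k Polynomial.X)) = A →
      E l i (castB R g) (X 0 (List.replicate k l)) =
        Polynomial.eval₂RingHom (algebraMap (ZMod 2) R) l A := by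
    intro A hA
    rw [← hA, E_map]
    have e1 : (fun w => Polynomial.eval₂RingHom (algebraMap (ZMod 2) R) l
        (X 0 (List.replicate k (Polynomial.X : P)) w)) = X 0 (List.replicate k l) := by
      funext w
      rw [X_map]
      simp
    have e2 : (fun w => Polynomial.eval₂RingHom (algebraMap (ZMod 2) R) l (castB P g w)) =
        castB R g := by
      funext w
      have : (Polynomial.eval₂RingHom (algebraMap (ZMod 2) R) l).comp
        (algebraMap (ZMod 2) P) = algebraMap (ZMod 2) R := Subsingleton.elim _ _
      exact congrArg (fun φ : ZMod 2 →+* R => φ (g w)) this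
    rw [e1, e2]
    simp
  have hX : (Polynomial.X : P) ^ (2 * k) ≠ 0 := pow_ne_zero _ Polynomial.X_ne_zero
  constructor
  · intro h0
    have : E (Polynomial.X : P) i (castB P g) (X 0 (List.replicate k Polynomial.X)) = 0 := by
      rw [h0, map_zero, mul_zero] at h1
      exact (mul_eq_zero.1 h1).resolve_left hX
    rw [h2 _ this, map_zero]
  · intro hk
    have : E (Polynomial.X : P) i (castB P g) (X 0 (List.replicate k Polynomial.X)) =
        Polynomial.X ^ (i - 2 * k) * Polynomial.C B := by
      apply mul_left_cancel₀ hX
      rw [h1, ← mul_assoc, ← pow_add, Nat.add_sub_cancel' hk]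
    rw [h2 _ this]
    simp only [map_mul, map_pow, Polynomial.coe_eval₂RingHom, Polynomial.eval₂_X,
      Polynomial.eval₂_C]

/-! ### the class -/

theorem act_cast (A : Multiset (List Bool)) (ψ : List Bool → ℤ) (w : List Bool) :
    ((act A ψ w : ℤ) : ZMod 2) = act A (fun w => (ψ w : ZMod 2)) w := by
  unfold act
  have := map_multiset_sum (Int.castAddHom (ZMod 2)) (A.map fun u => shs ψ u w)
  rw [show ((((A.map fun u => shs ψ u w).sum : ℤ)) : ZMod 2) =
    Int.castAddHom (ZMod 2) ((A.map fun u => shs ψ u w).sum) from rfl, this, Multiset.map_map]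
  congr 1
  refine Multiset.map_congr rfl fun u _ => ?_
  exact shs_map (Int.castAddHom (ZMod 2)) ψ u w

theorem shs_cast (ψ : List Bool → ℤ) (u v : List Bool) :
    ((shs ψ u v : ℤ) : ZMod 2) = shs (fun w => (ψ w : ZMod 2)) u v :=
  shs_map (Int.castAddHom (ZMod 2)) ψ u v

end InsA

open InsA

theorem specCls (hB : SpecInsB) (hVK : SpecVK2) (hClo : SpecClo) : SpecCls where
  rr := by
    rintro n f ⟨ψ, hψ, rfl⟩
    exact hψ.mod2
  zz := by
    rintro n f ⟨ψ, hψ, rfl⟩ m hm
    refine ⟨act (zV m) ψ, hClo n m ψ hψ hm, ?_⟩
    funext w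
    rw [act_cast, hVK]
  ins := by
    rintro n f ⟨ψ, hψ, rfl⟩ k hk
    obtain ⟨κ, hκ1, hκ0, hκ⟩ := hB k hk
    refine ⟨fun m => (κ m : ZMod 2), by simp [hκ1], ?_⟩
    intro R _ _ l b ρ
    set f : List Bool → ZMod 2 := fun w => (ψ w : ZMod 2) with hf
    have h1 : shs (fun ρ' => E l n (castB R f) (X b ρ')) (List.replicate k l) ρ =
        ∑ i ∈ range (n + 1), E l (n - i) (fun v => E l i (fun u => shs (castB R f) u v)
          (X 0 (List.replicate k l))) (X b ρ) := by
      rw [E_shs]
      have e : (fun w => shs (fun ρ => X b ρ w) (List.replicate k l) ρ) =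
          mulc (X 0 (List.replicate k l)) (X b ρ) := by
        funext w
        rw [mulc_X, zero_add]
      rw [e, ← G_sum, Nat.sum_antidiagonal_eq_sum_range_succ_mk]
      refine sum_congr rfl fun i _ => ?_
      exact E_comm _ _ _ _ _ _
    rw [h1]
    -- the inner value
    have h2 : ∀ i ∈ range (n + 1), E l (n - i) (fun v => E l i (fun u => shs (castB R f) u v)
          (X 0 (List.replicate k l))) (X b ρ) =
        if i % 2 = 0 ∧ k ≤ i / 2 then algebraMap (ZMod 2) R (κ (i / 2)) *
          l ^ (2 * (i / 2 - k)) * E l (n - 2 * (i / 2)) (castB R (dot (zp (i / 2)) f)) (X b ρ)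
        else 0 := by
      intro i hi
      have hi' : i ≤ n := by simpa [Nat.lt_succ_iff] using hi
      have h3 : ∀ v : List Bool, v.length = n - i → EndY v →
          E (1 : ZMod 2) i (fun u => shs f u v) (X 0 (List.replicate k 1)) =
            if i % 2 = 0 then (κ (i / 2) : ZMod 2) * dot (zp (i / 2)) f v else 0 := by
        intro v hv hY
        have h4 := hκ n ψ hψ i v hY (by omega)
        have h5 : (((E (1 : ℤ) i (fun u => shs ψ u v) (X 0 (List.replicate k 1)) -
          if i % 2 = 0 then κ (i / 2) * act (zV (i / 2)) ψ v else 0 : ℤ)) : ZMod 2) = 0 :=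
          (ZMod.intCast_zmod_eq_zero_iff_dvd _ 2).2 (by exact_mod_cast h4)
        rw [Int.cast_sub, sub_eq_zero] at h5
        have h6 : ((E (1 : ℤ) i (fun u => shs ψ u v) (X 0 (List.replicate k 1)) : ℤ) : ZMod 2) =
            E (1 : ZMod 2) i (fun u => shs f u v) (X 0 (List.replicate k 1)) := by
          rw [show (((E (1 : ℤ) i (fun u => shs ψ u v) (X 0 (List.replicate k 1)) : ℤ)) :
            ZMod 2) = Int.castRingHom (ZMod 2) (E (1 : ℤ) i (fun u => shs ψ u v)
              (X 0 (List.replicate k 1))) from rfl, E_map]
          have e1 : (fun w => Int.castRingHom (ZMod 2) (X 0 (List.replicate k 1) w)) =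
              X 0 (List.replicate k 1) := by
            funext w
            rw [X_map]
            simp
          have e2 : (fun w => Int.castRingHom (ZMod 2) (shs ψ w v)) = fun u => shs f u v :=
            funext fun u => shs_cast ψ u v
          rw [e1, e2, map_one]
        rw [← h6, h5]
        split_ifs with h
        · rw [Int.cast_mul, act_cast, hVK]
        · simp
      have h7 : ∀ v : List Bool, v.length = n - i → EndY v →
          E l i (fun u => shs (castB R f) u v) (X 0 (List.replicate k l)) =
            if i % 2 = 0 ∧ k ≤ i / 2 then algebraMap (ZMod 2) R (κ (i / 2)) *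
              l ^ (2 * (i / 2 - k)) * castB R (dot (zp (i / 2)) f) v else 0 := by
        intro v hv hY
        have h8 := E_univ i k (fun u => shs f u v) R l _ (h3 v hv hY)
        have h9 : (fun u => shs (castB R f) u v) = castB R (fun u => shs f u v) := by
          funext u
          exact shs_castB f u v
        rw [h9]
        split_ifs with h
        · rw [h8.2 (by omega), if_pos h.1, map_mul]
          have : i - 2 * k = 2 * (i / 2 - k) := by omega
          rw [this]
          show _ = _ * algebraMap (ZMod 2) R (dot (zp (i / 2)) f v)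
          ring
        · apply h8.1
          split_ifs with h'
          · have hlt : i / 2 < k := by
              by_contra hc
              exact h ⟨h', by omega⟩
            rw [hκ0 _ hlt]
            simp
          · rfl
      rw [E_congr l (n - i) _ _ (X b ρ) h7]
      split_ifs with h
      · rw [E_mul_left]
        have : n - i = n - 2 * (i / 2) := by omega
        rw [this]
      · exact E_zero_left _ _ _
    rw [sum_congr rfl h2, ← sum_filter]
    refine sum_nbij' (fun i => i / 2) (fun m => 2 * m) ?_ ?_ ?_ ?_ ?_
    · intro i hi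
      simp only [mem_filter, mem_range] at hi ⊢
      omega
    · intro m hm
      simp only [mem_filter, mem_range] at hm ⊢
      omega
    · intro i hi
      simp only [mem_filter, mem_range] at hi
      omega
    · intro m hm
      simp only [mem_filter, mem_range] at hm
      omega
    · intro i hi
      rfl

end MP154526.Lin
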