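import Pool.Agent.Lib.MP_154526_nt.Lin.InsB2

section
/-!
# INSB, part 3: `h_m = V_m + 2 (…)` on the functionals killing all relations
-/
set_option autoImplicit false

namespace MP154526.Lin.InsB

open Finset MP154526.Top MP154526.Top.Front MP154526.Top.Pass2

/-! ### `hev` -/

section
variable {M : Type} [AddCommMonoid M]

theorem hev_zero (f : List ℕ → M) : hev 0 f = f [] := by rw [hev]

theorem hev_succ (m : ℕ) (f : List ℕ → M) :
    hev (m + 1) f = ∑ a : Fin (m + 1), hev (m - a) (fun l => f ((2 * a.1 + 1) :: l)) := by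
  rw [hev]

theorem hev_map {N : Type} [AddCommMonoid N] (L : M →+ N) (m : ℕ) (f : List ℕ → M) :
    L (hev m f) = hev m (fun l => L (f l)) := by
  induction m using Nat.strong_induction_on generalizing f with
  | _ m ih =>
    cases m with
    | zero => rw [hev_zero, hev_zero]
    | succ m =>
      rw [hev_succ, hev_succ, map_sum]
      exact Finset.sum_congr rfl fun a _ => ih _ (by omega) _

theorem hev_congr (m : ℕ) (f g : List ℕ → M) (h : ∀ l, Ad l → wt l = 2 * m → f l = g l) :
    hev m f = hev m g := by
  induction m using Nat.strong_induction_on generalizing f g with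
  | _ m ih =>
    cases m with
    | zero => rw [hev_zero, hev_zero]; exact h [] ad_nil (by simp)
    | succ m =>
      rw [hev_succ, hev_succ]
      refine Finset.sum_congr rfl fun a _ => ih _ (by omega) _ _ fun l _ hl => ?_
      have ha := a.2
      exact h _ (ad_cons _ _) (by rw [wt_cons]; omega)

theorem hev_mem (S : AddSubmonoid M) (m : ℕ) (f : List ℕ → M)
    (h : ∀ l, wt l = 2 * m → f l ∈ S) : hev m f ∈ S := by
  induction m using Nat.strong_induction_on generalizing f with
  | _ m ih =>
    cases m with
    | zero => rw [hev_zero]; exact h [] (by simp)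
    | succ m =>
      rw [hev_succ]
      refine S.sum_mem fun a _ => ih _ (by omega) _ fun l hl => ?_
      have ha := a.2
      exact h _ (by rw [wt_cons]; omega)

theorem hev_add (m : ℕ) (f g : List ℕ → M) :
    hev m (fun l => f l + g l) = hev m f + hev m g := by
  induction m using Nat.strong_induction_on generalizing f g with
  | _ m ih =>
    cases m with
    | zero => rw [hev_zero, hev_zero, hev_zero]
    | succ m =>
      rw [hev_succ, hev_succ, hev_succ, ← Finset.sum_add_distrib]
      exact Finset.sum_congr rfl fun a _ => ih _ (by omega) _ _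

end

theorem hev_mul (m : ℕ) (c : ℤ) (f : List ℕ → ℤ) : hev m (fun l => c * f l) = c * hev m f :=
  (hev_map (AddMonoidHom.mulLeft c) m f).symm

/-! ### integral combinations of words of `ℌ¹` as functionals -/

/-- the integral combinations of words of `ℌ¹` of length `j` -/
def SG (j : ℕ) : AddSubgroup ((List Bool → ℤ) → ℤ) where
  carrier := {Λ | ∃ q : List Bool → ℤ, (∀ w, q (w ++ [false]) = 0) ∧
    ∀ F, Λ F = SS j (fun w => q w * F w)}
  zero_mem' := ⟨fun _ => 0, fun _ => rfl, fun F => by
    simp only [zero_mul]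
    rw [SS_const_zero]
    rfl⟩
  add_mem' := by
    rintro Λ Λ' ⟨q, hq, h⟩ ⟨q', hq', h'⟩
    refine ⟨fun w => q w + q' w, fun w => by
      show q (w ++ [false]) + q' (w ++ [false]) = 0
      rw [hq, hq', add_zero], fun F => ?_⟩
    rw [Pi.add_apply, h, h', ← SS_add]
    congr 1
    funext w
    ring
  neg_mem' := by
    rintro Λ ⟨q, hq, h⟩
    refine ⟨fun w => -q w, fun w => by
      show -q (w ++ [false]) = 0
      rw [hq, neg_zero], fun F => ?_⟩
    rw [Pi.neg_apply, h, ← neg_one_mul, ← SS_mul]
    congr 1
    funext w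
    ring

theorem ev_mem (w : List Bool) (hw : EndY w) : (fun F : List Bool → ℤ => F w) ∈ SG w.length := by
  refine ⟨fun u => if u = w then 1 else 0, fun u => ?_, fun F => (SS_single w F).symm⟩
  refine if_neg ?_
  rintro rfl
  rw [Pass1.endY_iff] at hw
  have := hw false (by simp)
  simp at this

theorem SG.congr {j : ℕ} {Λ : (List Bool → ℤ) → ℤ} (h : Λ ∈ SG j) {F G : List Bool → ℤ}
    (hF : ∀ w, EndY w → w.length = j → F w = G w) : Λ F = Λ G := by
  obtain ⟨q, hq, h⟩ := h
  rw [h, h]
  refine SS_congr _ _ _ fun w hw => ?_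
  rcases endY_or w with hE | ⟨u, rfl⟩
  · rw [hF w hE hw]
  · rw [hq, zero_mul, zero_mul]

theorem SG.add {j : ℕ} {Λ : (List Bool → ℤ) → ℤ} (h : Λ ∈ SG j) (F G : List Bool → ℤ) :
    Λ (fun w => F w + G w) = Λ F + Λ G := by
  obtain ⟨q, hq, h⟩ := h
  rw [h, h, h, ← SS_add]
  congr 1
  funext w
  ring

theorem SG.zero {j : ℕ} {Λ : (List Bool → ℤ) → ℤ} (h : Λ ∈ SG j) : Λ (fun _ => 0) = 0 := by
  obtain ⟨q, hq, h⟩ := h
  rw [h]
  simp only [mul_zero]
  exact SS_const_zero j

/-- as additive homomorphism -/
def SG.hom {j : ℕ} {Λ : (List Bool → ℤ) → ℤ} (h : Λ ∈ SG j) : (List Bool → ℤ) →+ ℤ where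
  toFun := Λ
  map_zero' := SG.zero h
  map_add' := SG.add h

theorem SG.hom_apply {j : ℕ} {Λ : (List Bool → ℤ) → ℤ} (h : Λ ∈ SG j) (F : List Bool → ℤ) :
    SG.hom h F = Λ F := rfl

/-- exchange with a shuffle sum -/
theorem SG.shs {j : ℕ} {Λ : (List Bool → ℤ) → ℤ} (h : Λ ∈ SG j) (G : List Bool → List Bool → ℤ)
    (u v : List Bool) : Λ (fun c => Top.shs (G c) u v) = Top.shs (fun t => Λ (fun c => G c t)) u v := by
  have h1 := shs_map (SG.hom h) (fun t => fun c => G c t) u v
  have h2 : Top.shs (fun t => fun c => G c t) u v = fun c => Top.shs (G c) u v := by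
    funext c
    exact shs_map (Pi.evalAddMonoidHom (fun _ : List Bool => ℤ) c) (fun t => fun c => G c t) u v
  rw [h2] at h1
  exact h1

theorem SG.stf {j : ℕ} {Λ : (List Bool → ℤ) → ℤ} (h : Λ ∈ SG j) (G : List Bool → List ℕ → ℤ)
    (u v : List ℕ) :
    Λ (fun c => Pass2.stf (G c) u v) = Pass2.stf (fun t => Λ (fun c => G c t)) u v := by
  have h1 := stf_map (SG.hom h) (fun t => fun c => G c t) u v
  have h2 : Pass2.stf (fun t => fun c => G c t) u v = fun c => Pass2.stf (G c) u v := by
    funext c
    exact stf_map (Pi.evalAddMonoidHom (fun _ : List Bool => ℤ) c) (fun t => fun c => G c t) u v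
  rw [h2] at h1
  exact h1

theorem SG.hev {j : ℕ} {Λ : (List Bool → ℤ) → ℤ} (h : Λ ∈ SG j) (G : List Bool → List ℕ → ℤ)
    (m : ℕ) : Λ (fun c => Lin.hev m (G c)) = Lin.hev m (fun t => Λ (fun c => G c t)) := by
  have h1 := hev_map (SG.hom h) m (fun t => fun c => G c t)
  have h2 : Lin.hev m (fun t => fun c => G c t) = fun c => Lin.hev m (G c) := by
    funext c
    exact hev_map (Pi.evalAddMonoidHom (fun _ : List Bool => ℤ) c) m (fun t => fun c => G c t)
  rw [h2] at h1
  exact h1

/-- a function of words with values in functionals, `SS` of it -/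
theorem SS_mem (i : ℕ) (S : AddSubgroup ((List Bool → ℤ) → ℤ))
    (G : List Bool → (List Bool → ℤ) → ℤ) (h : ∀ w, w.length = i → G w ∈ S) :
    (fun F => SS i (fun w => G w F)) ∈ S := by
  induction i generalizing G with
  | zero => exact h [] rfl
  | succ i ih =>
    have h1 := S.add_mem (ih (fun w => G (false :: w)) fun w hw => h _ (by simp [hw]))
      (ih (fun w => G (true :: w)) fun w hw => h _ (by simp [hw]))
    exact h1

theorem mul_mem' (S : AddSubgroup ((List Bool → ℤ) → ℤ)) (c : ℤ) (Λ : (List Bool → ℤ) → ℤ)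
    (h : Λ ∈ S) : (fun F => c * Λ F) ∈ S := by
  have := S.zsmul_mem h c
  have e : c • Λ = fun F => c * Λ F := by
    funext F
    simp
  rwa [e] at this

/-- substitution: an integral combination of `G w`, `G w` integral combinations -/
theorem SG.comp {i : ℕ} {Λ : (List Bool → ℤ) → ℤ} (h : Λ ∈ SG i) {k : ℕ}
    (G : List Bool → (List Bool → ℤ) → ℤ) (hG : ∀ w, EndY w → w.length = i → G w ∈ SG k) :
    (fun F => Λ (fun w => G w F)) ∈ SG k := by
  obtain ⟨q, hq, h⟩ := h
  have e : (fun F => Λ (fun w => G w F)) = fun F => SS i (fun w => q w * G w F) := by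
    funext F
    rw [h]
  rw [e]
  refine SS_mem i (SG k) (fun w F => q w * G w F) fun w hw => ?_
  rcases endY_or w with hE | ⟨u, rfl⟩
  · exact mul_mem' _ _ _ (hG w hE hw)
  · rw [hq]
    have : (fun F : List Bool → ℤ => (0 : ℤ) * G (u ++ [false]) F) = 0 := by
      funext F
      simp
    rw [this]
    exact (SG k).zero_mem

theorem shs_SG (u v : List Bool) (hu : EndY u) (hv : EndY v) (k : ℕ)
    (hk : u.length + v.length = k) : (fun F : List Bool → ℤ => Top.shs F u v) ∈ SG k := by
  have h := shs_mem (SG k).toAddSubmonoid (fun w => fun F : List Bool → ℤ => F w) u v hu hv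
    (fun l hl1 hl2 => by
      have := ev_mem l hl1
      rw [hl2, hk] at this
      exact this)
  have e : (Top.shs (fun w => fun F : List Bool → ℤ => F w) u v) = fun F => Top.shs F u v := by
    funext F
    exact shs_map (Pi.evalAddMonoidHom (fun _ : List Bool → ℤ => ℤ) F)
      (fun w => fun F : List Bool → ℤ => F w) u v
  rw [e] at h
  exact h

theorem stf_SG (u v : List ℕ) (k : ℕ) (hk : wt u + wt v = k) :
    (fun F : List Bool → ℤ => Pass2.stf (fun l => F (bw l)) u v) ∈ SG k := by
  have h := stf_mem (SG k).toAddSubmonoid (fun w => fun F : List Bool → ℤ => F (bw w)) u v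
    (fun l hl => by
      have := ev_mem (bw l) (Pass2.endY_bw l)
      rw [Pass2.bw_length, hl, hk] at this
      exact this)
  have e : (Pass2.stf (fun w => fun F : List Bool → ℤ => F (bw w)) u v) =
      fun F => Pass2.stf (fun l => F (bw l)) u v := by
    funext F
    exact stf_map (Pi.evalAddMonoidHom (fun _ : List Bool → ℤ => ℤ) F)
      (fun w => fun F : List Bool → ℤ => F (bw w)) u v
  rw [e] at h
  exact h

theorem hev_SG (m k : ℕ) (G : List ℕ → (List Bool → ℤ) → ℤ)
    (hG : ∀ l, wt l = 2 * m → G l ∈ SG k) :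
    (fun F : List Bool → ℤ => Lin.hev m (fun l => G l F)) ∈ SG k := by
  have h := hev_mem (SG k).toAddSubmonoid m G hG
  have e : Lin.hev m G = fun F => Lin.hev m (fun l => G l F) := by
    funext F
    exact hev_map (Pi.evalAddMonoidHom (fun _ : List Bool → ℤ => ℤ) F) m G
  rw [e] at h
  exact h

theorem Z_SG (m k : ℕ) (G : List Bool → (List Bool → ℤ) → ℤ)
    (hG : ∀ u ∈ zV m, G u ∈ SG k) :
    (fun F : List Bool → ℤ => VK.Z m (fun u => G u F)) ∈ SG k := by
  have e : (fun F : List Bool → ℤ => VK.Z m (fun u => G u F)) = ((zV m).map G).sum := by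
    funext F
    unfold VK.Z
    have := map_multiset_sum (Pi.evalAddMonoidHom (fun _ : List Bool → ℤ => ℤ) F) ((zV m).map G)
    rw [Multiset.map_map] at this
    exact this.symm
  rw [e]
  refine (SG k).multiset_sum_mem _ fun a ha => ?_
  obtain ⟨u, hu, rfl⟩ := Multiset.mem_map.1 ha
  exact hG u hu

/-! ### the words of `V_m` -/

theorem zV_endY (m : ℕ) : ∀ u ∈ zV m, EndY u := by
  induction m with
  | zero => intro u hu; simp [zV] at hu; exact Or.inl hu
  | succ m ih =>
    intro u hu
    rw [zV] at hu
    obtain ⟨v, hv, hu⟩ := Multiset.mem_bind.1 hu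
    have h := shs_mem (allM fun w : List Bool => EndY w)
      (fun w => ({false :: w} : Multiset (List Bool))) [true] v Pass1.endY_true (ih v hv)
      (fun l hl hl' => by
        intro a ha
        simp only [Multiset.mem_singleton] at ha
        subst ha
        refine Pass2.endY_cons _ _ hl ?_
        rintro rfl
        simp at hl'
        omega)
    exact h u hu

theorem zp_eq (r : ℕ) : bw (List.replicate r 1) = zp r := by
  induction r with
  | zero => rfl
  | succ r ih =>
    rw [List.replicate_succ, zp, ← ih]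
    rfl

theorem zp_length (r : ℕ) : (zp r).length = 2 * r := by
  induction r with
  | zero => rfl
  | succ r ih => rw [zp, List.length_cons, List.length_cons, ih]; ring

theorem zp_endY (r : ℕ) : EndY (zp r) := by
  rw [← zp_eq]
  exact Pass2.endY_bw _

/-- `(xy)^r = V_r + 2 (…)` -/
theorem exists_C (r : ℕ) : ∃ Λ ∈ SG (2 * r), ∀ F : List Bool → ℤ,
    F (zp r) = VK.Z r F + 2 * Λ F := by
  have hpar : ∀ w : List Bool, ∃ c : ℤ,
      (if w = zp r then (1 : ℤ) else 0) = ((zV r).count w : ℤ) + 2 * c := by
    intro w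
    have h := VK.Z_two r (fun u => if w = u then (1 : ZMod 2) else 0)
    have h1 : VK.Z r (fun u => if w = u then (1 : ZMod 2) else 0) =
        (((zV r).count w : ℕ) : ZMod 2) := by
      unfold VK.Z
      generalize zV r = A
      induction A using Multiset.induction with
      | empty => simp
      | cons a A ih =>
        rw [Multiset.map_cons, Multiset.sum_cons, ih, Multiset.count_cons]
        push_cast
        ring
    rw [h1] at h
    have h2 : (2 : ℤ) ∣ (if w = zp r then (1 : ℤ) else 0) - ((zV r).count w : ℤ) := by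
      have h3 : (((if w = zp r then (1 : ℤ) else 0) - ((zV r).count w : ℤ) : ℤ) : ZMod 2) = 0 := by
        push_cast
        rw [h]
        split_ifs <;> simp
      exact (ZMod.intCast_zmod_eq_zero_iff_dvd _ 2).1 h3
    obtain ⟨c, hc⟩ := h2
    exact ⟨c, by linarith⟩
  choose c hc using hpar
  refine ⟨fun F => SS (2 * r) (fun w => c w * F w), ⟨c, fun w => ?_, fun F => rfl⟩, fun F => ?_⟩
  · have h := hc (w ++ [false])
    have hne : ∀ v : List Bool, EndY v → w ++ [false] ≠ v := by
      rintro v hv rfl
      rw [Pass1.endY_iff] at hv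
      have := hv false (by simp)
      simp at this
    rw [if_neg (hne _ (zp_endY r)), Multiset.count_eq_zero_of_notMem] at h
    · push_cast at h
      linarith
    · intro hmem
      exact hne _ (zV_endY r _ hmem) rfl
  · have h1 := SS_single (zp r) F
    have h2 : VK.Z r F = SS (2 * r) (fun u => ((zV r).count u : ℤ) * F u) :=
      (SS_count _ _ _ (zV_length r)).symm
    rw [h2, ← SS_mul, ← SS_add, ← h1, zp_length]
    congr 1
    funext w
    rw [hc w]
    ring

/-- index list of a word -/
noncomputable def ib (w : List Bool) : List ℕ := by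
  classical exact if h : EndY w then (exists_bw h).choose else []

theorem bw_ib {w : List Bool} (h : EndY w) : bw (ib w) = w := by
  unfold ib
  rw [dif_pos h]
  exact (exists_bw h).choose_spec

theorem wt_ib {w : List Bool} (h : EndY w) : wt (ib w) = w.length := by
  rw [← Pass2.bw_length, bw_ib h]

theorem Z_add' (m : ℕ) (F G : List Bool → ℤ) :
    VK.Z m (fun u => F u + G u) = VK.Z m F + VK.Z m G := VK.Z_add m F G

theorem Z_mem {m : ℕ} : (fun F : List Bool → ℤ => VK.Z m F) ∈ SG (2 * m) :=
  Z_SG m (2 * m) (fun u F => F u) fun u hu => by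
    have := ev_mem u (zV_endY m u hu)
    rw [zV_length m u hu] at this
    exact this

theorem act_eq (m : ℕ) (ψ : List Bool → ℤ) (v : List Bool) :
    act (zV m) ψ v = VK.Z m (fun u => shs ψ u v) := rfl

theorem alt_choose (m : ℕ) :
    ∑ r ∈ range (m + 1), (-1 : ℤ) ^ r * ((m + 1).choose (r + 1) : ℤ) = 1 := by
  have h := Int.alternating_sum_range_choose (n := m + 1)
  rw [if_neg (by omega), sum_range_succ'] at h
  simp only [pow_succ] at h
  have e : ∑ r ∈ range (m + 1), (-1 : ℤ) ^ r * -1 * ((m + 1).choose (r + 1) : ℤ) =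
      -∑ r ∈ range (m + 1), (-1 : ℤ) ^ r * ((m + 1).choose (r + 1) : ℤ) := by
    rw [← Finset.sum_neg_distrib]
    refine Finset.sum_congr rfl fun r _ => by ring
  rw [e] at h
  simp at h
  linarith

/-- `shs (V.ψ) u v` -/
theorem shs_act (m : ℕ) (ψ : List Bool → ℤ) (u v : List Bool) :
    shs (act (zV m) ψ) u v = VK.Z m (fun c => shs (fun s => shs ψ s v) c u) := by
  have h1 := (SG.shs (Z_mem (m := m)) (fun c t => shs ψ c t) u v).symm
  have h2 : shs (fun t => VK.Z m (fun c => shs ψ c t)) u v = shs (act (zV m) ψ) u v := rfl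
  rw [← h2, h1]
  unfold VK.Z
  congr 1
  refine Multiset.map_congr rfl fun c _ => ?_
  exact (Pass1.shs_assoc ψ c u v).symm

end MP154526.Lin.InsB
end

section
/-!
# INSB, part 0: the relation `∑ (-1)^r (xy)^r * h_{m-r} = 0`
-/
set_option autoImplicit false

namespace MP154526.Lin.InsB

open Finset MP154526.Top MP154526.Top.Front MP154526.Top.Pass2

theorem hev_succ' (m : ℕ) (f : List ℕ → ℤ) :
    hev (m + 1) f = ∑ a ∈ range (m + 1), hev (m - a) (fun l => f ((2 * a + 1) :: l)) := by
  rw [hev_succ, Finset.sum_range]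

/-- the first letter of `(xy)^{r+1} * h_N` -/
theorem hev_step (N r : ℕ) (f : List ℕ → ℤ) :
    hev N (fun u => stf f (List.replicate (r + 1) 1) u) =
      hev N (fun u => stf (fun l => f (1 :: l)) (List.replicate r 1) u) +
        ∑ a ∈ range N, (hev (N - 1 - a) (fun u => stf (fun l => f ((2 * a + 1) :: l))
            (List.replicate (r + 1) 1) u) +
          hev (N - 1 - a) (fun u => stf (fun l => f ((2 * (a + 1) + 1) :: l))
            (List.replicate r 1) u)) := by
  cases N with
  | zero => simp [hev_zero, List.replicate_succ]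
  | succ N =>
    rw [hev_succ', hev_succ', ← Finset.sum_add_distrib]
    refine Finset.sum_congr rfl fun a _ => ?_
    rw [Nat.add_sub_cancel, ← hev_add, ← hev_add]
    congr 1
    funext l
    rw [List.replicate_succ, stf_cons_cons]
    rw [show 1 + (2 * a + 1) + 1 = 2 * (a + 1) + 1 by ring]
    ring

/-- the alternating sum -/
def Sal (m : ℕ) (f : List ℕ → ℤ) : ℤ :=
  ∑ r ∈ range (m + 1), (-1) ^ r * hev (m - r) (fun u => stf f (List.replicate r 1) u)

theorem Sal_eq (m : ℕ) (f : List ℕ → ℤ) : Sal m f = hev m f -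
    ∑ r ∈ range m, (-1) ^ r *
      hev (m - 1 - r) (fun u => stf f (List.replicate (r + 1) 1) u) := by
  unfold Sal
  rw [Finset.sum_range_succ', sub_eq_add_neg, add_comm, ← Finset.sum_neg_distrib]
  congr 1
  · simp
  · refine Finset.sum_congr rfl fun r hr => ?_
    have := Finset.mem_range.1 hr
    rw [show m - (r + 1) = m - 1 - r by omega, pow_succ]
    ring

theorem Sal_succ (m : ℕ) (f : List ℕ → ℤ) : Sal (m + 1) f = 0 := by
  rw [Sal_eq, Nat.add_sub_cancel]
  have e1 : ∀ r ∈ range (m + 1), (-1 : ℤ) ^ r *
      hev (m - r) (fun u => stf f (List.replicate (r + 1) 1) u) =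
      (-1) ^ r * hev (m - r) (fun u => stf (fun l => f (1 :: l)) (List.replicate r 1) u) +
      (∑ a ∈ range (m - r), (-1) ^ r * hev (m - r - 1 - a)
          (fun u => stf (fun l => f ((2 * a + 1) :: l)) (List.replicate (r + 1) 1) u) +
        ∑ a ∈ range (m - r), (-1) ^ r * hev (m - r - 1 - a)
          (fun u => stf (fun l => f ((2 * (a + 1) + 1) :: l)) (List.replicate r 1) u)) := by
    intro r _
    rw [hev_step, mul_add, Finset.sum_add_distrib, mul_add, Finset.mul_sum, Finset.mul_sum]
  rw [Finset.sum_congr rfl e1, Finset.sum_add_distrib, Finset.sum_add_distrib]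
  -- second sum
  have e2 : ∑ r ∈ range (m + 1), ∑ a ∈ range (m - r), (-1 : ℤ) ^ r * hev (m - r - 1 - a)
      (fun u => stf (fun l => f ((2 * a + 1) :: l)) (List.replicate (r + 1) 1) u) =
      ∑ a ∈ range (m + 1), ∑ r ∈ range (m - a), (-1 : ℤ) ^ r * hev (m - a - 1 - r)
      (fun u => stf (fun l => f ((2 * a + 1) :: l)) (List.replicate (r + 1) 1) u) := by
    rw [Finset.sum_comm' (t' := range (m + 1)) (s' := fun a => range (m - a))]
    · refine Finset.sum_congr rfl fun a _ => Finset.sum_congr rfl fun r _ => ?_
      rw [show m - r - 1 - a = m - a - 1 - r by omega]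
    · intro r a
      simp only [Finset.mem_range]
      omega
  have e3 : ∑ r ∈ range (m + 1), ∑ a ∈ range (m - r), (-1 : ℤ) ^ r * hev (m - r - 1 - a)
      (fun u => stf (fun l => f ((2 * (a + 1) + 1) :: l)) (List.replicate r 1) u) =
      ∑ a ∈ range m, Sal (m - 1 - a) (fun l => f ((2 * (a + 1) + 1) :: l)) := by
    rw [Finset.sum_comm' (t' := range m) (s' := fun a => range (m - a))]
    · refine Finset.sum_congr rfl fun a ha => ?_
      have ha' := Finset.mem_range.1 ha
      unfold Sal
      rw [show m - 1 - a + 1 = m - a by omega]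
      refine Finset.sum_congr rfl fun r hr => ?_
      rw [show m - r - 1 - a = m - 1 - a - r by omega]
    · intro r a
      simp only [Finset.mem_range]
      omega
  have e4 : ∑ r ∈ range (m + 1), (-1 : ℤ) ^ r * hev (m - r)
      (fun u => stf (fun l => f (1 :: l)) (List.replicate r 1) u) =
      Sal m (fun l => f (1 :: l)) := rfl
  rw [e2, e3, e4, hev_succ']
  have e5 : ∀ a ∈ range (m + 1), hev (m - a) (fun l => f ((2 * a + 1) :: l)) =
      Sal (m - a) (fun l => f ((2 * a + 1) :: l)) +
      ∑ r ∈ range (m - a), (-1 : ℤ) ^ r * hev (m - a - 1 - r)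
      (fun u => stf (fun l => f ((2 * a + 1) :: l)) (List.replicate (r + 1) 1) u) := by
    intro a _
    rw [Sal_eq]
    ring
  rw [Finset.sum_congr rfl e5, Finset.sum_add_distrib, Finset.sum_range_succ' _ m]
  have e6 : ∑ k ∈ range m, Sal (m - (k + 1)) (fun l => f ((2 * (k + 1) + 1) :: l)) =
      ∑ a ∈ range m, Sal (m - 1 - a) (fun l => f ((2 * (a + 1) + 1) :: l)) := by
    refine Finset.sum_congr rfl fun a _ => ?_
    rw [show m - (a + 1) = m - 1 - a by omega]
  rw [e6]
  simp only [mul_zero, zero_add, Nat.sub_zero]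
  ring

theorem hev_rel (f : List ℕ → ℤ) (m : ℕ) : hev (m + 1) f =
    ∑ r ∈ range (m + 1), (-1) ^ r *
      hev (m - r) (fun u => stf f (List.replicate (r + 1) 1) u) := by
  have h := Sal_succ m f
  rw [Sal_eq, Nat.add_sub_cancel] at h
  exact sub_eq_zero.1 h

end MP154526.Lin.InsB
end

section
/-!
# INSB, part 4: `h_m = V_m + 2 (…)`
-/
set_option autoImplicit false

namespace MP154526.Lin.InsB

open Finset MP154526.Top MP154526.Top.Front MP154526.Top.Pass2

/-- `V_{r}` acts on both sides -/
theorem hev_act_step {n : ℕ} {ψ : List Bool → ℤ} (hψ : RR n ψ) (m r : ℕ) (v : List ℕ)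
    (hv : Ad v) (hn : 2 * (m + r) + wt v = n) :
    hev m (fun u => stf (fun l => stf (fun l => ψ (bw l)) l v) (List.replicate r 1) u) =
      hev m (fun u => stf (fun t => shs ψ (zp r) (bw t)) u v) := by
  refine hev_congr m _ _ fun u hu hwu => ?_
  rw [stf_assoc', stf_comm]
  have hr : wt (List.replicate r 1) = 2 * r := by
    unfold wt
    simp
    ring
  have e : stf (fun l => stf (fun l => ψ (bw l)) (List.replicate r 1) l) u v =
      stf (fun t => shs ψ (zp r) (bw t)) u v := by
    refine stf_congr_ad _ _ hu hv fun l hl hl' => ?_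
    rw [← zp_eq, hψ.rds _ l hl (by rw [hr]; omega)]
  rw [stf_comm, e]

/-- `ψ(h_m * v) = ψ(V_m ⧢ v) + 2 ψ(Λ ⧢ v)` -/
theorem hev_V (hRel : ∀ (f : List ℕ → ℤ) (m : ℕ), hev (m + 1) f =
      ∑ r ∈ range (m + 1), (-1) ^ r *
        hev (m - r) (fun u => stf f (List.replicate (r + 1) 1) u))
    (hClo : SpecClo) (m : ℕ) :
    ∃ Λ ∈ SG (2 * m), ∀ (n : ℕ) (ψ : List Bool → ℤ), RR n ψ → ∀ v : List ℕ, Ad v →
      2 * m + wt v = n →
      hev m (fun u => stf (fun l => ψ (bw l)) u v) =
        act (zV m) ψ (bw v) + 2 * Λ (fun u => shs ψ u (bw v)) := by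
  induction m using Nat.strong_induction_on with
  | _ m ih =>
    cases m with
    | zero =>
      refine ⟨0, (SG 0).zero_mem, fun n ψ hψ v hv hn => ?_⟩
      rw [hev_zero, stf_nil_left, act_eq, VK.Z_zero, shs_nil_left]
      simp
    | succ m =>
      choose Λ hΛ hmain using fun (i : ℕ) (hi : i < m + 1) => ih i hi
      choose C hC hCeq using fun r => exists_C r
      -- the two families
      set T2 : ℕ → (List Bool → ℤ) → ℤ := fun r F =>
        if h : m - r < m + 1 then Λ (m - r) h (fun u => VK.Z (r + 1) (fun c => shs F c u)) else 0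
        with hT2
      set T3 : ℕ → (List Bool → ℤ) → ℤ := fun r F =>
        C (r + 1) (fun c => hev (m - r) (fun u => stf (fun s => F (bw s)) (ib c) u)) with hT3
      have hT2mem : ∀ r, r ≤ m → T2 r ∈ SG (2 * (m + 1)) := by
        intro r hr
        have h : m - r < m + 1 := by omega
        have e : T2 r = fun F => Λ (m - r) h (fun u => VK.Z (r + 1) (fun c => shs F c u)) := by
          funext F
          rw [hT2]
          exact dif_pos h
        rw [e]
        refine SG.comp (hΛ (m - r) h) (fun u F => VK.Z (r + 1) (fun c => shs F c u))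
          fun w hw hl => ?_
        refine Z_SG (r + 1) _ (fun c F => shs F c w) fun c hc => ?_
        refine shs_SG c w (zV_endY _ c hc) hw _ ?_
        rw [zV_length _ c hc, hl]
        omega
      have hT3mem : ∀ r, r ≤ m → T3 r ∈ SG (2 * (m + 1)) := by
        intro r hr
        refine SG.comp (hC (r + 1))
          (fun c F => hev (m - r) (fun u => stf (fun s => F (bw s)) (ib c) u)) fun w hw hl => ?_
        refine hev_SG (m - r) _ (fun u F => stf (fun s => F (bw s)) (ib w) u) fun u hu => ?_
        refine stf_SG (ib w) u _ ?_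
        rw [wt_ib hw, hl, hu]
        omega
      refine ⟨∑ r ∈ range (m + 1), fun F => (-1) ^ r * (T2 r F + T3 r F), ?_, ?_⟩
      · refine (SG _).sum_mem fun r hr => ?_
        have hr' : r ≤ m := by
          have := Finset.mem_range.1 hr
          omega
        exact mul_mem' _ _ _ ((SG _).add_mem (hT2mem r hr') (hT3mem r hr'))
      · intro n ψ hψ v hv hn
        rw [hRel (fun u => stf (fun l => ψ (bw l)) u v) m]
        have key : ∀ r ∈ range (m + 1), (-1 : ℤ) ^ r * hev (m - r)
            (fun u => stf (fun l => stf (fun l => ψ (bw l)) l v) (List.replicate (r + 1) 1) u) =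
            (-1 : ℤ) ^ r * ((m + 1).choose (r + 1) : ℤ) *
              VK.Z (m + 1) (fun s => shs ψ s (bw v)) +
            2 * ((-1) ^ r * (T2 r (fun u => shs ψ u (bw v)) +
              T3 r (fun u => shs ψ u (bw v)))) := by
          intro r hr
          have hr' : r ≤ m := by
            have := Finset.mem_range.1 hr
            omega
          have h : m - r < m + 1 := by omega
          rw [hev_act_step hψ (m - r) (r + 1) v hv (by omega)]
          have hsplit : ∀ t : List ℕ, shs ψ (zp (r + 1)) (bw t) =
              act (zV (r + 1)) ψ (bw t) + 2 * C (r + 1) (fun c => shs ψ c (bw t)) := by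
            intro t
            exact hCeq (r + 1) (fun c => shs ψ c (bw t))
          simp only [hsplit]
          simp only [stf_add]
          rw [hev_add]
          -- first part
          have hclo : RR (n - 2 * (r + 1)) (act (zV (r + 1)) ψ) := hClo n (r + 1) ψ hψ (by omega)
          have h1 := hmain (m - r) h (n - 2 * (r + 1)) _ hclo v hv (by omega)
          rw [h1]
          have h2 : act (zV (m - r)) (act (zV (r + 1)) ψ) (bw v) =
              ((m + 1).choose (r + 1) : ℤ) * VK.Z (m + 1) (fun s => shs ψ s (bw v)) := by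
            rw [act_eq]
            have e : (fun u => shs (act (zV (r + 1)) ψ) u (bw v)) =
                fun u => VK.Z (r + 1) (fun c => shs (fun s => shs ψ s (bw v)) u c) := by
              funext u
              rw [shs_act]
              congr 1
              funext c
              rw [shs_comm]
            rw [e, Z_Z]
            rw [show m - r + (r + 1) = m + 1 by omega,
              ← Nat.choose_symm_of_eq_add (by omega : m + 1 = (r + 1) + (m - r))]
          have h3 : Λ (m - r) h (fun u => shs (act (zV (r + 1)) ψ) u (bw v)) =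
              T2 r (fun u => shs ψ u (bw v)) := by
            rw [hT2]
            simp only [dif_pos h]
            congr 1
            funext u
            rw [shs_act]
          -- second part
          have h4 : hev (m - r) (fun l => stf (fun t => 2 * C (r + 1) (fun c => shs ψ c (bw t))) l v)
              = 2 * T3 r (fun u => shs ψ u (bw v)) := by
            have e1 : ∀ l, stf (fun t => 2 * C (r + 1) (fun c => shs ψ c (bw t))) l v =
                2 * C (r + 1) (fun c => stf (fun t => shs ψ c (bw t)) l v) := by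
              intro l
              rw [SG.stf (hC (r + 1)) (fun c t => shs ψ c (bw t)) l v]
              exact (stf_map (AddMonoidHom.mulLeft (2 : ℤ)) _ l v).symm
            simp only [e1]
            rw [hev_mul]
            congr 1
            rw [← SG.hev (hC (r + 1)) (fun c l => stf (fun t => shs ψ c (bw t)) l v) (m - r)]
            rw [hT3]
            refine SG.congr (hC (r + 1)) fun c hc hcl => ?_
            refine hev_congr _ _ _ fun u hu hwu => ?_
            have hwc : wt (ib c) = 2 * (r + 1) := by rw [wt_ib hc, hcl]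
            have e2 : stf (fun t => shs ψ c (bw t)) u v =
                stf (fun t => stf (fun l => ψ (bw l)) (ib c) t) u v := by
              refine stf_congr_ad _ _ hu hv fun t ht ht' => ?_
              have := hψ.rds (ib c) t ht (by rw [hwc]; omega)
              rw [bw_ib hc] at this
              exact this
            rw [e2, ← stf_assoc']
            refine stf_congr _ _ fun s hs => ?_
            exact (hψ.rds s v hv (by rw [hs, hwc]; omega)).symm
          rw [h2, h3, h4]
          ring
        rw [Finset.sum_congr rfl key, Finset.sum_add_distrib, ← Finset.sum_mul, alt_choose, one_mul,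
          ← Finset.mul_sum, Finset.sum_apply]
        rfl

end MP154526.Lin.InsB
end
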