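import Pool.Agent.Lib.MP_154526_nt.Lin.InsB5
import Pool.Agent.Lib.MP_154526_nt.Lin.InsB4

/-!
# INSB: the divided powers of the insertion element
-/

set_option autoImplicit false

namespace MP154526.Lin

open Finset MP154526.Top MP154526.Top.Front MP154526.Top.Pass2

namespace InsB

/-- the word `x^{a+1} y^{j-1-a}` -/
def ww (j a : ℕ) : List Bool := List.replicate (a + 1) false ++ List.replicate (j - 1 - a) true

theorem ww_length (j a : ℕ) (h : a < j - 1) : (ww j a).length = j := by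
  unfold ww
  simp only [List.length_append, List.length_replicate]
  omega

theorem ww_endY (j a : ℕ) (h : a < j - 1) : EndY (ww j a) := by
  obtain ⟨t, ht⟩ : ∃ t, j - 1 - a = t + 1 := ⟨j - 1 - a - 1, by omega⟩
  have e : List.replicate (t + 1) true = List.replicate t true ++ [true] :=
    List.replicate_succ'
  unfold ww
  rw [ht, e, ← List.append_assoc]
  exact Or.inr ⟨_, rfl⟩

/-- `X_j.ψ = V_{j/2}.ψ + 2 (…).ψ` -/
theorem exists_L (hRel : ∀ (f : List ℕ → ℤ) (m : ℕ), hev (m + 1) f =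
      ∑ r ∈ range (m + 1), (-1) ^ r *
        hev (m - r) (fun u => stf f (List.replicate (r + 1) 1) u))
    (hClo : SpecClo) (hW : SpecW) (j : ℕ) :
    ∃ Λ ∈ SG j, ∀ (n : ℕ) (ψ : List Bool → ℤ), RR n ψ → ∀ v : List ℕ, Ad v → j + wt v = n →
      ∑ a ∈ range (j - 1), shs ψ (ww j a) (bw v) =
        (if j % 2 = 0 then kap 1 (j / 2) * act (zV (j / 2)) ψ (bw v) else 0) +
          2 * Λ (fun u => shs ψ u (bw v)) := by
  rcases Nat.eq_zero_or_pos j with rfl | hj
  · refine ⟨0, (SG 0).zero_mem, fun n ψ hψ v hv hn => ?_⟩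
    simp [kap]
  -- the sign part
  set S : (List Bool → ℤ) → ℤ := fun F =>
    ∑ a ∈ range (j - 1), if (j - a) % 2 = 1 then F (ww j a) else 0 with hS
  have hSmem : S ∈ SG j := by
    have e : S = ∑ a ∈ range (j - 1), fun F : List Bool → ℤ =>
        if (j - a) % 2 = 1 then F (ww j a) else 0 := by
      funext F
      rw [Finset.sum_apply]
    rw [e]
    refine (SG j).sum_mem fun a ha => ?_
    have ha' := Finset.mem_range.1 ha
    by_cases h : (j - a) % 2 = 1
    · simp only [if_pos h]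
      have := ev_mem (ww j a) (ww_endY j a ha')
      rwa [ww_length j a ha'] at this
    · simp only [if_neg h]
      exact (SG j).zero_mem
  have hsign : ∀ F : List Bool → ℤ, ∑ a ∈ range (j - 1), F (ww j a) =
      ∑ a ∈ range (j - 1), (-1) ^ (j - a) * F (ww j a) + 2 * S F := by
    intro F
    rw [hS]
    simp only
    rw [Finset.mul_sum, ← Finset.sum_add_distrib]
    refine Finset.sum_congr rfl fun a _ => ?_
    split_ifs with h
    · have : Odd (j - a) := Nat.odd_iff.2 h
      rw [this.neg_one_pow]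
      ring
    · have : Even (j - a) := Nat.even_iff.2 (by omega)
      rw [this.neg_one_pow]
      ring
  by_cases hpar : j % 2 = 0
  · obtain ⟨m, rfl⟩ : ∃ m, j = 2 * (m + 1) := ⟨j / 2 - 1, by omega⟩
    obtain ⟨Λ, hΛ, hmain⟩ := hev_V hRel hClo (m + 1)
    refine ⟨fun F => Λ F + S F, (SG _).add_mem hΛ hSmem, fun n ψ hψ v hv hn => ?_⟩
    have h1 := hW n ψ hψ (2 * (m + 1)) v hj hv hn
    have h2 := hsign (fun u => shs ψ u (bw v))
    rw [if_pos hpar, show 2 * (m + 1) / 2 = m + 1 by omega, hmain n ψ hψ v hv hn] at h1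
    rw [h2]
    have h3 : ∑ a ∈ range (2 * (m + 1) - 1), (-1) ^ (2 * (m + 1) - a) *
        shs ψ (ww (2 * (m + 1)) a) (bw v) =
        act (zV (m + 1)) ψ (bw v) + 2 * Λ (fun u => shs ψ u (bw v)) := h1
    rw [h3, if_pos hpar, show 2 * (m + 1) / 2 = m + 1 by omega]
    have h4 : kap 1 (m + 1) = 1 := by
      unfold kap
      rw [show Nat.stirlingSecond (m + 1) 1 = 1 from Nat.stirlingSecond_one_right m]
      rfl
    rw [h4]
    ring
  · refine ⟨S, hSmem, fun n ψ hψ v hv hn => ?_⟩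
    have h1 := hW n ψ hψ j v hj hv hn
    have h2 := hsign (fun u => shs ψ u (bw v))
    rw [if_neg hpar] at h1 ⊢
    have h3 : ∑ a ∈ range (j - 1), (-1) ^ (j - a) * shs ψ (ww j a) (bw v) = 0 := h1
    rw [h2, h3]

/-- the insertion element acts like `∑ V_m + 2 q` -/
theorem exists_q (hRel : ∀ (f : List ℕ → ℤ) (m : ℕ), hev (m + 1) f =
      ∑ r ∈ range (m + 1), (-1) ^ r *
        hev (m - r) (fun u => stf f (List.replicate (r + 1) 1) u))
    (hClo : SpecClo) (hW : SpecW) :
    ∃ q : Sr, YS q ∧ Eqv (CC 1) (AA (kap 1) + ((2 : ℕ) : Sr) * q) := by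
  choose Λ hΛ hmain using exists_L hRel hClo hW
  have hΛ' : ∀ j, ∃ q : List Bool → ℤ, (∀ w, q (w ++ [false]) = 0) ∧
    ∀ F, Λ j F = SS j (fun w => q w * F w) := hΛ
  choose q hq hqΛ using hΛ'
  refine ⟨fun w => q w.length w, fun w => hq _ w, ?_⟩
  have hqys : YS (fun w => q w.length w) := fun w => hq _ w
  refine eqv_of_ad (CC_ys 1) ((AA_ys _).add (hqys.natCast_mul 2)) fun n ψ hψ j v hv hn => ?_
  rw [pa_add, pa_natCast_mul, pa_AA]
  have h1 : pa (CC 1) ψ j (bw v) = ∑ a ∈ range (j - 1), shs ψ (ww j a) (bw v) := by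
    have h2 := E_eq j (fun u => shs ψ u (bw v)) (X 0 [1])
    rw [E_X_one] at h2
    exact h2.symm
  have h2 : pa (fun w => q w.length w) ψ j (bw v) = Λ j (fun u => shs ψ u (bw v)) := by
    rw [hqΛ]
    refine SS_congr _ _ _ fun u hu => ?_
    show q u.length u * _ = _
    rw [hu]
  rw [h1, h2, hmain j n ψ hψ v hv hn]
  rfl

end InsB

open InsB in
theorem specInsB' (hRel : ∀ (f : List ℕ → ℤ) (m : ℕ), hev (m + 1) f =
      ∑ r ∈ range (m + 1), (-1) ^ r *
        hev (m - r) (fun u => stf f (List.replicate (r + 1) 1) u))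
    (hClo : SpecClo) (hW : SpecW) : SpecInsB := by
  obtain ⟨q, hq, hE⟩ := exists_q hRel hClo hW
  intro k hk
  refine ⟨InsB.kap k, ?_, fun m hm => ?_, fun n ψ hψ j v hv hn => ?_⟩
  · unfold InsB.kap
    rw [Nat.stirlingSecond_self]
    rfl
  · unfold InsB.kap
    rw [Nat.stirlingSecond_eq_zero_of_lt hm]
    rfl
  · have hys : YS (AA (InsB.kap 1) + ((2 : ℕ) : Sr) * q) := (AA_ys _).add (hq.natCast_mul 2)
    have h1 := hE.pow (CC_ys 1) hys k n ψ hψ j v hv hn
    have h2 : (AA (InsB.kap 1) + ((2 : ℕ) : Sr) * q) ^ k =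
        ∑ i ∈ range (k + 1), ((k.descFactorial i * 2 ^ (k - i) : ℕ) : Sr) *
          (AA (InsB.kap i) * q ^ (k - i)) := by
      rw [add_pow]
      refine Finset.sum_congr rfl fun i _ => ?_
      rw [AA_pow, mul_pow, Nat.descFactorial_eq_factorial_mul_choose]
      push_cast
      ring
    rw [← CC_fact, pa_natCast_mul, h2, pa_sum, sum_range_succ] at h1
    simp only [pa_natCast_mul] at h1
    rw [Nat.sub_self, pow_zero, pow_zero, mul_one, mul_one, Nat.descFactorial_self, pa_AA] at h1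
    have h3 : E (1 : ℤ) j (fun u => shs ψ u v) (X 0 (List.replicate k 1)) = pa (CC k) ψ j v :=
      E_eq j (fun u => shs ψ u v) (X 0 (List.replicate k 1))
    rw [h3]
    refine two_fact k _ (fun i => pa (AA (InsB.kap i) * q ^ (k - i)) ψ j v) ?_
    rw [mul_sub, h1]
    push_cast
    ring

/-- INSB -/
theorem specInsB (hClo : SpecClo) (hW : SpecW) : SpecInsB := specInsB' InsB.hev_rel hClo hW

end MP154526.Lin
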