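import Pool.Agent.Lib.MP_154526_nt.Lin.Plan
import Pool.Agent.Lib.MP_154526_nt.Top.FrontB
import Pool.Agent.Lib.MP_154526_nt.Top.Span

section
/-!
# EQE and TI
-/
set_option autoImplicit false

namespace MP154526.Lin

open Finset MP154526.Top MP154526.Top.Front MP154526.Top.Pass2

variable {R : Type} [CommRing R]

theorem strip_cons_true {M : Type} [Zero M] (p : ℕ) (h : List Bool → M) (w : List Bool) :
    strip (p + 1) h (true :: w) = strip p h w := by rw [strip]

theorem strip_cons_false {M : Type} [Zero M] (p : ℕ) (h : List Bool → M) (w : List Bool) :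
    strip (p + 1) h (false :: w) = 0 := by rw [strip]

theorem strip_zero {M : Type} [Zero M] (h : List Bool → M) : strip 0 h = h := by
  funext w; rw [strip]

theorem castB_strip [Algebra (ZMod 2) R] (p : ℕ) (h : List Bool → ZMod 2) :
    castB R (strip p h) = strip p (castB R h) := by
  funext w
  induction p generalizing w with
  | zero => rw [strip_zero, strip_zero]
  | succ p ih =>
    cases w with
    | nil => simp [castB, strip]
    | cons g w =>
      cases g
      · simp [castB, strip]
      · rw [strip_cons_true, ← ih]
        simp only [castB, strip_cons_true]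

theorem yT_X (b : R) (ρ : List R) : yT (X b ρ) = fun w => b * X b ρ w :=
  funext fun w => X_false b ρ w

theorem E_strip (τ : R) (p k : ℕ) (h : List Bool → R) (b : R) (ρ : List R) :
    E τ (p + k) (strip p h) (X b ρ) = b ^ p * E τ k h (X b ρ) := by
  induction p with
  | zero => rw [strip_zero, Nat.zero_add, pow_zero, one_mul]
  | succ p ih =>
    rw [show p + 1 + k = (p + k) + 1 by omega, E_succ]
    simp only [strip_cons_true, strip_cons_false]
    rw [E_zero_left, zero_add, yT_X, E_mul_right, ih]
    ring

theorem E_sum_left {ι : Type} (s : Finset ι) (τ : R) (n : ℕ) (ψ : ι → List Bool → R)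
    (c : List Bool → R) :
    E τ n (fun w => ∑ i ∈ s, ψ i w) c = ∑ i ∈ s, E τ n (ψ i) c := by
  classical
  induction s using Finset.induction_on with
  | empty => simp [E_zero_left]
  | insert a s ha ih =>
    simp only [sum_insert ha]
    rw [E_add_left, ih]

theorem specEQE : SpecEQE := by
  intro m g h H R _ _ τ b ρ
  rw [← (FF_eq_F τ m (castB R g) (X b ρ)).1, (FF_eq_Q τ m).1, Q,
    Nat.sum_antidiagonal_eq_sum_range_succ (fun i j => τ ^ i * E τ j (S (castB R g) false i) (X b ρ)),
    Nat.succ_eq_add_one, sum_range_succ']
  simp only [pow_zero, one_mul, S_zero, Nat.sub_zero]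
  rw [add_comm]
  congr 1
  refine sum_congr rfl fun j hj => ?_
  have hj' := mem_range.mp hj
  have key : E τ (m - (j + 1)) (S (castB R g) false (j + 1)) (X b ρ) =
      ∑ p ∈ range (m - j), E τ (m - (j + 1)) (castB R (strip p (h (j + 1) p))) (X b ρ) := by
    rw [← E_sum_left]
    apply E_congr
    intro w hw hY
    obtain ⟨l, rfl⟩ := endY_bw' w hY
    rw [S_castB (j + 1 + (bw l).length) false (j + 1) (bw l) le_rfl,
      S_eq_stz _ (j + 1) l le_rfl g, stz_eq]
    have hwt : wt l = (bw l).length := by rw [length_bw', wt]
    rw [H (j + 1) l (by omega) (by omega), map_sum]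
    rw [show m - (j + 1) + 1 = m - j by omega]
    rfl
  rw [key, mul_sum]
  refine sum_congr rfl fun p hp => ?_
  have hp' := mem_range.mp hp
  rw [castB_strip]
  have := E_strip τ p (m - (j + 1) - p) (castB R (h (j + 1) p)) b ρ
  rw [show p + (m - (j + 1) - p) = m - (j + 1) by omega] at this
  rw [this]
  ring

theorem dT_X_nil (τ b : R) (w : List Bool) : dT τ (X b []) w = 0 := by
  induction w with
  | nil => rfl
  | cons g w ih =>
    cases g
    · rw [dT_false]
      have h1 : (fun v => X b [] (false :: v)) = fun v => b * X b [] v :=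
        funext fun v => X_false b [] v
      rw [h1, dT_mul, ih]
      simp [X]
    · rw [dT_true]
      have h1 : (fun v => X b [] (true :: v)) = fun v => (0 : R) * X b [] v := by
        funext v; simp [X]
      rw [h1, dT_mul]
      simp [X]

theorem E_X_nil (τ b : R) (i : ℕ) (φ : List Bool → R) :
    E τ i φ (X b []) = b ^ i * φ (List.replicate i true) := by
  induction i generalizing φ with
  | zero => simp [E_zero', X]
  | succ i ih =>
    rw [E_succ]
    have h1 : dT τ (X b []) = fun _ => 0 := funext fun w => dT_X_nil τ b w
    rw [h1, E_zero_right, zero_add, yT_X, E_mul_right, ih, List.replicate_succ]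
    ring

theorem specTI : SpecTI := by
  intro n g hg R _ _ τ b c ρ
  have key : ∀ b : R, E τ n (castB R g) (X b ρ) = E τ n (castB R g) (X 0 ρ) := by
    intro b
    have h1 : X b ρ = mulc (X b []) (X 0 ρ) := by
      funext w
      rw [mulc_X, shs_nil_left, add_zero]
    rw [h1, ← G_sum, Finset.sum_eq_single (0, n)]
    · simp only [G, E_zero', shs_nil_left]
      simp [X]
    · rintro ⟨i, j⟩ hp hne
      rw [HasAntidiagonal.mem_antidiagonal] at hp
      simp only at hp ⊢
      have hi : 1 ≤ i := by
        rcases Nat.eq_zero_or_pos i with rfl | h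
        · exact absurd (by simp at hp; rw [hp]) hne
        · exact h
      rw [G, E_X_nil]
      have : E τ j (fun v => shs (castB R g) (List.replicate i true) v) (X 0 ρ) = 0 := by
        apply E_eq_zero
        intro v hv hY
        rw [shs_castB, hg i v hi hY (by omega), map_zero]
      rw [this, mul_zero]
    · intro hp
      exact absurd (HasAntidiagonal.mem_antidiagonal.2 (by simp)) hp
  rw [key b, key c]

end MP154526.Lin
end

section
/-!
# LOW1: the degree in `a` is at most the number of letters `z_2`
-/
set_option autoImplicit false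

namespace MP154526.Lin

open Finset MP154526.Top MP154526.Top.Front MP154526.Top.Pass2

namespace Low1

variable {R : Type} [CommRing R]

/-- `c` vanishes on the words with fewer than `k` letters `a` -/
def Deg (k : ℕ) (c : List Bool → R) : Prop := ∀ w : List Bool, w.count true < k → c w = 0

theorem deg_yT {k : ℕ} {c : List Bool → R} (h : Deg k c) : Deg k (yT c) := by
  intro w hw
  exact h _ (by simpa using hw)

theorem deg_dT (τ : R) : ∀ (w : List Bool) (k : ℕ) (c : List Bool → R), Deg k c →
    w.count true + 1 < k → dT τ c w = 0
  | [], _, _, _, _ => rfl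
  | false :: w, k, c, h, hw => by
    have hw' : w.count true + 1 < k := by simpa using hw
    have h1 : c (true :: w) = 0 := h _ (by simpa using hw')
    have h2 : dT τ (fun v => c (false :: v)) w = 0 :=
      deg_dT τ w k _ (fun v hv => h _ (by simpa using hv)) hw'
    rw [dT_false, h1, h2, add_zero]
  | true :: w, k, c, h, hw => by
    have hw' : w.count true + 1 + 1 < k := by simpa using hw
    have h1 : c (true :: w) = 0 := h _ (by
      have : w.count true + 1 < k := by omega
      simpa using this)
    have h2 : dT τ (fun v => c (true :: v)) w = 0 := by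
      refine deg_dT τ w (k - 1) _ (fun v hv => h _ ?_) (by omega)
      have : v.count true + 1 < k := by omega
      simpa using this
    rw [dT_true, h1, h2, mul_zero, add_zero]

theorem F_zero (τ : R) : ∀ (n : ℕ) (k : ℕ) (P : List ℕ → R) (c : List Bool → R), Deg k c →
    (∀ l, NX l → k ≤ l.sum → wt l = n → P l = 0) → F τ n P c = 0
  | 0, k, P, c, hc, hP => by
    rw [F]
    rcases Nat.eq_zero_or_pos k with rfl | hk
    · rw [hP [] (by intro a ha; simp at ha) (by simp) (by simp), zero_mul]
    · rw [hc [] (by simpa using hk), mul_zero]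
  | 1, k, P, c, hc, hP => by
    rw [F]
    refine F_zero τ 0 k _ _ ?_ ?_
    · intro w hw
      show yT c w + τ * c w = 0
      rw [deg_yT hc w hw, hc w hw]
      ring
    · intro l hl hk hw
      refine hP _ ?_ (by simpa using hk) (by simp [hw])
      intro a ha
      rcases List.mem_cons.1 ha with rfl | ha
      · omega
      · exact hl a ha
  | n + 2, k, P, c, hc, hP => by
    rw [F]
    have h1 : F τ (n + 1) (fun l => P (0 :: l)) (fun w => yT c w + τ * c w) = 0 := by
      refine F_zero τ (n + 1) k _ _ ?_ ?_
      · intro w hw
        show yT c w + τ * c w = 0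
        rw [deg_yT hc w hw, hc w hw]
        ring
      · intro l hl hk hw
        refine hP _ ?_ (by simpa using hk) (by simp [hw]; omega)
        intro a ha
        rcases List.mem_cons.1 ha with rfl | ha
        · omega
        · exact hl a ha
    have h2 : F τ n (fun l => P (1 :: l)) (fun w => yT (dT τ c) w + τ * yT c w) = 0 := by
      refine F_zero τ n (k - 1) _ _ ?_ ?_
      · intro w hw
        show yT (dT τ c) w + τ * yT c w = 0
        have e1 : yT (dT τ c) w = 0 := by
          refine deg_dT τ (false :: w) k c hc ?_
          have : w.count true + 1 < k := by omega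
          simpa using this
        rw [e1, deg_yT hc w (by omega)]
        ring
      · intro l hl hk hw
        refine hP _ ?_ (by simp; omega) (by simp [hw]; omega)
        intro a ha
        rcases List.mem_cons.1 ha with rfl | ha
        · omega
        · exact hl a ha
    rw [h1, h2, add_zero]

theorem deg_X (b : R) (ρ : List R) (w : List Bool) (h : w.count true < ρ.length) :
    X b ρ w = 0 := by
  induction w generalizing b ρ with
  | nil =>
    rw [X_nil, if_neg]
    rintro rfl
    simp at h
  | cons g w ih =>
    cases g with
    | false =>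
      rw [X_false, ih b ρ (by simpa using h), mul_zero]
    | true =>
      cases ρ with
      | nil => rw [X]
      | cons r ρ =>
        rw [X]
        exact ih _ _ (by simpa using h)

theorem shs_congr_endY {M : Type} [AddCommMonoid M] (F G : List Bool → M) (u v : List Bool)
    (hu : EndY u) (hv : EndY v)
    (h : ∀ l, EndY l → l.length = u.length + v.length → F l = G l) : shs F u v = shs G u v := by
  induction u, v using shs_induct generalizing F G with
  | h0 W => simpa using h W hv (by simp)
  | h1 a σ => simpa using h (a :: σ) hu (by simp)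
  | h2 a σ c W ha hb =>
    rw [shs_cons_cons, shs_cons_cons]
    congr 1
    · refine ha _ _ (endY_tail _ _ hu) hv fun l hl hlen => h _ ?_ ?_
      · refine endY_cons _ _ ?_ hl
        rintro rfl
        simp only [List.length_nil, List.length_cons] at hlen
        omega
      · simp only [List.length_cons] at hlen ⊢
        omega
    · refine hb _ _ hu (endY_tail _ _ hv) fun l hl hlen => h _ ?_ ?_
      · refine endY_cons _ _ ?_ hl
        rintro rfl
        simp only [List.length_nil, List.length_cons] at hlen
        omega
      · simp only [List.length_cons] at hlen ⊢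
        omega

/-- the functionals `A.f` kill `y^j ⧢ w` -/
theorem kk_reg {N : ℕ} {f : List Bool → ZMod 2} (hf : RR N f) {m : ℕ} {g : List Bool → ZMod 2}
    (hg : KK N f m g) (j : ℕ) (w : List Bool) (hj : 1 ≤ j) (hw : EndY w) (hl : j + w.length = m) :
    shs g (List.replicate j true) w = 0 := by
  obtain ⟨hm, A, hA, hgA⟩ := hg
  have hrep : EndY (List.replicate j true) := by
    obtain ⟨i, rfl⟩ : ∃ i, j = i + 1 := ⟨j - 1, by omega⟩
    exact Or.inr ⟨List.replicate i true, by rw [List.replicate_succ']⟩
  rw [shs_congr_endY g (act A f) _ _ hrep hw fun l hl' hlen =>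
    hgA l hl' (by simp only [List.length_replicate] at hlen; omega)]
  clear hgA
  have e : act A f = fun w => (A.map fun u => shs f u w).sum := rfl
  rw [e]
  clear e
  revert hA
  induction A using Multiset.induction_on with
  | empty =>
    intro _
    simp only [Multiset.map_zero, Multiset.sum_zero]
    exact shs_zero _ _
  | cons a A ih =>
    intro hA
    simp only [Multiset.map_cons, Multiset.sum_cons]
    rw [shs_add, ih fun u hu => hA u (Multiset.mem_cons_of_mem hu), add_zero]
    have ha := hA a (Multiset.mem_cons_self a A)
    have e1 : shs (fun v => shs f a v) (List.replicate j true) w =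
        shs (fun s => shs f s w) a (List.replicate j true) :=
      (Pass1.shs_assoc f a (List.replicate j true) w).symm
    have e2 : shs (fun s => shs f s w) (List.replicate j true) a =
        shs (fun t => shs f (List.replicate j true) t) a w :=
      Pass1.shs_assoc f (List.replicate j true) a w
    rw [e1, shs_comm, e2, shs_congr_endY _ (fun _ => 0) a w ha.1 hw, shs_zero]
    intro l hl' hlen
    exact hf.reg j l hj hl' (by omega)

end Low1

/-- LOW1 -/
theorem specLow1 (hEQ0 : SpecEQ0) (hEQE : SpecEQE) (hTI : SpecTI) : SpecLow1 := by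
  intro N f hf m g hg r hr R _ _ τ b ρ hρ
  rw [hTI m g (fun j w hj hw hl => Low1.kk_reg hf hg j w hj hw hl) R τ b 0 ρ]
  -- the family `h`
  have hex : ∀ j, ∃ h : ℕ → List Bool → ZMod 2, 1 ≤ j → j ≤ m →
      (∀ l, j + wt l = m → h 0 (bw l) = 0) ∧
      ∀ l, j + wt l = m → stf (fun l => g (bw l)) (List.replicate j 0) l =
        ∑ p ∈ range (m - j + 1), strip p (h p) (bw l) := by
    intro j
    by_cases h1 : 1 ≤ j ∧ j ≤ m
    · obtain ⟨h, _, h2, h3⟩ := hEQ0 N f hf m g hg j h1.1 h1.2
      exact ⟨h, fun _ _ => ⟨h2, h3⟩⟩
    · exact ⟨fun _ _ => 0, fun h2 h3 => absurd ⟨h2, h3⟩ h1⟩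
  choose h hh using hex
  have e := hEQE m g h (fun j l hj hl => (hh j hj (by omega)).2 l hl) R τ 0 ρ
  rw [Low1.F_zero τ m r _ _ (fun w hw => Low1.deg_X 0 ρ w (by omega))
    (fun l hl hk hw => by
      show castB R g (bw l) = 0
      unfold castB
      rw [hr l hl hk hw, map_zero])] at e
  have e0 : ∑ j ∈ range m, ∑ p ∈ range (m - j), τ ^ (j + 1) * (0 : R) ^ p *
      E τ (m - (j + 1) - p) (castB R (h (j + 1) p)) (X 0 ρ) = 0 := by
    refine Finset.sum_eq_zero fun j hj => Finset.sum_eq_zero fun p _ => ?_
    rw [Finset.mem_range] at hj
    rcases Nat.eq_zero_or_pos p with rfl | hp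
    · rw [E_eq_zero, mul_zero]
      intro w hw hY
      obtain ⟨l, rfl⟩ := endY_bw' w hY
      rw [length_bw'] at hw
      have hwt : wt l = l.sum + l.length := rfl
      unfold castB
      rw [(hh (j + 1) (by omega) (by omega)).1 l (by omega), map_zero]
    · rw [zero_pow (by omega), mul_zero, zero_mul]
  rw [e0, add_zero] at e
  exact e.symm

end MP154526.Lin
end
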