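import Pool.Agent.Lib.MP_154526_nt.Lin.Basic
import Pool.Agent.Lib.MP_154526_nt.Top.FrontC

/-!
# LOW2: at `τ = 0` the part in words without `xx` is determined
-/

set_option autoImplicit false

namespace MP154526.Lin

open Finset MP154526.Top MP154526.Top.Front MP154526.Top.Pass2

/-! ### triangular families of polynomials -/

/-- leading coefficient one in degree `i` -/
def Lead {A : Type} [CommRing A] (i : ℕ) (p : Polynomial A) : Prop :=
  p.coeff i = 1 ∧ ∀ j, i < j → p.coeff j = 0

theorem Lead.sum_zero {A : Type} [CommRing A] (p : ℕ → Polynomial A) (hp : ∀ i, Lead i (p i))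
    (D : ℕ) (a : ℕ → A) (h : ∑ i ∈ range D, p i * Polynomial.C (a i) = 0) :
    ∀ i, i < D → a i = 0 := by
  induction D with
  | zero => intro i hi; omega
  | succ D ih =>
    have h1 := congrArg (fun q => Polynomial.coeff q D) h
    simp only [Polynomial.finsetSum_coeff, Polynomial.coeff_mul_C, Polynomial.coeff_zero] at h1
    rw [Finset.sum_range_succ, (hp D).1, one_mul, Finset.sum_eq_zero, zero_add] at h1
    · rw [Finset.sum_range_succ, h1, map_zero, mul_zero, add_zero] at h
      intro i hi
      rcases Nat.lt_succ_iff_lt_or_eq.1 hi with h2 | h2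
      · exact ih h i h2
      · rw [h2, h1]
    · intro i hi
      rw [(hp i).2 D (Finset.mem_range.1 hi), zero_mul]

theorem lead_pow {A : Type} [CommRing A] (i : ℕ) : Lead i ((Polynomial.X : Polynomial A) ^ i) := by
  constructor
  · simp
  · intro j hj
    rw [Polynomial.coeff_X_pow, if_neg (by omega)]

theorem lead_hh {A : Type} [CommRing A] (s : A) (i : ℕ) :
    Lead i (hh i (Polynomial.C s) (Polynomial.C s + Polynomial.X)) := by
  induction i with
  | zero =>
    rw [hh_zero]
    refine ⟨by simp, fun j hj => ?_⟩
    rw [Polynomial.coeff_one, if_neg (by omega)]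
  | succ i ih =>
    rw [hh_succ, add_comm (Polynomial.C s) Polynomial.X]
    rw [add_comm (Polynomial.C s) Polynomial.X] at ih
    refine ⟨?_, fun j hj => ?_⟩
    · rw [Polynomial.coeff_add, Polynomial.coeff_C_mul, ih.2 (i + 1) (by omega),
        Polynomial.coeff_X_add_C_pow]
      simp
    · rw [Polynomial.coeff_add, Polynomial.coeff_C_mul, ih.2 j (by omega),
        Polynomial.coeff_X_add_C_pow, Nat.choose_eq_zero_of_lt hj]
      simp

theorem lead_kerR {A : Type} [CommRing A] (s : A) (i : ℕ) :
    Lead i (kerR 0 (Polynomial.C s) (Polynomial.C s + Polynomial.X) i) := by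
  cases i with
  | zero =>
    show Lead 0 1
    refine ⟨by simp, fun j hj => ?_⟩
    rw [Polynomial.coeff_one, if_neg (by omega)]
  | succ i =>
    show Lead (i + 1) (hh (i + 1) _ _ + 0 * hh i _ _)
    rw [zero_mul, add_zero]
    exact lead_hh s (i + 1)

theorem hh_map {A R : Type} [CommRing A] [CommRing R] (φ : A →+* R) (i : ℕ) (s t : A) :
    φ (hh i s t) = hh i (φ s) (φ t) := by
  simp [hh, map_sum, map_mul, map_pow]

theorem kerR_map {A R : Type} [CommRing A] [CommRing R] (φ : A →+* R) (s t : A) (i : ℕ) :
    φ (kerR 0 s t i) = kerR 0 (φ s) (φ t) i := by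
  cases i with
  | zero => exact map_one φ
  | succ i =>
    show φ (hh (i + 1) s t + 0 * hh i s t) = hh (i + 1) (φ s) (φ t) + 0 * hh i (φ s) (φ t)
    rw [zero_mul, zero_mul, add_zero, add_zero, hh_map]

/-- injectivity of the slot kernels at `l = 0` -/
theorem starW_inj (D k : ℕ) : ∀ (A : Type) [CommRing A] (s : A) (P : List ℕ → A),
    (∀ (R : Type) [CommRing R] (φ : A →+* R) (ρ : List R), ρ.length = k →
      ev D (starW 0 (φ s) ρ) (fun l => φ (P l)) = 0) →
    ∀ l : List ℕ, l.length = k → (∀ a ∈ l, a < D) → P l = 0 := by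
  induction k with
  | zero =>
    intro A _ s P h l hl _
    obtain rfl := List.length_eq_zero_iff.1 hl
    exact h A (RingHom.id A) [] rfl
  | succ k ih =>
    intro A _ s P h l hl hlD
    obtain ⟨i, l, rfl⟩ : ∃ i l', l = i :: l' := by
      cases l with
      | nil => simp at hl
      | cons i l => exact ⟨i, l, rfl⟩
    have key := ih (Polynomial A) (Polynomial.C s + Polynomial.X)
      (fun l => ∑ i ∈ range D, kerR 0 (Polynomial.C s) (Polynomial.C s + Polynomial.X) i *
        Polynomial.C (P (i :: l))) (by
        intro R _ φ ρ hρ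
        have h1 := h R (φ.comp Polynomial.C) (φ Polynomial.X :: ρ) (by simp [hρ])
        refine Eq.trans ?_ h1
        show _ = ev D (starW 0 (φ (Polynomial.C s) + φ Polynomial.X) ρ)
          (app D (kerR 0 (φ (Polynomial.C s)) (φ (Polynomial.C s) + φ Polynomial.X))
            fun l => φ (Polynomial.C (P l)))
        rw [map_add]
        congr 1
        funext l
        show _ = ∑ j ∈ range D, kerR 0 (φ (Polynomial.C s)) (φ (Polynomial.C s) + φ Polynomial.X) j *
          φ (Polynomial.C (P (j :: l)))
        rw [map_sum]
        refine Finset.sum_congr rfl fun j _ => ?_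
        rw [map_mul, kerR_map, map_add]) l (by simpa using hl)
        (fun a ha => hlD a (List.mem_cons_of_mem _ ha))
    exact Lead.sum_zero _ (lead_kerR s) D (fun i => P (i :: l)) key i (hlD i (by simp))

/-- injectivity of `evS` at `l = 0` -/
theorem evS_inj (D r : ℕ) (P : List ℕ → ZMod 2)
    (h : ∀ (R : Type) [CommRing R] [Algebra (ZMod 2) R] (b : R) (ρ : List R), ρ.length = r →
      evS D 0 b (cast R P) ρ = 0) :
    ∀ l : List ℕ, l.length = r + 1 → (∀ a ∈ l, a < D) → P l = 0 := by
  intro l hl hlD
  obtain ⟨i, l, rfl⟩ : ∃ i l', l = i :: l' := by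
    cases l with
    | nil => simp at hl
    | cons i l => exact ⟨i, l, rfl⟩
  have key := starW_inj D r (Polynomial (ZMod 2)) Polynomial.X
    (fun l => ∑ i ∈ range D, (Polynomial.X : Polynomial (ZMod 2)) ^ i *
      Polynomial.C (P (i :: l))) (by
      intro R _ φ ρ hρ
      let _ : Algebra (ZMod 2) R := (φ.comp Polynomial.C).toAlgebra
      have h1 := h R (φ Polynomial.X) ρ hρ
      refine Eq.trans ?_ h1
      show _ = ev D (starW 0 (φ Polynomial.X) ρ) (app D (geo (φ Polynomial.X)) (cast R P))
      congr 1
      funext l
      show _ = ∑ j ∈ range D, φ Polynomial.X ^ j * φ (Polynomial.C (P (j :: l)))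
      rw [map_sum]
      refine Finset.sum_congr rfl fun j _ => ?_
      rw [map_mul, map_pow]) l (by simpa using hl)
      (fun a ha => hlD a (List.mem_cons_of_mem _ ha))
  exact Lead.sum_zero _ lead_pow D (fun i => P (i :: l)) key i (hlD i (by simp))

theorem nx_append {u v : List ℕ} (hu : NX u) (hv : NX v) : NX (u ++ v) := by
  intro a ha
  rcases List.mem_append.1 ha with h | h
  · exact hu a h
  · exact hv a h

theorem nx_replicate (i : ℕ) : NX (List.replicate i 0) := by
  intro a ha
  rw [List.eq_of_mem_replicate ha]
  omega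

theorem ztail_facts (l : List ℕ) : NX (ztail l) ∧ (ztail l).sum = l.length ∧
    wt (ztail l) = l.sum + 2 * l.length := by
  induction l with
  | nil => exact ⟨by intro a ha; simp [ztail] at ha, rfl, rfl⟩
  | cons i l ih =>
    obtain ⟨h1, h2, h3⟩ := ih
    refine ⟨?_, ?_, ?_⟩
    · intro a ha
      rcases List.mem_cons.1 ha with rfl | ha
      · omega
      · exact nx_append (nx_replicate i) h1 a ha
    · simp [ztail, h2]
      omega
    · simp only [wt] at h3
      simp [ztail, wt]
      omega

theorem zw_facts (i : ℕ) (l : List ℕ) : NX (zw (i :: l)) ∧ (zw (i :: l)).sum = l.length ∧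
    wt (zw (i :: l)) = i + l.sum + 2 * l.length := by
  obtain ⟨h1, h2, h3⟩ := ztail_facts l
  refine ⟨nx_append (nx_replicate i) h1, by simp [zw, h2], ?_⟩
  simp only [wt] at h3
  simp [zw, wt]
  omega

theorem le_sum_of_mem {l : List ℕ} {a : ℕ} (h : a ∈ l) : a ≤ l.sum := by
  induction l with
  | nil => simp at h
  | cons b l ih =>
    rcases List.mem_cons.1 h with rfl | h
    · simp
    · have := ih h
      simp only [List.sum_cons]
      omega

theorem specLow2 (hQ : SpecEQ0) (hE : SpecEQE) (hT : SpecTI) : SpecLow2 := by
  intro N f hf m g hg hz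
  classical
  have hreg : ∀ (j : ℕ) (w : List Bool), 1 ≤ j → EndY w → j + w.length = m →
      shs g (List.replicate j true) w = 0 := fun j w h1 h2 h3 => hg.reg hf j w h1 h2 h3
  -- the functions `h_{j,p}`
  have hex : ∀ j : ℕ, ∃ h : ℕ → List Bool → ZMod 2, (1 ≤ j → j ≤ m →
      ∀ l, j + wt l = m → stf (fun l => g (bw l)) (List.replicate j 0) l =
        ∑ p ∈ range (m - j + 1), strip p (h p) (bw l)) := by
    intro j
    by_cases hj : 1 ≤ j ∧ j ≤ m
    · obtain ⟨h, _, _, h3⟩ := hQ N f hf m g hg j hj.1 hj.2
      exact ⟨h, fun _ _ => h3⟩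
    · exact ⟨fun _ _ => 0, fun h1 h2 => absurd ⟨h1, h2⟩ hj⟩
  choose h hh' using hex
  have hF : ∀ (R : Type) [CommRing R] [Algebra (ZMod 2) R] (b : R) (ρ : List R),
      F (0 : R) m (fun l => castB R g (bw l)) (X b ρ) = 0 := by
    intro R _ _ b ρ
    rw [hE m g h (fun j l h1 h2 => hh' j h1 (by omega) l h2) R 0 b ρ,
      hT m g hreg R 0 b 0 ρ, hz R ρ, zero_add]
    refine Finset.sum_eq_zero fun j _ => Finset.sum_eq_zero fun p _ => ?_
    rw [pow_succ]
    simp
  have hmain : ∀ k r, r + k = m + 1 → Bd m g r := by
    intro k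
    induction k with
    | zero =>
      intro r hr l _ h2 h3
      simp only [wt] at h3
      omega
    | succ k ih =>
      intro r hr l hl h2 h3
      have hB := ih (r + 1) (by omega)
      rcases Nat.lt_or_ge r l.sum with h4 | h4
      · exact hB l hl h4 h3
      have h5 : l.sum = r := le_antisymm h4 h2
      rcases Nat.eq_zero_or_pos r with rfl | hr0
      · have h6 : l = List.replicate m 0 := by
          have h7 : ∀ a ∈ l, a = 0 := fun a ha => by
            have := le_sum_of_mem ha
            omega
          have h8 := List.eq_replicate_of_mem h7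
          rw [h8]
          congr 1
          simp only [wt] at h3
          omega
        rcases Nat.eq_zero_or_pos m with rfl | hm
        · have h9 := hz (ZMod 2) []
          rw [h6]
          simpa [E, X, castB, bw] using h9
        · have h9 := hreg m [] hm (Or.inl rfl) (by simp)
          rw [h6, bw_rep]
          simpa using h9
      · have h6 := evS_inj (m + 1) r (PR m r g) (by
          intro R _ _ b ρ hρ
          rw [← specC R 0 b m r (m + 1) g hr0 (by omega) (by
            intro l' h7 h8
            cases l' with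
            | nil => simp at h7
            | cons i l' =>
              obtain ⟨h9, h10, h11⟩ := zw_facts i l'
              refine hB _ h9 ?_ ?_
              · simp only [List.length_cons] at h7
                omega
              · simp only [List.length_cons, List.sum_cons] at h8
                omega) ρ hρ]
          exact hF R (b + 0) ρ)
        obtain ⟨l', h7, h8, h9, h10⟩ := exists_zw l hl
        have h11 : l'.length = r + 1 := by omega
        have h12 : l'.sum + 2 * r = m := by
          rw [h11] at h10
          simp only [wt] at h3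
          omega
        have h13 := h6 l' h11 (fun a ha => by
          have := le_sum_of_mem ha
          omega)
        simp only [PR] at h13
        rw [if_pos ⟨h11, h12⟩, h8] at h13
        exact h13
  exact hmain (m + 1) 0 (by omega)

end MP154526.Lin
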