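import Pool.Agent.Lib.MP_154526_nt.Lin.Plan
import Pool.Agent.Lib.MP_154526_nt.Top.Span
import Pool.Agent.Lib.MP_154526_nt.Top.Star

/-!
# Module SW: `w'_i . ψ = ψ (h_{i/2} * ·)`

The sum of all words of `ℌ¹` of weight `i` is `∑_{j + 2m = i} y^j * h_m` (`T_eq_L`, left side) and
`y^i + ∑_{k + i' = i} y^k ⧢ w'_{i'}` (right side).
-/

set_option autoImplicit false

namespace MP154526.Lin

open Finset MP154526.Top MP154526.Top.Pass2

namespace SW

/-! ### the stuffle side -/

/-- `hev` by weight -/
def Hk (k : ℕ) (f : List ℕ → ℤ) : ℤ := if k % 2 = 0 then hev (k / 2) f else 0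

theorem Hk_zero (f : List ℕ → ℤ) : Hk 0 f = f [] := by
  simp [Hk, hev]

theorem sum_odd (N : ℕ) (g : ℕ → ℤ) :
    ∑ a ∈ range (2 * N), (if a % 2 = 1 then g a else 0) = ∑ b ∈ range N, g (2 * b + 1) := by
  induction N with
  | zero => simp
  | succ N ih =>
    rw [show 2 * (N + 1) = 2 * N + 1 + 1 by ring, sum_range_succ, sum_range_succ, ih,
      sum_range_succ, if_neg (by omega), if_pos (by omega)]
    ring

theorem hev_congr (m : ℕ) (f g : List ℕ → ℤ) (h : ∀ u, f u = g u) : hev m f = hev m g := by
  rw [funext h]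

theorem Hk_succ (k : ℕ) (f : List ℕ → ℤ) :
    Hk (k + 1) f = ∑ a ∈ range (k + 1), if a % 2 = 1 then Hk (k - a) (fun l => f (a :: l)) else 0 := by
  rcases Nat.even_or_odd' k with ⟨m, rfl | rfl⟩
  · -- `k` even
    rw [Hk, if_neg (by omega)]
    symm
    refine sum_eq_zero fun a ha => ?_
    have := mem_range.1 ha
    by_cases h : a % 2 = 1
    · rw [if_pos h, Hk, if_neg (by omega)]
    · rw [if_neg h]
  · rw [show 2 * m + 1 + 1 = 2 * (m + 1) by ring, sum_odd (m + 1)
      (fun a => Hk (2 * m + 1 - a) (fun l => f (a :: l))), Hk, if_pos (by omega),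
      show 2 * (m + 1) / 2 = m + 1 by omega, hev,
      ← Fin.sum_univ_eq_sum_range (fun b => Hk (2 * m + 1 - (2 * b + 1))
        (fun l => f ((2 * b + 1) :: l))) (m + 1)]
    refine sum_congr rfl fun b _ => ?_
    have hb := b.2
    rw [Hk, if_pos (by omega), show (2 * m + 1 - (2 * b.1 + 1)) / 2 = m - b.1 by omega]

theorem Hk_add (k : ℕ) : ∀ f g : List ℕ → ℤ, Hk k (fun l => f l + g l) = Hk k f + Hk k g := by
  induction k using Nat.strong_induction_on with
  | _ k ih =>
    intro f g
    cases k with
    | zero => simp only [Hk_zero]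
    | succ k =>
      rw [Hk_succ, Hk_succ, Hk_succ, ← sum_add_distrib]
      refine sum_congr rfl fun a ha => ?_
      split_ifs
      · exact ih (k - a) (by omega) _ _
      · simp

/-- `∑_{j ≤ i} H_{i-j}(Φ_j)` -/
def Th (i : ℕ) (Φ : ℕ → List ℕ → ℤ) : ℤ := ∑ j ∈ range (i + 1), Hk (i - j) (Φ j)

theorem Th_zero (Φ : ℕ → List ℕ → ℤ) : Th 0 Φ = Φ 0 [] := by
  simp [Th, Hk_zero]

theorem Th_add (i : ℕ) (Φ Ψ : ℕ → List ℕ → ℤ) :
    Th i (fun j u => Φ j u + Ψ j u) = Th i Φ + Th i Ψ := by
  simp only [Th, Hk_add, sum_add_distrib]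

theorem Th_succ (i : ℕ) (Φ : ℕ → List ℕ → ℤ) :
    Th (i + 1) Φ = Φ (i + 1) [] +
      ∑ a ∈ range (i + 1), if a % 2 = 1 then Th (i - a) (fun j u => Φ j (a :: u)) else 0 := by
  rw [Th, sum_range_succ, Nat.sub_self, Hk_zero, add_comm]
  congr 1
  have h1 : ∀ j ∈ range (i + 1), Hk (i + 1 - j) (Φ j) = ∑ a ∈ range (i - j + 1),
      if a % 2 = 1 then Hk (i - j - a) (fun l => Φ j (a :: l)) else 0 := by
    intro j hj
    have := mem_range.1 hj
    rw [show i + 1 - j = i - j + 1 by omega, Hk_succ]
  rw [sum_congr rfl h1]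
  have h2 : ∀ a ∈ range (i + 1), (if a % 2 = 1 then Th (i - a) (fun j u => Φ j (a :: u)) else 0) =
      ∑ j ∈ range (i - a + 1), if a % 2 = 1 then Hk (i - j - a) (fun l => Φ j (a :: l)) else 0 := by
    intro a ha
    split_ifs
    · rw [Th]
      refine sum_congr rfl fun j hj => ?_
      rw [show i - a - j = i - j - a by omega]
    · simp
  rw [sum_congr rfl h2]
  exact sum_comm' fun x y => by simp only [mem_range]; omega

/-- shift of the index `j` -/
def shf (Φ : ℕ → List ℕ → ℤ) : ℕ → List ℕ → ℤ
  | 0, _ => 0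
  | j + 1, u => Φ j u

theorem Hk_zero_fun (k : ℕ) : Hk k (fun _ => 0) = 0 := by
  have := Hk_add k (fun _ => 0) (fun _ => 0)
  simp only [add_zero] at this
  linarith

theorem Th_shf_zero (Φ : ℕ → List ℕ → ℤ) : Th 0 (shf Φ) = 0 := Th_zero _

theorem Th_shf_succ (i : ℕ) (Φ : ℕ → List ℕ → ℤ) : Th (i + 1) (shf Φ) = Th i Φ := by
  rw [Th, sum_range_succ']
  have h0 : Hk (i + 1 - 0) (shf Φ 0) = 0 := by
    have : shf Φ 0 = fun _ => 0 := rfl
    rw [this, Hk_zero_fun]
  rw [h0, add_zero, Th]
  refine sum_congr rfl fun j _ => ?_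
  rw [Nat.succ_sub_succ]
  rfl

/-- the family `u ↦ f (y^j * u)` -/
def fam (f : List ℕ → ℤ) : ℕ → List ℕ → ℤ := fun j u => stf f (List.replicate j 0) u

/-- `∑_{j + 2m = i} f (y^j * h_m)` -/
def T (i : ℕ) (f : List ℕ → ℤ) : ℤ := Th i (fam f)

theorem T_zero (f : List ℕ → ℤ) : T 0 f = f [] := by
  rw [T, Th_zero]
  simp [fam]

theorem fam_cons (f : List ℕ → ℤ) (a : ℕ) :
    (fun j u => fam f j (a :: u)) = fun j u =>
      fam (fun l => f (a :: l)) j u +
        (shf (fun j u => fam (fun l => f (0 :: l)) j (a :: u)) j u +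
          shf (fam (fun l => f ((a + 1) :: l))) j u) := by
  funext j u
  cases j with
  | zero => simp [fam, shf]
  | succ j =>
    simp only [fam, shf, List.replicate_succ]
    rw [stf_cons_cons, zero_add]
    ring

theorem T_succ (i : ℕ) (f : List ℕ → ℤ) :
    T (i + 1) f = ∑ a ∈ range (i + 1), T (i - a) (fun l => f (a :: l)) := by
  rw [T, Th_succ]
  have e00 : ∀ a ∈ range (i + 1), (if a % 2 = 1 then
      Th (i - a) (fun j u => fam f j (a :: u)) else 0) = if a % 2 = 1 then
        Th (i - a) (fam fun l => f (a :: l)) +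
          (Th (i - a) (shf fun j u => fam (fun l => f (0 :: l)) j (a :: u)) +
            Th (i - a) (shf (fam fun l => f ((a + 1) :: l)))) else 0 := by
    intro a _
    rw [fam_cons f a, Th_add, Th_add]
  rw [sum_congr rfl e00]
  have e0 : fam f (i + 1) [] = f (List.replicate (i + 1) 0) := by simp [fam]
  rw [e0]
  cases i with
  | zero =>
    simp [T_zero]
  | succ i =>
    -- the term `T_{i+1} (f (0 :: ·))`
    have h1 : T (i + 1) (fun l => f (0 :: l)) = f (List.replicate (i + 1 + 1) 0) +
        ∑ a ∈ range (i + 1), if a % 2 = 1 then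
          Th (i - a) (fun j u => fam (fun l => f (0 :: l)) j (a :: u)) else 0 := by
      rw [T, Th_succ]
      congr 1
      simp [fam, List.replicate_succ]
    have h2 : ∀ a ∈ range (i + 1 + 1), (if a % 2 = 1 then
        Th (i + 1 - a) (fam fun l => f (a :: l)) +
          (Th (i + 1 - a) (shf fun j u => fam (fun l => f (0 :: l)) j (a :: u)) +
            Th (i + 1 - a) (shf (fam fun l => f ((a + 1) :: l)))) else 0) =
        (if a % 2 = 1 then T (i + 1 - a) (fun l => f (a :: l)) else 0) +
        ((if a % 2 = 1 ∧ a < i + 1 then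
          Th (i - a) (fun j u => fam (fun l => f (0 :: l)) j (a :: u)) else 0) +
        (if a % 2 = 1 ∧ a < i + 1 then T (i + 1 - (a + 1)) (fun l => f ((a + 1) :: l)) else 0)) := by
      intro a ha
      have ha' := mem_range.1 ha
      by_cases h : a % 2 = 1
      · rw [if_pos h, if_pos h]
        by_cases h' : a < i + 1
        · rw [if_pos ⟨h, h'⟩, if_pos ⟨h, h'⟩, show i + 1 - a = (i - a) + 1 by omega, Th_shf_succ,
            Th_shf_succ, show i + 1 - (a + 1) = i - a by omega]
          rfl
        · rw [if_neg (fun hh => h' hh.2), if_neg (fun hh => h' hh.2),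
            show i + 1 - a = 0 by omega, Th_shf_zero, Th_shf_zero]
          rfl
      · rw [if_neg h, if_neg h, if_neg (fun hh => h hh.1), if_neg (fun hh => h hh.1)]
        ring
    rw [sum_congr rfl h2, sum_add_distrib, sum_add_distrib]
    have h3 : ∑ a ∈ range (i + 1 + 1), (if a % 2 = 1 ∧ a < i + 1 then
          Th (i - a) (fun j u => fam (fun l => f (0 :: l)) j (a :: u)) else 0) =
        ∑ a ∈ range (i + 1), if a % 2 = 1 then
          Th (i - a) (fun j u => fam (fun l => f (0 :: l)) j (a :: u)) else 0 := by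
      rw [sum_range_succ, if_neg (by omega), add_zero]
      refine sum_congr rfl fun a ha => ?_
      have := mem_range.1 ha
      by_cases h : a % 2 = 1
      · rw [if_pos h, if_pos ⟨h, this⟩]
      · rw [if_neg h, if_neg (fun hh => h hh.1)]
    have h4 : ∑ a ∈ range (i + 1 + 1), (if a % 2 = 1 ∧ a < i + 1 then
          T (i + 1 - (a + 1)) (fun l => f ((a + 1) :: l)) else 0) =
        ∑ a ∈ range (i + 1), if a % 2 = 1 then
          T (i + 1 - (a + 1)) (fun l => f ((a + 1) :: l)) else 0 := by
      rw [sum_range_succ, if_neg (by omega), add_zero]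
      refine sum_congr rfl fun a ha => ?_
      have := mem_range.1 ha
      by_cases h : a % 2 = 1
      · rw [if_pos h, if_pos ⟨h, this⟩]
      · rw [if_neg h, if_neg (fun hh => h hh.1)]
    have h5 : ∑ a ∈ range (i + 1 + 1), (if a % 2 = 1 then T (i + 1 - a) (fun l => f (a :: l))
          else 0) =
        ∑ a ∈ range (i + 1), if a % 2 = 0 then
          T (i + 1 - (a + 1)) (fun l => f ((a + 1) :: l)) else 0 := by
      rw [sum_range_succ', if_neg (by omega), add_zero]
      refine sum_congr rfl fun a ha => ?_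
      by_cases h : a % 2 = 0
      · rw [if_pos h, if_pos (by omega)]
      · rw [if_neg h, if_neg (by omega)]
    have h6 : ∑ a ∈ range (i + 1 + 1), T (i + 1 - a) (fun l => f (a :: l)) =
        ∑ a ∈ range (i + 1), T (i + 1 - (a + 1)) (fun l => f ((a + 1) :: l)) +
          T (i + 1) (fun l => f (0 :: l)) := by
      rw [sum_range_succ', Nat.sub_zero]
    rw [h3, h4, h5, h6, h1]
    have h7 : ∑ a ∈ range (i + 1), T (i + 1 - (a + 1)) (fun l => f ((a + 1) :: l)) =
        ∑ a ∈ range (i + 1), (if a % 2 = 0 then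
          T (i + 1 - (a + 1)) (fun l => f ((a + 1) :: l)) else 0) +
        ∑ a ∈ range (i + 1), (if a % 2 = 1 then
          T (i + 1 - (a + 1)) (fun l => f ((a + 1) :: l)) else 0) := by
      rw [← sum_add_distrib]
      refine sum_congr rfl fun a _ => ?_
      rcases Nat.mod_two_eq_zero_or_one a with h | h
      · rw [if_pos h, if_neg (by omega), add_zero]
      · rw [if_neg (by omega), if_pos h, zero_add]
    rw [h7]
    ring

/-! ### the shuffle side -/

/-- `∑_{a + b = i, b ≥ 1} (-1)^{b+1} f (x^a y^b)` -/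
def C (i : ℕ) (f : List Bool → ℤ) : ℤ :=
  ∑ a ∈ range i, (-1) ^ (i - a + 1) * f (List.replicate a false ++ List.replicate (i - a) true)

theorem C_zero (f : List Bool → ℤ) : C 0 f = 0 := by simp [C]

theorem C_succ (i : ℕ) (f : List Bool → ℤ) :
    C (i + 1) f = C i (fun w => f (false :: w)) + (-1) ^ i * f (List.replicate (i + 1) true) := by
  rw [C, sum_range_succ', C]
  congr 1
  · refine sum_congr rfl fun a _ => ?_
    rw [Nat.succ_sub_succ, List.replicate_succ, List.cons_append]
  · simp only [Nat.sub_zero, List.replicate_zero, List.nil_append]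
    rw [pow_succ, pow_succ]
    ring

theorem C_add (i : ℕ) (f g : List Bool → ℤ) : C i (fun w => f w + g w) = C i f + C i g := by
  simp only [C, mul_add, sum_add_distrib]

/-- `∑_k f (y^k ⧢ ∑ …)` -/
def L (i : ℕ) (f : List Bool → ℤ) : ℤ :=
  ∑ k ∈ range (i + 1), C (i - k) (fun w => shs f (List.replicate k true) w)

/-- the part with an `x` in front -/
def L' (i : ℕ) (f : List Bool → ℤ) : ℤ :=
  ∑ k ∈ range (i + 1), C (i - k) (fun w => shs f (List.replicate k true) (false :: w))

theorem alt_sum (i : ℕ) : ∑ k ∈ range (i + 1), (-1 : ℤ) ^ (i - k) * ((i + 1).choose k : ℤ) = 1 := by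
  have h := add_pow (1 : ℤ) (-1) (i + 1)
  rw [add_neg_cancel, zero_pow (Nat.succ_ne_zero i), sum_range_succ] at h
  simp only [one_pow, one_mul, Nat.sub_self, pow_zero, Nat.choose_self, Nat.cast_one] at h
  have h2 : ∑ k ∈ range (i + 1), (-1 : ℤ) ^ (i + 1 - k) * ((i + 1).choose k : ℤ) =
      -∑ k ∈ range (i + 1), (-1 : ℤ) ^ (i - k) * ((i + 1).choose k : ℤ) := by
    rw [← sum_neg_distrib]
    refine sum_congr rfl fun k hk => ?_
    have := mem_range.1 hk
    rw [show i + 1 - k = (i - k) + 1 by omega, pow_succ]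
    ring
  rw [h2] at h
  linarith

theorem L_succ (i : ℕ) (f : List Bool → ℤ) : L (i + 1) f = L' i f + f (List.replicate (i + 1) true) := by
  rw [L, sum_range_succ, Nat.sub_self, C_zero, add_zero]
  have h1 : ∀ k ∈ range (i + 1), C (i + 1 - k) (fun w => shs f (List.replicate k true) w) =
      C (i - k) (fun w => shs f (List.replicate k true) (false :: w)) +
        (-1) ^ (i - k) * ((i + 1).choose k : ℤ) * f (List.replicate (i + 1) true) := by
    intro k hk
    have hk' := mem_range.1 hk
    rw [show i + 1 - k = (i - k) + 1 by omega, C_succ, StarF.shs_rep,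
      show k + (i - k + 1) = i + 1 by omega, nsmul_eq_mul]
    ring
  rw [sum_congr rfl h1, sum_add_distrib, ← sum_mul, alt_sum, one_mul, L']

theorem L'_zero (f : List Bool → ℤ) : L' 0 f = 0 := by
  simp [L', C_zero]

theorem L_zero (f : List Bool → ℤ) : L 0 f = 0 := by
  simp [L, C_zero]

theorem L'_succ (i : ℕ) (f : List Bool → ℤ) :
    L' (i + 1) f = L' i (fun w => f (true :: w)) + L (i + 1) (fun w => f (false :: w)) := by
  have hx : L' (i + 1) f = ∑ k ∈ range (i + 1 + 1),
      C (i + 1 - k) (fun w => shs (fun w => f (false :: w)) (List.replicate k true) w) +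
      ∑ k ∈ range (i + 1), C (i - k) (fun w => shs (fun w => f (true :: w))
        (List.replicate k true) (false :: w)) := by
    rw [L', sum_range_succ', sum_range_succ' (n := i + 1)]
    have h1 : ∀ k ∈ range (i + 1),
        C (i + 1 - (k + 1)) (fun w => shs f (List.replicate (k + 1) true) (false :: w)) =
        C (i - k) (fun w => shs (fun w => f (true :: w)) (List.replicate k true) (false :: w)) +
        C (i + 1 - (k + 1))
          (fun w => shs (fun w => f (false :: w)) (List.replicate (k + 1) true) w) := by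
      intro k _
      rw [Nat.succ_sub_succ, ← C_add]
      congr 1
      funext w
      rw [List.replicate_succ, shs_cons_cons]
    rw [sum_congr rfl h1, sum_add_distrib]
    simp only [List.replicate_zero, shs_nil_left]
    ring
  rw [hx, L', L]
  ring

theorem L_step (i : ℕ) (hi : 1 ≤ i) (f : List Bool → ℤ) :
    L (i + 1) f = L i (fun w => f (true :: w)) + L i (fun w => f (false :: w)) := by
  obtain ⟨i, rfl⟩ : ∃ k, i = k + 1 := ⟨i - 1, by omega⟩
  rw [L_succ (i + 1), L'_succ, L_succ i (fun w => f (true :: w))]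
  rw [List.replicate_succ (n := i + 1)]
  ring

theorem L_one (f : List Bool → ℤ) : L 1 f = f [true] := by
  rw [← zero_add 1, L_succ, L'_zero]
  simp

/-- the two expressions for the sum of all words of `ℌ¹` -/
theorem T_eq_L (i : ℕ) (hi : 1 ≤ i) (f : List Bool → ℤ) : T i (fun l => f (bw l)) = L i f := by
  induction i generalizing f with
  | zero => omega
  | succ i ih =>
    rcases Nat.eq_zero_or_pos i with rfl | h
    · rw [zero_add, L_one, ← zero_add 1, T_succ]
      simp [T_zero, bw]
    · rw [L_step i h, ← ih h, ← ih h, T_succ, sum_range_succ']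
      obtain ⟨i, rfl⟩ : ∃ k, i = k + 1 := ⟨i - 1, by omega⟩
      rw [T_succ i (fun l => f (false :: bw l)), add_comm]
      congr 1
      refine sum_congr rfl fun a _ => ?_
      rw [Nat.succ_sub_succ]
      congr 1

/-! ### the module -/

theorem stf_ad (f : List ℕ → ℤ) (u v : List ℕ) (hu : Ad u) (hv : Ad v)
    (h : ∀ l, Ad l → wt l = wt u + wt v → f l = 0) : stf f u v = 0 := by
  cases u with
  | nil => simpa using h v hv (by simp)
  | cons a u =>
    cases v with
    | nil => simpa using h (a :: u) hu (by simp)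
    | cons b v =>
      have ha : 1 ≤ a := hu a (by simp)
      have hb : 1 ≤ b := hv b (by simp)
      have hh : ∀ (c : ℕ) (l : List ℕ), 1 ≤ c → wt (c :: l) = wt (a :: u) + wt (b :: v) →
          f (c :: l) = 0 := fun c l hc hl => h (c :: l) (by simpa [Ad] using hc) hl
      rw [stf_cons_cons, stf_zero, stf_zero, stf_zero]
      · simp
      · intro l hl
        exact hh _ _ (by omega) (by simp only [wt_cons] at hl ⊢; omega)
      · intro l hl
        exact hh _ _ (by omega) (by simp only [wt_cons] at hl ⊢; omega)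
      · intro l hl
        exact hh _ _ (by omega) (by simp only [wt_cons] at hl ⊢; omega)

theorem Hk_ad (k : ℕ) : ∀ f : List ℕ → ℤ, (∀ l, Ad l → wt l = k → f l = 0) → Hk k f = 0 := by
  have hstrong : ∀ k, ∀ f : List ℕ → ℤ, (∀ l, wt l = k → f l = 0) → Hk k f = 0 := by
    intro k
    induction k using Nat.strong_induction_on with
    | _ k ih =>
      intro f hf
      cases k with
      | zero => rw [Hk_zero, hf [] rfl]
      | succ k =>
        rw [Hk_succ]
        refine sum_eq_zero fun a ha => ?_
        have := mem_range.1 ha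
        split_ifs
        · exact ih (k - a) (by omega) _ fun l hl => hf _ (by rw [wt_cons]; omega)
        · rfl
  intro f hf
  cases k with
  | zero => rw [Hk_zero, hf [] (by simp [Ad]) rfl]
  | succ k =>
    rw [Hk_succ]
    refine sum_eq_zero fun a ha => ?_
    have := mem_range.1 ha
    split_ifs
    · exact hstrong (k - a) _ fun l hl =>
        hf _ (by simp only [Ad, List.head?_cons, Option.mem_some_iff]; omega)
          (by rw [wt_cons]; omega)
    · rfl

theorem wt_rep (m : ℕ) : wt (List.replicate m 0) = m := by simp [wt]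

theorem bw_rep (m : ℕ) : bw (List.replicate m 0) = List.replicate m true := by
  induction m with
  | zero => rfl
  | succ m ih => simp [List.replicate_succ, bw, ih]

theorem endY_bw (l : List ℕ) : EndY (bw l) := by
  induction l with
  | nil => exact Or.inl rfl
  | cons a l ih =>
    induction a with
    | zero => exact Pass1.endY_true_cons ih
    | succ a iha =>
      have : bw ((a + 1) :: l) = false :: bw (a :: l) := by
        simp [bw, List.replicate_succ]
      rw [this]
      exact Pass1.endY_cons iha (by simp [bw])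

theorem length_bw (l : List ℕ) : (bw l).length = wt l := by
  induction l with
  | nil => rfl
  | cons a l ih => simp [bw, ih]; ring

/-- (B2) -/
theorem kill_st {n : ℕ} {ψ : List Bool → ℤ} (h : RR n ψ) (j : ℕ) (b : List ℕ) (hj : 1 ≤ j)
    (hb : Ad b) (hn : j + wt b = n) : stf (fun l => ψ (bw l)) (List.replicate j 0) b = 0 := by
  rw [← h.rds (List.replicate j 0) b hb (by rw [wt_rep]; omega), bw_rep]
  exact h.reg j (bw b) hj (endY_bw b) (by rw [length_bw]; omega)

end SW

open SW in
theorem specW : SpecW := by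
  intro n ψ hψ i v hi hv hn
  have key := T_eq_L i hi (fun w => shs ψ w (bw v))
  -- the shuffle side
  have hL : L i (fun w => shs ψ w (bw v)) = ∑ a ∈ range (i - 1), (-1) ^ (i - a) *
        shs ψ (List.replicate (a + 1) false ++ List.replicate (i - 1 - a) true) (bw v) := by
    rw [L, sum_range_succ']
    have h0 : ∀ k ∈ range i, C (i - (k + 1))
        (fun w => shs (fun w => shs ψ w (bw v)) (List.replicate (k + 1) true) w) = 0 := by
      intro k hk
      have hk' := mem_range.1 hk
      rw [C]
      refine sum_eq_zero fun a ha => ?_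
      have ha' := mem_range.1 ha
      rw [Pass1.shs_assoc]
      have e : shs (fun t => shs ψ (List.replicate (k + 1) true) t)
          (List.replicate a false ++ List.replicate (i - (k + 1) - a) true) (bw v) = 0 := by
        refine Pass1.shs_zero_of_endY _ _ _ ?_ (endY_bw v) fun l hl hY => ?_
        · refine Or.inr ⟨List.replicate a false ++ List.replicate (i - (k + 1) - a - 1) true, ?_⟩
          rw [List.append_assoc, ← List.replicate_succ',
            show i - (k + 1) - a - 1 + 1 = i - (k + 1) - a by omega]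
        · refine hψ.reg (k + 1) l (by omega) hY ?_
          simp only [List.length_append, List.length_replicate, length_bw] at hl
          omega
      rw [e, mul_zero]
    rw [sum_eq_zero h0, zero_add, Nat.sub_zero, C]
    obtain ⟨i, rfl⟩ : ∃ k, i = k + 1 := ⟨i - 1, by omega⟩
    rw [sum_range_succ']
    have h1 : shs (fun w => shs ψ w (bw v)) (List.replicate 0 true)
        (List.replicate 0 false ++ List.replicate (i + 1 - 0) true) = 0 := by
      simp only [List.replicate_zero, List.nil_append, shs_nil_left, Nat.sub_zero]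
      exact hψ.reg (i + 1) (bw v) (by omega) (endY_bw v) (by rw [length_bw]; omega)
    rw [h1, mul_zero, add_zero, Nat.add_sub_cancel]
    refine sum_congr rfl fun a ha => ?_
    have := mem_range.1 ha
    simp only [List.replicate_zero, shs_nil_left]
    rw [show i + 1 - (a + 1) + 1 = i + 1 - a by omega, show i + 1 - (a + 1) = i - a by omega]
  -- the stuffle side
  have hT : T i (fun l => shs ψ (bw l) (bw v)) =
      if i % 2 = 0 then hev (i / 2) (fun u => stf (fun l => ψ (bw l)) u v) else 0 := by
    have hst : ∀ (i : ℕ) (f g : List ℕ → ℤ), (∀ l, wt l = i → f l = g l) → T i f = T i g := by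
      intro i
      induction i using Nat.strong_induction_on with
      | _ i ih =>
        intro f g hfg
        cases i with
        | zero => rw [T_zero, T_zero, hfg [] rfl]
        | succ i =>
          rw [T_succ, T_succ]
          refine sum_congr rfl fun a ha => ?_
          have := mem_range.1 ha
          exact ih (i - a) (by omega) _ _ fun l hl => hfg _ (by rw [wt_cons]; omega)
    rw [hst i _ (fun l => stf (fun l => ψ (bw l)) l v) fun l hl => hψ.rds l v hv (by omega)]
    rw [T, Th, sum_range_succ']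
    have h0 : ∀ k ∈ range i, Hk (i - (k + 1))
        (fam (fun l => stf (fun l => ψ (bw l)) l v) (k + 1)) = 0 := by
      intro k hk
      have hk' := mem_range.1 hk
      refine Hk_ad _ _ fun u hu hwu => ?_
      rw [fam, stf_assoc']
      have e := stf_comm (fun l => stf (fun l => ψ (bw l)) (List.replicate (k + 1) 0) l) u v
      refine stf_ad _ _ _ hu hv fun l hl hwl => ?_
      exact kill_st hψ (k + 1) l (by omega) hl (by omega)
    rw [sum_eq_zero h0, zero_add, Nat.sub_zero, Hk]
    have : fam (fun l => stf (fun l => ψ (bw l)) l v) 0 =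
        fun u => stf (fun l => ψ (bw l)) u v := by
      funext u
      simp [fam]
    rw [this]
  rw [← hL, ← key, hT]

end MP154526.Lin
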