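import Pool.Agent.Lib.MP_154526_nt.Lin.Plan
import Pool.Agent.Lib.MP_154526_nt.Top.Span
import Pool.Agent.Lib.MP_154526_nt.Top.Fin

/-!
# SPAN and ANSWER for the literal linear span
-/

set_option autoImplicit false

namespace MP154526.Lin

open Finset MP154526.Top MP154526.Top.Front MP154526.Top.Pass2 MP154526.Bound

theorem expand_form : ∀ u : List Bool, u ≠ [] → ∃ v, expand u = false :: v ++ [true] := by
  intro u
  induction u with
  | nil => intro h; exact absurd rfl h
  | cons a u ih =>
    intro _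
    by_cases hu : u = []
    · subst hu
      cases a
      · exact ⟨[], rfl⟩
      · exact ⟨[true], rfl⟩
    · obtain ⟨v, hv⟩ := ih hu
      cases a
      · exact ⟨true :: false :: v, by simp [expand, hv]⟩
      · exact ⟨true :: true :: false :: v, by simp [expand, hv]⟩

theorem expand_adm (u : List Bool) : Adm (expand u) := by
  by_cases hu : u = []
  · subst hu
    exact Or.inl rfl
  · obtain ⟨v, hv⟩ := expand_form u hu
    exact Or.inr ⟨v, hv⟩

theorem specSpan (hF : SpecF2) (hC : SpecCls) (hE : SpecExt) : SpecSpan := by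
  classical
  intro n
  set S := Submodule.span ℚ (RDS n) ⊔
    Submodule.span ℚ {z | ∃ w, (expand w).length = n ∧ z = wd (expand w)} with hS
  rw [H0, Submodule.span_le]
  rintro _ ⟨w₀, hw₀, hlen, rfl⟩
  by_contra hcon
  rcases hw₀ with rfl | ⟨u₀, rfl⟩
  · apply hcon
    refine Submodule.mem_sup_right (Submodule.subset_span ⟨[], ?_, rfl⟩)
    exact hlen
  obtain ⟨f, hf0, hfS⟩ := Submodule.exists_le_ker_of_notMem hcon
  -- the finite set of admissible words
  set T : Finset (List Bool) :=
    (List.finite_length_eq Bool n).toFinset.filter (fun w => Adm w) with hT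
  have hmemT : ∀ w, w ∈ T ↔ w.length = n ∧ Adm w := by
    intro w
    simp [hT]
  obtain ⟨φ, κ, hκ, hφ, w₁, hw₁, hodd⟩ := Top.Span.primitive T (fun w => f (wd w))
    (false :: u₀ ++ [true]) ((hmemT _).2 ⟨hlen, Or.inr ⟨u₀, rfl⟩⟩) hf0
  have hlin : ∀ h ∈ H0 n, f h = κ * lin φ h := by
    intro h hh
    rw [Top.Span.lin_eq]
    refine Submodule.span_induction (p := fun h _ => f h = κ * Top.Span.linM φ h) ?_ ?_ ?_ ?_ hh
    · rintro _ ⟨w, hw, hl, rfl⟩
      rw [Top.Span.linM_wd]
      exact hφ w ((hmemT w).2 ⟨hl, hw⟩)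
    · simp
    · intro x y _ _ hx hy
      rw [map_add, map_add, hx, hy]
      ring
    · intro a x _ hx
      rw [map_smul, map_smul, hx, smul_eq_mul, smul_eq_mul]
      ring
  have hzero : ∀ h ∈ H0 n, h ∈ S → lin φ h = 0 := by
    intro h hh hS'
    have h3 := hfS hS'
    rw [LinearMap.mem_ker, hlin h hh] at h3
    rcases mul_eq_zero.1 h3 with h4 | h4
    · exact absurd h4 hκ
    · exact h4
  have hRR : RR n (ext φ) := hE n φ fun r hr =>
    hzero r hr.1 (Submodule.mem_sup_left (Submodule.subset_span hr))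
  have hexp : ∀ w, (expand w).length = n → (((ext φ (expand w) : ℤ)) : ZMod 2) = 0 := by
    intro w hwl
    have hadm := expand_adm w
    have h5 : lin φ (wd (expand w)) = 0 := by
      refine hzero _ (Submodule.subset_span ⟨expand w, hadm, hwl, rfl⟩) ?_
      exact Submodule.mem_sup_right (Submodule.subset_span ⟨w, hwl, rfl⟩)
    rw [Top.Span.lin_eq, Top.Span.linM_wd] at h5
    have h6 : φ (expand w) = 0 := by exact_mod_cast h5
    by_cases hw : w = []
    · subst hw
      have : ext φ (expand []) = φ [] := rfl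
      rw [this]
      have h7 : φ [] = 0 := h6
      rw [h7]
      simp
    · obtain ⟨v, hv⟩ := expand_form w hw
      rw [hv, List.cons_append, Top.Span.ext_false, ← List.cons_append, ← hv, h6]
      simp
  have hall := hF FF hC n (fun w => ((ext φ w : ℤ) : ZMod 2)) ⟨ext φ, hRR, rfl⟩ hexp
  obtain ⟨hl₁, hadm₁⟩ := (hmemT w₁).1 hw₁
  rcases hadm₁ with rfl | ⟨u₁, rfl⟩
  · have h7 := hall [] (Or.inl rfl) hl₁
    have h8 : ext φ [] = φ [] := rfl
    rw [h8] at h7
    exact hodd ((ZMod.intCast_zmod_eq_zero_iff_dvd _ 2).1 (by simpa using h7))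
  have h7 := hall (false :: u₁ ++ [true]) (Or.inr ⟨false :: u₁, rfl⟩) hl₁
  simp only [List.cons_append, Top.Span.ext_false] at h7
  exact hodd ((ZMod.intCast_zmod_eq_zero_iff_dvd _ 2).1 (by simpa using h7))

theorem specAnswer (hS : SpecSpan) : SpecAnswer := by
  intro p
  obtain ⟨W, hW, hWc⟩ := FinN.exists_words p
  rw [← hWc]
  have hmem : ∀ w : W, wd (expand w.1) ∈ H0 p := fun w =>
    Submodule.subset_span ⟨expand w.1, expand_adm _, (hW w.1).1 w.2, rfl⟩
  let f : W → (H0 p ⧸ (Submodule.span ℚ (RDS p)).comap (H0 p).subtype) :=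
    fun w => Submodule.Quotient.mk ⟨wd (expand w.1), hmem w⟩
  have key : ∀ m ∈ Submodule.span ℚ {z | ∃ w, (expand w).length = p ∧ z = wd (expand w)},
      ∃ hm : m ∈ H0 p,
      (Submodule.Quotient.mk ⟨m, hm⟩ : H0 p ⧸ (Submodule.span ℚ (RDS p)).comap (H0 p).subtype) ∈
        Submodule.span ℚ (Set.range f) := by
    intro m hm
    induction hm using Submodule.span_induction with
    | mem z hz =>
      obtain ⟨w, hw, rfl⟩ := hz
      have hw' : w ∈ W := (hW w).2 hw
      exact ⟨hmem ⟨w, hw'⟩, Submodule.subset_span ⟨⟨w, hw'⟩, rfl⟩⟩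
    | zero => exact ⟨Submodule.zero_mem _, by
        have : (⟨0, Submodule.zero_mem _⟩ : H0 p) = 0 := rfl
        rw [this, Submodule.Quotient.mk_zero]
        exact Submodule.zero_mem _⟩
    | add x y _ _ hx hy =>
      obtain ⟨hx1, hx2⟩ := hx
      obtain ⟨hy1, hy2⟩ := hy
      exact ⟨Submodule.add_mem _ hx1 hy1, Submodule.add_mem _ hx2 hy2⟩
    | smul r x _ hx =>
      obtain ⟨hx1, hx2⟩ := hx
      exact ⟨Submodule.smul_mem _ r hx1, Submodule.smul_mem _ r hx2⟩
  have htop : Submodule.span ℚ (Set.range f) = ⊤ := by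
    rw [eq_top_iff]
    rintro x -
    obtain ⟨y, rfl⟩ := Submodule.Quotient.mk_surjective _ x
    obtain ⟨j, hj, m, hm, hjm⟩ := Submodule.mem_sup.mp (hS p y.2)
    obtain ⟨hm1, hm2⟩ := key m hm
    have : (Submodule.Quotient.mk y :
        H0 p ⧸ (Submodule.span ℚ (RDS p)).comap (H0 p).subtype) =
        Submodule.Quotient.mk ⟨m, hm1⟩ := by
      rw [Submodule.Quotient.eq, Submodule.mem_comap]
      have h1 : ((H0 p).subtype (y - ⟨m, hm1⟩) : H) = j := by
        rw [map_sub]
        change (y : H) - m = j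
        rw [← hjm]
        abel
      rw [h1]
      exact hj
    rw [this]
    exact hm2
  have h1 := finrank_range_le_card (R := ℚ) f
  rw [Set.finrank, htop, finrank_top, Fintype.card_coe] at h1
  exact h1

end MP154526.Lin
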