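import Pool.Agent.Lib.MP_154526_nt.Lin.Harm2

/-!
# The forward / backward relation for windows (G2)

For a word `b`, `(y ⧢ b)(M,P] = (b y)(M,P] + ∑_{M ≤ t < P} b(M,t]/(P-t) - ∑_{M < n ≤ P} b(n,P]/(n-M)`.
-/

set_option autoImplicit false

namespace MP154526.Lin

open Finset MP154526.Top MP154526.Top.Pass2

/-- sum of `f` over the index lists (exponents `a = k - 1`) of the words of `y ⧢ bw l` -/
def yi {M : Type} [AddCommMonoid M] (f : List ℕ → M) : List ℕ → M
  | [] => f [0]
  | a :: l => (∑ i ∈ range (a + 1), f (i :: (a - i) :: l)) + yi (fun l' => f (a :: l')) l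

theorem shs_y_run {M : Type} [AddCommMonoid M] (a : ℕ) (l : List ℕ) (ψ : List Bool → M) :
    shs ψ [true] (List.replicate a false ++ true :: bw l) =
      (∑ i ∈ range (a + 1), ψ (bw (i :: (a - i) :: l))) +
        shs (fun w => ψ (List.replicate a false ++ true :: w)) [true] (bw l) := by
  induction a generalizing ψ with
  | zero =>
    simp only [List.replicate_zero, List.nil_append, zero_add, sum_range_one]
    rw [shs_cons_cons, shs_nil_left]
    simp [bw]
  | succ a ih =>
    rw [List.replicate_succ, List.cons_append, shs_cons_cons, shs_nil_left, ih]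
    rw [sum_range_succ' _ (a + 1), add_comm (∑ k ∈ range (a + 1), ψ (bw ((k + 1) :: _))) _,
      add_assoc]
    congr 1
    congr 1
    refine sum_congr rfl fun i hi => ?_
    rw [show a + 1 - (i + 1) = a - i by omega]
    simp [bw, List.replicate_succ]

theorem shs_y_bw {M : Type} [AddCommMonoid M] (l : List ℕ) (ψ : List Bool → M) :
    shs ψ [true] (bw l) = yi (fun l => ψ (bw l)) l := by
  induction l generalizing ψ with
  | nil => simp [bw, yi]
  | cons a l ih =>
    rw [bw, shs_y_run, yi, ih]
    simp [bw]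

theorem yi_zero {M : Type} [AddCommMonoid M] (f : List ℕ → M) (l : List ℕ)
    (h : ∀ a l, f (a :: l) = 0) : yi f l = 0 := by
  induction l generalizing f with
  | nil => exact h _ _
  | cons a l ih =>
    rw [yi, ih (fun l' => f (a :: l')) (fun _ _ => h _ _), add_zero]
    exact sum_eq_zero fun _ _ => h _ _

theorem yi_add {M : Type} [AddCommMonoid M] (f g : List ℕ → M) (l : List ℕ) :
    yi (fun l => f l + g l) l = yi f l + yi g l := by
  induction l generalizing f g with
  | nil => rfl
  | cons a l ih =>
    rw [yi, yi, yi, ih, sum_add_distrib]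
    abel

theorem yi_map {M N : Type} [AddCommMonoid M] [AddCommMonoid N] (L : M →+ N) (f : List ℕ → M)
    (l : List ℕ) : L (yi f l) = yi (fun l => L (f l)) l := by
  induction l generalizing f with
  | nil => rfl
  | cons a l ih => rw [yi, yi, map_add, ih, map_sum]

theorem pf (x y : ℚ) (hx : x ≠ 0) (hy : y ≠ 0) (hxy : x + y ≠ 0) (a : ℕ) :
    1 / (x ^ (a + 1) * y) = ∑ i ∈ range (a + 1), 1 / ((x + y) ^ (i + 1) * x ^ (a - i + 1)) +
      1 / ((x + y) ^ (a + 1) * y) := by
  induction a with
  | zero =>
    simp only [zero_add, sum_range_one, pow_one]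
    field_simp
    ring
  | succ a ih =>
    rw [sum_range_succ]
    have h1 : ∑ i ∈ range (a + 1), 1 / ((x + y) ^ (i + 1) * x ^ (a + 1 - i + 1)) =
        (1 / x) * ∑ i ∈ range (a + 1), 1 / ((x + y) ^ (i + 1) * x ^ (a - i + 1)) := by
      rw [mul_sum]
      refine sum_congr rfl fun i hi => ?_
      have := mem_range.mp hi
      rw [show a + 1 - i + 1 = (a - i + 1) + 1 by omega, pow_succ x]
      field_simp
    rw [h1]
    have h2 : 1 / (x ^ (a + 1 + 1) * y) = (1 / x) * (1 / (x ^ (a + 1) * y)) := by
      rw [pow_succ x (a + 1)]; field_simp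
    rw [h2, ih, mul_add, add_assoc]
    congr 1
    rw [show a + 1 - (a + 1) + 1 = 1 by omega, pow_succ (x + y) (a + 1)]
    field_simp
    ring

theorem win_sum (a : ℕ) (l : List ℕ) (M K : ℕ) :
    win (a :: l) M (M + K) =
      ∑ s ∈ range K, win l M (M + s) / ((M : ℚ) + s + 1) ^ (a + 1) := by
  induction K with
  | zero => simp [win_self]
  | succ K ih =>
    rw [sum_range_succ, ← ih, ← Nat.add_assoc, win_cons_succ, if_pos (by omega)]
    push_cast
    rfl

/-- forward sums -/
def fwd (b : List ℕ) (M K : ℕ) : ℚ := ∑ s ∈ range K, win b M (M + s) / ((K : ℚ) - s)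

/-- backward sums -/
def bwd (b : List ℕ) (M K : ℕ) : ℚ := ∑ s ∈ range K, win b (M + 1 + s) (M + K) / ((s : ℚ) + 1)

theorem fwd_succ (a : ℕ) (l : List ℕ) (M K : ℕ) :
    fwd (a :: l) M (K + 1) = fwd (a :: l) M K +
      ∑ i ∈ range (a + 1), win ((a - i) :: l) M (M + K) / ((M : ℚ) + K + 1) ^ (i + 1) +
      fwd l M K / ((M : ℚ) + K + 1) ^ (a + 1) := by
  have h1 : fwd (a :: l) M (K + 1) =
      ∑ s ∈ range K, win (a :: l) M (M + s + 1) / ((K : ℚ) - s) := by
    rw [fwd, sum_range_succ', show M + 0 = M from rfl, win_self, zero_div, add_zero]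
    refine sum_congr rfl fun s _ => ?_
    rw [← Nat.add_assoc]
    push_cast
    congr 1
    ring
  have h2 : ∀ s ∈ range K, win (a :: l) M (M + s + 1) / ((K : ℚ) - s) =
      win (a :: l) M (M + s) / ((K : ℚ) - s) +
      (∑ i ∈ range (a + 1), win l M (M + s) / ((M : ℚ) + s + 1) ^ (a - i + 1) /
        ((M : ℚ) + K + 1) ^ (i + 1) + win l M (M + s) / ((K : ℚ) - s) /
        ((M : ℚ) + K + 1) ^ (a + 1)) := by
    intro s hs
    have hs' := mem_range.mp hs
    have hs2 : (s : ℚ) < K := by exact_mod_cast hs'
    have hM : (0 : ℚ) ≤ M := Nat.cast_nonneg M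
    have hs3 : (0 : ℚ) ≤ s := Nat.cast_nonneg s
    have hx : (M : ℚ) + s + 1 ≠ 0 := by positivity
    have hy : (K : ℚ) - s ≠ 0 := by linarith
    have hxy : ((M : ℚ) + s + 1) + (K - s) ≠ 0 := by
      have : (0 : ℚ) < ((M : ℚ) + s + 1) + (K - s) := by linarith
      exact this.ne'
    have e := pf _ _ hx hy hxy a
    rw [show ((M : ℚ) + s + 1) + (K - s) = (M : ℚ) + K + 1 by ring] at e
    rw [win_cons_succ, if_pos (by omega), add_div]
    congr 1
    have e2 : win l M (M + s) / ((((M + s : ℕ) : ℚ) + 1) ^ (a + 1)) / ((K : ℚ) - s) =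
        win l M (M + s) * (1 / (((M : ℚ) + s + 1) ^ (a + 1) * (K - s))) := by
      push_cast
      rw [div_div, mul_one_div]
    rw [e2, e, mul_add, mul_sum]
    congr 1
    · refine sum_congr rfl fun i _ => ?_
      rw [div_div, mul_one_div]
      congr 1
      ring
    · rw [div_div, mul_one_div]
      congr 1
      ring
  rw [h1, sum_congr rfl h2, sum_add_distrib, sum_add_distrib, ← add_assoc]
  congr 1
  · congr 1
    rw [sum_comm]
    refine sum_congr rfl fun i _ => ?_
    rw [win_sum, sum_div]
  · rw [fwd, sum_div]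

theorem bwd_succ (a : ℕ) (l : List ℕ) (M K : ℕ) :
    bwd (a :: l) M (K + 1) = bwd (a :: l) M K + bwd l M K / ((M : ℚ) + K + 1) ^ (a + 1) := by
  rw [bwd, sum_range_succ, ← Nat.add_assoc, win_of_le a l (by omega : M + K + 1 ≤ M + 1 + K),
    zero_div, add_zero, bwd, bwd, sum_div, ← sum_add_distrib]
  refine sum_congr rfl fun s hs => ?_
  have hs' := mem_range.mp hs
  rw [win_cons_succ, if_pos (by omega)]
  push_cast
  ring

/-- the relation (G2) -/
theorem g2 (b : List ℕ) (M K : ℕ) :
    yi (fun l => win l M (M + K)) b = win (b ++ [0]) M (M + K) + fwd b M K - bwd b M K := by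
  induction K generalizing b with
  | zero =>
    have h1 : yi (fun l => win l M (M + 0)) b = 0 := yi_zero _ _ fun a l => win_self a l M
    rw [h1]
    have h2 : win (b ++ [0]) M (M + 0) = 0 := by
      cases b with
      | nil => exact win_self _ _ _
      | cons a l => exact win_self _ _ _
    rw [h2]
    simp [fwd, bwd]
  | succ K ih =>
    cases b with
    | nil =>
      have h1 : fwd [] M (K + 1) = bwd [] M (K + 1) := by
        rw [fwd, bwd, ← sum_range_reflect]
        refine sum_congr rfl fun s hs => ?_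
        have hs' := mem_range.mp hs
        rw [win_nil, win_nil]
        congr 1
        have : ((K + 1 - 1 - s : ℕ) : ℚ) = K - s := by
          rw [Nat.add_sub_cancel, Nat.cast_sub (by omega)]
        rw [this]
        push_cast
        ring
      rw [h1, yi]
      simp
    | cons a l =>
      have e1 := ih (a :: l)
      have e2 := ih l
      rw [fwd_succ, bwd_succ, yi]
      rw [yi] at e1
      have h1 : ∑ i ∈ range (a + 1), win (i :: (a - i) :: l) M (M + (K + 1)) =
          ∑ i ∈ range (a + 1), win (i :: (a - i) :: l) M (M + K) +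
          ∑ i ∈ range (a + 1), win ((a - i) :: l) M (M + K) / ((M : ℚ) + K + 1) ^ (i + 1) := by
        rw [← sum_add_distrib]
        refine sum_congr rfl fun i _ => ?_
        rw [← Nat.add_assoc, win_cons_succ, if_pos (by omega)]
        push_cast
        rfl
      have h2 : yi (fun l' => win (a :: l') M (M + (K + 1))) l =
          yi (fun l' => win (a :: l') M (M + K)) l +
            yi (fun l' => win l' M (M + K)) l / ((M : ℚ) + K + 1) ^ (a + 1) := by
        have h3 : (fun l' => win (a :: l') M (M + (K + 1))) = fun l' => win (a :: l') M (M + K) +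
            win l' M (M + K) / ((M : ℚ) + K + 1) ^ (a + 1) := by
          funext l'
          rw [← Nat.add_assoc, win_cons_succ, if_pos (by omega)]
          push_cast
          rfl
        rw [h3, yi_add]
        congr 1
        have := yi_map (AddMonoidHom.mulRight ((((M : ℚ) + K + 1) ^ (a + 1))⁻¹))
          (fun l => win l M (M + K)) l
        simp only [AddMonoidHom.coe_mulRight, ← div_eq_mul_inv] at this
        exact this.symm
      have h3 : win ((a :: l) ++ [0]) M (M + (K + 1)) = win ((a :: l) ++ [0]) M (M + K) +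
          win (l ++ [0]) M (M + K) / ((M : ℚ) + K + 1) ^ (a + 1) := by
        rw [List.cons_append, ← Nat.add_assoc, win_cons_succ, if_pos (by omega)]
        push_cast
        rfl
      rw [h1, h2, h3, e2]
      linear_combination e1

end MP154526.Lin
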