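import Pool.Agent.Lib.MP_154526_nt.Lin.Harm1

/-!
# Deconcatenation and windows

`cv f g a = ∑_{a = u v} f(u) g(v)`.  `win · L P = cv (win · M P) (win · L M)`; if `g` is the
inverse of `win · 0 M` then `cv (win · 0 P) g` is the window from `M` to `P`.
-/

set_option autoImplicit false

namespace MP154526.Lin

open Finset

/-- the convolution for the deconcatenation coproduct -/
def cv (f g : List ℕ → ℚ) : List ℕ → ℚ
  | [] => f [] * g []
  | a :: l => f [] * g (a :: l) + cv (fun u => f (a :: u)) g l

/-- the unit -/
def dl : List ℕ → ℚ
  | [] => 1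
  | _ :: _ => 0

theorem cv_nil (f g : List ℕ → ℚ) : cv f g [] = f [] * g [] := rfl

theorem cv_cons (f g : List ℕ → ℚ) (a : ℕ) (l : List ℕ) :
    cv f g (a :: l) = f [] * g (a :: l) + cv (fun u => f (a :: u)) g l := rfl

theorem cv_add_left (f f' g : List ℕ → ℚ) (l : List ℕ) :
    cv (fun u => f u + f' u) g l = cv f g l + cv f' g l := by
  induction l generalizing f f' with
  | nil => simp only [cv_nil]; ring
  | cons a l ih => simp only [cv_cons, ih]; ring

theorem cv_mul_left (r : ℚ) (f g : List ℕ → ℚ) (l : List ℕ) :
    cv (fun u => r * f u) g l = r * cv f g l := by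
  induction l generalizing f with
  | nil => simp only [cv_nil]; ring
  | cons a l ih => simp only [cv_cons, ih]; ring

theorem cv_zero_left (g : List ℕ → ℚ) (l : List ℕ) : cv (fun _ => 0) g l = 0 := by
  have := cv_mul_left 0 (fun _ => 0) g l
  simpa using this

theorem cv_add_right (f g g' : List ℕ → ℚ) (l : List ℕ) :
    cv f (fun u => g u + g' u) l = cv f g l + cv f g' l := by
  induction l generalizing f with
  | nil => simp only [cv_nil]; ring
  | cons a l ih => simp only [cv_cons, ih]; ring

theorem cv_mul_right (r : ℚ) (f g : List ℕ → ℚ) (l : List ℕ) :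
    cv f (fun u => r * g u) l = r * cv f g l := by
  induction l generalizing f with
  | nil => simp only [cv_nil]; ring
  | cons a l ih => simp only [cv_cons, ih]; ring

theorem cv_dl_left (g : List ℕ → ℚ) : cv dl g = g := by
  funext l
  cases l with
  | nil => simp [cv_nil, dl]
  | cons a l =>
    rw [cv_cons]
    have : (fun u => dl (a :: u)) = fun _ => 0 := rfl
    rw [this, cv_zero_left]
    simp [dl]

theorem cv_dl_right (f : List ℕ → ℚ) : cv f dl = f := by
  funext l
  induction l generalizing f with
  | nil => simp [cv_nil, dl]
  | cons a l ih => rw [cv_cons, ih]; simp [dl]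

theorem cv_assoc (f g h : List ℕ → ℚ) : cv (cv f g) h = cv f (cv g h) := by
  funext l
  induction l generalizing f g with
  | nil => simp only [cv_nil]; ring
  | cons a l ih =>
    rw [cv_cons, cv_cons, cv_nil]
    have h1 : (fun u => cv f g (a :: u)) =
        fun u => f [] * g (a :: u) + cv (fun u => f (a :: u)) g u := by
      funext u; rw [cv_cons]
    rw [h1, cv_add_left, cv_mul_left, ih, cv_cons g h a l]
    ring

/-- cancellation -/
theorem cv_cancel (f g g' : List ℕ → ℚ) (hf : f [] = 1) (h : cv f g = cv f g') : g = g' := by
  have key : ∀ (n : ℕ) (l : List ℕ), l.length ≤ n → g l = g' l := by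
    intro n
    induction n with
    | zero =>
      intro l hl
      have : l = [] := List.eq_nil_of_length_eq_zero (by omega)
      subst this
      have := congrFun h []
      simpa [cv_nil, hf] using this
    | succ n ih =>
      intro l hl
      cases l with
      | nil => exact ih [] (by simp)
      | cons a l =>
        have h1 := congrFun h (a :: l)
        rw [cv_cons, cv_cons, hf, one_mul, one_mul] at h1
        have h2 : ∀ (f : List ℕ → ℚ) (l : List ℕ), l.length ≤ n → cv f g l = cv f g' l := by
          intro f l hl
          induction l generalizing f with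
          | nil => rw [cv_nil, cv_nil, ih [] (by simp)]
          | cons b l ihl =>
            rw [cv_cons, cv_cons, ih (b :: l) hl, ihl _ (by simp at hl; omega)]
        rw [h2 _ l (by simpa using hl)] at h1
        exact add_right_cancel h1
  funext l
  exact key _ l le_rfl

/-- a right inverse is a left inverse -/
theorem cv_inv_comm (f g : List ℕ → ℚ) (hf : f [] = 1) (h : cv f g = dl) : cv g f = dl := by
  apply cv_cancel f _ _ hf
  rw [← cv_assoc, h, cv_dl_left, cv_dl_right]

theorem win_self_dl (M : ℕ) : (fun l => win l M M) = dl := by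
  funext l
  cases l with
  | nil => simp [dl]
  | cons a l => rw [win_self]; rfl

theorem win_split (L M K : ℕ) (hL : L ≤ M) :
    (fun l => win l L (M + K)) = cv (fun l => win l M (M + K)) (fun l => win l L M) := by
  induction K with
  | zero =>
    rw [Nat.add_zero, win_self_dl, cv_dl_left]
  | succ K ih =>
    funext l
    cases l with
    | nil => simp [cv_nil]
    | cons a l =>
      have e1 := congrFun ih (a :: l)
      have e2 := congrFun ih l
      beta_reduce at e1 e2
      rw [cv_cons] at e1
      rw [cv_cons]
      simp only [← Nat.add_assoc, win_cons_succ, if_pos (show M ≤ M + K by omega),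
        if_pos (show L ≤ M + K by omega)]
      have h1 : (fun u => win (a :: u) M (M + K) +
          win u M (M + K) / (((M + K : ℕ) : ℚ) + 1) ^ (a + 1)) =
          fun u => win (a :: u) M (M + K) +
            ((((M + K : ℕ) : ℚ) + 1) ^ (a + 1))⁻¹ * win u M (M + K) := by
        funext u; rw [div_eq_inv_mul]
      rw [h1, cv_add_left, cv_mul_left, ← e2, e1, div_eq_inv_mul]
      simp only [win_nil]
      ring

/-- the window from `M` up to `P` -/
theorem cv_win_up (M K : ℕ) (g : List ℕ → ℚ) (hg : cv (fun l => win l 0 M) g = dl) :
    cv (fun l => win l 0 (M + K)) g = fun l => win l M (M + K) := by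
  rw [win_split 0 M K (Nat.zero_le _), cv_assoc, hg, cv_dl_right]

/-- the window from `M` down to `P` -/
theorem cv_win_down (P K : ℕ) (g h : List ℕ → ℚ) (hg : cv (fun l => win l 0 (P + K)) g = dl)
    (hh : cv (fun l => win l P (P + K)) h = dl) :
    cv (fun l => win l 0 P) g = h := by
  have h1 : cv h (fun l => win l P (P + K)) = dl := cv_inv_comm _ _ (by simp) hh
  have h2 : (fun l => win l 0 P) = cv h (fun l => win l 0 (P + K)) := by
    rw [win_split 0 P K (Nat.zero_le _), ← cv_assoc, h1, cv_dl_left]
  rw [h2, cv_assoc, hg, cv_dl_right]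

end MP154526.Lin
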