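import Mathlib

/-!
# Linear independence of the nested harmonic sums

`hs [k₁, …, k_r] N = ∑_{N ≥ n₁ > … > n_r > 0} ∏ n_i^{-k_i}`.  The functions `hs w`, `w` a word in
positive letters, are linearly independent over `ℚ[N]`, in particular over `ℚ`.
-/

set_option autoImplicit false

namespace MP154526.Lin

open Polynomial Finset

/-- nested harmonic sums -/
def hs : List ℕ → ℕ → ℚ
  | [], _ => 1
  | _ :: _, 0 => 0
  | k :: w, N + 1 => hs (k :: w) N + hs w N / ((N : ℚ) + 1) ^ k

@[simp] theorem hs_nil (N : ℕ) : hs [] N = 1 := by cases N <;> rfl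

@[simp] theorem hs_cons_zero (k : ℕ) (w : List ℕ) : hs (k :: w) 0 = 0 := rfl

theorem hs_cons_succ (k : ℕ) (w : List ℕ) (N : ℕ) :
    hs (k :: w) (N + 1) = hs (k :: w) N + hs w N / ((N : ℚ) + 1) ^ k := rfl

theorem hs_cons (k : ℕ) (w : List ℕ) (N : ℕ) :
    hs (k :: w) N = ∑ n ∈ range N, hs w n / ((n : ℚ) + 1) ^ k := by
  induction N with
  | zero => simp
  | succ N ih => rw [hs_cons_succ, sum_range_succ, ih]

/-- the shift of a polynomial -/
noncomputable def sf (p : ℚ[X]) : ℚ[X] := p.comp (X + 1)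

theorem sf_eval (p : ℚ[X]) (x : ℚ) : (sf p).eval x = p.eval (x + 1) := by
  simp [sf, eval_comp]

theorem sf_mul (p q : ℚ[X]) : sf (p * q) = sf p * sf q := by simp [sf, mul_comp]

theorem finset_sum_comp' (s : Finset ℕ) (f : ℕ → ℚ[X]) (q : ℚ[X]) :
    (∑ k ∈ s, f k).comp q = ∑ k ∈ s, (f k).comp q := by
  rw [← coe_compRingHom_apply, map_sum]
  rfl

theorem infinite_roots {p : ℚ[X]} (f : ℕ → ℚ) (hf : Function.Injective f)
    (h : ∀ n, p.eval (f n) = 0) : p = 0 := by
  by_contra hp
  have h1 : Set.range f ⊆ {x | p.IsRoot x} := by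
    rintro _ ⟨n, rfl⟩
    exact h n
  exact (Set.infinite_range_of_injective hf) ((Polynomial.finite_setOfPred_isRoot hp).subset h1)

theorem periodic {B p : ℚ[X]} (hB : B ≠ 0) (h : sf B * p = B * sf p) :
    ∃ γ : ℚ, p = C γ * B := by
  have hfin : {x : ℚ | B.IsRoot x}.Finite := Polynomial.finite_setOfPred_isRoot hB
  obtain ⟨n0, hn0⟩ : ∃ n0 : ℕ, ∀ n : ℕ, n0 ≤ n → B.eval (n : ℚ) ≠ 0 := by
    have : {n : ℕ | B.IsRoot (n : ℚ)}.Finite :=
      hfin.preimage (Nat.cast_injective.injOn)
    obtain ⟨m, hm⟩ := this.bddAbove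
    refine ⟨m + 1, fun n hn h0 => ?_⟩
    have := hm (show n ∈ {n : ℕ | B.IsRoot (n : ℚ)} from h0)
    omega
  refine ⟨p.eval (n0 : ℚ) / B.eval (n0 : ℚ), ?_⟩
  set γ := p.eval (n0 : ℚ) / B.eval (n0 : ℚ) with hγ
  have key : ∀ n : ℕ, p.eval ((n0 + n : ℕ) : ℚ) = γ * B.eval ((n0 + n : ℕ) : ℚ) := by
    intro n
    induction n with
    | zero =>
      have := hn0 n0 le_rfl
      simp only [add_zero, hγ]
      field_simp
    | succ n ih =>
      have e := congrArg (fun q => q.eval ((n0 + n : ℕ) : ℚ)) h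
      simp only [eval_mul, sf_eval] at e
      rw [ih] at e
      have h1 : ((n0 + (n + 1) : ℕ) : ℚ) = ((n0 + n : ℕ) : ℚ) + 1 := by push_cast; ring
      rw [h1]
      have h2 := hn0 (n0 + n) (by omega)
      apply mul_left_cancel₀ h2
      rw [← e]; ring
  have : p - C γ * B = 0 := by
    apply infinite_roots (fun n : ℕ => ((n0 + n : ℕ) : ℚ))
    · intro a b hab
      have hab' : ((n0 + a : ℕ) : ℚ) = ((n0 + b : ℕ) : ℚ) := hab
      have : n0 + a = n0 + b := by exact_mod_cast hab'
      omega
    · intro n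
      simp only [eval_sub, eval_mul, eval_C]
      rw [key n]; ring
  linear_combination this

/-- no rational function `A / B` has `A/B(x) - A/B(x+1) = ∑ γ_k (x+1)^{-k-1}`, `γ ≠ 0` -/
theorem tele_coprime {A B : ℚ[X]} (hB : B ≠ 0) (hc : IsCoprime A B) (K : ℕ) (D : ℚ[X])
    (hD : D ≠ 0) (hdeg : D.natDegree < K)
    (h : (X + 1) ^ K * (sf B * A - B * sf A) = B * sf B * D) : False := by
  have hX : (X + 1 : ℚ[X]) = X - C (-1) := by simp
  obtain ⟨q, hq1, hq2⟩ := Polynomial.exists_eq_pow_rootMultiplicity_mul_and_not_dvd D hD (-1)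
  set j := D.rootMultiplicity (-1) with hj
  have hjK : j < K := by
    refine lt_of_le_of_lt ?_ hdeg
    rw [hj, ← Polynomial.count_roots]
    exact (Multiset.count_le_card _ _).trans (Polynomial.card_roots' D)
  have hq3 : q.eval (-1) ≠ 0 := by
    intro h0
    exact hq2 (dvd_iff_isRoot.mpr h0)
  -- the two divisibilities
  have d1 : B ∣ (X + 1) ^ K * sf B := by
    have : B ∣ ((X + 1) ^ K * sf B) * A := by
      refine ⟨(X + 1) ^ K * sf A + sf B * D, ?_⟩
      linear_combination h
    exact hc.symm.dvd_of_dvd_mul_right this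
  have hc' : IsCoprime (sf A) (sf B) := by
    obtain ⟨a, b, hab⟩ := hc
    refine ⟨sf a, sf b, ?_⟩
    have := congrArg sf hab
    simpa [sf, add_comp, mul_comp] using this
  have d2 : sf B ∣ (X + 1) ^ K * B := by
    have : sf B ∣ ((X + 1) ^ K * B) * sf A := by
      refine ⟨(X + 1) ^ K * A - B * D, ?_⟩
      linear_combination -h
    exact hc'.symm.dvd_of_dvd_mul_right this
  -- in terms of roots
  have r1 : ∀ x : ℚ, x ≠ -1 → B.eval x = 0 → B.eval (x + 1) = 0 := by
    intro x hx h0
    obtain ⟨r, hr⟩ := d1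
    have e := congrArg (fun q => q.eval x) hr
    simp only [eval_mul, eval_pow, eval_add, eval_X, eval_one, sf_eval, h0, zero_mul] at e
    rcases mul_eq_zero.mp e with e | e
    · exact absurd (eq_neg_of_add_eq_zero_left (pow_eq_zero_iff (n := K) (by omega) |>.mp e)) hx
    · exact e
  have r2 : ∀ x : ℚ, x ≠ -1 → B.eval (x + 1) = 0 → B.eval x = 0 := by
    intro x hx h0
    obtain ⟨r, hr⟩ := d2
    have e := congrArg (fun q => q.eval x) hr
    simp only [eval_mul, eval_pow, eval_add, eval_X, eval_one, sf_eval, h0, zero_mul] at e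
    rcases mul_eq_zero.mp e with e | e
    · exact absurd (eq_neg_of_add_eq_zero_left (pow_eq_zero_iff (n := K) (by omega) |>.mp e)) hx
    · exact e
  -- a root at `-1` or `0`
  have h3 : (X + 1) ^ (K - j) * (sf B * A - B * sf A) = B * sf B * q := by
    have hne : (X + 1 : ℚ[X]) ^ j ≠ 0 := by
      rw [hX]; exact pow_ne_zero _ (X_sub_C_ne_zero _)
    apply mul_left_cancel₀ hne
    have e1 : (X + 1 : ℚ[X]) ^ j * (X + 1) ^ (K - j) = (X + 1) ^ K := by
      rw [← pow_add]; congr 1; omega
    have e2 : (X + 1 : ℚ[X]) ^ j * q = D := by rw [hX]; exact hq1.symm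
    calc (X + 1) ^ j * ((X + 1) ^ (K - j) * (sf B * A - B * sf A))
        = ((X + 1) ^ j * (X + 1) ^ (K - j)) * (sf B * A - B * sf A) := by ring
      _ = B * sf B * D := by rw [e1, h]
      _ = (X + 1) ^ j * (B * sf B * q) := by rw [← e2]; ring
  have h4 := congrArg (fun q => q.eval (-1 : ℚ)) h3
  simp only [eval_mul, eval_pow, eval_add, eval_X, eval_one, sf_eval] at h4
  rw [show (-1 : ℚ) + 1 = 0 by norm_num, zero_pow (by omega), zero_mul] at h4
  rcases mul_eq_zero.mp h4.symm with h5 | h5
  · rcases mul_eq_zero.mp h5 with h6 | h6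
    · -- roots -1, -2, ...
      have : ∀ n : ℕ, B.eval (-1 - (n : ℚ)) = 0 := by
        intro n
        induction n with
        | zero => simpa using h6
        | succ n ih =>
          apply r2
          · push_cast; intro h; have : (n : ℚ) + 1 = 0 := by linarith
            have : (0 : ℚ) ≤ n := Nat.cast_nonneg n
            linarith
          · rw [← ih]; congr 1; push_cast; ring
      exact hB (infinite_roots _ (fun a b hab => by
        have : (a : ℚ) = b := by linarith [hab]
        exact_mod_cast this) this)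
    · have : ∀ n : ℕ, B.eval (n : ℚ) = 0 := by
        intro n
        induction n with
        | zero => simpa using h6
        | succ n ih =>
          push_cast
          apply r1 _ _ ih
          have : (0 : ℚ) ≤ n := Nat.cast_nonneg n
          intro h; linarith
      exact hB (infinite_roots _ (fun a b hab => by exact_mod_cast hab) this)
  · exact hq3 h5

theorem tele {A B : ℚ[X]} (hB : B ≠ 0) (K : ℕ) (γ : ℕ → ℚ)
    (h : (X + 1) ^ K * (sf B * A - B * sf A) =
      B * sf B * ∑ k ∈ range K, C (γ k) * (X + 1) ^ (K - 1 - k)) : ∀ k < K, γ k = 0 := by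
  by_contra hne
  push Not at hne
  obtain ⟨k0, hk0, hγ⟩ := hne
  set D : ℚ[X] := ∑ k ∈ range K, C (γ k) * (X + 1) ^ (K - 1 - k) with hDdef
  have hDne : D ≠ 0 := by
    intro h0
    have h1 : D.comp (X - 1) = ∑ k ∈ range K, C (γ k) * X ^ (K - 1 - k) := by
      rw [hDdef, finset_sum_comp']
      refine sum_congr rfl fun k _ => ?_
      simp [mul_comp, pow_comp]
    have h2 : (D.comp (X - 1)).coeff (K - 1 - k0) = γ k0 := by
      rw [h1, finsetSum_coeff]
      rw [sum_eq_single k0]
      · simp
      · intro k hk hne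
        rw [coeff_C_mul, coeff_X_pow, if_neg, mul_zero]
        have := mem_range.mp hk
        omega
      · intro h; exact absurd (mem_range.mpr hk0) h
    rw [h0] at h2
    simp at h2
    exact hγ h2.symm
  have hdeg : D.natDegree < K := by
    refine lt_of_le_of_lt (natDegree_sum_le_of_forall_le (range K) _ (n := K - 1) ?_) (by omega)
    intro k _
    have h1 : (X + 1 : ℚ[X]).natDegree = 1 := by
      rw [show (1 : ℚ[X]) = C 1 by simp]; exact natDegree_X_add_C 1
    refine (natDegree_C_mul_le _ _).trans ?_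
    rw [natDegree_pow, h1]; omega
  -- divide by the gcd
  obtain ⟨g, A', B', hg, hcop, hA, hB'⟩ : ∃ g A' B' : ℚ[X], g ≠ 0 ∧ IsCoprime A' B' ∧
      A = g * A' ∧ B = g * B' := by
    obtain ⟨A', hA'⟩ := EuclideanDomain.gcd_dvd_left A B
    obtain ⟨B', hB'⟩ := EuclideanDomain.gcd_dvd_right A B
    set g := EuclideanDomain.gcd A B with hgdef
    have hg : g ≠ 0 := by
      intro h0; apply hB; rw [hB', h0, zero_mul]
    refine ⟨g, A', B', hg, ⟨EuclideanDomain.gcdA A B, EuclideanDomain.gcdB A B, ?_⟩, hA', hB'⟩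
    apply mul_left_cancel₀ hg
    have := EuclideanDomain.gcd_eq_gcd_ab A B
    rw [← hgdef] at this
    calc g * (EuclideanDomain.gcdA A B * A' + EuclideanDomain.gcdB A B * B')
        = (g * A') * EuclideanDomain.gcdA A B + (g * B') * EuclideanDomain.gcdB A B := by ring
      _ = g * 1 := by rw [← hA', ← hB', ← this, mul_one]
  have hsg : sf g ≠ 0 := by
    intro h0
    apply hg
    have := congrArg (fun q => q.comp (X - 1)) h0
    simpa [sf, comp_assoc] using this
  have hBB : B' ≠ 0 := by
    intro h0; apply hB; rw [hB', h0, mul_zero]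
  refine tele_coprime hBB hcop K D hDne hdeg ?_
  apply mul_left_cancel₀ (mul_ne_zero hg hsg)
  rw [hA, hB', sf_mul, sf_mul] at h
  linear_combination h

/-- the words of length at most `L` with letters in `[1, K]` -/
def W (K : ℕ) : ℕ → Finset (List ℕ)
  | 0 => {[]}
  | L + 1 => insert [] ((range K ×ˢ W K L).image (fun p => (p.1 + 1) :: p.2))

theorem mem_W (K : ℕ) : ∀ (L : ℕ) (w : List ℕ),
    w ∈ W K L ↔ w.length ≤ L ∧ ∀ k ∈ w, 1 ≤ k ∧ k ≤ K
  | 0, w => by
    constructor
    · intro h
      rw [W, mem_singleton] at h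
      subst h
      simp
    · rintro ⟨h, -⟩
      rw [W, mem_singleton]
      exact List.eq_nil_of_length_eq_zero (by omega)
  | L + 1, w => by
    rw [W]
    simp only [mem_insert, mem_image, mem_product, mem_range, Prod.exists]
    cases w with
    | nil => simp
    | cons a v =>
      have ih := mem_W K L v
      constructor
      · rintro (h | ⟨k, u, ⟨hk, hu⟩, h⟩)
        · exact absurd h (by simp)
        · rw [List.cons.injEq] at h
          obtain ⟨rfl, rfl⟩ := h
          obtain ⟨h1, h2⟩ := ih.mp hu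
          refine ⟨by simpa using h1, ?_⟩
          intro k' hk'
          rcases List.mem_cons.mp hk' with rfl | h3
          · omega
          · exact h2 k' h3
      · rintro ⟨h1, h2⟩
        right
        have h3 := h2 a (by simp)
        refine ⟨a - 1, v, ⟨by omega, ih.mpr ⟨by simpa using h1, fun k hk =>
          h2 k (List.mem_cons_of_mem _ hk)⟩⟩, ?_⟩
        congr 1
        omega

theorem sum_W (K L : ℕ) {M : Type*} [AddCommMonoid M] (f : List ℕ → M) :
    ∑ w ∈ W K (L + 1), f w = f [] + ∑ k ∈ range K, ∑ v ∈ W K L, f ((k + 1) :: v) := by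
  rw [W, sum_insert (by simp), sum_image, sum_product]
  rintro ⟨a, u⟩ _ ⟨b, v⟩ _ h
  simp only [List.cons.injEq, add_left_inj] at h
  rw [h.1, h.2]

theorem W_mono (K L : ℕ) : W K L ⊆ W K (L + 1) := by
  intro w hw
  rw [mem_W] at *
  exact ⟨by omega, hw.2⟩

/-- the relation at `N + 1` in terms of the functions at `N` -/
theorem shift_sum (K L : ℕ) (c : List ℕ → ℚ) (N : ℕ) :
    ∑ w ∈ W K (L + 1), c w * hs w (N + 1) = ∑ w ∈ W K (L + 1), c w * hs w N +
      ∑ v ∈ W K L, (∑ k ∈ range K, c ((k + 1) :: v) / ((N : ℚ) + 1) ^ (k + 1)) * hs v N := by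
  rw [sum_W, sum_W, add_assoc]
  congr 1
  · simp
  · rw [show (∑ v ∈ W K L, (∑ k ∈ range K, c ((k + 1) :: v) / ((N : ℚ) + 1) ^ (k + 1)) * hs v N) =
      ∑ k ∈ range K, ∑ v ∈ W K L, c ((k + 1) :: v) / ((N : ℚ) + 1) ^ (k + 1) * hs v N by
      rw [sum_comm]
      exact sum_congr rfl fun v _ => by rw [sum_mul]]
    rw [← sum_add_distrib]
    refine sum_congr rfl fun k _ => ?_
    rw [← sum_add_distrib]
    refine sum_congr rfl fun v _ => ?_
    rw [hs_cons_succ]
    ring

/-- `c` is a relation at level `L` -/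
def Rel (K L : ℕ) (c : List ℕ → ℚ[X]) : Prop :=
  ∀ N : ℕ, ∑ w ∈ W K L, (c w).eval (N : ℚ) * hs w N = 0

/-- the words of maximal length in a relation -/
noncomputable def top (K L : ℕ) (c : List ℕ → ℚ[X]) : Finset (List ℕ) :=
  (W K L).filter (fun w => w.length = L ∧ c w ≠ 0)

/-- the contribution of the first letters -/
noncomputable def dd (K L : ℕ) (c : List ℕ → ℚ[X]) (v : List ℕ) : ℚ[X] :=
  if v ∈ W K L then ∑ k ∈ range K, (X + 1) ^ (K - 1 - k) * sf (c ((k + 1) :: v)) else 0

/-- the new relation -/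
noncomputable def nr (K L : ℕ) (B : ℚ[X]) (c : List ℕ → ℚ[X]) (w : List ℕ) : ℚ[X] :=
  (X + 1) ^ K * (sf B * c w - B * sf (c w)) - B * dd K L c w

theorem nr_rel (K L : ℕ) (B : ℚ[X]) (c : List ℕ → ℚ[X]) (h : Rel K (L + 1) c) :
    Rel K (L + 1) (nr K L B c) := by
  intro N
  have h1 := h N
  have h2 := h (N + 1)
  rw [shift_sum] at h2
  have hN : ((N : ℚ) + 1) ≠ 0 := by positivity
  have e1 : ∀ w, (nr K L B c w).eval (N : ℚ) = ((N : ℚ) + 1) ^ K *
      (B.eval ((N : ℚ) + 1) * (c w).eval (N : ℚ) - B.eval (N : ℚ) * (c w).eval ((N : ℚ) + 1)) -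
      B.eval (N : ℚ) * (dd K L c w).eval (N : ℚ) := by
    intro w
    simp [nr, sf_eval]
  have e2 : ∑ w ∈ W K (L + 1), (dd K L c w).eval (N : ℚ) * hs w N =
      ((N : ℚ) + 1) ^ K * ∑ v ∈ W K L, (∑ k ∈ range K,
        (c ((k + 1) :: v)).eval (((N + 1 : ℕ) : ℚ)) / ((N : ℚ) + 1) ^ (k + 1)) * hs v N := by
    rw [mul_sum, ← sum_subset (W_mono K L)]
    · refine sum_congr rfl fun v hv => ?_
      rw [dd, if_pos hv, eval_finsetSum, ← mul_assoc]
      congr 1
      rw [mul_sum]
      refine sum_congr rfl fun k hk => ?_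
      have hk' := mem_range.mp hk
      simp only [eval_mul, eval_pow, eval_add, eval_X, eval_one, sf_eval]
      have e3 : ((N : ℚ) + 1) ^ K = ((N : ℚ) + 1) ^ (K - 1 - k) * ((N : ℚ) + 1) ^ (k + 1) := by
        rw [← pow_add]; congr 1; omega
      rw [e3]
      push_cast
      field_simp
    · intro w _ hw
      rw [dd, if_neg hw]
      simp
  calc ∑ w ∈ W K (L + 1), (nr K L B c w).eval (N : ℚ) * hs w N
      = ((N : ℚ) + 1) ^ K * B.eval ((N : ℚ) + 1) * ∑ w ∈ W K (L + 1), (c w).eval (N : ℚ) * hs w N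
        - B.eval (N : ℚ) * (((N : ℚ) + 1) ^ K *
          ∑ w ∈ W K (L + 1), (c w).eval (((N + 1 : ℕ) : ℚ)) * hs w N +
          ∑ w ∈ W K (L + 1), (dd K L c w).eval (N : ℚ) * hs w N) := by
        simp only [mul_sum]
        rw [← sum_add_distrib, mul_sum, ← sum_sub_distrib]
        refine sum_congr rfl fun w _ => ?_
        rw [e1]; push_cast; ring
    _ = 0 := by
        rw [h1, e2, ← mul_add, h2]; ring

theorem indep_step (K L : ℕ)
    (ih : ∀ c : List ℕ → ℚ[X], Rel K L c → ∀ w ∈ W K L, c w = 0) :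
    ∀ (n : ℕ) (c : List ℕ → ℚ[X]), (top K (L + 1) c).card ≤ n → Rel K (L + 1) c →
      ∀ w ∈ W K (L + 1), c w = 0 := by
  intro n
  induction n with
  | zero =>
    intro c hc hr
    have h0 : ∀ w ∈ W K (L + 1), w.length = L + 1 → c w = 0 := by
      intro w hw hl
      by_contra hne
      have : w ∈ top K (L + 1) c := by
        rw [top, mem_filter]; exact ⟨hw, hl, hne⟩
      have := card_pos.mpr ⟨w, this⟩
      omega
    have h1 : Rel K L c := by
      intro N
      rw [sum_subset (W_mono K L)]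
      · exact hr N
      · intro w hw hw'
        rw [h0 w hw]
        · simp
        · rw [mem_W] at hw hw'
          by_contra hne
          exact hw' ⟨by omega, hw.2⟩
    intro w hw
    by_cases hl : w.length = L + 1
    · exact h0 w hw hl
    · apply ih c h1
      rw [mem_W] at hw ⊢
      exact ⟨by omega, hw.2⟩
  | succ n ihn =>
    intro c hc hr
    by_cases hne : (top K (L + 1) c).Nonempty
    · exfalso
      obtain ⟨w0, hw0⟩ := hne
      rw [top, mem_filter] at hw0
      obtain ⟨hw0, hl0, hB⟩ := hw0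
      set B := c w0 with hBdef
      have hdd : ∀ w : List ℕ, w.length = L + 1 → dd K L c w = 0 := by
        intro w hl
        rw [dd, if_neg]
        rw [mem_W]; intro h; omega
      have hcard : (top K (L + 1) (nr K L B c)).card ≤ n := by
        have hsub : top K (L + 1) (nr K L B c) ⊆ (top K (L + 1) c).erase w0 := by
          intro w hw
          rw [top, mem_filter] at hw
          obtain ⟨h1, h2, h3⟩ := hw
          rw [mem_erase, top, mem_filter]
          refine ⟨?_, h1, h2, ?_⟩
          · rintro rfl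
            apply h3
            rw [nr, hdd _ h2, ← hBdef]; ring
          · intro h0
            apply h3
            rw [nr, hdd _ h2, h0]; simp [sf]
        have h4 := card_le_card hsub
        have h5 : w0 ∈ top K (L + 1) c := by
          rw [top, mem_filter]; exact ⟨hw0, hl0, hB⟩
        rw [card_erase_of_mem h5] at h4
        omega
      have h0 := ihn (nr K L B c) hcard (nr_rel K L B c hr)
      -- top words: constant multiples of `B`
      have hX : (X + 1 : ℚ[X]) ≠ 0 := by
        rw [show (X + 1 : ℚ[X]) = X - C (-1) by simp]; exact X_sub_C_ne_zero _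
      have h1 : ∀ w ∈ W K (L + 1), w.length = L + 1 → ∃ γ : ℚ, c w = C γ * B := by
        intro w hw hl
        apply periodic hB
        have := h0 w hw
        rw [nr, hdd w hl, mul_zero, sub_zero] at this
        rcases mul_eq_zero.mp this with h | h
        · exact absurd h (pow_ne_zero _ hX)
        · linear_combination h
      obtain ⟨a, v, rfl⟩ : ∃ a v, w0 = a :: v := by
        cases w0 with
        | nil => simp at hl0
        | cons a v => exact ⟨a, v, rfl⟩
      have hv : v ∈ W K L := by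
        rw [mem_W] at hw0 ⊢
        exact ⟨by simpa using hw0.1, fun k hk => hw0.2 k (List.mem_cons_of_mem _ hk)⟩
      have ha : 1 ≤ a ∧ a ≤ K := by
        rw [mem_W] at hw0; exact hw0.2 a (by simp)
      have hlv : v.length = L := by simpa using hl0
      have h2 : ∀ k, ∃ γ : ℚ, k < K → c ((k + 1) :: v) = C γ * B := by
        intro k
        by_cases hk : k < K
        · obtain ⟨γ, hγ⟩ := h1 ((k + 1) :: v) (by
            rw [mem_W] at hv ⊢
            refine ⟨by simpa using hv.1, fun k' hk' => ?_⟩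
            rcases List.mem_cons.mp hk' with rfl | h3
            · omega
            · exact hv.2 k' h3) (by simpa using hlv)
          exact ⟨γ, fun _ => hγ⟩
        · exact ⟨0, fun h => absurd h hk⟩
      choose γ hγ using h2
      have h3 := h0 v (W_mono K L hv)
      rw [nr, dd, if_pos hv] at h3
      have h4 : ∀ k < K, γ k = 0 := by
        apply tele (A := c v) hB K γ
        have h5 : ∑ k ∈ range K, (X + 1) ^ (K - 1 - k) * sf (c ((k + 1) :: v)) =
            sf B * ∑ k ∈ range K, C (γ k) * (X + 1) ^ (K - 1 - k) := by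
          rw [mul_sum]
          refine sum_congr rfl fun k hk => ?_
          rw [hγ k (mem_range.mp hk), sf_mul]
          simp only [sf, C_comp]
          ring
        rw [h5] at h3
        linear_combination h3
      have h5 := h4 (a - 1) (by omega)
      have h6 := hγ (a - 1) (by omega)
      rw [show a - 1 + 1 = a by omega, h5, C_0, zero_mul] at h6
      exact hB h6
    · exact ihn c (by rw [not_nonempty_iff_eq_empty.mp hne]; simp) hr

/-- linear independence over the polynomials -/
theorem indep (K : ℕ) : ∀ (L : ℕ) (c : List ℕ → ℚ[X]), Rel K L c → ∀ w ∈ W K L, c w = 0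
  | 0, c, h, w, hw => by
    rw [W, mem_singleton] at hw
    subst hw
    apply infinite_roots (fun n : ℕ => (n : ℚ)) Nat.cast_injective
    intro n
    have := h n
    rw [W, sum_singleton, hs_nil, mul_one] at this
    exact this
  | L + 1, c, h, w, hw => indep_step K L (indep K L) _ c le_rfl h w hw

/-- linear independence over `ℚ` -/
theorem hs_inj (c : List ℕ →₀ ℚ) (hc : ∀ w ∈ c.support, ∀ k ∈ w, 1 ≤ k)
    (h : ∀ N : ℕ, c.sum (fun w a => a * hs w N) = 0) : c = 0 := by
  obtain ⟨K, hK⟩ : ∃ K, ∀ w ∈ c.support, ∀ k ∈ w, k ≤ K := by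
    refine ⟨∑ w ∈ c.support, w.sum, fun w hw k hk => ?_⟩
    exact (List.le_sum_of_mem hk).trans (single_le_sum (f := fun w : List ℕ => w.sum)
      (fun _ _ => Nat.zero_le _) hw)
  obtain ⟨L, hL⟩ : ∃ L, ∀ w ∈ c.support, w.length ≤ L :=
    ⟨∑ w ∈ c.support, w.length, fun w hw => single_le_sum (f := fun w : List ℕ => w.length)
      (fun _ _ => Nat.zero_le _) hw⟩
  have hsub : c.support ⊆ W K L := fun w hw => (mem_W K L w).mpr
    ⟨hL w hw, fun k hk => ⟨hc w hw k hk, hK w hw k hk⟩⟩
  have hrel : Rel K L (fun w => C (c w)) := by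
    intro N
    rw [← h N, Finsupp.sum]
    simp only [eval_C]
    rw [sum_subset hsub]
    intro w _ hw
    rw [Finsupp.notMem_support_iff.mp hw, zero_mul]
  ext w
  by_cases hw : w ∈ c.support
  · have := indep K L _ hrel w (hsub hw)
    simpa using this
  · simpa using hw

end MP154526.Lin
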