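import Pool.Agent.Lib.MP_154526_nt.Lin.T2.AS
import Pool.Agent.Lib.MP_154526_nt.Lin.T2.Newt
import Pool.Agent.Lib.MP_154526_nt.Lin.T2.FnMod
import Pool.Agent.Lib.MP_154526_nt.Lin.T2.NPS
import Pool.Agent.Lib.MP_154526_nt.Lin.T2.Link
import Pool.Agent.Lib.MP_154526_nt.Lin.T2.F1
import Pool.Agent.Lib.MP_154526_nt.Lin.Basic

/-!
# T2: assembly
-/

set_option autoImplicit false

namespace MP154526.Lin.T2

open Finset MP154526.Top MP154526.Top.Pass2

theorem wt_dc (w : List Bool) (h : EndY w) : wt (dc w) = w.length := by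
  rw [← bw_length, bw_dc w h]

section
variable (n : ℕ) (ψ : List Bool → ℚ)

/-- the functional on `V` attached to `ψ` -/
noncomputable def fl : V →ₗ[ℚ] ℚ := lin1 fun l => if wt l = n then ψ (bw l) else 0

theorem fl_e (l : List ℕ) (h : wt l = n) : fl n ψ (e l) = ψ (bw l) := by
  rw [fl, lin1_e, if_pos h]

theorem fl_Z (l : List ℕ) (h : 2 + wt l = n) : fl n ψ (Z (e l)) = dot [false, true] ψ (bw l) := by
  rw [Z, sh_e, map_shs]
  refine shs_congr_endY _ _ _ _ (endY_bw _) (endY_bw _) fun w hw hl => ?_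
  rw [fl_e, bw_dc w hw]
  rw [wt_dc w hw, hl, bw_length, bw_length, ← h]
  rfl

theorem Z_mem_V0 {b : V} (hb : b ∈ V0) : Z b ∈ V0 := by
  refine sh_mem_V0 (e_mem_V0 ?_) hb
  intro x hx
  simp only [List.head?_cons, Option.mem_def, Option.some.injEq] at hx
  omega

theorem main_T2 (hf : FR (fl n ψ)) (hL : ∀ w b : V, b ∈ V0 → Lf (fl n ψ) w b = 0)
    (u v : List ℕ) (hu : Ad u) (hv : Ad v) (hn : 2 + wt u + wt v = n) :
    shs (dot [false, true] ψ) (bw u) (bw v) = stf (fun l => dot [false, true] ψ (bw l)) u v := by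
  have hu' := e_mem_V0 hu
  have hv' := e_mem_V0 hv
  have h1 : shs (dot [false, true] ψ) (bw u) (bw v) = fl n ψ (Z (sh (e u) (e v))) := by
    rw [sh_e]
    have := map_shs ((fl n ψ) ∘ₗ Z) (bw u) (bw v)
    simp only [LinearMap.comp_apply] at this
    rw [this]
    refine shs_congr_endY _ _ _ _ (endY_bw _) (endY_bw _) fun w hw hl => ?_
    rw [fl_Z, bw_dc w hw]
    rw [wt_dc w hw, hl, bw_length, bw_length, ← hn]
    omega
  have h2 : stf (fun l => dot [false, true] ψ (bw l)) u v = fl n ψ (Z (st (e u) (e v))) := by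
    rw [st_e]
    have := map_stf ((fl n ψ) ∘ₗ Z) e u v
    simp only [LinearMap.comp_apply] at this
    rw [this]
    refine Lin.stf_congr _ _ fun l hl => ?_
    rw [fl_Z]
    omega
  have h3 : fl n ψ (st (e u) (Z (e v))) = fl n ψ (st (e u) (st (e [1]) (e v))) := by
    have h := hL (e u) (e v) hv'
    have h' : Lf (fl n ψ) (e u) (e v) = fl n ψ (st (e u) (Z (e v) - st (e [1]) (e v))) := rfl
    rw [h', map_sub, map_sub] at h
    linarith
  rw [h1, h2]
  calc fl n ψ (Z (sh (e u) (e v))) = fl n ψ (sh (e u) (Z (e v))) := by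
        rw [Z, sh_left_comm]
    _ = fl n ψ (st (e u) (Z (e v))) := (hf.r2 _ _ (Z_mem_V0 hv')).symm
    _ = fl n ψ (st (e u) (st (e [1]) (e v))) := h3
    _ = fl n ψ (st (e [1]) (st (e u) (e v))) := by rw [st_left_comm]
    _ = fl n ψ (sh (e [1]) (st (e u) (e v))) := hf.r2 _ _ (st_mem_V0 hu' hv')
    _ = fl n ψ (Z (st (e u) (e v))) := rfl

end

theorem assemble (hFin : SpecFin) (hDag : SpecDag) (hLY : SpecLY) (hLink : SpecLink) :
    MP154526.Lin.SpecT2 := by
  intro n ψ hψ u v hu hv hn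
  have hf : FR (fl n ψ) := hLink n ψ hψ
  refine main_T2 n ψ hf ?_ u v hu hv hn
  refine hFin (Lf (fl n ψ)) ?_ ?_ ?_
  · intro w
    have h' : Lf (fl n ψ) w (e []) = fl n ψ (st w (Z (e []) - st (e [1]) (e []))) := rfl
    rw [h', Z, sh_one, st_one, sub_self, map_zero, map_zero]
  · exact fun x a hx ha ha0 => hDag (fl n ψ) hf x a hx ha ha0
  · exact fun K w b hb hK => hLY (fl n ψ) hf K w b hb hK

/-- ID -/
theorem specId' : SpecId :=
  specId specFinj specFst specFC specFZ specCD (specWD specS1) (specWS specS1) specKey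

theorem assemble' (hN : SpecNewt) (hNP : SpecNP) (hLink : SpecLink) : MP154526.Lin.SpecT2 := by
  have hF1 : SpecF1 := specF1 hN
  have hJ : SpecJ := specJ hF1 hN specTri'
  have hAS : SpecAS := specAS specId' specDV hNP hJ
  exact assemble (specFin specDM specS2 specDS) (specDag hAS) (specLY hF1) hLink

end MP154526.Lin.T2

namespace MP154526.Lin

/-- T2: `z_2 ⧢ a ⧢ b - z_2 ⧢ (a * b) ∈ R` for `a, b ∈ ℌ⁰` -/
theorem specT2 : SpecT2 := T2.assemble' T2.specNewt T2.specNP T2.specLink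

end MP154526.Lin
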