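import Pool.Agent.Lib.MP_154526_nt.Lin.Plan
import Pool.Agent.Lib.MP_154526_nt.Top.F2
import Pool.Agent.Lib.MP_154526_nt.Top.FrontC
import Pool.Agent.Lib.MP_154526_nt.Top.Star
import Pool.Agent.Lib.MP_154526_nt.Top.ThmR

/-!
# Module TOP of the linear span: the top part is supported on the words in `z_2, z_2 z_1`
-/

set_option autoImplicit false

namespace MP154526.Lin.TopM

open Finset MP154526.Top MP154526.Top.Front MP154526.Top.Pass2 MP154526.Top.Star MP154526.Lin

/-! ### words -/

theorem bw_rep0 (n : ℕ) : bw (List.replicate n 0) = List.replicate n true := by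
  induction n with
  | zero => rfl
  | succ n ih => simp [List.replicate_succ, bw, ih]

theorem bw_rep1 (m : ℕ) : bw (List.replicate m 1) = zp m := by
  induction m with
  | zero => rfl
  | succ m ih => simp [List.replicate_succ, bw, ih, zp]

theorem endY_bw (l : List ℕ) : EndY (bw l) := by
  induction l with
  | nil => exact Or.inl rfl
  | cons a l ih =>
    right
    rcases ih with h | ⟨u, hu⟩
    · exact ⟨List.replicate a false, by simp [bw, h]⟩
    · exact ⟨List.replicate a false ++ true :: u, by simp [bw, hu]⟩

theorem NX_rep0 (n : ℕ) : NX (List.replicate n 0) := by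
  intro a ha
  have := List.eq_of_mem_replicate ha
  omega

theorem NX_rep1 (n : ℕ) : NX (List.replicate n 1) := by
  intro a ha
  have := List.eq_of_mem_replicate ha
  omega

theorem wt_rep0 (n : ℕ) : wt (List.replicate n 0) = n := by simp [wt]

theorem wt_rep1 (n : ℕ) : wt (List.replicate n 1) = 2 * n := by
  simp only [wt, List.sum_replicate, List.length_replicate, smul_eq_mul]
  omega

/-- an `NX` word of degree zero is a power of `y` -/
theorem eq_rep0 (l : List ℕ) (h : l.sum = 0) : l = List.replicate (wt l) 0 := by
  have h1 : ∀ a ∈ l, a = 0 := by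
    intro a ha
    have := List.single_le_sum (by simp) a ha
    omega
  have h2 : wt l = l.length := by simp [wt, h]
  rw [h2]
  exact List.eq_replicate_iff.2 ⟨rfl, h1⟩

theorem NX_ztail (l : List ℕ) : NX (ztail l) := by
  induction l with
  | nil => intro a ha; simp [ztail] at ha
  | cons i l ih =>
    intro a ha
    simp only [ztail, List.mem_cons, List.mem_append] at ha
    rcases ha with rfl | ha | ha
    · exact le_rfl
    · have := List.eq_of_mem_replicate ha
      omega
    · exact ih a ha

theorem NX_zw (l : List ℕ) : NX (zw l) := by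
  cases l with
  | nil => intro a ha; simp [zw] at ha
  | cons i l =>
    intro a ha
    simp only [zw, List.mem_append] at ha
    rcases ha with ha | ha
    · have := List.eq_of_mem_replicate ha
      omega
    · exact NX_ztail l a ha

theorem sum_ztail (l : List ℕ) : (ztail l).sum = l.length := by
  induction l with
  | nil => rfl
  | cons i l ih => simp [ztail, ih]; omega

theorem sum_zw (i : ℕ) (l : List ℕ) : (zw (i :: l)).sum = l.length := by
  simp [zw, sum_ztail]

/-- `act` of a singleton -/
theorem act_sing {M : Type} [AddCommMonoid M] (u : List Bool) (f : List Bool → M) (w : List Bool) :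
    act {u} f w = dot u f w := by
  simp [act, dot]

theorem dot_nil {M : Type} [AddCommMonoid M] (f : List Bool → M) : dot [] f = f := by
  funext w
  simp [dot]

/-- the functional itself belongs to `KK` -/
theorem KK_self (n : ℕ) (f : List Bool → ZMod 2) : KK n f n f := by
  refine ⟨le_rfl, {[]}, ?_, ?_⟩
  · intro u hu
    rw [Multiset.mem_singleton] at hu
    subst hu
    exact ⟨Or.inl rfl, by simp⟩
  · intro w _ _
    simp [act]

/-- powers of `y` -/
theorem rep_zero {n : ℕ} {f : List Bool → ZMod 2} (h : RR n f) (hn : 1 ≤ n) :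
    f (List.replicate n true) = 0 := by
  have := h.reg n [] hn (Or.inl rfl) (by simp)
  simpa using this

theorem bd_zero {n : ℕ} {f : List Bool → ZMod 2} (h : RR n f) (hn : 1 ≤ n) (hb : Bd n f 1) :
    Bd n f 0 := by
  intro l hl _ hln
  rcases Nat.eq_zero_or_pos l.sum with h0 | h0
  · rw [eq_rep0 l h0, hln, bw_rep0]
    exact rep_zero h hn
  · exact hb l hl h0 hln

theorem Bd.mono {n : ℕ} {f : List Bool → ZMod 2} {r s : ℕ} (h : Bd n f r) (hrs : r ≤ s) :
    Bd n f s := fun l hl hs hn => h l hl (by omega) hn

/-- `(xy)^m . f` has fewer letters `z_2` -/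
theorem bd_dot (hZ : SpecZsh) {n m r : ℕ} {f : List Bool → ZMod 2} (hm : 2 * m ≤ n)
    (hb : Bd n f (r + 1)) : Bd (n - 2 * m) (dot (zp m) f) (r + 1 - m) := by
  intro l hl hr hn
  rw [dot, ← bw_rep1]
  refine hZ f _ l (NX_rep1 m) hl ?_
  intro l' hl' hw hs
  rw [wt_rep1] at hw
  simp only [List.sum_replicate, smul_eq_mul, mul_one] at hs
  exact hb l' hl' (by omega) (by omega)

/-! ### the stuffle `y^j * y^p` -/

/-- the words of the stuffle of two powers of `y` -/
theorem stf_rep_mem {M : Type} [AddCommMonoid M] (S : AddSubmonoid M) (j p : ℕ)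
    (f : List ℕ → M) (h : ∀ l, NX l → wt l = j + p → f l ∈ S) :
    stf f (List.replicate j 0) (List.replicate p 0) ∈ S := by
  induction j generalizing p f with
  | zero =>
    simpa using h (List.replicate p 0) (NX_rep0 p) (by simp [wt_rep0])
  | succ j ihj =>
    induction p generalizing f with
    | zero =>
      simpa using h (List.replicate (j + 1) 0) (NX_rep0 _) (by simp [wt_rep0])
    | succ p ihp =>
      rw [List.replicate_succ, List.replicate_succ, stf_cons_cons]
      refine S.add_mem (S.add_mem ?_ ?_) ?_
      · have := ihj (p + 1) (fun l => f (0 :: l)) fun l hl hw => h _ (by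
          intro a ha
          rcases List.mem_cons.1 ha with rfl | ha
          · omega
          · exact hl a ha) (by simp only [wt_cons]; omega)
        rwa [List.replicate_succ] at this
      · have := ihp (fun l => f (0 :: l)) fun l hl hw => h _ (by
          intro a ha
          rcases List.mem_cons.1 ha with rfl | ha
          · omega
          · exact hl a ha) (by simp only [wt_cons]; omega)
        rwa [List.replicate_succ] at this
      · exact ihj p (fun l => f ((0 + 0 + 1) :: l)) fun l hl hw => h _ (by
          intro a ha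
          rcases List.mem_cons.1 ha with rfl | ha
          · omega
          · exact hl a ha) (by simp only [wt_cons]; omega)

/-- as a multiset -/
def stm (u v : List ℕ) : Multiset (List Bool) := stf (fun l => {bw l}) u v

theorem act_stm {M : Type} [AddCommMonoid M] (u v : List ℕ) (f : List Bool → M) (w : List Bool) :
    act (stm u v) f w = stf (fun l => shs f (bw l) w) u v := by
  let L : Multiset (List Bool) →+ M :=
    { toFun := fun A => (A.map fun u => shs f u w).sum
      map_zero' := by simp
      map_add' := by intro A B; simp }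
  have h := stf_map L (fun l => ({bw l} : Multiset (List Bool))) u v
  have h1 : (fun l => L ({bw l} : Multiset (List Bool))) = fun l => shs f (bw l) w := by
    funext l
    show (Multiset.map (fun u => shs f u w) {bw l}).sum = _
    simp
  rw [h1] at h
  exact h

theorem KK_h {n : ℕ} (f : List Bool → ZMod 2) (j p : ℕ) (hjp : j + p ≤ n) :
    KK n f (n - j - p) (fun w' => stf (fun u => shs f (bw u) w') (List.replicate j 0)
      (List.replicate p 0)) := by
  refine ⟨by omega, stm (List.replicate j 0) (List.replicate p 0), ?_, ?_⟩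
  · have key : ∀ (S : AddSubmonoid (Multiset (List Bool))),
        (∀ l : List ℕ, wt l = j + p → ({bw l} : Multiset (List Bool)) ∈ S) →
        stm (List.replicate j 0) (List.replicate p 0) ∈ S := by
      intro S hS
      refine stf_mem S _ _ _ fun l hl => hS l ?_
      rw [wt_rep0, wt_rep0] at hl
      exact hl
    let S : AddSubmonoid (Multiset (List Bool)) :=
      { carrier := {A | ∀ u ∈ A, EndY u ∧ u.length + (n - j - p) = n}
        zero_mem' := by intro u hu; simp at hu
        add_mem' := by
          intro A B hA hB u hu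
          rcases Multiset.mem_add.1 hu with h | h
          · exact hA u h
          · exact hB u h }
    refine key S ?_
    intro l hl u hu
    rw [Multiset.mem_singleton] at hu
    subst hu
    refine ⟨endY_bw l, ?_⟩
    rw [Top.F2.length_bw]
    have : l.sum + l.length = j + p := hl
    omega
  · intro w _ _
    rw [act_stm]

theorem bd_h (hZ : SpecZsh) {n r : ℕ} {f : List Bool → ZMod 2} (hf : RR n f)
    (hb : Bd n f (r + 1)) (j p : ℕ) (hj : 1 ≤ j) (hjp : j + p ≤ n) :
    Bd (n - j - p) (fun w' => stf (fun u => shs f (bw u) w') (List.replicate j 0)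
      (List.replicate p 0)) r := by
  intro l hl hr hn
  have h := stf_rep_mem (⊥ : AddSubmonoid (ZMod 2)) j p (fun u => shs f (bw u) (bw l)) ?_
  · simpa using h
  · intro u hu hw
    rw [AddSubmonoid.mem_bot]
    rcases Nat.eq_zero_or_pos u.sum with h0 | h0
    · rw [eq_rep0 u h0, hw, bw_rep0]
      refine hf.reg (j + p) (bw l) (by omega) (endY_bw l) ?_
      rw [Top.F2.length_bw]
      have : l.sum + l.length = n - j - p := hn
      omega
    · refine hZ f u l hu hl ?_
      intro l' hl' hw' hs'
      exact hb l' hl' (by omega) (by omega)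

/-! ### the top part -/

theorem top_zero {n D : ℕ} (hD : n < D) (hL : SpecLow1) {f : List Bool → ZMod 2} (hf : RR n f)
    (hb : Bd n f 1) (R : Type) [CommRing R] [Algebra (ZMod 2) R] (l b : R) :
    evS D l b (cast R (PR n 0 f)) [] = E l n (castB R f) (X (b + l) []) := by
  have h1 : evS D l b (cast R (PR n 0 f)) [] = algebraMap (ZMod 2) R (f (List.replicate n true)) *
      b ^ n := by
    show ∑ j ∈ range D, geo b j * cast R (PR n 0 f) [j] = _
    rw [Finset.sum_eq_single n]
    · simp only [geo, Top.cast, PR]
      rw [if_pos ⟨rfl, by simp⟩]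
      have : zw [n] = List.replicate n 0 := by simp [zw, ztail]
      rw [this, bw_rep0, mul_comm]
    · intro j _ hj
      simp only [Top.cast, PR]
      rw [if_neg, map_zero, mul_zero]
      rintro ⟨_, h⟩
      simp at h
      exact hj h
    · intro h
      exact absurd (Finset.mem_range.2 hD) h
  rw [h1]
  rcases Nat.eq_zero_or_pos n with rfl | hn
  · rw [E]
    simp [castB, X]
  · rw [rep_zero hf hn, map_zero, zero_mul]
    exact (hL n f hf n f (KK_self n f) 0 (bd_zero hf hn hb) R l (b + l) [] (by simp)).symm

theorem top_eq (hZ : SpecZsh) (hQ : SpecEQ1) (hE : SpecEQE) (hL : SpecLow1) {n D r : ℕ}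
    (hD : n < D) {f : List Bool → ZMod 2} (hf : RR n f) (hb : Bd n f (r + 1))
    (R : Type) [CommRing R] [Algebra (ZMod 2) R] (l b : R) (ρ : List R) (hρ : ρ.length = r) :
    evS D l b (cast R (PR n r f)) ρ = E l n (castB R f) (X (b + l) ρ) := by
  rcases Nat.eq_zero_or_pos r with rfl | hr
  · have : ρ = [] := List.length_eq_zero_iff.1 hρ
    subst this
    exact top_zero hD hL hf hb R l b
  · rw [← specC R l b n r D f hr hD ?_ ρ hρ]
    · have h1 := hE n f (fun j p w' => stf (fun u => shs f (bw u) w') (List.replicate j 0)
        (List.replicate p 0)) (fun j l' hj hl' => hQ n f hf j l' hj hl') R l (b + l) ρ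
      rw [h1]
      rw [Finset.sum_eq_zero, add_zero]
      intro j hj
      refine Finset.sum_eq_zero fun p hp => ?_
      rw [Finset.mem_range] at hj hp
      rw [hL n f hf _ _ (KK_h f (j + 1) p (by omega)) r
        (bd_h hZ hf hb (j + 1) p (by omega) (by omega)) R l (b + l) ρ (by omega), mul_zero]
    · intro l' hlen hw
      cases l' with
      | nil => simp at hlen
      | cons i l' =>
        simp only [List.length_cons] at hlen hw
        refine hb _ (NX_zw _) ?_ ?_
        · rw [sum_zw]
          omega
        · show (zw (i :: l')).sum + (zw (i :: l')).length = n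
          rw [Top.F2.weight_zw]
          omega

/-! ### the base point -/

/-- as `StarF.base_zero`, from translation invariance only -/
theorem base_zero {D m N : ℕ} {P : List ℕ → ZMod 2} (hS : Supp D (m + 1) P)
    (hN : ∀ l, P l ≠ 0 → l.sum = N)
    (hti : ∀ ρ : List (ZMod 2), ρ.length = m →
      evS D 0 1 (cast (ZMod 2) P) ρ = evS D 0 0 (cast (ZMod 2) P) ρ)
    (h1 : ∀ i l, P (i :: l) ≠ 0 → ∀ a ∈ l, a ≤ 1) :
    ∀ i l, P (i :: l) ≠ 0 → i = 0 := by
  intro i l hil
  by_contra hi
  have hS1 := hS _ hil
  have hlm : l.length = m := by simpa using hS1.1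
  let H : List (ℕ → ZMod 2) → ZMod 2 := fun ws =>
    ev D ws (app D (geo 1) P) + ev D ws (app D (geo 0) P)
  have hH : ∀ V x y W, H (V ++ (x + y) :: W) = H (V ++ x :: W) + H (V ++ y :: W) := by
    intro V x y W
    have e1 := StarF.ev_addL D (app D (geo 1) P) V x y W
    have e2 := StarF.ev_addL D (app D (geo 0) P) V x y W
    simp only [H] at e1 e2 ⊢
    rw [e1, e2]
    ring
  have hz : H (l.map del) = 0 := by
    refine StarF.ext_add H StarF.isAff m (fun V x y W _ _ _ _ _ => hH V x y W) ?_ _
      (by simpa using hlm) (StarF.del_isAff (h1 i l hil))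
    intro w hw hp
    obtain ⟨ρ, rfl, hρ⟩ := StarF.map_aff_of hp
    have e := hti ρ (by rw [hρ, hw])
    rw [StarF.cast_zmod, StarF.evS_aff h1, StarF.evS_aff h1] at e
    show ev D _ _ + ev D _ _ = 0
    rw [e]
    exact add_self (R := ZMod 2) _
  have hD : ∀ a ∈ l, a < D := fun a ha => hS1.2 a (List.mem_cons_of_mem _ ha)
  have hiD : i < D := hS1.2 i (by simp)
  simp only [H] at hz
  rw [StarF.ev_del l hD, StarF.ev_del l hD] at hz
  have e1 : app D (geo 1) P l = P (i :: l) := by
    simp only [app, geo, one_pow, one_mul]
    refine Finset.sum_eq_single i ?_ ?_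
    · intro j _ hj
      by_contra h0
      have := hN _ h0
      have := hN _ hil
      simp only [List.sum_cons] at *
      omega
    · intro h0
      exact absurd (Finset.mem_range.2 hiD) h0
  have e2 : app D (geo 0) P l = 0 := by
    refine Finset.sum_eq_zero fun j _ => ?_
    by_cases hj : j = 0
    · subst hj
      by_cases h0 : P (0 :: l) = 0
      · rw [h0, mul_zero]
      · have := hN _ h0
        have := hN _ hil
        simp only [List.sum_cons] at *
        omega
    · rw [geo, zero_pow hj, zero_mul]
  rw [e1, e2, add_zero] at hz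
  exact hil hz

theorem PR_supp {n m D : ℕ} (hD : n < D) (f : List Bool → ZMod 2) :
    Supp D (m + 1) (PR n m f) := by
  intro l hl
  simp only [PR] at hl
  split_ifs at hl with hc
  · refine ⟨hc.1, fun a ha => ?_⟩
    have := List.single_le_sum (by simp) a ha
    omega
  · exact absurd rfl hl

theorem PR_sum {n m : ℕ} (f : List Bool → ZMod 2) (l : List ℕ) (hl : PR n m f l ≠ 0) :
    l.sum = n - 2 * m ∧ 2 * m ≤ n := by
  simp only [PR] at hl
  split_ifs at hl with hc
  · omega
  · exact absurd rfl hl

theorem main (hZ : SpecZsh) (hQ : SpecEQ1) (hE : SpecEQE) (hTI : SpecTI) (hL : SpecLow1)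
    (F : ℕ → (List Bool → ZMod 2) → Prop) (hF : Cls F) (n : ℕ) :
    ∀ f, F n f → ∀ r, Bd n f (r + 1) → ∀ l, PR n r f l ≠ 0 → ∃ l', l = 0 :: l' ∧ ∀ a ∈ l', a ≤ 1 := by
  induction n using Nat.strong_induction_on with
  | _ n ih =>
    intro f hf r hb l hl
    have hrr := hF.rr n f hf
    obtain ⟨hsum, hrn⟩ := PR_sum f l hl
    have hD : n < n + 2 := by omega
    set g : ℕ → List ℕ → ZMod 2 := fun k => PR (n - 2 * k) (r - k) (dot (zp k) f) with hg
    have hg0 : g 0 = PR n r f := by
      simp only [hg, zp, dot_nil, Nat.mul_zero, Nat.sub_zero]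
    have hgk : ∀ k, 1 ≤ k → k ≤ r → ThmR.Gd (g k) := by
      intro k hk hkr i l' hne a ha
      obtain ⟨l'', h1, h2⟩ := ih (n - 2 * k) (by omega) (dot (zp k) f)
        (hF.zz n f hf k (by omega)) (r - k) (by
          have := bd_dot hZ (m := k) (by omega) hb
          rwa [show r + 1 - k = r - k + 1 by omega] at this) (i :: l') hne
      obtain ⟨rfl, rfl⟩ := List.cons.inj h1
      exact h2 a ha
    have hH : ThmR.HypR' (n + 2) r g (fun _ => 0) := by
      refine ⟨?_, ?_, ?_⟩
      · intro k hk
        exact PR_supp (by omega) _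
      · intro R _ _ t b k W hkW
        rcases Nat.eq_zero_or_pos k with rfl | hk
        · exact S_zero_left _ _ _ _ _
        · rw [hg0]
          have hW : ∀ ρ' : List R, ρ'.length = (List.replicate k t).length + W.length →
              evS (n + 2) t b (cast R (PR n r f)) ρ' = E t n (castB R f) (X (b + t) ρ') := by
            intro ρ' hρ'
            rw [List.length_replicate] at hρ'
            exact top_eq hZ hQ hE hL hD hrr hb R t b ρ' (by omega)
          unfold Star.S
          rw [shs_congr_len _ _ hW]
          obtain ⟨κ, hκ, hins⟩ := hF.ins n f hf k hk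
          rw [hins R t (b + t) W, Finset.sum_eq_single k]
          · rw [hκ, map_one, Nat.sub_self, Nat.mul_zero, pow_zero, one_mul, one_mul]
            rw [top_eq hZ hQ hE hL (by omega : n - 2 * k < n + 2)
              (hF.rr _ _ (hF.zz n f hf k (by omega))) (r := r - k) ?_ R t b W (by omega)]
            have := bd_dot hZ (m := k) (by omega) hb
            rwa [show r + 1 - k = r - k + 1 by omega] at this
          · intro m hm hmk
            rw [Finset.mem_filter, Finset.mem_range] at hm
            rw [hL (n - 2 * m) _ (hF.rr _ _ (hF.zz n f hf m (by omega))) (n - 2 * m) _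
              (KK_self _ _) (r + 1 - m) (bd_dot hZ (by omega) hb) R t (b + t) W (by omega),
              mul_zero]
          · intro h
            exfalso
            apply h
            rw [Finset.mem_filter, Finset.mem_range]
            omega
      · intro k hk1 hk
        have : (g k + fun x => (0 : ZMod 2) * g 0 (x ++ List.replicate k 0)) = g k := by
          funext x
          simp
        rw [this]
        exact hgk k hk1 hk
    have hGd := ThmR.main specX (n + 2) (by omega) r g (fun _ => 0) hH
    rw [hg0] at hGd
    cases l with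
    | nil =>
      have := (PR_supp hD f _ hl).1
      simp at this
    | cons i l' =>
      have h1 : ∀ i l, PR n r f (i :: l) ≠ 0 → ∀ a ∈ l, a ≤ 1 := hGd
      have h0 : i = 0 := by
        refine base_zero (PR_supp hD f) (N := n - 2 * r) (fun l hl => (PR_sum f l hl).1) ?_ h1 i l' hl
        intro ρ hρ
        rw [top_eq hZ hQ hE hL hD hrr hb (ZMod 2) 0 1 ρ hρ,
          top_eq hZ hQ hE hL hD hrr hb (ZMod 2) 0 0 ρ hρ]
        exact hTI n f hrr.reg (ZMod 2) 0 (1 + 0) (0 + 0) ρ
      subst h0
      exact ⟨l', rfl, h1 0 l' hl⟩

end MP154526.Lin.TopM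

namespace MP154526.Lin

/-- TOP -/
theorem specTop (hZ : SpecZsh) (hQ : SpecEQ1) (hE : SpecEQE) (hTI : SpecTI) (hL : SpecLow1) :
    SpecTop := fun F hF n f hf => TopM.main hZ hQ hE hTI hL F hF n f hf

end MP154526.Lin
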