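import Pool.Agent.Lib.MP_154526_nt.Lin.Basic

/-!
# VK: the divided shuffle powers of `z_2 = xy`
-/

set_option autoImplicit false

namespace MP154526.Lin

open Finset MP154526.Top MP154526.Top.Front MP154526.Top.Pass2

namespace VK

variable {M : Type} [AddCommMonoid M]

/-- the sum of `F` over the words of `zV m` -/
def Z (m : ℕ) (F : List Bool → M) : M := ((zV m).map F).sum

theorem Z_zero (F : List Bool → M) : Z 0 F = F [] := by simp [Z, zV]

theorem Z_succ (m : ℕ) (F : List Bool → M) :
    Z (m + 1) F = Z m (fun u => shs (fun w => F (false :: w)) [true] u) := by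
  unfold Z
  rw [zV, Multiset.map_bind, Multiset.sum_bind]
  congr 1
  refine Multiset.map_congr rfl fun u _ => ?_
  rw [msum_shs]
  simp

theorem Z_add (m : ℕ) (F G : List Bool → M) :
    Z m (fun u => F u + G u) = Z m F + Z m G := by
  unfold Z
  rw [Multiset.sum_map_add]

theorem shs_swap (F : List Bool → M) (a b v : List Bool) :
    shs (fun w => shs F a w) b v = shs (fun w => shs F b w) a v := dot_comm b a F v

theorem key (m : ℕ) : ∀ F : List Bool → M,
    Z m (fun u => shs F [false, true] u) = (m + 1) • Z (m + 1) F := by
  induction m with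
  | zero =>
    intro F
    rw [Z_zero, Z_succ, Z_zero]
    simp
  | succ m ih =>
    intro F
    rw [Z_succ]
    have e1 : (fun u => shs (fun w => shs F [false, true] (false :: w)) [true] u) =
        fun u => shs (fun w => shs (fun l => F (false :: l)) [true] (false :: w)) [true] u +
          shs (fun l => shs (fun l' => F (false :: l')) [true] l) [false, true] u := by
      funext u
      rw [← shs_swap (fun l => F (false :: l)), ← shs_add]
      congr 1
      funext w
      rw [shs_cons_cons]
    rw [e1, Z_add]
    rw [ih, ← Z_succ m (fun l => shs (fun l' => F (false :: l')) [true] l), ← Z_succ (m + 1) F,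
      add_comm, ← succ_nsmul]

theorem shs_zp (m : ℕ) (G : List Bool → ZMod 2) : shs G [true] (zp m) = G (true :: zp m) := by
  induction m generalizing G with
  | zero => simp [zp]
  | succ m ih =>
    rw [zp, shs_cons_cons, shs_nil_left, shs_cons_cons, shs_nil_left, ih,
      CharTwo.add_self_eq_zero, add_zero]

theorem Z_two (m : ℕ) : ∀ F : List Bool → ZMod 2, Z m F = F (zp m) := by
  induction m with
  | zero => intro F; rw [Z_zero]; rfl
  | succ m ih => intro F; rw [Z_succ, ih, shs_zp]; rfl

end VK

theorem specVK1 : SpecVK1 := by
  intro M _ m ψ w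
  have h := VK.key m (fun s => shs ψ s w)
  rw [dot_act]
  have e : ((zV m).map fun u => shs (fun s => shs ψ s w) u [false, true]).sum =
      VK.Z m (fun u => shs (fun s => shs ψ s w) [false, true] u) := by
    unfold VK.Z
    congr 1
    refine Multiset.map_congr rfl fun u _ => ?_
    exact shs_comm _ _ _
  rw [e, h]
  rfl

theorem specVK2 : SpecVK2 := by
  intro m f w
  exact VK.Z_two m fun s => shs f s w

end MP154526.Lin
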