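import Pool.Agent.Lib.MP_154526_nt.Lin.Plan
import Pool.Agent.Lib.MP_154526_nt.Top.Span

/-!
# ZSH: words without `xx` are closed under the shuffle product modulo 2
-/

set_option autoImplicit false

namespace MP154526.Lin

open Finset MP154526.Top MP154526.Top.Front MP154526.Top.Pass2

/-- `f` vanishes on the words without `xx` of length `n` with `s` letters `x` -/
def ZV (f : List Bool → ZMod 2) (n s : ℕ) : Prop :=
  ∀ l, NX l → wt l = n → l.sum = s → f (bw l) = 0

theorem bw_zero_cons' (l : List ℕ) : bw (0 :: l) = true :: bw l := rfl

theorem bw_one_cons' (l : List ℕ) : bw (1 :: l) = false :: true :: bw l := rfl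

theorem NX.cons0 {l : List ℕ} (h : NX l) : NX (0 :: l) := by
  intro a ha
  rcases List.mem_cons.1 ha with rfl | ha
  · omega
  · exact h a ha

theorem NX.cons1 {l : List ℕ} (h : NX l) : NX (1 :: l) := by
  intro a ha
  rcases List.mem_cons.1 ha with rfl | ha
  · omega
  · exact h a ha

theorem NX.tail {a : ℕ} {l : List ℕ} (h : NX (a :: l)) : NX l :=
  fun b hb => h b (List.mem_cons_of_mem _ hb)

theorem ZV.y {f : List Bool → ZMod 2} {n n' s : ℕ} (h : ZV f n' s) (e : n' = n + 1) :
    ZV (fun w => f (true :: w)) n s := by
  intro l hl hn hs
  have := h (0 :: l) hl.cons0 (by rw [wt_cons]; omega) (by simpa using hs)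
  simpa [bw] using this

theorem ZV.xy {f : List Bool → ZMod 2} {n n' s s' : ℕ} (h : ZV f n' s') (e : n' = n + 2)
    (e' : s' = s + 1) : ZV (fun w => f (false :: true :: w)) n s := by
  intro l hl hn hs
  have := h (1 :: l) hl.cons1 (by rw [wt_cons]; omega) (by simp; omega)
  simpa [bw] using this

theorem zsh_aux (N : ℕ) : ∀ (f : List Bool → ZMod 2) (c v : List ℕ), wt c + wt v ≤ N → NX c →
    NX v → ZV f (wt c + wt v) (c.sum + v.sum) → shs f (bw c) (bw v) = 0 := by
  induction N with
  | zero =>
    intro f c v hN hc hv h
    rcases c with _ | ⟨a, c⟩
    · simpa [bw] using h v hv (by simp) (by simp)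
    · rw [wt_cons] at hN; omega
  | succ N ih =>
    intro f c v hN hc hv h
    rcases c with _ | ⟨a, c⟩
    · simpa [bw] using h v hv (by simp) (by simp)
    rcases v with _ | ⟨b, v⟩
    · simpa [bw] using h (a :: c) hc (by simp) (by simp)
    have ha : a ≤ 1 := hc a (by simp)
    have hb : b ≤ 1 := hv b (by simp)
    have hc' := hc.tail
    have hv' := hv.tail
    have ha' : a = 0 ∨ a = 1 := by omega
    have hb' : b = 0 ∨ b = 1 := by omega
    rcases ha' with rfl | rfl <;> rcases hb' with rfl | rfl
    · -- y, y
      rw [wt_cons, wt_cons] at hN h
      simp only [List.sum_cons] at h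
      rw [bw_zero_cons', bw_zero_cons', shs_cons_cons]
      have e1 := ih (fun l => f (true :: l)) c (0 :: v) (by rw [wt_cons]; omega) hc' hv
        (by rw [wt_cons]; simp only [List.sum_cons]
            intro l hl hn hs
            have := h (0 :: l) hl.cons0 (by rw [wt_cons]; omega) (by simp; omega)
            simpa [bw] using this)
      have e2 := ih (fun l => f (true :: l)) (0 :: c) v (by rw [wt_cons]; omega) hc hv'
        (by rw [wt_cons]; simp only [List.sum_cons]
            intro l hl hn hs
            have := h (0 :: l) hl.cons0 (by rw [wt_cons]; omega) (by simp; omega)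
            simpa [bw] using this)
      rw [bw_zero_cons'] at e1 e2
      rw [e1, e2, add_zero]
    · -- y, xy
      rw [wt_cons, wt_cons] at hN h
      simp only [List.sum_cons] at h
      rw [bw_zero_cons', bw_one_cons', shs_cons_cons]
      have e1 := ih (fun l => f (true :: l)) c (1 :: v) (by rw [wt_cons]; omega) hc' hv
        (by rw [wt_cons]; simp only [List.sum_cons]
            intro l hl hn hs
            have := h (0 :: l) hl.cons0 (by rw [wt_cons]; omega) (by simp; omega)
            simpa [bw] using this)
      have e2 : shs (fun l => f (false :: l)) (true :: bw c) (true :: bw v) = 0 := by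
        rw [shs_cons_cons]
        have e3 := ih (fun l => f (false :: true :: l)) c (0 :: v) (by rw [wt_cons]; omega) hc'
          (hv'.cons0) (by
            rw [wt_cons]; simp only [List.sum_cons]
            intro l hl hn hs
            have := h (1 :: l) hl.cons1 (by rw [wt_cons]; omega) (by simp; omega)
            simpa [bw] using this)
        have e4 := ih (fun l => f (false :: true :: l)) (0 :: c) v (by rw [wt_cons]; omega) hc
          hv' (by
            rw [wt_cons]; simp only [List.sum_cons]
            intro l hl hn hs
            have := h (1 :: l) hl.cons1 (by rw [wt_cons]; omega) (by simp; omega)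
            simpa [bw] using this)
        rw [bw_zero_cons'] at e3 e4
        rw [e3, e4, add_zero]
      rw [bw_one_cons'] at e1
      rw [e1, e2, add_zero]
    · -- xy, y
      rw [wt_cons, wt_cons] at hN h
      simp only [List.sum_cons] at h
      rw [bw_zero_cons', bw_one_cons', shs_cons_cons]
      have e1 := ih (fun l => f (true :: l)) (1 :: c) v (by rw [wt_cons]; omega) hc hv'
        (by rw [wt_cons]; simp only [List.sum_cons]
            intro l hl hn hs
            have := h (0 :: l) hl.cons0 (by rw [wt_cons]; omega) (by simp; omega)
            simpa [bw] using this)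
      have e2 : shs (fun l => f (false :: l)) (true :: bw c) (true :: bw v) = 0 := by
        rw [shs_cons_cons]
        have e3 := ih (fun l => f (false :: true :: l)) c (0 :: v) (by rw [wt_cons]; omega) hc'
          hv (by
            rw [wt_cons]; simp only [List.sum_cons]
            intro l hl hn hs
            have := h (1 :: l) hl.cons1 (by rw [wt_cons]; omega) (by simp; omega)
            simpa [bw] using this)
        have e4 := ih (fun l => f (false :: true :: l)) (0 :: c) v (by rw [wt_cons]; omega)
          (hc'.cons0) hv' (by
            rw [wt_cons]; simp only [List.sum_cons]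
            intro l hl hn hs
            have := h (1 :: l) hl.cons1 (by rw [wt_cons]; omega) (by simp; omega)
            simpa [bw] using this)
        rw [bw_zero_cons'] at e3 e4
        rw [e3, e4, add_zero]
      rw [bw_one_cons'] at e1
      rw [e1, e2, add_zero]
    · -- xy, xy
      rw [wt_cons, wt_cons] at hN h
      simp only [List.sum_cons] at h
      have e0 : shs f (false :: true :: bw c) (false :: true :: bw v) =
          (shs (fun l => f (false :: true :: l)) (bw c) (false :: true :: bw v) +
            shs (fun l => f (false :: false :: l)) (true :: bw c) (true :: bw v)) +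
          (shs (fun l => f (false :: false :: l)) (true :: bw c) (true :: bw v) +
            shs (fun l => f (false :: true :: l)) (false :: true :: bw c) (bw v)) := by
        rw [shs_cons_cons f, shs_cons_cons (fun l => f (false :: l)) true,
          shs_cons_cons (fun l => f (false :: l)) false]
      rw [bw_one_cons', bw_one_cons', e0]
      have e1 := ih (fun l => f (false :: true :: l)) c (1 :: v) (by rw [wt_cons]; omega) hc' hv
        (by rw [wt_cons]; simp only [List.sum_cons]
            intro l hl hn hs
            have := h (1 :: l) hl.cons1 (by rw [wt_cons]; omega) (by simp; omega)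
            simpa [bw] using this)
      have e2 := ih (fun l => f (false :: true :: l)) (1 :: c) v (by rw [wt_cons]; omega) hc hv'
        (by rw [wt_cons]; simp only [List.sum_cons]
            intro l hl hn hs
            have := h (1 :: l) hl.cons1 (by rw [wt_cons]; omega) (by simp; omega)
            simpa [bw] using this)
      rw [bw_one_cons'] at e1 e2
      rw [e1, e2, zero_add, add_zero]
      exact CharTwo.add_self_eq_zero _

theorem specZsh : SpecZsh := by
  intro f c v hc hv h
  exact zsh_aux _ f c v le_rfl hc hv h

end MP154526.Lin
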