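import Pool.Agent.Lib.MP_154526_nt.Lin.Plan
import Pool.Agent.Lib.MP_154526_nt.Top.F2
import Pool.Agent.Lib.MP_154526_nt.Top.FrontC
import Pool.Agent.Lib.MP_154526_nt.Top.Asm
import Pool.Agent.Lib.MP_154526_nt.Lin.SpanL
import Pool.Agent.Lib.MP_154526_nt.Lin.Low1
import Pool.Agent.Lib.MP_154526_nt.Lin.Low2
import Pool.Agent.Lib.MP_154526_nt.Lin.Top
import Pool.Agent.Lib.MP_154526_nt.Lin.Ext
import Pool.Agent.Lib.MP_154526_nt.Lin.Inj
import Pool.Agent.Lib.MP_154526_nt.Lin.VK
import Pool.Agent.Lib.MP_154526_nt.Lin.SW
import Pool.Agent.Lib.MP_154526_nt.Lin.EQ0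
import Pool.Agent.Lib.MP_154526_nt.Lin.Zsh
import Pool.Agent.Lib.MP_154526_nt.Lin.InsA
import Pool.Agent.Lib.MP_154526_nt.Lin.InsB
import Pool.Agent.Lib.MP_154526_nt.Lin.T2Main

section
/-!
# Module F2 of the linear span
-/
set_option autoImplicit false

namespace MP154526.Lin.F2M

open Finset MP154526.Top MP154526.Top.Front MP154526.Top.Pass2 MP154526.Lin

/-- the functional itself belongs to `KK` -/
theorem KK_self (n : ℕ) (f : List Bool → ZMod 2) : KK n f n f := by
  refine ⟨le_rfl, {[]}, ?_, ?_⟩
  · intro u hu
    rw [Multiset.mem_singleton] at hu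
    subst hu
    exact ⟨Or.inl rfl, by simp⟩
  · intro w _ _
    simp [act]

theorem specF2 (hT : SpecTop) (hI : SpecInj) : SpecF2 := by
  intro F hF n f hf hexp w hw hwn
  have hrr := hF.rr n f hf
  have key : ∀ k r, n < r + k → Bd n f r := by
    intro k
    induction k with
    | zero =>
      intro r hr l _ hl1 hl2
      exfalso
      unfold wt at hl2
      omega
    | succ k ih =>
      intro r hr
      have h1 := ih (r + 1) (by omega)
      intro l hl hrl hln
      rcases Nat.lt_or_ge r l.sum with hlt | hge
      · exact h1 l hl (by omega) hln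
      · obtain ⟨l', hl', hz, hlen, hwt⟩ := Front.exists_zw l hl
        by_contra hne
        have hPR : PR n r f l' ≠ 0 := by
          simp only [PR]
          rw [if_pos ⟨by omega, by
            have : l.sum + l.length = n := hln
            omega⟩, hz]
          exact hne
        obtain ⟨l'', rfl, hl''⟩ := hT F hF n f hf r h1 l' hPR
        obtain ⟨v, rfl⟩ := Top.F2.exists_map l'' hl''
        rw [← hz, Top.F2.bw_zw_expand] at hne
        refine hne (hexp v ?_)
        rw [← Top.F2.bw_zw_expand, Top.F2.length_bw, hz]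
        exact hln
  exact hI n f hrr n f (KK_self n f) (key (n + 1) 0 (by omega)) w hw hwn

end MP154526.Lin.F2M

namespace MP154526.Lin

/-- F2 -/
theorem specF2 (hT : SpecTop) (hI : SpecInj) : SpecF2 := F2M.specF2 hT hI

end MP154526.Lin
end

section
/-!
# The literal linear span: assembly
-/
set_option autoImplicit false

namespace MP154526.Lin

theorem asmLow1 : SpecLow1 := specLow1 specEQ0 specEQE specTI

theorem asmTop : SpecTop := specTop specZsh specEQ1 specEQE specTI asmLow1

theorem asmInj : SpecInj :=
  specInj specZsh specEQ0 specEQE specTI (specLow2 specEQ0 specEQE specTI)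
    (Top.specRed Top.asmTop)

theorem asmF2 : SpecF2 := specF2 asmTop asmInj

theorem asmClo : SpecClo := specClo specT2 specTri specVK1

theorem asmInsB : SpecInsB := specInsB asmClo specW

theorem asmCls : SpecCls := specCls asmInsB specVK2 asmClo

theorem asmSpan : SpecSpan := specSpan asmF2 asmCls specExt

theorem asmAnswer : SpecAnswer := specAnswer asmSpan

end MP154526.Lin
end
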