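import Pool.Agent.Lib.MP_154526_nt.Lin.Plan
import Pool.Agent.Lib.MP_154526_nt.Lin.HarmInj

/-!
# Windows of nested harmonic sums, in exponents `a = k - 1`

`win [a₁, …, a_r] M P = ∑_{P ≥ n₁ > … > n_r > M} ∏ n_i^{-a_i-1}`.
-/

set_option autoImplicit false

namespace MP154526.Lin

open Finset MP154526.Top MP154526.Top.Pass2

/-- windows of nested harmonic sums -/
def win : List ℕ → ℕ → ℕ → ℚ
  | [], _, _ => 1
  | _ :: _, _, 0 => 0
  | a :: l, M, P + 1 => win (a :: l) M P + if M ≤ P then win l M P / ((P : ℚ) + 1) ^ (a + 1) else 0

@[simp] theorem win_nil (M P : ℕ) : win [] M P = 1 := by cases P <;> rfl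

@[simp] theorem win_cons_zero (a : ℕ) (l : List ℕ) (M : ℕ) : win (a :: l) M 0 = 0 := rfl

theorem win_cons_succ (a : ℕ) (l : List ℕ) (M P : ℕ) :
    win (a :: l) M (P + 1) =
      win (a :: l) M P + if M ≤ P then win l M P / ((P : ℚ) + 1) ^ (a + 1) else 0 := rfl

theorem win_of_le (a : ℕ) (l : List ℕ) {M P : ℕ} (h : P ≤ M) : win (a :: l) M P = 0 := by
  induction P with
  | zero => rfl
  | succ P ih => rw [win_cons_succ, ih (by omega), if_neg (by omega), add_zero]

theorem win_self (a : ℕ) (l : List ℕ) (M : ℕ) : win (a :: l) M M = 0 := win_of_le a l le_rfl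

/-- `win` from `0` is `hs` -/
theorem win_zero (l : List ℕ) (P : ℕ) : win l 0 P = hs (l.map (· + 1)) P := by
  induction P generalizing l with
  | zero => cases l <;> rfl
  | succ P ih =>
    cases l with
    | nil => rfl
    | cons a l =>
      rw [win_cons_succ, if_pos (Nat.zero_le _), ih, List.map_cons, hs_cons_succ, ih]

/-- windows are characters of the stuffle product -/
theorem win_stf (M P : ℕ) (u v : List ℕ) :
    stf (fun l => win l M P) u v = win u M P * win v M P := by
  induction P generalizing u v with
  | zero =>
    cases u with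
    | nil => simp
    | cons a u =>
      cases v with
      | nil => simp
      | cons b v =>
        rw [stf_cons_cons]
        have h : ∀ (c : ℕ) (u v : List ℕ), stf (fun l => win (c :: l) M 0) u v = 0 :=
          fun c u v => stf_zero _ u v (fun _ _ => rfl)
        rw [h, h, h]; simp
  | succ P ih =>
    cases u with
    | nil => simp
    | cons a u =>
      cases v with
      | nil => simp
      | cons b v =>
        rw [stf_cons_cons]
        simp only [win_cons_succ]
        rw [stf_add, stf_add, stf_add]
        have h1 := ih (a :: u) (b :: v)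
        rw [stf_cons_cons] at h1
        by_cases hM : M ≤ P
        · simp only [if_pos hM]
          have h2 : ∀ (c : ℕ) (u v : List ℕ),
              stf (fun l => win l M P / ((P : ℚ) + 1) ^ (c + 1)) u v =
                win u M P * win v M P / ((P : ℚ) + 1) ^ (c + 1) := by
            intro c u v
            rw [← ih]
            have := stf_map (AddMonoidHom.mulRight ((((P : ℚ) + 1) ^ (c + 1))⁻¹))
              (fun l => win l M P) u v
            simp only [AddMonoidHom.coe_mulRight, ← div_eq_mul_inv] at this
            exact this.symm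
          rw [h2, h2, h2]
          have hP : ((P : ℚ) + 1) ≠ 0 := by positivity
          have e : ((P : ℚ) + 1) ^ (a + b + 1 + 1) = ((P : ℚ) + 1) ^ (a + 1) * ((P : ℚ) + 1) ^ (b + 1) := by
            rw [← pow_add]; congr 1; omega
          rw [e]
          field_simp
          linear_combination (((P : ℚ) + 1) ^ (a + 1) * ((P : ℚ) + 1) ^ (b + 1)) * h1
        · simp only [if_neg hM, add_zero]
          have h2 : ∀ u v : List ℕ, stf (fun _ => (0 : ℚ)) u v = 0 :=
            fun u v => stf_zero _ u v (fun _ _ => rfl)
          simp only [h2, add_zero]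
          exact h1

end MP154526.Lin
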