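import Pool.Agent.Lib.MP_154526_nt.Lin.Harm1
import Pool.Agent.Lib.MP_154526_nt.Top.FrontA

/-!
# The shuffle product on nested harmonic sums: convolution formulas

`ser w` is the power series of the polylogarithm of the word `w`, `hb w N` the sum of its
coefficients up to `N`; `hb (bw l) N = win l 0 N`.
-/

set_option autoImplicit false

namespace MP154526.Lin

open Finset MP154526.Top MP154526.Top.Pass2

open PowerSeries (coeff coeff_mk coeff_mul)

/-- the power series of a word -/
noncomputable def ser : List Bool → PowerSeries ℚ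
  | [] => 1
  | false :: w => PowerSeries.mk fun n => coeff n (ser w) / (n : ℚ)
  | true :: w => PowerSeries.mk fun n => (∑ i ∈ range n, coeff i (ser w)) / (n : ℚ)

theorem ser_nil : ser [] = 1 := by rw [ser]

theorem coeff_ser_x (w : List Bool) (n : ℕ) :
    coeff n (ser (false :: w)) = coeff n (ser w) / (n : ℚ) := by
  rw [ser, coeff_mk]

theorem coeff_ser_y (w : List Bool) (n : ℕ) :
    coeff n (ser (true :: w)) = (∑ i ∈ range n, coeff i (ser w)) / (n : ℚ) := by
  rw [ser, coeff_mk]

theorem coeff_zero_ser {w : List Bool} (hw : w ≠ []) : coeff 0 (ser w) = 0 := by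
  cases w with
  | nil => exact absurd rfl hw
  | cons g w =>
    cases g
    · rw [coeff_ser_x]; simp
    · rw [coeff_ser_y]; simp

/-- `z d/dz` -/
noncomputable def DD : PowerSeries ℚ →+ PowerSeries ℚ where
  toFun f := PowerSeries.mk fun n => (n : ℚ) * coeff n f
  map_zero' := by ext n; simp
  map_add' f g := by ext n; simp [mul_add]

theorem coeff_DD (f : PowerSeries ℚ) (n : ℕ) : coeff n (DD f) = (n : ℚ) * coeff n f := by
  show coeff n (PowerSeries.mk fun n => (n : ℚ) * coeff n f) = _
  rw [coeff_mk]

theorem DD_mul (f g : PowerSeries ℚ) : DD (f * g) = DD f * g + f * DD g := by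
  ext n
  rw [coeff_DD, map_add, coeff_mul, coeff_mul, coeff_mul, mul_sum, ← sum_add_distrib]
  refine sum_congr rfl fun p hp => ?_
  rw [HasAntidiagonal.mem_antidiagonal] at hp
  rw [coeff_DD, coeff_DD, ← hp]
  push_cast
  ring

theorem DD_inj {f g : PowerSeries ℚ} (h0 : coeff 0 f = coeff 0 g) (h : DD f = DD g) : f = g := by
  ext n
  rcases Nat.eq_zero_or_pos n with rfl | hn
  · exact h0
  · have := congrArg (coeff n) h
    rw [coeff_DD, coeff_DD] at this
    have hn' : (n : ℚ) ≠ 0 := by exact_mod_cast hn.ne'
    exact mul_left_cancel₀ hn' this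

/-- `z / (1 - z)` -/
noncomputable def tt : PowerSeries ℚ := PowerSeries.mk fun n => if n = 0 then 0 else 1

theorem coeff_tt_mul (f : PowerSeries ℚ) (n : ℕ) :
    coeff n (tt * f) = ∑ i ∈ range n, coeff i f := by
  rw [mul_comm, coeff_mul, Nat.sum_antidiagonal_eq_sum_range_succ (fun i j => coeff i f * coeff j tt),
    Nat.succ_eq_add_one, sum_range_succ]
  have h1 : coeff (n - n) tt = 0 := by rw [tt, coeff_mk, if_pos (by omega)]
  rw [h1, mul_zero, add_zero]
  refine sum_congr rfl fun i hi => ?_
  have := mem_range.mp hi
  rw [tt, coeff_mk, if_neg (by omega), mul_one]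

theorem DD_ser_y (w : List Bool) : DD (ser (true :: w)) = tt * ser w := by
  ext n
  rw [coeff_DD, coeff_ser_y, coeff_tt_mul]
  rcases Nat.eq_zero_or_pos n with rfl | hn
  · simp
  · have hn' : (n : ℚ) ≠ 0 := by exact_mod_cast hn.ne'
    field_simp

theorem DD_ser_x {w : List Bool} (hw : w ≠ []) : DD (ser (false :: w)) = ser w := by
  ext n
  rw [coeff_DD, coeff_ser_x]
  rcases Nat.eq_zero_or_pos n with rfl | hn
  · rw [coeff_zero_ser hw]; simp
  · have hn' : (n : ℚ) ≠ 0 := by exact_mod_cast hn.ne'
    field_simp

/-- the differential equation -/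
noncomputable def th (g : Bool) : PowerSeries ℚ := if g then tt else 1

theorem DD_ser (g : Bool) {w : List Bool} (h : g = true ∨ w ≠ []) :
    DD (ser (g :: w)) = th g * ser w := by
  cases g
  · rcases h with h | h
    · cases h
    · rw [DD_ser_x h]; simp [th]
  · rw [DD_ser_y]; simp [th]

theorem endY_false {u : List Bool} (h : EndY (false :: u)) : u ≠ [] := by
  rintro rfl
  rcases h with h | ⟨v, h⟩
  · simp at h
  · cases v with
    | nil => simp at h
    | cons a v => simp at h

theorem ser_shs (u v : List Bool) : EndY u → EndY v → shs ser u v = ser u * ser v := by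
  induction u, v using shs_induct with
  | h0 W => intro _ _; simp [ser_nil]
  | h1 a σ => intro _ _; simp [ser_nil]
  | h2 a σ c W ha hb =>
    intro hu hv
    have hσ := Front.endY_tail a σ hu
    have hW := Front.endY_tail c W hv
    have e1 := ha hσ hv
    have e2 := hb hu hW
    rw [shs_cons_cons]
    apply DD_inj
    · rw [coeff_mul]
      have h1 : ∀ (g : Bool) (σ W : List Bool),
          coeff 0 (shs (fun l => ser (g :: l)) σ W) = 0 := by
        intro g σ W
        have h2 := shs_map (coeff (R := ℚ) 0).toAddMonoidHom (fun l => ser (g :: l)) σ W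
        have h3 : (fun l : List Bool => (coeff (R := ℚ) 0).toAddMonoidHom (ser (g :: l))) =
            fun _ => 0 := by
          funext l
          exact coeff_zero_ser (by simp)
        rw [h3, shs_zero] at h2
        exact h2
      rw [map_add, h1, h1]
      simp [coeff_zero_ser]
    · rw [map_add, DD_mul]
      have h1 : ∀ (g : Bool) (σ W : List Bool), (g = true ∨ 1 ≤ σ.length + W.length) →
          DD (shs (fun l => ser (g :: l)) σ W) = th g * shs ser σ W := by
        intro g σ W hg
        rw [shs_map DD]
        have h2 := shs_map (AddMonoidHom.mulLeft (th g)) ser σ W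
        simp only [AddMonoidHom.coe_mulLeft] at h2
        rw [h2]
        apply shs_congr_len
        intro l hl
        apply DD_ser
        rcases hg with hg | hg
        · exact Or.inl hg
        · right
          rintro rfl
          simp at hl
          omega
      rw [h1 a σ (c :: W) (Or.inr (by simp only [List.length_cons]; omega)),
        h1 c (a :: σ) W (Or.inr (by simp only [List.length_cons]; omega)), e1, e2,
        DD_ser a (w := σ) ?_, DD_ser c (w := W) ?_]
      · ring
      · cases c
        · exact Or.inr (endY_false hv)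
        · exact Or.inl rfl
      · cases a
        · exact Or.inr (endY_false hu)
        · exact Or.inl rfl

/-- partial sums of the coefficients -/
noncomputable def hb (w : List Bool) (N : ℕ) : ℚ := ∑ n ∈ range (N + 1), coeff n (ser w)

theorem coeff_ser_bw (a : ℕ) (l : List ℕ) (n : ℕ) :
    coeff n (ser (bw (a :: l))) = (∑ i ∈ range n, coeff i (ser (bw l))) / (n : ℚ) ^ (a + 1) := by
  induction a with
  | zero => rw [bw, List.replicate_zero, List.nil_append, coeff_ser_y, zero_add, pow_one]
  | succ a ih =>
    rw [bw, List.replicate_succ, List.cons_append, coeff_ser_x]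
    rw [bw] at ih
    rw [ih, div_div, ← pow_succ]

theorem win_eq_hb (l : List ℕ) (N : ℕ) : win l 0 N = hb (bw l) N := by
  induction N generalizing l with
  | zero =>
    cases l with
    | nil => simp [hb, bw, ser_nil]
    | cons a l => rw [win_cons_zero, hb, sum_range_one, coeff_ser_bw]; simp
  | succ N ih =>
    cases l with
    | nil =>
      rw [win_nil, hb, bw, ser_nil, sum_range_succ']
      simp [PowerSeries.coeff_one]
    | cons a l =>
      rw [win_cons_succ, if_pos (Nat.zero_le _), ih, ih, hb, hb, hb, sum_range_succ _ (N + 1),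
        coeff_ser_bw]
      push_cast
      rfl

/-- the convolution formula for the shuffle product -/
theorem hb_shs {c v : List Bool} (hc : EndY c) (hv : EndY v) (P : ℕ) :
    shs (fun w => hb w P) c v =
      ∑ M ∈ range (P + 1), coeff (P - M) (ser c) * hb v M := by
  have h1 : ∀ (f : PowerSeries ℚ) (N : ℕ),
      coeff N (f * PowerSeries.mk fun _ => 1) = ∑ n ∈ range (N + 1), coeff n f := by
    intro f N
    rw [coeff_mul, Nat.sum_antidiagonal_eq_sum_range_succ
      (fun i j => coeff i f * coeff j (PowerSeries.mk fun _ => (1 : ℚ)))]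
    simp
  set φ : PowerSeries ℚ →+ ℚ :=
    (coeff (R := ℚ) P).toAddMonoidHom.comp (AddMonoidHom.mulRight (PowerSeries.mk fun _ => (1 : ℚ)))
    with hφ
  have h2 := shs_map φ ser c v
  rw [ser_shs c v hc hv] at h2
  have h3 : (fun l => φ (ser l)) = fun w => hb w P := by
    funext w
    rw [hb, ← h1]
    rfl
  rw [h3] at h2
  rw [← h2]
  show coeff P ((ser c * ser v) * PowerSeries.mk fun _ => (1 : ℚ)) = _
  rw [mul_assoc, mul_comm, coeff_mul, Nat.sum_antidiagonal_eq_sum_range_succ
    (fun i j => coeff i (ser v * PowerSeries.mk fun _ => (1 : ℚ)) * coeff j (ser c))]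
  refine sum_congr rfl fun M _ => ?_
  rw [h1, hb, mul_comm]

theorem ker_y (n : ℕ) : coeff n (ser [true]) = if n = 0 then 0 else 1 / (n : ℚ) := by
  rw [coeff_ser_y, ser_nil]
  cases n with
  | zero => simp
  | succ n => rw [sum_range_succ']; simp [PowerSeries.coeff_one]

theorem ker_z (n : ℕ) : coeff n (ser [false, true]) = if n = 0 then 0 else 1 / (n : ℚ) ^ 2 := by
  rw [coeff_ser_x, ker_y]
  cases n with
  | zero => simp
  | succ n => rw [if_neg (by omega), if_neg (by omega), div_div, sq]

theorem ker_yy (n : ℕ) : coeff n (ser [true, true]) =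
    (∑ i ∈ range n, if i = 0 then 0 else 1 / (i : ℚ)) / (n : ℚ) := by
  rw [coeff_ser_y]
  congr 1
  exact sum_congr rfl fun i _ => ker_y i

end MP154526.Lin
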