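import Pool.Agent.Lib.MP_154526_nt.Lin.Basic
import Pool.Agent.Lib.MP_154526_nt.Lin.VK

/-!
# INSB, part 1: the shuffle ring of formal series of words and its action on functionals
-/

set_option autoImplicit false

namespace MP154526.Lin.InsB

open Finset MP154526.Top MP154526.Top.Front MP154526.Top.Pass2

/-! ### sums over the words of a given length -/

/-- sum over the words of length `n` -/
def SS : ℕ → (List Bool → ℤ) → ℤ
  | 0, F => F []
  | n + 1, F => SS n (fun w => F (false :: w)) + SS n (fun w => F (true :: w))

theorem SS_zero (F : List Bool → ℤ) : SS 0 F = F [] := rfl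

theorem SS_succ (n : ℕ) (F : List Bool → ℤ) :
    SS (n + 1) F = SS n (fun w => F (false :: w)) + SS n (fun w => F (true :: w)) := rfl

theorem SS_add (n : ℕ) (F G : List Bool → ℤ) : SS n (fun w => F w + G w) = SS n F + SS n G := by
  induction n generalizing F G with
  | zero => rfl
  | succ n ih => rw [SS_succ, SS_succ, SS_succ, ih, ih]; ring

theorem SS_mul (n : ℕ) (c : ℤ) (F : List Bool → ℤ) : SS n (fun w => c * F w) = c * SS n F := by
  induction n generalizing F with
  | zero => rfl
  | succ n ih => rw [SS_succ, SS_succ, ih, ih]; ring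

theorem SS_mul' (n : ℕ) (c : ℤ) (F : List Bool → ℤ) : SS n (fun w => F w * c) = SS n F * c := by
  rw [mul_comm, ← SS_mul]
  simp only [mul_comm]

theorem SS_congr (n : ℕ) (F G : List Bool → ℤ) (h : ∀ w, w.length = n → F w = G w) :
    SS n F = SS n G := by
  induction n generalizing F G with
  | zero => exact h [] rfl
  | succ n ih =>
    rw [SS_succ, SS_succ, ih _ _ fun w hw => h (false :: w) (by simp [hw]),
      ih _ _ fun w hw => h (true :: w) (by simp [hw])]

theorem SS_const_zero (n : ℕ) : SS n (fun _ => 0) = 0 := by
  have := SS_mul n 0 (fun _ => 0)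
  simpa using this

theorem SS_eq_zero (n : ℕ) (F : List Bool → ℤ) (h : ∀ w, w.length = n → F w = 0) :
    SS n F = 0 := by
  rw [SS_congr n F (fun _ => 0) h, SS_const_zero]

theorem SS_sum {ι : Type} (n : ℕ) (s : Finset ι) (F : ι → List Bool → ℤ) :
    SS n (fun w => ∑ i ∈ s, F i w) = ∑ i ∈ s, SS n (F i) := by
  classical
  induction s using Finset.induction_on with
  | empty => simpa using SS_const_zero n
  | insert i s hi ih =>
    rw [Finset.sum_insert hi, ← ih, ← SS_add]
    congr 1
    funext w
    rw [Finset.sum_insert hi]

theorem SS_single (w : List Bool) (F : List Bool → ℤ) :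
    SS w.length (fun u => (if u = w then 1 else 0) * F u) = F w := by
  induction w generalizing F with
  | nil => simp [SS_zero]
  | cons a w ih =>
    rw [List.length_cons, SS_succ]
    cases a with
    | false =>
      have e : SS w.length (fun u => (if true :: u = false :: w then (1 : ℤ) else 0) *
          F (true :: u)) = 0 := SS_eq_zero _ _ fun u _ => by simp
      rw [e, add_zero, ← ih (fun u => F (false :: u))]
      congr 1
      funext u
      simp
    | true =>
      have e : SS w.length (fun u => (if false :: u = true :: w then (1 : ℤ) else 0) *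
          F (false :: u)) = 0 := SS_eq_zero _ _ fun u _ => by simp
      rw [e, zero_add, ← ih (fun u => F (true :: u))]
      congr 1
      funext u
      simp

theorem SS_shs (n : ℕ) (G : List Bool → List Bool → ℤ) (u v : List Bool) :
    SS n (fun w => shs (G w) u v) = shs (fun t => SS n (fun w => G w t)) u v := by
  induction n generalizing G with
  | zero => rfl
  | succ n ih => rw [SS_succ, ih, ih, ← shs_add]; rfl

/-! ### the shuffle ring -/

section
variable {R : Type} [CommRing R]

theorem mulc_assoc (a b c : List Bool → R) (w : List Bool) :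
    mulc (mulc a b) c w = mulc a (mulc b c) w := by
  induction w generalizing a b c with
  | nil => simp only [mulc]; ring
  | cons g w ih =>
    rw [mulc_cons, mulc_cons]
    have e1 : (fun v => mulc a b (g :: v)) =
        fun v => mulc (fun t => a (g :: t)) b v + mulc a (fun t => b (g :: t)) v := rfl
    have e2 : (fun v => mulc b c (g :: v)) =
        fun v => mulc (fun t => b (g :: t)) c v + mulc b (fun t => c (g :: t)) v := rfl
    rw [e1, e2, mulc_add_left, mulc_add_right, ih, ih, ih, add_assoc]

theorem mulc_one (a : List Bool → R) (w : List Bool) :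
    mulc (fun u => if u = [] then 1 else 0) a w = a w := by
  induction w generalizing a with
  | nil => simp [mulc]
  | cons g w ih =>
    rw [mulc_cons, ih]
    have e : (fun v : List Bool => if g :: v = [] then (1 : R) else 0) = fun v => 0 * 0 := by
      funext v
      simp
    rw [e, mulc_mul_left, zero_mul, zero_add]

end

/-- formal integral series of words, with the shuffle product -/
def Sr : Type := List Bool → ℤ

instance : AddCommGroup Sr := inferInstanceAs (AddCommGroup (List Bool → ℤ))

instance : CommRing Sr where
  __ := (inferInstance : AddCommGroup Sr)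
  mul a b := mulc a b
  one := fun u => if u = [] then 1 else 0
  left_distrib a b c := funext fun w => mulc_add_right a b c w
  right_distrib a b c := funext fun w => mulc_add_left a b c w
  zero_mul a := funext fun w => by
    have h := mulc_mul_left (0 : ℤ) (fun _ => 0) a w
    simp only [zero_mul] at h
    exact h
  mul_zero a := funext fun w => by
    have h := mulc_mul_right (0 : ℤ) a (fun _ => 0) w
    simp only [zero_mul] at h
    exact h
  mul_assoc a b c := funext fun w => mulc_assoc a b c w
  one_mul a := funext fun w => mulc_one a w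
  mul_one a := funext fun w => by
    show mulc a (fun u => if u = [] then 1 else 0) w = a w
    rw [mulc_comm, mulc_one]
  mul_comm a b := funext fun w => mulc_comm a b w

theorem Sr.mul_apply (a b : Sr) (w : List Bool) : (a * b) w = mulc a b w := rfl

theorem Sr.add_apply (a b : Sr) (w : List Bool) : (a + b) w = a w + b w := rfl

theorem Sr.zero_apply (w : List Bool) : (0 : Sr) w = 0 := rfl

theorem Sr.neg_apply (a : Sr) (w : List Bool) : (-a) w = -(a w) := rfl

theorem Sr.one_apply (w : List Bool) : (1 : Sr) w = if w = [] then 1 else 0 := rfl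

theorem Sr.nsmul_apply (k : ℕ) (a : Sr) (w : List Bool) : (k • a) w = k * a w := by
  induction k with
  | zero => simp [Sr.zero_apply]
  | succ k ih => rw [succ_nsmul, Sr.add_apply, ih]; push_cast; ring

theorem Sr.natCast_mul_apply (k : ℕ) (a : Sr) (w : List Bool) :
    ((k : Sr) * a) w = k * a w := by
  rw [← nsmul_eq_mul, Sr.nsmul_apply]

theorem Sr.sum_apply {ι : Type} (s : Finset ι) (F : ι → Sr) (w : List Bool) :
    (∑ i ∈ s, F i) w = ∑ i ∈ s, F i w := by
  classical
  induction s using Finset.induction_on with
  | empty => simp [Sr.zero_apply]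
  | insert i s hi ih => rw [Finset.sum_insert hi, Finset.sum_insert hi, Sr.add_apply, ih]

@[ext] theorem Sr.ext' {a b : Sr} (h : ∀ w, a w = b w) : a = b := funext h

/-! ### the action -/

/-- the part of the double sum in lengths `i`, `j` -/
def DD (i j : ℕ) (F : List Bool → ℤ) (P Q : List Bool → ℤ) : ℤ :=
  SS i (fun u => SS j (fun v => P u * Q v * shs F u v))

theorem DD_succ_zero (i : ℕ) (F P Q : List Bool → ℤ) :
    DD (i + 1) 0 F P Q =
      DD i 0 (fun w => F (false :: w)) (fun w => P (false :: w)) Q +
        DD i 0 (fun w => F (true :: w)) (fun w => P (true :: w)) Q := by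
  simp only [DD, SS_zero, shs_nil_right, SS_succ]

theorem DD_zero_succ (j : ℕ) (F P Q : List Bool → ℤ) :
    DD 0 (j + 1) F P Q =
      DD 0 j (fun w => F (false :: w)) P (fun w => Q (false :: w)) +
        DD 0 j (fun w => F (true :: w)) P (fun w => Q (true :: w)) := by
  simp only [DD, SS_zero, shs_nil_left, SS_succ]

theorem DD_inner (j : ℕ) (F Q : List Bool → ℤ) (p : ℤ) (g : Bool) (u : List Bool) :
    SS (j + 1) (fun v => p * Q v * shs F (g :: u) v) =
      SS (j + 1) (fun v => p * Q v * shs (fun w => F (g :: w)) u v) +
        (SS j (fun v => p * Q (false :: v) * shs (fun w => F (false :: w)) (g :: u) v) +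
          SS j (fun v => p * Q (true :: v) * shs (fun w => F (true :: w)) (g :: u) v)) := by
  rw [SS_succ, SS_succ]
  simp only [shs_cons_cons, mul_add]
  rw [SS_add, SS_add]
  ring

theorem DD_succ_succ (i j : ℕ) (F P Q : List Bool → ℤ) :
    DD (i + 1) (j + 1) F P Q =
      (DD i (j + 1) (fun w => F (false :: w)) (fun w => P (false :: w)) Q +
        DD i (j + 1) (fun w => F (true :: w)) (fun w => P (true :: w)) Q) +
      (DD (i + 1) j (fun w => F (false :: w)) P (fun w => Q (false :: w)) +
        DD (i + 1) j (fun w => F (true :: w)) P (fun w => Q (true :: w))) := by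
  simp only [DD]
  rw [SS_succ]
  simp only [DD_inner]
  rw [SS_add, SS_add, SS_add, SS_add, SS_succ, SS_succ]
  ring

/-- the shuffle product of series is dual to the shuffle sums of functionals -/
theorem dual (n : ℕ) (F P Q : List Bool → ℤ) :
    ∑ p ∈ antidiagonal n, DD p.1 p.2 F P Q = SS n (fun w => mulc P Q w * F w) := by
  induction n generalizing F P Q with
  | zero => simp [DD, SS_zero, mulc]
  | succ n ih =>
    have key : ∑ p ∈ antidiagonal (n + 1), DD p.1 p.2 F P Q =
        ∑ p ∈ antidiagonal n, (DD p.1 p.2 (fun w => F (false :: w)) (fun w => P (false :: w)) Q +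
          DD p.1 p.2 (fun w => F (true :: w)) (fun w => P (true :: w)) Q) +
        ∑ p ∈ antidiagonal n, (DD p.1 p.2 (fun w => F (false :: w)) P (fun w => Q (false :: w)) +
          DD p.1 p.2 (fun w => F (true :: w)) P (fun w => Q (true :: w))) := by
      cases n with
      | zero =>
        simp [Nat.antidiagonal_succ, DD_zero_succ, DD_succ_zero]
        ring
      | succ n =>
        rw [Nat.sum_antidiagonal_succ, Nat.sum_antidiagonal_succ',
          Nat.sum_antidiagonal_succ' (n := n), Nat.sum_antidiagonal_succ (n := n)]
        simp only [DD_zero_succ, DD_succ_zero, DD_succ_succ]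
        rw [sum_add_distrib]
        ring
    rw [key]
    simp only [sum_add_distrib, ih]
    rw [SS_succ]
    simp only [mulc_cons, add_mul]
    rw [SS_add, SS_add]
    ring

/-- the action of a series on a functional, part of degree `j` -/
def pa (P : Sr) (ψ : List Bool → ℤ) (j : ℕ) (v : List Bool) : ℤ :=
  SS j (fun u => P u * shs ψ u v)

theorem pa_add (P Q : Sr) (ψ : List Bool → ℤ) (j : ℕ) (v : List Bool) :
    pa (P + Q) ψ j v = pa P ψ j v + pa Q ψ j v := by
  unfold pa
  rw [← SS_add]
  congr 1
  funext u
  rw [Sr.add_apply, add_mul]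

theorem pa_natCast_mul (k : ℕ) (P : Sr) (ψ : List Bool → ℤ) (j : ℕ) (v : List Bool) :
    pa ((k : Sr) * P) ψ j v = k * pa P ψ j v := by
  unfold pa
  rw [← SS_mul]
  congr 1
  funext u
  rw [Sr.natCast_mul_apply, mul_assoc]

theorem pa_sum {ι : Type} (s : Finset ι) (F : ι → Sr) (ψ : List Bool → ℤ) (j : ℕ)
    (v : List Bool) : pa (∑ i ∈ s, F i) ψ j v = ∑ i ∈ s, pa (F i) ψ j v := by
  unfold pa
  rw [← SS_sum]
  congr 1
  funext u
  rw [Sr.sum_apply, Finset.sum_mul]

/-- series supported on the words of `ℌ¹` -/
def YS (P : Sr) : Prop := ∀ w, P (w ++ [false]) = 0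

theorem endY_or (w : List Bool) : EndY w ∨ ∃ u, w = u ++ [false] := by
  rcases List.eq_nil_or_concat w with rfl | ⟨u, a, rfl⟩
  · exact Or.inl (Or.inl rfl)
  · cases a with
    | true => exact Or.inl (Or.inr ⟨u, List.concat_eq_append⟩)
    | false => exact Or.inr ⟨u, List.concat_eq_append⟩

theorem ys_mulc (w : List Bool) : ∀ P Q : List Bool → ℤ, (∀ w, P (w ++ [false]) = 0) →
    (∀ w, Q (w ++ [false]) = 0) → mulc P Q (w ++ [false]) = 0 := by
  induction w with
  | nil =>
    intro P Q hP hQ
    have h1 := hP []
    have h2 := hQ []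
    simp only [List.nil_append] at h1 h2 ⊢
    simp only [mulc, h1, h2]
    ring
  | cons g w ih =>
    intro P Q hP hQ
    rw [List.cons_append, mulc_cons, ih _ _ (fun t => hP (g :: t)) hQ,
      ih _ _ hP (fun t => hQ (g :: t)), add_zero]

theorem YS.mul {P Q : Sr} (hP : YS P) (hQ : YS Q) : YS (P * Q) :=
  fun w => ys_mulc w P Q hP hQ

theorem YS.one : YS 1 := by
  intro w
  rw [Sr.one_apply]
  simp

theorem YS.add {P Q : Sr} (hP : YS P) (hQ : YS Q) : YS (P + Q) := by
  intro w
  rw [Sr.add_apply, hP, hQ, add_zero]

theorem YS.pow {P : Sr} (hP : YS P) (k : ℕ) : YS (P ^ k) := by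
  induction k with
  | zero => rw [pow_zero]; exact YS.one
  | succ k ih => rw [pow_succ]; exact ih.mul hP

theorem YS.natCast_mul {P : Sr} (hP : YS P) (k : ℕ) : YS ((k : Sr) * P) := by
  intro w
  rw [Sr.natCast_mul_apply, hP, mul_zero]

/-- equality as operators on the functionals killing all relations -/
def Eqv (P Q : Sr) : Prop :=
  ∀ (n : ℕ) (ψ : List Bool → ℤ), RR n ψ → ∀ (j : ℕ) (v : List Bool), EndY v →
    j + v.length = n → pa P ψ j v = pa Q ψ j v

theorem pa_mul (R P : Sr) (ψ : List Bool → ℤ) (j : ℕ) (v : List Bool) :
    pa (R * P) ψ j v = ∑ p ∈ antidiagonal j,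
      SS p.1 (fun u => R u * shs (fun t => pa P ψ p.2 t) u v) := by
  unfold pa
  have h := dual j (fun s => shs ψ s v) R P
  have e : (fun u => (R * P) u * shs ψ u v) = fun u => mulc R P u * shs ψ u v := rfl
  rw [e, ← h]
  refine Finset.sum_congr rfl fun p _ => ?_
  unfold DD
  congr 1
  funext u
  have e2 : ∀ u', R u * P u' * shs (fun s => shs ψ s v) u u' =
      R u * shs (fun t => P u' * shs ψ u' t) u v := by
    intro u'
    rw [shs_comm, Pass1.shs_assoc, mul_assoc]
    congr 1
    exact shs_map (AddMonoidHom.mulLeft (P u')) (fun t => shs ψ u' t) u v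
  simp only [e2]
  rw [SS_mul, SS_shs]

theorem Eqv.mul_left {P Q : Sr} (h : Eqv P Q) {R : Sr} (hR : YS R) : Eqv (R * P) (R * Q) := by
  intro n ψ hψ j v hv hn
  rw [pa_mul, pa_mul]
  refine Finset.sum_congr rfl fun p hp => ?_
  rw [HasAntidiagonal.mem_antidiagonal] at hp
  refine SS_congr _ _ _ fun u hu => ?_
  rcases endY_or u with hE | ⟨u', rfl⟩
  · congr 1
    refine shs_congr_endY _ _ hE hv fun l hl hl' => ?_
    exact h n ψ hψ p.2 l hl (by omega)
  · rw [hR u', zero_mul, zero_mul]

theorem Eqv.trans {P Q R : Sr} (h : Eqv P Q) (h' : Eqv Q R) : Eqv P R :=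
  fun n ψ hψ j v hv hn => (h n ψ hψ j v hv hn).trans (h' n ψ hψ j v hv hn)

theorem Eqv.pow {P Q : Sr} (h : Eqv P Q) (hP : YS P) (hQ : YS Q) (k : ℕ) :
    Eqv (P ^ k) (Q ^ k) := by
  induction k with
  | zero => rw [pow_zero, pow_zero]; exact fun n ψ hψ j v hv hn => rfl
  | succ k ih =>
    have h1 : Eqv (P ^ (k + 1)) (P * Q ^ k) := by
      rw [pow_succ']
      exact ih.mul_left hP
    have h2 : Eqv (P * Q ^ k) (Q ^ (k + 1)) := by
      rw [mul_comm, pow_succ]
      exact h.mul_left (hQ.pow k)
    exact h1.trans h2

/-- it suffices to test on words of `ℌ⁰` -/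
theorem eqv_of_ad {P Q : Sr} (hP : YS P) (hQ : YS Q)
    (h : ∀ (n : ℕ) (ψ : List Bool → ℤ), RR n ψ → ∀ (j : ℕ) (v : List ℕ), Ad v →
      j + wt v = n → pa P ψ j (bw v) = pa Q ψ j (bw v)) : Eqv P Q := by
  intro n ψ hψ j v hv hn
  set χ : List Bool → ℤ := fun v => pa P ψ j v - pa Q ψ j v with hχ
  have hχ' : ∀ v, χ v = SS j (fun u => (P u - Q u) * shs ψ u v) := by
    intro v
    rw [hχ]
    unfold pa
    have e : (fun u => (P u - Q u) * shs ψ u v) =
        fun u => P u * shs ψ u v + (-1) * (Q u * shs ψ u v) := by
      funext u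
      ring
    rw [e, SS_add, SS_mul]
    ring
  have hreg : ∀ i w, 1 ≤ i → EndY w → j + (i + w.length) = n →
      shs χ (List.replicate i true) w = 0 := by
    intro i w hi hw hn
    have e1 : χ = fun v => SS j (fun u => (P u - Q u) * shs ψ u v) := funext hχ'
    rw [e1, ← SS_shs]
    refine SS_eq_zero _ _ fun u hu => ?_
    rcases endY_or u with hE | ⟨u', rfl⟩
    · have e2 : shs (fun t => (P u - Q u) * shs ψ u t) (List.replicate i true) w =
          (P u - Q u) * shs (fun t => shs ψ u t) (List.replicate i true) w :=
        (shs_map (AddMonoidHom.mulLeft (P u - Q u)) (fun t => shs ψ u t) _ _).symm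
      rw [e2, ← Pass1.shs_assoc, shs_comm, hψ.reg' i u w hi hE hw (by omega), mul_zero]
    · rw [hP u', hQ u', sub_zero]
      simp only [zero_mul]
      exact shs_zero _ _
  have main : ∀ (i : ℕ) (w : List Bool), EndY (List.replicate i true ++ false :: w) →
      j + (List.replicate i true ++ false :: w).length = n →
      χ (List.replicate i true ++ false :: w) = 0 := by
    intro i
    induction i with
    | zero =>
      intro w hE hn
      simp only [List.replicate_zero, List.nil_append] at hE hn ⊢
      obtain ⟨l, hl⟩ := exists_bw hE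
      have hAd : Ad l := by
        cases l with
        | nil => exact ad_nil
        | cons a l =>
          cases a with
          | zero => simp [bw] at hl
          | succ a => exact ad_cons a l
      rw [← hl]
      rw [hχ]
      have := h n ψ hψ j l hAd (by rw [← Pass2.bw_length, hl]; exact hn)
      show pa P ψ j (bw l) - pa Q ψ j (bw l) = 0
      rw [this, sub_self]
    | succ i ih =>
      intro w hE hn
      have hE' : EndY (false :: w) := Pass1.endY_of_rep _ hE
      have hw : EndY w := Pass2.endY_tail _ _ hE'
      have hne : w ≠ [] := by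
        rintro rfl
        rw [Pass1.endY_iff] at hE'
        have := hE' false (by simp)
        simp at this
      have hE1 : EndY (List.replicate i true ++ false :: w) := Pass1.endY_rep hE' i
      simp only [List.length_append, List.length_replicate, List.length_cons] at hn
      have h1 := hreg 1 (List.replicate i true ++ false :: w) le_rfl hE1 (by
        simp only [List.length_append, List.length_replicate, List.length_cons]
        omega)
      rw [show List.replicate 1 true = [true] from rfl, Pass1.shs_true_rep_false] at h1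
      have h2 : shs (fun l => χ (List.replicate i true ++ false :: l)) [true] w = 0 := by
        have h3 : shs (fun _ : List Bool => (0 : ℤ)) [true] w = 0 := shs_zero _ _
        rw [← h3]
        refine shs_congr_endY _ _ Pass1.endY_true hw fun l hl hl' => ?_
        refine ih l ?_ ?_
        · refine Pass1.endY_rep ?_ i
          refine Pass2.endY_cons _ _ hl ?_
          rintro rfl
          simp at hl'
          omega
        · simp only [List.length_append, List.length_replicate, List.length_cons,
            List.length_nil] at hl' ⊢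
          omega
      rw [h2, add_zero] at h1
      exact Pass1.nsmul_int_eq_zero h1
  have fin : χ v = 0 := by
    rcases Pass1.word_cases v with ⟨m, rfl⟩ | ⟨m, w', rfl⟩
    · rcases Nat.eq_zero_or_pos m with rfl | hm
      · have := h n ψ hψ j [] ad_nil (by simpa using hn)
        show pa P ψ j _ - pa Q ψ j _ = 0
        rw [show List.replicate 0 true = bw [] from rfl, this, sub_self]
      · have := hreg m [] hm (Or.inl rfl) (by simpa using hn)
        simpa using this
    · exact main m w' hv hn
  exact sub_eq_zero.1 fin

end MP154526.Lin.InsB
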