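import Pool.Agent.Lib.MP_154526_nt.Lin.InsB1
import Mathlib.Combinatorics.Enumerative.Stirling

/-!
# INSB, part 2: the insertion element and its divided powers, the divided powers of `z_2`
-/

set_option autoImplicit false

namespace MP154526.Lin.InsB

open Finset MP154526.Top MP154526.Top.Front MP154526.Top.Pass2

/-! ### the series of a functional on words in `y`, `a` -/

/-- the value of the functional `c` on `u(x,y)·1` (`τ = 1`) -/
def ev : List Bool → (List Bool → ℤ) → ℤ
  | [], c => c []
  | false :: u, c => ev u (dT 1 c)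
  | true :: u, c => ev u (yT c)

theorem ev_add (u : List Bool) (c c' : List Bool → ℤ) :
    ev u (fun w => c w + c' w) = ev u c + ev u c' := by
  induction u generalizing c c' with
  | nil => rfl
  | cons g u ih =>
    cases g
    · simp only [ev]
      rw [← ih]
      congr 1
      funext w
      exact dT_add _ _ _ _
    · simp only [ev]
      rw [← ih]
      rfl

theorem ev_mul (u : List Bool) (r : ℤ) (c : List Bool → ℤ) :
    ev u (fun w => r * c w) = r * ev u c := by
  induction u generalizing c with
  | nil => rfl
  | cons g u ih =>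
    cases g
    · simp only [ev]
      rw [← ih]
      congr 1
      funext w
      exact dT_mul _ _ _ _
    · simp only [ev]
      rw [← ih]
      rfl

theorem ev_zero (u : List Bool) : ev u (fun _ => 0) = 0 := by
  have := ev_mul u 0 (fun _ => 0)
  simpa using this

theorem E_eq (n : ℕ) (ψ c : List Bool → ℤ) : E (1 : ℤ) n ψ c = SS n (fun u => ev u c * ψ u) := by
  induction n generalizing ψ c with
  | zero => simp only [E_zero', SS_zero, ev]; ring
  | succ n ih => rw [E_succ, SS_succ, ih, ih]; rfl

theorem ev_mulc (u : List Bool) (c₁ c₂ : List Bool → ℤ) :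
    ev u (mulc c₁ c₂) = mulc (fun v => ev v c₁) (fun v => ev v c₂) u := by
  induction u generalizing c₁ c₂ with
  | nil => simp only [ev, mulc]
  | cons g u ih =>
    cases g
    · rw [mulc_cons]
      simp only [ev]
      rw [← ih, ← ih, ← ev_add]
      congr 1
      funext w
      exact dT_mulc _ _ _ _
    · rw [mulc_cons]
      simp only [ev]
      rw [← ih, ← ih, ← ev_add]
      rfl

theorem ev_false (u : List Bool) (c : List Bool → ℤ) : ev (u ++ [false]) c = 0 := by
  induction u generalizing c with
  | nil => simp [ev]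
  | cons g u ih =>
    cases g
    · exact ih _
    · exact ih _

/-- the series of the divided powers of the insertion element -/
def CC (k : ℕ) : Sr := fun u => ev u (X 0 (List.replicate k 1))

theorem CC_ys (k : ℕ) : YS (CC k) := fun w => ev_false w _

theorem CC_mul (k : ℕ) : CC k * CC 1 = ((k + 1 : ℕ) : Sr) * CC (k + 1) := by
  ext w
  rw [Sr.natCast_mul_apply, Sr.mul_apply]
  show mulc (fun v => ev v (X 0 (List.replicate k 1))) (fun v => ev v (X 0 (List.replicate 1 1))) w
    = _
  rw [← ev_mulc]
  show _ = ((k + 1 : ℕ) : ℤ) * ev w (X 0 (List.replicate (k + 1) 1))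
  rw [← ev_mul]
  congr 1
  funext t
  rw [mulc_X, shs_rep_rep, add_zero, nsmul_eq_mul]
  congr 2
  rw [← Nat.choose_symm_of_eq_add (by omega : k + 1 = 1 + k), Nat.choose_one_right]

theorem CC_zero : CC 0 = 1 := by
  have h : ∀ g : Bool, ∀ u, ev (g :: u) (X 0 []) = 0 := by
    intro g u
    have e1 : ∀ w, dT 1 (X (0 : ℤ) []) w = 0 := by
      intro w
      cases w with
      | nil => rfl
      | cons a w =>
        have e : ∀ w, dT 1 (fun _ : List Bool => (0 : ℤ)) w = 0 := by
          intro w
          have := dT_mul (1 : ℤ) 0 (fun _ => 0) w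
          simpa using this
        cases a
        · rw [dT_false]
          simp only [X, zero_mul, zero_add]
          exact e w
        · rw [dT_true]
          simp only [X, mul_zero, zero_add]
          exact e w
    cases g
    · show ev u (dT 1 (X 0 [])) = 0
      rw [show dT 1 (X (0 : ℤ) []) = fun _ => 0 from funext e1, ev_zero]
    · show ev u (yT (X 0 [])) = 0
      have : yT (X (0 : ℤ) []) = fun _ => 0 := by
        funext w
        simp [yT, X]
      rw [this, ev_zero]
  ext w
  rw [Sr.one_apply]
  cases w with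
  | nil => simp [CC, ev, X]
  | cons g u =>
    rw [if_neg (by simp)]
    exact h g u

theorem CC_fact (k : ℕ) : ((k.factorial : ℕ) : Sr) * CC k = CC 1 ^ k := by
  induction k with
  | zero => rw [pow_zero, CC_zero]; simp
  | succ k ih =>
    rw [pow_succ, ← ih, mul_assoc, CC_mul, ← mul_assoc, Nat.factorial_succ]
    push_cast
    ring

/-! ### the divided powers of `z_2` -/

theorem zV_length (m : ℕ) : ∀ u ∈ zV m, u.length = 2 * m := by
  induction m with
  | zero => intro u hu; simp [zV] at hu; simp [hu]
  | succ m ih =>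
    intro u hu
    rw [zV] at hu
    obtain ⟨v, hv, hu⟩ := Multiset.mem_bind.1 hu
    have h := shs_mem' m v hv u hu ih
    exact h
where
  shs_mem' (m : ℕ) (v : List Bool) (hv : v ∈ zV m) (u : List Bool)
      (hu : u ∈ shs (fun w => ({false :: w} : Multiset (List Bool))) [true] v)
      (ih : ∀ u ∈ zV m, u.length = 2 * m) : u.length = 2 * (m + 1) := by
    have key : ∀ (p q : List Bool) (G : List Bool → Multiset (List Bool)) (N : ℕ),
        (∀ l, l.length = p.length + q.length → ∀ a ∈ G l, a.length = N) →
        ∀ a ∈ shs G p q, a.length = N := by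
      intro p q
      induction p, q using shs_induct with
      | h0 W =>
        intro G N h a ha
        rw [shs_nil_left] at ha
        exact h W (by simp) a ha
      | h1 a σ =>
        intro G N h b hb
        rw [shs_nil_right] at hb
        exact h _ (by simp) b hb
      | h2 a σ c W h1 h2 =>
        intro G N h b hb
        rw [shs_cons_cons] at hb
        rcases Multiset.mem_add.1 hb with hb | hb
        · refine h1 _ N (fun l hl x hx => h (a :: l) ?_ x hx) b hb
          simp only [List.length_cons] at hl ⊢
          omega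
        · refine h2 _ N (fun l hl x hx => h (c :: l) ?_ x hx) b hb
          simp only [List.length_cons] at hl ⊢
          omega
    refine key [true] v _ (2 * (m + 1)) (fun l hl a ha => ?_) u hu
    simp only [Multiset.mem_singleton] at ha
    subst ha
    have := ih v hv
    simp only [List.length_cons, List.length_nil] at hl ⊢
    omega

theorem SS_count (j : ℕ) (A : Multiset (List Bool)) (F : List Bool → ℤ) :
    (∀ u ∈ A, u.length = j) → SS j (fun u => (A.count u : ℤ) * F u) = (A.map F).sum := by
  induction A using Multiset.induction with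
  | empty =>
    intro _
    simp only [Multiset.count_zero, Nat.cast_zero, zero_mul, Multiset.map_zero, Multiset.sum_zero]
    exact SS_const_zero j
  | cons a A ih =>
    intro h
    rw [Multiset.map_cons, Multiset.sum_cons, ← ih fun u hu => h u (Multiset.mem_cons_of_mem hu)]
    have ha : a.length = j := h a (Multiset.mem_cons_self a A)
    rw [← SS_single a F, ha, ← SS_add]
    congr 1
    funext u
    rw [Multiset.count_cons]
    split_ifs <;> push_cast <;> ring

/-- `∑_m κ_m V_m`, `V_m` the divided shuffle powers of `z_2` -/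
def AA (κ : ℕ → ℤ) : Sr := fun w => κ (w.length / 2) * ((zV (w.length / 2)).count w : ℤ)

theorem SS_AA (κ : ℕ → ℤ) (j : ℕ) (F : List Bool → ℤ) :
    SS j (fun u => AA κ u * F u) = if j % 2 = 0 then κ (j / 2) * VK.Z (j / 2) F else 0 := by
  have e1 : SS j (fun u => AA κ u * F u) =
      SS j (fun u => κ (j / 2) * (((zV (j / 2)).count u : ℤ) * F u)) := by
    refine SS_congr _ _ _ fun u hu => ?_
    show κ (u.length / 2) * _ * F u = _
    rw [hu, mul_assoc]
  rw [e1, SS_mul]
  split_ifs with h
  · rw [SS_count]
    · rfl
    · intro u hu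
      rw [zV_length _ u hu]
      omega
  · rw [SS_eq_zero, mul_zero]
    intro u hu
    rw [Multiset.count_eq_zero_of_notMem, Nat.cast_zero, zero_mul]
    intro hu'
    have := zV_length _ u hu'
    omega

theorem pa_AA (κ : ℕ → ℤ) (ψ : List Bool → ℤ) (j : ℕ) (v : List Bool) :
    pa (AA κ) ψ j v = if j % 2 = 0 then κ (j / 2) * act (zV (j / 2)) ψ v else 0 := by
  unfold pa
  rw [SS_AA]
  rfl

theorem Sr.ext_SS {a b : Sr} (h : ∀ (n : ℕ) (F : List Bool → ℤ),
    SS n (fun u => a u * F u) = SS n (fun u => b u * F u)) : a = b := by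
  ext w
  have h1 := h w.length (fun u => if u = w then 1 else 0)
  have e : ∀ c : Sr, SS w.length (fun u => c u * (if u = w then 1 else 0)) = c w := by
    intro c
    rw [← SS_single w c]
    congr 1
    funext u
    ring
  rw [e, e] at h1
  exact h1

/-- `V_i ⧢ V_j = binom(i+j, i) V_{i+j}` -/
theorem Z_Z (i j : ℕ) : ∀ F : List Bool → ℤ,
    VK.Z i (fun u => VK.Z j (fun v => shs F u v)) = ((i + j).choose i : ℤ) * VK.Z (i + j) F := by
  induction i with
  | zero =>
    intro F
    rw [VK.Z_zero]
    simp
  | succ i ih =>
    intro F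
    have h1 := VK.key i (fun u => VK.Z j (fun v => shs F u v))
    have h2 : (fun u => shs (fun u => VK.Z j (fun v => shs F u v)) [false, true] u) =
        fun u => VK.Z j (fun v => shs (fun t => shs F [false, true] t) u v) := by
      funext u
      unfold VK.Z
      rw [shs_msum]
      congr 1
      refine Multiset.map_congr rfl fun v _ => ?_
      exact Pass1.shs_assoc F [false, true] u v
    rw [h2, ih, VK.key (i + j) F] at h1
    simp only [nsmul_eq_mul] at h1
    have h3 : ((i + j + 1).choose (i + 1) : ℤ) * (i + 1) = (i + j + 1) * (i + j).choose i := by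
      have := Nat.add_one_mul_choose_eq (i + j) i
      have h4 : (((i + j + 1) * (i + j).choose i : ℕ) : ℤ) =
          (((i + j + 1).choose (i + 1) * (i + 1) : ℕ) : ℤ) := by rw [this]
      push_cast at h4
      rw [← h4]
    have h4 : ((i : ℤ) + 1) ≠ 0 := by positivity
    apply mul_left_cancel₀ h4
    push_cast at h1
    rw [← h1, show i + 1 + j = i + j + 1 by ring, ← mul_assoc, ← mul_assoc,
      mul_comm ((i : ℤ) + 1), h3]
    ring

theorem sum_even (m : ℕ) (g : ℕ → ℤ) (h : ∀ k, k % 2 = 1 → g k = 0) :
    ∑ k ∈ range (2 * m + 1), g k = ∑ i ∈ range (m + 1), g (2 * i) := by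
  induction m with
  | zero => simp
  | succ m ih =>
    rw [show 2 * (m + 1) + 1 = 2 * m + 1 + 1 + 1 by ring, sum_range_succ, sum_range_succ, ih,
      sum_range_succ _ (m + 1), h (2 * m + 1) (by omega)]
    ring_nf

theorem AA_mul (κ κ' : ℕ → ℤ) : AA κ * AA κ' =
    AA (fun m => ∑ i ∈ range (m + 1), (m.choose i : ℤ) * κ i * κ' (m - i)) := by
  refine Sr.ext_SS fun n F => ?_
  rw [SS_AA]
  have h := dual n F (AA κ) (AA κ')
  have e : (fun u => (AA κ * AA κ') u * F u) = fun w => mulc (AA κ) (AA κ') w * F w := rfl
  rw [e, ← h]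
  have hD : ∀ p : ℕ × ℕ, DD p.1 p.2 F (AA κ) (AA κ') =
      if p.1 % 2 = 0 then if p.2 % 2 = 0 then
        κ (p.1 / 2) * κ' (p.2 / 2) * (((p.1 / 2 + p.2 / 2).choose (p.1 / 2) : ℤ) *
          VK.Z (p.1 / 2 + p.2 / 2) F) else 0 else 0 := by
    intro p
    unfold DD
    have e1 : ∀ u, SS p.2 (fun v => AA κ u * AA κ' v * shs F u v) =
        AA κ u * (if p.2 % 2 = 0 then κ' (p.2 / 2) * VK.Z (p.2 / 2) (fun v => shs F u v)
          else 0) := by
      intro u
      rw [← SS_AA, ← SS_mul]
      congr 1
      funext v
      ring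
    simp only [e1]
    rw [SS_AA]
    split_ifs with h1 h2
    · rw [← Z_Z]
      have e2 : VK.Z (p.1 / 2) (fun u => κ' (p.2 / 2) * VK.Z (p.2 / 2) (fun v => shs F u v)) =
          κ' (p.2 / 2) * VK.Z (p.1 / 2) (fun u => VK.Z (p.2 / 2) (fun v => shs F u v)) := by
        unfold VK.Z
        rw [Multiset.sum_map_mul_left]
      rw [e2]
      ring
    · unfold VK.Z
      simp
    · rfl
  simp only [hD]
  split_ifs with hn
  · obtain ⟨m, rfl⟩ : ∃ m, n = 2 * m := ⟨n / 2, by omega⟩
    rw [show 2 * m / 2 = m by omega, Finset.Nat.sum_antidiagonal_eq_sum_range_succ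
      (fun a b => if a % 2 = 0 then if b % 2 = 0 then
        κ (a / 2) * κ' (b / 2) * (((a / 2 + b / 2).choose (a / 2) : ℤ) *
          VK.Z (a / 2 + b / 2) F) else 0 else 0)]
    rw [Finset.sum_mul, sum_even]
    · refine Finset.sum_congr rfl fun i hi => ?_
      have hi' := Finset.mem_range.1 hi
      rw [if_pos (by omega), if_pos (by omega), show 2 * i / 2 = i by omega,
        show (2 * m - 2 * i) / 2 = m - i by omega, show i + (m - i) = m by omega]
      ring
    · intro k hk
      rw [if_neg (by omega)]
  · refine Finset.sum_eq_zero fun p hp => ?_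
    rw [HasAntidiagonal.mem_antidiagonal] at hp
    split_ifs <;> omega

end MP154526.Lin.InsB
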