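import Pool.Agent.Lib.MP_154526_nt.Lin.InsB4
import Mathlib.NumberTheory.Padics.PadicVal.Basic

/-!
# INSB, part 5: Stirling numbers, factorials, the insertion element
-/

set_option autoImplicit false

namespace MP154526.Lin.InsB

open Finset MP154526.Top MP154526.Top.Front MP154526.Top.Pass2

/-! ### Stirling numbers -/

theorem stir (m k : ℕ) : ∑ i ∈ range (m + 1), m.choose i * Nat.stirlingSecond i k =
    Nat.stirlingSecond (m + 1) (k + 1) := by
  induction m generalizing k with
  | zero =>
    cases k with
    | zero => simp [Nat.stirlingSecond]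
    | succ k => simp [Nat.stirlingSecond]
  | succ m ih =>
    have e1 : ∑ i ∈ range (m + 2), (m + 1).choose i * Nat.stirlingSecond i k =
        ∑ i ∈ range (m + 1), m.choose i * Nat.stirlingSecond i k +
          ∑ i ∈ range (m + 1), m.choose i * Nat.stirlingSecond (i + 1) k := by
      rw [sum_range_succ' _ (m + 1)]
      have e2 : ∑ i ∈ range (m + 1), (m + 1).choose (i + 1) * Nat.stirlingSecond (i + 1) k =
          ∑ i ∈ range (m + 1), m.choose (i + 1) * Nat.stirlingSecond (i + 1) k +
            ∑ i ∈ range (m + 1), m.choose i * Nat.stirlingSecond (i + 1) k := by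
        rw [← sum_add_distrib]
        refine sum_congr rfl fun i _ => ?_
        rw [Nat.choose_succ_succ]
        ring
      have e3 : ∑ i ∈ range (m + 1), m.choose i * Nat.stirlingSecond i k =
          ∑ i ∈ range (m + 1), m.choose (i + 1) * Nat.stirlingSecond (i + 1) k +
            m.choose 0 * Nat.stirlingSecond 0 k := by
        rw [← sum_range_succ' (fun i => m.choose i * Nat.stirlingSecond i k) (m + 1),
          sum_range_succ _ (m + 1)]
        simp
      rw [e2, e3, Nat.choose_zero_right, Nat.choose_zero_right]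
      ring
    rw [e1, ih]
    cases k with
    | zero =>
      have e4 : ∑ i ∈ range (m + 1), m.choose i * Nat.stirlingSecond (i + 1) 0 = 0 :=
        Finset.sum_eq_zero fun i _ => by simp [Nat.stirlingSecond]
      rw [e4, add_zero]
      simp [Nat.stirlingSecond]
    | succ k =>
      have e4 : ∑ i ∈ range (m + 1), m.choose i * Nat.stirlingSecond (i + 1) (k + 1) =
          (k + 1) * ∑ i ∈ range (m + 1), m.choose i * Nat.stirlingSecond i (k + 1) +
            ∑ i ∈ range (m + 1), m.choose i * Nat.stirlingSecond i k := by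
        rw [Finset.mul_sum, ← sum_add_distrib]
        refine sum_congr rfl fun i _ => ?_
        rw [Nat.stirlingSecond_succ_succ]
        ring
      rw [e4, ih, ih, Nat.stirlingSecond_succ_succ (m + 1) (k + 1)]
      ring

theorem stir2 (m k : ℕ) : ∑ i ∈ range m, m.choose i * Nat.stirlingSecond i k =
    (k + 1) * Nat.stirlingSecond m (k + 1) := by
  have h := stir m k
  rw [sum_range_succ, Nat.choose_self, one_mul, Nat.stirlingSecond_succ_succ] at h
  omega

/-- the coefficients -/
def kap (k m : ℕ) : ℤ := (Nat.stirlingSecond m k : ℤ)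

theorem AA_zero : AA (kap 0) = 1 := by
  refine Sr.ext_SS fun n F => ?_
  rw [SS_AA]
  have e1 : SS n (fun u => (1 : Sr) u * F u) = if n = 0 then F [] else 0 := by
    split_ifs with h
    · subst h
      rw [SS_zero, Sr.one_apply, if_pos rfl, one_mul]
    · refine SS_eq_zero _ _ fun u hu => ?_
      rw [Sr.one_apply, if_neg, zero_mul]
      rintro rfl
      exact h hu.symm
  rw [e1]
  rcases Nat.eq_zero_or_pos n with rfl | hn
  · rw [if_pos rfl, if_pos rfl, Nat.zero_div, VK.Z_zero]
    simp [kap]
  · rw [if_neg (show ¬ n = 0 by omega)]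
    split_ifs with h
    · obtain ⟨m, hm⟩ : ∃ m, n / 2 = m + 1 := ⟨n / 2 - 1, by omega⟩
      rw [hm]
      simp [kap]
    · rfl

theorem AA_step (k : ℕ) : AA (kap 1) * AA (kap k) = ((k + 1 : ℕ) : Sr) * AA (kap (k + 1)) := by
  rw [AA_mul]
  have e : (fun m => ∑ i ∈ range (m + 1), (m.choose i : ℤ) * kap 1 i * kap k (m - i)) =
      fun m => ((k + 1 : ℕ) : ℤ) * kap (k + 1) m := by
    funext m
    have h := stir2 m k
    have h1 : ∑ i ∈ range (m + 1), (m.choose i : ℤ) * kap 1 i * kap k (m - i) =
        ∑ i ∈ range (m + 1), (m.choose i : ℤ) * kap 1 (m - i) * kap k i := by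
      rw [← Finset.sum_range_reflect]
      refine Finset.sum_congr rfl fun i hi => ?_
      have hi' := Finset.mem_range.1 hi
      rw [show m + 1 - 1 - i = m - i by omega, show m - (m - i) = i by omega,
        Nat.choose_symm (by omega)]
    rw [h1, sum_range_succ, Nat.sub_self]
    have h2 : kap 1 0 = 0 := by simp [kap]
    rw [h2, mul_zero, zero_mul, add_zero]
    unfold kap
    rw [← Nat.cast_mul, ← h]
    push_cast
    refine Finset.sum_congr rfl fun i hi => ?_
    have hi' := Finset.mem_range.1 hi
    obtain ⟨t, ht⟩ : ∃ t, m - i = t + 1 := ⟨m - i - 1, by omega⟩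
    rw [ht]
    have h3 : Nat.stirlingSecond (t + 1) 1 = 1 := Nat.stirlingSecond_one_right t
    rw [h3]
    push_cast
    ring
  rw [e]
  ext w
  rw [Sr.natCast_mul_apply]
  show ((k + 1 : ℕ) : ℤ) * kap (k + 1) _ * _ = _
  rw [mul_assoc]
  rfl

theorem AA_pow (k : ℕ) : AA (kap 1) ^ k = ((k.factorial : ℕ) : Sr) * AA (kap k) := by
  induction k with
  | zero => rw [pow_zero, AA_zero]; simp
  | succ k ih =>
    rw [pow_succ', ih, mul_left_comm, AA_step, ← mul_assoc, Nat.factorial_succ]
    push_cast
    ring

theorem AA_ys (κ : ℕ → ℤ) : YS (AA κ) := by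
  intro w
  show κ _ * _ = 0
  rw [Multiset.count_eq_zero_of_notMem, Nat.cast_zero, mul_zero]
  intro h
  have hE := zV_endY _ _ h
  rw [Pass1.endY_iff] at hE
  have := hE false (by simp)
  simp at this

/-! ### factorials -/

theorem two_fact (k : ℕ) (Y : ℤ) (Z : ℕ → ℤ) (h : (k.factorial : ℤ) * Y =
    ∑ i ∈ range k, ((k.descFactorial i : ℕ) : ℤ) * 2 ^ (k - i) * Z i) : (2 : ℤ) ∣ Y := by
  by_cases hY : Y = 0
  · rw [hY]; exact dvd_zero 2
  have h1 : ∀ i ∈ range k, (2 : ℤ) ^ (padicValNat 2 k.factorial + 1) ∣
      ((k.descFactorial i : ℕ) : ℤ) * 2 ^ (k - i) * Z i := by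
    intro i hi
    have hi' := Finset.mem_range.1 hi
    apply Dvd.dvd.mul_right
    have h2 : (k - i).factorial * k.descFactorial i = k.factorial :=
      Nat.factorial_mul_descFactorial (by omega)
    have h3 : padicValNat 2 k.factorial =
        padicValNat 2 (k - i).factorial + padicValNat 2 (k.descFactorial i) := by
      rw [← h2, padicValNat.mul (Nat.factorial_ne_zero _)]
      rw [Nat.ne_zero_iff_zero_lt]
      exact Nat.descFactorial_pos.2 (by omega)
    have h4 : padicValNat 2 (k - i).factorial + 1 ≤ k - i := by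
      have h5 := Nat.emultiplicity_two_factorial_lt (n := k - i) (by omega)
      rw [← padicValNat_eq_emultiplicity (Nat.factorial_ne_zero _)] at h5
      exact_mod_cast h5
    have h6 : 2 ^ padicValNat 2 (k.descFactorial i) ∣ k.descFactorial i := pow_padicValNat_dvd
    have h7 : (2 : ℤ) ^ padicValNat 2 (k.descFactorial i) ∣ ((k.descFactorial i : ℕ) : ℤ) := by
      exact_mod_cast h6
    have h8 : (2 : ℤ) ^ (padicValNat 2 (k - i).factorial + 1) ∣ 2 ^ (k - i) := pow_dvd_pow _ h4
    have h9 := mul_dvd_mul h7 h8
    rw [← pow_add] at h9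
    rwa [h3, show padicValNat 2 (k - i).factorial + padicValNat 2 (k.descFactorial i) + 1 =
      padicValNat 2 (k.descFactorial i) + (padicValNat 2 (k - i).factorial + 1) by ring]
  have h2 : (2 : ℤ) ^ (padicValNat 2 k.factorial + 1) ∣ (k.factorial : ℤ) * Y := by
    rw [h]
    exact Finset.dvd_sum h1
  have h3 : 2 ^ (padicValNat 2 k.factorial + 1) ∣ k.factorial * Y.natAbs := by
    have := Int.natAbs_dvd_natAbs.2 h2
    rw [Int.natAbs_mul, Int.natAbs_pow] at this
    simpa using this
  have hY' : Y.natAbs ≠ 0 := by simpa using hY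
  have h4 := (padicValNat_dvd_iff_le (p := 2)
    (mul_ne_zero (Nat.factorial_ne_zero k) hY')).1 h3
  rw [padicValNat.mul (Nat.factorial_ne_zero _) hY'] at h4
  have h5 : 1 ≤ padicValNat 2 Y.natAbs := by omega
  have h6 := dvd_of_one_le_padicValNat h5
  omega

/-! ### the insertion element -/

theorem E_add_right' (n : ℕ) (φ c c' : List Bool → ℤ) :
    E (1 : ℤ) n φ (fun w => c w + c' w) = E 1 n φ c + E 1 n φ c' := E_add_right 1 n φ c c'

/-- `X 1 []` -/
theorem E_X_nil (n : ℕ) (φ : List Bool → ℤ) :
    E (1 : ℤ) n φ (X 1 []) = φ (List.replicate n true) := by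
  have h0 : dT 1 (X (1 : ℤ) []) = fun _ => 0 := by
    have e : ∀ w, dT 1 (fun _ : List Bool => (0 : ℤ)) w = 0 := by
      intro w
      have := dT_mul (1 : ℤ) 0 (fun _ => 0) w
      simpa using this
    funext w
    induction w with
    | nil => rfl
    | cons a w ih =>
      cases a
      · rw [dT_false]
        simp only [X, one_mul, zero_add]
        exact ih
      · rw [dT_true]
        simp only [X, mul_zero, zero_add]
        exact e w
  have h1 : yT (X (1 : ℤ) []) = X 1 [] := by
    funext w
    simp [yT, X]
  induction n generalizing φ with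
  | zero => simp [E_zero', X]
  | succ n ih =>
    rw [E_succ, h0, h1, E_zero_right, zero_add, ih]
    rfl

/-- the functional reading the powers `y^i`, `i ≥ 1` -/
def yb (w : List Bool) : ℤ := match w with
  | [] => 0
  | false :: w => X 1 [] w
  | true :: _ => 0

theorem E_yb (n : ℕ) (φ : List Bool → ℤ) :
    E (1 : ℤ) n φ yb = if n = 0 then 0 else φ (List.replicate n true) := by
  have h0 : dT 1 yb = fun _ => 0 := by
    have e : ∀ w, dT 1 (fun _ : List Bool => (0 : ℤ)) w = 0 := by
      intro w
      have := dT_mul (1 : ℤ) 0 (fun _ => 0) w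
      simpa using this
    have e2 : ∀ w, dT 1 (X (1 : ℤ) []) w = 0 := by
      intro w
      induction w with
      | nil => rfl
      | cons a w ih =>
        cases a
        · rw [dT_false]
          simp only [X, one_mul, zero_add]
          exact ih
        · rw [dT_true]
          simp only [X, mul_zero, zero_add]
          exact e w
    funext w
    cases w with
    | nil => rfl
    | cons a w =>
      cases a
      · rw [dT_false]
        show yb (true :: w) + dT 1 (X 1 []) w = 0
        rw [e2]
        rfl
      · rw [dT_true]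
        show 1 * yb (true :: w) + dT 1 (fun _ => 0) w = 0
        rw [e]
        rfl
  have h1 : yT yb = X 1 [] := rfl
  cases n with
  | zero => simp [E_zero', yb]
  | succ n =>
    rw [E_succ, h0, h1, E_zero_right, zero_add, E_X_nil, if_neg (by omega)]
    rfl

theorem E_X_one (j : ℕ) (φ : List Bool → ℤ) : E (1 : ℤ) j φ (X 0 [1]) =
    ∑ a ∈ range (j - 1), φ (List.replicate (a + 1) false ++ List.replicate (j - 1 - a) true) := by
  have h0 : dT 1 (X (0 : ℤ) [1]) = fun w => X 0 [1] w + yb w := by
    have e : ∀ w, dT 1 (fun _ : List Bool => (0 : ℤ)) w = 0 := by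
      intro w
      have := dT_mul (1 : ℤ) 0 (fun _ => 0) w
      simpa using this
    have e2 : ∀ w, dT 1 (X (1 : ℤ) []) w = 0 := by
      intro w
      induction w with
      | nil => rfl
      | cons a w ih =>
        cases a
        · rw [dT_false]
          simp only [X, one_mul, zero_add]
          exact ih
        · rw [dT_true]
          simp only [X, mul_zero, zero_add]
          exact e w
    funext w
    cases w with
    | nil => rfl
    | cons a w =>
      cases a
      · rw [dT_false]
        have e3 : (fun v => X (0 : ℤ) [1] (false :: v)) = fun _ => 0 := by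
          funext v
          simp [X]
        rw [e3, e]
        simp [X, yb]
      · rw [dT_true]
        have e3 : (fun v => X (0 : ℤ) [1] (true :: v)) = X 1 [] := by
          funext v
          simp [X]
        rw [e3, e2]
        simp [yb]
  have h1 : yT (X (0 : ℤ) [1]) = fun _ => 0 := by
    funext w
    simp [yT, X]
  induction j generalizing φ with
  | zero => simp [E_zero', X]
  | succ j ih =>
    rw [E_succ, h0, h1, E_zero_right, add_zero, E_add_right', ih, E_yb]
    cases j with
    | zero => simp
    | succ j =>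
      rw [if_neg (by omega), show j + 1 + 1 - 1 = j + 1 by omega, sum_range_succ']
      congr 1
      rw [show j + 1 - 1 = j by omega]
      refine Finset.sum_congr rfl fun a _ => ?_
      rw [show j + 1 - (a + 1) = j - a by omega]
      rfl

end MP154526.Lin.InsB
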