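import Pool.Agent.Lib.MP_154526_nt.Top.Stf
import Pool.Agent.Lib.MP_154526_nt.Top.FrontDefs

/-!
# The literal linear span: plan, definitions and exact statements of all modules

`R_n` = `ℚ`-linear span of the regularised double shuffle elements of weight `n`
(`Submodule.span ℚ (RDS n)`, not the ideal).  Goal: `dim_ℚ (ℌ⁰_n / R_n) ≤ D_n`.

Words of `ℌ¹` are `bw l`, `l` = list of the `a_i = k_i - 1`.  A functional on `ℌ¹` of weight `n` is
a function `ψ : List Bool → M`, only its values on words of length `n` ending in `y` matter.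
-/

set_option autoImplicit false

namespace MP154526.Lin

open Finset MP154526.Top MP154526.Top.Front MP154526.Top.Pass2

/-! ### definitions -/

/-- index lists of the words of `ℌ⁰`: empty or first exponent at least one -/
def Ad (v : List ℕ) : Prop := ∀ a ∈ v.head?, 1 ≤ a

/-- the word `(xy)^m` -/
def zp : ℕ → List Bool
  | 0 => []
  | m + 1 => false :: true :: zp m

section
variable {M : Type} [AddCommMonoid M]

/-- the functional `w ↦ ψ(c ⧢ w)` -/
def dot (c : List Bool) (ψ : List Bool → M) : List Bool → M := fun w => shs ψ c w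

/-- the functional `w ↦ ψ(A ⧢ w)`, `A` a multiset of words -/
def act (A : Multiset (List Bool)) (ψ : List Bool → M) : List Bool → M :=
  fun w => (A.map fun u => shs ψ u w).sum

/-- `ψ` is a functional on `ℌ⁰_n` killing all regularised double shuffle elements, extended to
`ℌ¹_n` by `reg` -/
structure RR (n : ℕ) (ψ : List Bool → M) : Prop where
  reg : ∀ (j : ℕ) (w : List Bool), 1 ≤ j → EndY w → j + w.length = n →
    shs ψ (List.replicate j true) w = 0
  rds : ∀ u v : List ℕ, Ad v → wt u + wt v = n →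
    shs ψ (bw u) (bw v) = stf (fun l => ψ (bw l)) u v

end

/-- the multiset of the words of `z_2^{⧢ m} / m!` (`x (y ⧢ ·)` iterated) -/
def zV : ℕ → Multiset (List Bool)
  | 0 => {[]}
  | m + 1 => (zV m).bind fun u => shs (fun w => ({false :: w} : Multiset (List Bool))) [true] u

/-- sum of `f` over the index lists of weight `2 m` with odd exponents, that is over the words
`z_{2a_1} ⋯ z_{2a_r}` of weight `2 m` -/
def hev {M : Type} [AddCommMonoid M] : ℕ → (List ℕ → M) → M
  | 0, f => f []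
  | m + 1, f => ∑ a : Fin (m + 1), hev (m - a) (fun l => f ((2 * a.1 + 1) :: l))

/-- index lists of words without `xx`; `l.sum` is the number of `x` -/
def NX (l : List ℕ) : Prop := ∀ a ∈ l, a ≤ 1

/-- `g` vanishes on the words in `z_1, z_2` with at least `r` letters `z_2` -/
def Bd (n : ℕ) (g : List Bool → ZMod 2) (r : ℕ) : Prop :=
  ∀ l, NX l → r ≤ l.sum → wt l = n → g (bw l) = 0

/-- the functionals `A.f`, `A` a combination of words of `ℌ¹`, `f` of weight `N` -/
def KK (N : ℕ) (f : List Bool → ZMod 2) (m : ℕ) (g : List Bool → ZMod 2) : Prop :=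
  m ≤ N ∧ ∃ A : Multiset (List Bool), (∀ u ∈ A, EndY u ∧ u.length + m = N) ∧
    ∀ w, EndY w → w.length = m → g w = act A f w

/-- `h` evaluated at `w'` if `w = y^p w'`, otherwise `0` -/
def strip {M : Type} [Zero M] : ℕ → (List Bool → M) → List Bool → M
  | 0, h, w => h w
  | _ + 1, _, [] => 0
  | _ + 1, _, false :: _ => 0
  | p + 1, h, true :: w => strip p h w

/-- a class of functionals over `F_2`: the axioms used in the `F_2` part -/
structure Cls (F : ℕ → (List Bool → ZMod 2) → Prop) : Prop where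
  rr : ∀ n f, F n f → RR n f
  zz : ∀ n f, F n f → ∀ m, 2 * m ≤ n → F (n - 2 * m) (dot (zp m) f)
  ins : ∀ n f, F n f → ∀ k, 1 ≤ k → ∃ κ : ℕ → ZMod 2, κ k = 1 ∧
    ∀ (R : Type) [CommRing R] [Algebra (ZMod 2) R] (l b : R) (ρ : List R),
      shs (fun ρ' => E l n (castB R f) (X b ρ')) (List.replicate k l) ρ =
        ∑ m ∈ (range (n / 2 + 1)).filter (k ≤ ·), algebraMap (ZMod 2) R (κ m) *
          l ^ (2 * (m - k)) * E l (n - 2 * m) (castB R (dot (zp m) f)) (X b ρ)

/-- the class: reductions modulo 2 of integral functionals killing all relations -/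
def FF (n : ℕ) (f : List Bool → ZMod 2) : Prop :=
  ∃ ψ : List Bool → ℤ, RR n ψ ∧ f = fun w => (ψ w : ZMod 2)

/-! ### the integral part -/

/-- T2: `z_2 ⧢ a ⧢ b - z_2 ⧢ (a * b) ∈ R` for `a, b ∈ ℌ⁰` -/
def SpecT2 : Prop :=
  ∀ (n : ℕ) (ψ : List Bool → ℚ), RR n ψ → ∀ u v : List ℕ, Ad u → Ad v → 2 + wt u + wt v = n →
    shs (dot [false, true] ψ) (bw u) (bw v) = stf (fun l => dot [false, true] ψ (bw l)) u v

/-- VK1: `(m+1) z_2^{⧢ (m+1)}/(m+1)! = z_2 ⧢ z_2^{⧢ m}/m!` -/
def SpecVK1 : Prop :=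
  ∀ (M : Type) [AddCommMonoid M] (m : ℕ) (ψ : List Bool → M) (w : List Bool),
    (m + 1) • act (zV (m + 1)) ψ w = dot [false, true] (act (zV m) ψ) w

/-- VK2: `z_2^{⧢ m}/m! = (xy)^m` modulo `2` -/
def SpecVK2 : Prop :=
  ∀ (m : ℕ) (f : List Bool → ZMod 2) (w : List Bool), act (zV m) f w = dot (zp m) f w

/-- CLO (from T2, VK1): the class is closed under `z_2^{⧢ m}/m!` -/
def SpecClo : Prop :=
  ∀ (n m : ℕ) (ψ : List Bool → ℤ), RR n ψ → 2 * m ≤ n → RR (n - 2 * m) (act (zV m) ψ)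

/-- SW: `w'_i . ψ = ψ(h_{i/2} * ·)`, `w'_i = -∑_{a+b=i} (-1)^b x^a y^b` -/
def SpecW : Prop :=
  ∀ (n : ℕ) (ψ : List Bool → ℤ), RR n ψ → ∀ (i : ℕ) (v : List ℕ), 1 ≤ i → Ad v →
    i + wt v = n →
    ∑ a ∈ range (i - 1), (-1) ^ (i - a) *
        shs ψ (List.replicate (a + 1) false ++ List.replicate (i - 1 - a) true) (bw v) =
      if i % 2 = 0 then hev (i / 2) (fun u => stf (fun l => ψ (bw l)) u v) else 0

/-- INSB (from VK1, VK2, CLO, SW): the divided powers of the insertion element -/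
def SpecInsB : Prop :=
  ∀ k, 1 ≤ k → ∃ κ : ℕ → ℤ, κ k = 1 ∧ (∀ m, m < k → κ m = 0) ∧
    ∀ (n : ℕ) (ψ : List Bool → ℤ), RR n ψ → ∀ (j : ℕ) (v : List Bool), EndY v →
      j + v.length = n →
      (2 : ℤ) ∣ E (1 : ℤ) j (fun u => shs ψ u v) (X 0 (List.replicate k 1)) -
        if j % 2 = 0 then κ (j / 2) * act (zV (j / 2)) ψ v else 0

/-- INSA (from INSB, VK2, CLO): the class `FF` satisfies the axioms -/
def SpecCls : Prop := Cls FF

open MP154526.Bound in
/-- EXT: an integral functional on `ℌ⁰_n` killing all regularised double shuffle elements -/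
def SpecExt : Prop :=
  ∀ (n : ℕ) (φ : List Bool → ℤ), (∀ r ∈ RDS n, lin φ r = 0) → RR n (ext φ)

/-! ### the part over `F_2` -/

/-- ZSH: words without `xx` are closed under the shuffle product modulo 2 -/
def SpecZsh : Prop :=
  ∀ (f : List Bool → ZMod 2) (c v : List ℕ), NX c → NX v →
    (∀ l, NX l → wt l = wt c + wt v → l.sum = c.sum + v.sum → f (bw l) = 0) →
    shs f (bw c) (bw v) = 0

/-- TRI: `ℌ¹` is spanned by the `y^i * b`, `b ∈ ℌ⁰` -/
def SpecTri : Prop :=
  ∀ (M : Type) [AddCommGroup M] (N : ℕ) (L : List ℕ → M),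
    (∀ (i : ℕ) (b : List ℕ), Ad b → i + wt b = N → stf L (List.replicate i 0) b = 0) →
    ∀ l, wt l = N → L l = 0

/-- EQ0, general form -/
def SpecEQ0 : Prop :=
  ∀ (N : ℕ) (f : List Bool → ZMod 2), RR N f → ∀ (m : ℕ) (g : List Bool → ZMod 2), KK N f m g →
    ∀ j, 1 ≤ j → j ≤ m → ∃ h : ℕ → List Bool → ZMod 2,
      (∀ p, j + p ≤ m → KK N f (m - j - p) (h p)) ∧ (∀ l, j + wt l = m → h 0 (bw l) = 0) ∧
      ∀ l, j + wt l = m → stf (fun l => g (bw l)) (List.replicate j 0) l =
        ∑ p ∈ range (m - j + 1), strip p (h p) (bw l)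

/-- EQ1, for the class itself: `f(y^j * w) = ∑_{w = y^p w'} f((y^j * y^p) ⧢ w')` -/
def SpecEQ1 : Prop :=
  ∀ (n : ℕ) (f : List Bool → ZMod 2), RR n f → ∀ (j : ℕ) (l : List ℕ), 1 ≤ j →
    j + wt l = n →
    stf (fun l => f (bw l)) (List.replicate j 0) l = ∑ p ∈ range (n - j + 1), strip p (fun w' =>
      stf (fun u => shs f (bw u) w') (List.replicate j 0) (List.replicate p 0)) (bw l)

/-- EQE: the equation `F = E + …` for any functional, given its `y^j * ·` part -/
def SpecEQE : Prop :=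
  ∀ (m : ℕ) (g : List Bool → ZMod 2) (h : ℕ → ℕ → List Bool → ZMod 2),
    (∀ j l, 1 ≤ j → j + wt l = m → stf (fun l => g (bw l)) (List.replicate j 0) l =
      ∑ p ∈ range (m - j + 1), strip p (h j p) (bw l)) →
    ∀ (R : Type) [CommRing R] [Algebra (ZMod 2) R] (τ b : R) (ρ : List R),
      F τ m (fun l => castB R g (bw l)) (X b ρ) = E τ m (castB R g) (X b ρ) +
        ∑ j ∈ range m, ∑ p ∈ range (m - j), τ ^ (j + 1) * b ^ p *
          E τ (m - (j + 1) - p) (castB R (h (j + 1) p)) (X b ρ)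

/-- TI: regularised functionals give translation invariant families -/
def SpecTI : Prop :=
  ∀ (n : ℕ) (g : List Bool → ZMod 2),
    (∀ (j : ℕ) (w : List Bool), 1 ≤ j → EndY w → j + w.length = n →
      shs g (List.replicate j true) w = 0) →
    ∀ (R : Type) [CommRing R] [Algebra (ZMod 2) R] (τ b c : R) (ρ : List R),
      E τ n (castB R g) (X b ρ) = E τ n (castB R g) (X c ρ)

/-- LOW1: the degree in `a` is at most the number of letters `z_2` -/
def SpecLow1 : Prop :=
  ∀ (N : ℕ) (f : List Bool → ZMod 2), RR N f → ∀ (m : ℕ) (g : List Bool → ZMod 2), KK N f m g →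
    ∀ r, Bd m g r → ∀ (R : Type) [CommRing R] [Algebra (ZMod 2) R] (τ b : R) (ρ : List R),
      r ≤ ρ.length → E τ m (castB R g) (X b ρ) = 0

/-- LOW2: at `τ = 0` the part in words without `xx` is determined -/
def SpecLow2 : Prop :=
  ∀ (N : ℕ) (f : List Bool → ZMod 2), RR N f → ∀ (m : ℕ) (g : List Bool → ZMod 2), KK N f m g →
    (∀ (R : Type) [CommRing R] [Algebra (ZMod 2) R] (ρ : List R),
      E (0 : R) m (castB R g) (X 0 ρ) = 0) → Bd m g 0

/-- INJ: a functional of the class vanishing on all words without `xx` is zero -/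
def SpecInj : Prop :=
  ∀ (N : ℕ) (f : List Bool → ZMod 2), RR N f → ∀ (m : ℕ) (g : List Bool → ZMod 2), KK N f m g →
    Bd m g 0 → ∀ w, EndY w → w.length = m → g w = 0

/-- TOP: the top part is supported on the words in `z_2, z_2 z_1` -/
def SpecTop : Prop :=
  ∀ F : ℕ → (List Bool → ZMod 2) → Prop, Cls F → ∀ (n : ℕ) (f : List Bool → ZMod 2), F n f →
    ∀ r, Bd n f (r + 1) → ∀ l, PR n r f l ≠ 0 → ∃ l', l = 0 :: l' ∧ ∀ a ∈ l', a ≤ 1

/-- F2 (from TOP, INJ) -/
def SpecF2 : Prop :=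
  ∀ F : ℕ → (List Bool → ZMod 2) → Prop, Cls F → ∀ (n : ℕ) (f : List Bool → ZMod 2), F n f →
    (∀ w, (expand w).length = n → f (expand w) = 0) → ∀ w, EndY w → w.length = n → f w = 0

open MP154526.Bound in
/-- SPAN (from F2, Cls FF, EXT) -/
def SpecSpan : Prop :=
  ∀ n, H0 n ≤ Submodule.span ℚ (RDS n) ⊔
    Submodule.span ℚ {z | ∃ w, (expand w).length = n ∧ z = wd (expand w)}

open MP154526.Bound in
/-- ANSWER (from SPAN) -/
def SpecAnswer : Prop :=
  ∀ p, Module.finrank ℚ (H0 p ⧸ (Submodule.span ℚ (RDS p)).comap (H0 p).subtype) ≤ D p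

end MP154526.Lin
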